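import Pool.Agent.Lib.MP_8a5648_co.Mg.G002

section

/-! # Locke's conjecture, part 2: `EL n` follows from the top weight -/

namespace Pool.Agent.Locke

lemma top_pow : ∀ m : ℕ, 3 ≤ m → 4 * m < 2 ^ m + 6 := by
  intro m hm
  induction m, hm using Nat.le_induction with
  | base => norm_num
  | succ k hk ih =>
    rw [pow_succ]
    omega

lemma top_W_single {n : ℕ} (p : Bool) (u : V n) :
    W p (fun x => if x = u then 1 else 0) = if par u = p then 1 else 0 := by
  unfold W
  rw [Finset.sum_ite_eq']
  simp

lemma top_W_addEdge {n : ℕ} (p : Bool) (ω : V n → ℕ) (u v : V n) (h : par v = !par u) :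
    W p (addEdge ω u v) = W p ω + 1 := by
  have e : addEdge ω u v = fun x => (fun x => ω x + (if x = u then 1 else 0)) x +
      (fun x => if x = v then 1 else 0) x := rfl
  rw [e, W_add, W_add, top_W_single, top_W_single, h]
  cases p <;> cases par u <;> simp

lemma top_flip_card {n : ℕ} (ω : V (n + 1) → ℕ) :
    (Finset.univ.filter (fun x : V (n + 1) => par x = true ∧ 0 < ω (flip x 0))).card
      ≤ W false ω := by
  refine le_trans ?_ (card_pos_le_W false ω)
  refine Finset.card_le_card_of_injOn (fun x => flip x 0) ?_ ?_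
  · intro x hx
    have hx' := (Finset.mem_filter.1 hx).2
    refine Finset.mem_coe.2 (Finset.mem_filter.2 ⟨Finset.mem_univ _, ?_, hx'.2⟩)
    rw [par_flip, hx'.1]
    rfl
  · intro x _ y _ hxy
    have h1 : flip (flip x 0) 0 = flip (flip y 0) 0 := congrArg (fun z => flip z 0) hxy
    rwa [flip_flip, flip_flip] at h1

theorem EL_of_top {n : ℕ} (hn : 4 ≤ n)
    (h : ∀ ω : V n → ℕ, (∀ x, ω x ≤ 2) → W true ω = W false ω → W true ω + 4 = 2 * n → Good ω) :
    EL n := by
  obtain ⟨m, rfl⟩ : ∃ m, n = m + 1 := ⟨n - 1, by omega⟩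
  have hm : 3 ≤ m := by omega
  have hpow := top_pow m hm
  have main : ∀ k : ℕ, ∀ ω : V (m + 1) → ℕ, (∀ x, ω x ≤ 2) → W true ω = W false ω →
      W true ω + 4 + k = 2 * (m + 1) → Good ω := by
    intro k
    induction k with
    | zero =>
      intro ω h2 hb hk
      exact h ω h2 hb (by omega)
    | succ k ih =>
      intro ω h2 hb hk
      -- a pair of adjacent zero vertices
      have hz := zeros_card true ω
      have hP := card_pos_le_W true ω
      have hF := top_flip_card ω
      have hc := card_par (n := m) true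
      obtain ⟨u, hu1, hu2, hu3⟩ : ∃ u : V (m + 1), par u = true ∧ ω u = 0 ∧ ω (flip u 0) = 0 := by
        by_contra hne
        push Not at hne
        have hsub : Finset.univ.filter (fun x : V (m + 1) => par x = true) ⊆
            Finset.univ.filter (fun x : V (m + 1) => par x = true ∧ 0 < ω x) ∪
            Finset.univ.filter (fun x : V (m + 1) => par x = true ∧ 0 < ω (flip x 0)) := by
          intro x hx
          have hx' := (Finset.mem_filter.1 hx).2
          rw [Finset.mem_union, Finset.mem_filter, Finset.mem_filter]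
          by_cases h0 : ω x = 0
          · exact Or.inr ⟨Finset.mem_univ _, hx', Nat.pos_of_ne_zero (hne x hx' h0)⟩
          · exact Or.inl ⟨Finset.mem_univ _, hx', Nat.pos_of_ne_zero h0⟩
        have hcard := (Finset.card_le_card hsub).trans (Finset.card_union_le _ _)
        omega
      -- a third vertex
      obtain ⟨w, hw1, hw2⟩ : ∃ w : V (m + 1), (par w = true ∧ ω w = 0) ∧ w ≠ u := by
        by_contra hne
        push Not at hne
        have hsub : Finset.univ.filter (fun x : V (m + 1) => par x = true ∧ ω x = 0) ⊆ {u} := by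
          intro x hx
          rw [Finset.mem_singleton]
          exact hne x (Finset.mem_filter.1 hx).2
        have hcard := Finset.card_le_card hsub
        rw [Finset.card_singleton] at hcard
        omega
      have hwv : w ≠ flip u 0 := by
        intro e
        have h1 := hw1.1
        rw [e, par_flip, hu1] at h1
        exact absurd h1 (by decide)
      have hpar : par (flip u 0) = !par u := par_flip u 0
      refine good_of_addEdge (u := u) (v := flip u 0) (w := w) (adj_iff.2 ⟨0, rfl⟩)
        (by rw [hu2, hu3]; norm_num) hw2 hwv (by rw [hw1.2]; norm_num) ?_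
      refine ih (addEdge ω u (flip u 0)) ?_ ?_ ?_
      · intro x
        by_cases hxu : x = u
        · rw [hxu, AbsorbAux.addEdge_left ω (flip_ne u 0).symm, hu2]
          norm_num
        · by_cases hxv : x = flip u 0
          · rw [hxv, AbsorbAux.addEdge_right ω (flip_ne u 0).symm, hu3]
            norm_num
          · rw [AbsorbAux.addEdge_other ω hxu hxv]
            exact h2 x
      · rw [top_W_addEdge _ _ _ _ hpar, top_W_addEdge _ _ _ _ hpar, hb]
      · rw [top_W_addEdge _ _ _ _ hpar]
        omega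
  intro ω h2 hb hle
  exact main (2 * (m + 1) - 4 - W true ω) ω h2 hb (by omega)

end Pool.Agent.Locke
end

section

/-! # Locke's conjecture, part 2: the star lemmas -/

namespace Pool.Agent.Locke

variable {m : ℕ}

/-- in a star with a centre of weight 2 there are no conflicts between the halves -/
lemma starA_noconf {p : Bool} {c : V (m + 1)} {ω : V (m + 1) → ℕ} (hS : Star p c ω)
    (hc2 : ω c = 2) (i : Fin (m + 1)) :
    ∀ x : V m, par x = !(xor (c i) p) → half i (!c i) ω x ≠ 0 → half i (c i) ω x ≠ 0 := by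
  intro x hx h0
  have hpar : par (ins i (!c i) x) = p := by
    rw [par_ins, hx]
    cases c i <;> cases p <;> rfl
  obtain ⟨j, hj⟩ := hS.2 _ hpar h0
  have hji : i = j := by
    by_contra hne
    have h1 := congrFun hj i
    rw [ins_apply_self, cube_flip_of_ne c hne] at h1
    revert h1
    cases c i <;> simp
  subst hji
  have hx' : ins i (c i) x = c := by
    funext k
    by_cases hk : k = i
    · rw [hk, ins_apply_self]
    · obtain ⟨k', rfl⟩ := Fin.exists_succAbove_eq hk
      have h1 := congrFun hj (i.succAbove k')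
      rw [ins_succAbove, cube_flip_of_ne c hk] at h1
      rw [ins_succAbove, h1]
  show ω (ins i (c i) x) ≠ 0
  rw [hx', hc2]
  omega

theorem SF_step (hm : 4 ≤ m) (hE : EL m) (h : SF m) : SF (m + 1) := by
  intro p c ω hω hS hc2 he ho
  have hN2 := N2 (p := !p) (c := c) hS.1 ω
  have hdir : ∃ i, W (!p) ω + 4 ≤ S (!p) ω i (!c i) + 2 * m := by
    by_contra hcon
    push Not at hcon
    have h1 : ∀ i, S (!p) ω i (!c i) ≤ W (!p) ω + 3 - 2 * m := by
      intro i
      have := hcon i
      omega
    have h2 : ∑ i, S (!p) ω i (!c i) ≤ (m + 1) * (W (!p) ω + 3 - 2 * m) := by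
      calc ∑ i, S (!p) ω i (!c i) ≤ ∑ _i : Fin (m + 1), (W (!p) ω + 3 - 2 * m) :=
            Finset.sum_le_sum (fun i _ => h1 i)
        _ = (m + 1) * (W (!p) ω + 3 - 2 * m) := by simp
    have h3 := hcon 0
    have h4 : W (!p) ω + 3 - 2 * m ≤ 1 := by omega
    have h5 : (m + 1) * (W (!p) ω + 3 - 2 * m) ≤ (m + 1) * 1 := Nat.mul_le_mul_left _ h4
    rw [hc2] at hN2
    have h6 : 2 * m ≤ W (!p) ω + 3 := by omega
    rcases Nat.eq_or_lt_of_le h6 with h7 | h7
    · have h8 : W (!p) ω + 3 - 2 * m = 0 := by omega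
      rw [h8, Nat.mul_zero] at h2
      omega
    · omega
  obtain ⟨i, hi⟩ := hdir
  have hSi : S p ω i (!c i) = ω (flip c i) := star_S hS i
  have hωi := hω (flip c i)
  have ha1 := S_add p (c i) ω i
  have ha2 := S_add (!p) (c i) ω i
  have hcS : ω c ≤ S (!p) ω i (c i) := by
    have := single_le_S ω c i
    rwa [hS.1] at this
  have hC : Comp (xor (c i) p) (half i (c i) ω) := by
    refine h (xor (c i) p) (fun j => c (i.succAbove j)) (half i (c i) ω) (half_le hω i (c i))
      (star_half hS i) ?_ ?_ ?_
    · rw [half_centre, hc2]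
    · rw [W_half_heavy]
      omega
    · rw [W_half_light]
      omega
  have hnc := starA_noconf hS hc2 i
  by_cases hlt : S p ω i (!c i) < S (!p) ω i (!c i)
  · exact comp_R1 hω i (c i) hE hC (by omega) hlt (by omega) (Or.inr hnc)
  · exact comp_R2 hω i (c i) hE hC (by omega) (by omega) (Or.inr ⟨by omega, hnc⟩)

/-- the directions of weight 2 of a star with `W + 2 = 2n` -/
lemma starA_dirs {n : ℕ} {p : Bool} {c : V n} {ω : V n → ℕ} (hω : ∀ x, ω x ≤ 2)
    (hS : Star p c ω) (hW : W p ω + 2 = 2 * n) :
    (Finset.univ.filter (fun i => ω (flip c i) ≠ 2)).card ≤ 2 ∧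
      (Finset.univ.filter (fun i => ω (flip c i) ≠ 2)).Nonempty := by
  have h1 := star_W hS
  have h2 : ∑ i : Fin n, (2 - ω (flip c i)) + ∑ i : Fin n, ω (flip c i) = 2 * n := by
    rw [← Finset.sum_add_distrib]
    have : ∀ i ∈ (Finset.univ : Finset (Fin n)), (2 - ω (flip c i)) + ω (flip c i) = 2 := by
      intro i _
      have := hω (flip c i)
      omega
    rw [Finset.sum_congr rfl this]
    simp [mul_comm]
  have h3 : ∑ i : Fin n, (2 - ω (flip c i)) = 2 := by omega
  constructor
  · rw [Finset.card_filter]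
    rw [← h3]
    refine Finset.sum_le_sum (fun i _ => ?_)
    have := hω (flip c i)
    split_ifs with h
    · omega
    · omega
  · by_contra hcon
    rw [Finset.not_nonempty_iff_eq_empty, Finset.filter_eq_empty_iff] at hcon
    have h4 : ∑ i : Fin n, (2 - ω (flip c i)) = 0 := by
      refine Finset.sum_eq_zero (fun i hi => ?_)
      have := hcon hi
      push Not at this
      omega
    omega

/-- there is a direction of weight 2 -/
lemma starA_exists_two {n : ℕ} (hn : 3 ≤ n) {p : Bool} {c : V n} {ω : V n → ℕ}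
    (hω : ∀ x, ω x ≤ 2) (hS : Star p c ω) (hW : W p ω + 2 = 2 * n) :
    ∃ i, ω (flip c i) = 2 := by
  by_contra hcon
  push Not at hcon
  have h1 := (starA_dirs hω hS hW).1
  rw [Finset.filter_true_of_mem (fun i _ => hcon i), Finset.card_univ, Fintype.card_fin] at h1
  omega

/-- the threshold inequality for the directions of weight 2 -/
lemma starA_N3 {n : ℕ} {p : Bool} {c c' : V n} {ω : V n → ℕ}
    (hω : ∀ x, ω x ≤ 2) (hS : Star p c ω) (hW : W p ω + 2 = 2 * n)
    (h : ∀ i, ω (flip c i) = 2 → S (!p) ω i (!c' i) = 0) : W (!p) ω ≤ 4 := by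
  obtain ⟨h1, h2⟩ := starA_dirs hω hS hW
  have h3 := N3 (!p) c' ω hω _ h2
  have h4 : ∑ i ∈ (Finset.univ.filter (fun i => ω (flip c i) ≠ 2))ᶜ, S (!p) ω i (!c' i) = 0 := by
    refine Finset.sum_eq_zero (fun i hi => ?_)
    rw [Finset.mem_compl, Finset.mem_filter] at hi
    push Not at hi
    exact h i (hi (Finset.mem_univ i))
  have h5 : 2 ^ (Finset.univ.filter (fun i => ω (flip c i) ≠ 2)).card ≤ 2 ^ 2 :=
    Nat.pow_le_pow_right (by omega) h1
  omega

/-- the step for a star and a direction of weight 2 -/
lemma starA_step {p : Bool} {c : V (m + 1)} {ω : V (m + 1) → ℕ} (hω : ∀ x, ω x ≤ 2)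
    (hS : Star p c ω) (hW : W p ω = 2 * m) (hE : EL m) (hm : 4 ≤ m)
    (i : Fin (m + 1)) (hi : ω (flip c i) = 2)
    (hC : Comp (xor (c i) p) (half i (c i) ω)) (h4 : S (!p) ω i (!c i) + 4 ≤ 2 * m)
    (ho : 2 + W (!p) ω ≤ 2 * m) : Comp p ω := by
  have hSi : S p ω i (!c i) = ω (flip c i) := star_S hS i
  have ha1 := S_add p (c i) ω i
  have ha2 := S_add (!p) (c i) ω i
  by_cases hlt : S p ω i (!c i) < S (!p) ω i (!c i)
  · exact comp_R1 hω i (c i) hE hC (by omega) hlt h4 (Or.inl (by omega))
  · refine comp_R2 hω i (c i) hE hC (by omega) (by omega) (Or.inl ?_)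
    have h2 : 2 * m + 6 < 2 ^ m := by
      clear * - hm
      induction m, hm using Nat.le_induction with
      | base => norm_num
      | succ k hk ih =>
        rw [pow_succ]
        omega
    omega

/-- from dimension 4 to dimension 5; `h4` is `B2` in dimension 4 without property P -/
theorem ST2_five (hE : EL 4)
    (h4 : ∀ (p : Bool) (ω : V 4 → ℕ), (∀ x, ω x ≤ 2) → W p ω = 6 → W (!p) ω ≤ 4 → Comp p ω) :
    ST2 5 5 := by
  intro p c ω hω hS hW ho
  have hdir : ∃ i, ω (flip c i) = 2 ∧ W (!p) ω ≤ 4 + S (!p) ω i (!c i) ∧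
      S (!p) ω i (!c i) ≤ 4 := by
    by_contra hcon
    push Not at hcon
    have h1 : ∀ i, ω (flip c i) = 2 → S (!p) ω i (!c i) = 0 ∨ S (!p) ω i (c i) = 0 := by
      intro i hi
      have h2 := hcon i hi
      have ha2 := S_add (!p) (c i) ω i
      by_contra hne
      push Not at hne
      have := h2 (by omega)
      omega
    have h5 : W (!p) ω ≤ 4 := by
      refine starA_N3 (c' := fun i => if S (!p) ω i (!c i) = 0 then c i else !c i) hω hS hW ?_
      intro i hi
      by_cases h0 : S (!p) ω i (!c i) = 0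
      · simp only [h0, if_true]
      · simp only [h0, if_false, Bool.not_not]
        exact (h1 i hi).resolve_left h0
    obtain ⟨i, hi⟩ := starA_exists_two (by omega) hω hS hW
    have ha2 := S_add (!p) (c i) ω i
    have := hcon i hi (by omega)
    omega
  obtain ⟨i, hi, hi1, hi2⟩ := hdir
  have hSi : S p ω i (!c i) = ω (flip c i) := star_S hS i
  have ha1 := S_add p (c i) ω i
  have ha2 := S_add (!p) (c i) ω i
  refine starA_step hω hS (by omega) hE (by omega) i hi ?_ (by omega) (by omega)
  refine h4 _ _ (half_le hω i (c i)) ?_ ?_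
  · rw [W_half_heavy]
    omega
  · rw [W_half_light]
    omega

theorem ST2_step (hm : 5 ≤ m) (hE : EL m) (h : ST2 m m) : ST2 (m + 1) (m + 1) := by
  intro p c ω hω hS hW ho
  have hdir : ∃ i, ω (flip c i) = 2 ∧ W (!p) ω ≤ m + S (!p) ω i (!c i) := by
    by_contra hcon
    push Not at hcon
    have h5 : W (!p) ω ≤ 4 := by
      refine starA_N3 (c' := c) hω hS hW ?_
      intro i hi
      have := hcon i hi
      omega
    obtain ⟨i, hi⟩ := starA_exists_two (by omega) hω hS hW
    have := hcon i hi
    omega
  obtain ⟨i, hi, hi1⟩ := hdir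
  have hSi : S p ω i (!c i) = ω (flip c i) := star_S hS i
  have ha1 := S_add p (c i) ω i
  have ha2 := S_add (!p) (c i) ω i
  refine starA_step hω hS (by omega) hE (by omega) i hi ?_ (by omega) (by omega)
  refine h _ _ _ (half_le hω i (c i)) (star_half hS i) ?_ ?_
  · rw [W_half_heavy]
    omega
  · rw [W_half_light]
    omega

end Pool.Agent.Locke
end

section

/-! # Locke's conjecture, base facts: encoding vertices and weights by natural numbers -/

namespace Pool.Agent.Locke

variable {n : ℕ}

/-- index of a vertex -/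
def idx (x : V n) : ℕ := Nat.ofBits x

/-- vertex of an index -/
def vtx (n k : ℕ) : V n := fun i => k.testBit i

/-- `k`-th ternary digit -/
def dg (c k : ℕ) : ℕ := c / 3 ^ k % 3

/-- the weight encoded by `c` -/
def wt (n c : ℕ) : V n → ℕ := fun x => dg c (idx x)

/-- the cyclically consecutive pairs of a list -/
def steps : List ℕ → List (ℕ × ℕ)
  | [] => []
  | a :: l => (a :: l).zip (l ++ [a])

def inP (P : List (ℕ × ℕ)) (e : ℕ × ℕ) : Bool :=
  P.any fun q => (q.1 == e.1 && q.2 == e.2) || (q.1 == e.2 && q.2 == e.1)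

def isAdj (n a b : ℕ) : Bool := (List.range n).any fun i => (a ^^^ b) == 2 ^ i

def nbr (E : List (ℕ × ℕ)) (k : ℕ) : List ℕ :=
  E.filterMap fun e => if e.1 == k then some e.2 else if e.2 == k then some e.1 else none

/-- `L` is the cyclic order of a cycle through all vertices of weight at most 1 which uses all the
pairs of `P` -/
def chk1 (n c : ℕ) (P : List (ℕ × ℕ)) (L : List ℕ) : Bool :=
  let E := (steps L).filter fun e => !inP P e
  (L.all fun k => Nat.blt k (2 ^ n)) &&
  (E.all fun e => isAdj n e.1 e.2) &&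
  (List.range (2 ^ n)).all fun k =>
    (match nbr E k with
      | [] => dg c k == 2
      | [_] => dg c k == 1
      | [a, b] => dg c k == 0 && a != b
      | _ => false) && (dg c k == 2 || L.contains k)

/-- all ways to pair up the elements of a list -/
def pairings : ℕ → List ℕ → List (List (ℕ × ℕ))
  | 0, _ => [[]]
  | _, [] => [[]]
  | f + 1, a :: l => l.flatMap fun b => (pairings f (l.erase b)).map fun P => (a, b) :: P

def chkD (n c : ℕ) (certs : List (List ℕ)) : Bool :=
  let T := (List.range (2 ^ n)).filter fun k => dg c k == 1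
  let Ps := pairings T.length T
  Nat.beq certs.length Ps.length && (Ps.zip certs).all fun q => chk1 n c q.1 q.2

/-- decode a list of base `b` digits, with a final sentinel 1 -/
def decL : ℕ → ℕ → ℕ → List ℕ
  | 0, _, _ => []
  | f + 1, b, N => if N = 1 then [] else (N % b) :: decL f b (N / b)

end Pool.Agent.Locke
end

section

/-! # Locke's conjecture, base facts: the exceptional cycle in dimension 6 -/

namespace Pool.Agent.Locke

def c6code : ℕ := 1046695266058427114890835288

def c6cyc : List ℕ := [37, 36, 4, 20, 21, 17, 1, 33, 35, 34, 2, 18, 19, 51, 50, 48, 49, 53, 52, 60, 61, 57, 25, 24, 28, 29, 13, 12, 44, 40, 41, 9, 11, 10, 26, 27, 59, 43, 42, 58, 62, 46, 38, 54, 22, 30, 14, 15, 31, 63, 55, 23, 7, 39, 47, 45]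

theorem c6_ok : chkD 6 c6code [c6cyc] = true := by decide +kernel

end Pool.Agent.Locke
end

section

/-! # Locke's conjecture, base facts: elementary facts on the encodings -/

namespace Pool.Agent.Locke

variable {n : ℕ}

lemma idx_lt (x : V n) : idx x < 2 ^ n := Nat.ofBits_lt_two_pow x

lemma vtx_idx (x : V n) : vtx n (idx x) = x := by
  funext i
  unfold vtx idx
  rw [Nat.testBit_ofBits_lt _ _ i.2]

lemma idx_vtx {k : ℕ} (h : k < 2 ^ n) : idx (vtx n k) = k := by
  unfold vtx idx
  rw [Nat.ofBits_testBit, Nat.mod_eq_of_lt h]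

lemma idx_inj {x y : V n} (h : idx x = idx y) : x = y := by
  rw [← vtx_idx x, ← vtx_idx y, h]

lemma flip_vtx (k : ℕ) (i : Fin n) : flip (vtx n k) i = vtx n (k ^^^ 2 ^ (i : ℕ)) := by
  funext j
  by_cases h : j = i
  · subst h
    rw [cube_flip_self]
    unfold vtx
    rw [Nat.testBit_xor, Nat.testBit_two_pow]
    simp
  · rw [cube_flip_of_ne _ h]
    unfold vtx
    rw [Nat.testBit_xor, Nat.testBit_two_pow]
    have h' : ¬ ((i : ℕ) = (j : ℕ)) := fun h' => h (Fin.ext h'.symm)
    simp [h']

lemma codeS_two_pow_lt (i : Fin n) : 2 ^ (i : ℕ) < 2 ^ n :=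
  Nat.pow_lt_pow_right (by omega) i.2

lemma idx_flip (x : V n) (i : Fin n) : idx (flip x i) = idx x ^^^ 2 ^ (i : ℕ) := by
  conv_lhs => rw [← vtx_idx x, flip_vtx]
  exact idx_vtx (Nat.xor_lt_two_pow (idx_lt x) (codeS_two_pow_lt i))

lemma isAdj_iff {a b : ℕ} (ha : a < 2 ^ n) (hb : b < 2 ^ n) :
    isAdj n a b = true ↔ (Q n).Adj (vtx n a) (vtx n b) := by
  unfold isAdj
  rw [List.any_eq_true, adj_iff]
  constructor
  · rintro ⟨i, hi, hab⟩
    rw [List.mem_range] at hi
    rw [beq_iff_eq] at hab
    refine ⟨⟨i, hi⟩, ?_⟩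
    rw [flip_vtx]
    show vtx n b = vtx n (a ^^^ 2 ^ i)
    rw [← hab, ← Nat.xor_assoc, Nat.xor_self, Nat.zero_xor]
  · rintro ⟨i, hi⟩
    refine ⟨(i : ℕ), List.mem_range.mpr i.2, ?_⟩
    rw [flip_vtx] at hi
    have h1 := congrArg idx hi
    rw [idx_vtx hb, idx_vtx (Nat.xor_lt_two_pow ha (codeS_two_pow_lt i))] at h1
    rw [beq_iff_eq, h1, ← Nat.xor_assoc, Nat.xor_self, Nat.zero_xor]

lemma dg_le (c k : ℕ) : dg c k ≤ 2 := by
  unfold dg
  omega

lemma wt_le (c : ℕ) (x : V n) : wt n c x ≤ 2 := dg_le _ _

lemma wt_vtx {k : ℕ} (c : ℕ) (h : k < 2 ^ n) : wt n c (vtx n k) = dg c k := by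
  unfold wt
  rw [idx_vtx h]

lemma dg_add_pow (c u k : ℕ) (h : dg c u ≤ 1) :
    dg (c + 3 ^ u) k = dg c k + if k = u then 1 else 0 := by
  rcases Nat.lt_trichotomy k u with hk | hk | hk
  · have hne : k ≠ u := by omega
    rw [if_neg hne, Nat.add_zero]
    unfold dg
    obtain ⟨d, rfl⟩ : ∃ d, u = k + (d + 1) := ⟨u - k - 1, by omega⟩
    have h1 : c + 3 ^ (k + (d + 1)) = c + 3 ^ (d + 1) * 3 ^ k := by ring
    rw [h1, Nat.add_mul_div_right _ _ (by positivity), pow_succ]
    omega
  · subst hk
    rw [if_pos rfl]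
    unfold dg at *
    have h1 : c + 3 ^ k = c + 1 * 3 ^ k := by ring
    rw [h1, Nat.add_mul_div_right _ _ (by positivity)]
    omega
  · have hne : k ≠ u := by omega
    rw [if_neg hne, Nat.add_zero]
    unfold dg at *
    obtain ⟨d, rfl⟩ : ∃ d, k = u + (d + 1) := ⟨k - u - 1, by omega⟩
    have h2 : ∀ x : ℕ, x / 3 ^ (u + (d + 1)) = x / 3 ^ u / 3 / 3 ^ d := by
      intro x
      rw [Nat.div_div_eq_div_mul, Nat.div_div_eq_div_mul]
      congr 1
      ring
    have h1 : c + 3 ^ u = c + 1 * 3 ^ u := by ring
    rw [h2, h2, h1, Nat.add_mul_div_right _ _ (by positivity)]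
    have h3 : (c / 3 ^ u + 1) / 3 = c / 3 ^ u / 3 := by omega
    rw [h3]

lemma sum_vtx {β : Type*} [AddCommMonoid β] (f : V n → β) :
    ∑ x, f x = ∑ k ∈ Finset.range (2 ^ n), f (vtx n k) := by
  refine Finset.sum_nbij' idx (vtx n) ?_ ?_ ?_ ?_ ?_
  · intro x _
    exact Finset.mem_range.mpr (idx_lt x)
  · intro k _
    exact Finset.mem_univ _
  · intro x _
    exact vtx_idx x
  · intro k hk
    exact idx_vtx (Finset.mem_range.mp hk)
  · intro x _
    rw [vtx_idx]

lemma W_vtx (q : Bool) (ω : V n → ℕ) :
    W q ω = ∑ k ∈ (Finset.range (2 ^ n)).filter (fun k => par (vtx n k) = q), ω (vtx n k) := by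
  unfold W
  rw [Finset.sum_filter, Finset.sum_filter, sum_vtx]

lemma codeS_dg_zero (k : ℕ) : dg 0 k = 0 := by
  unfold dg
  simp

lemma codeS_dg_add (S a t j : ℕ) (hS : dg S a = 0) (ht : t ≤ 2) :
    dg (S + t * 3 ^ a) j = dg S j + if j = a then t else 0 := by
  have h1 : ∀ j, dg (S + 3 ^ a) j = dg S j + if j = a then 1 else 0 := fun j =>
    dg_add_pow S a j (by omega)
  rcases Nat.lt_or_ge t 1 with h | h
  · have : t = 0 := by omega
    subst this
    simp
  · rcases Nat.lt_or_ge t 2 with h' | h'
    · have : t = 1 := by omega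
      subst this
      rw [one_mul, h1]
    · have : t = 2 := by omega
      subst this
      have h2 : S + 2 * 3 ^ a = S + 3 ^ a + 3 ^ a := by ring
      rw [h2, dg_add_pow _ a j (by rw [h1, hS]; simp), h1]
      split_ifs <;> omega

/-- the digits of a sum of multiples of powers of 3 over distinct exponents -/
lemma dg_sum (ks : List ℕ) (hks : ks.Nodup) (f : ℕ → ℕ) (hf : ∀ k, f k ≤ 2) (j : ℕ) :
    dg (ks.map fun k => f k * 3 ^ k).sum j = if j ∈ ks then f j else 0 := by
  induction ks generalizing j with
  | nil => simp [codeS_dg_zero]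
  | cons a l ih =>
    rw [List.nodup_cons] at hks
    have ih' := fun j => ih hks.2 j
    rw [List.map_cons, List.sum_cons, Nat.add_comm, codeS_dg_add _ a (f a) j ?_ (hf a), ih']
    · by_cases hj : j = a
      · subst hj
        simp [hks.1]
      · simp [hj]
    · rw [ih', if_neg hks.1]

lemma codeS_sum_lt (N : ℕ) (f : ℕ → ℕ) (hf : ∀ k, f k ≤ 2) :
    ((List.range N).map fun k => f k * 3 ^ k).sum < 3 ^ N := by
  induction N with
  | zero => simp
  | succ N ih =>
    rw [List.range_succ, List.map_append, List.sum_append]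
    simp only [List.map_cons, List.map_nil, List.sum_cons, List.sum_nil]
    have h1 : f N * 3 ^ N ≤ 2 * 3 ^ N := Nat.mul_le_mul_right _ (hf N)
    rw [pow_succ]
    omega

lemma exists_code (ω : V n → ℕ) (h : ∀ x, ω x ≤ 2) : ∃ c, c < 3 ^ 2 ^ n ∧ ω = wt n c := by
  refine ⟨((List.range (2 ^ n)).map fun k => ω (vtx n k) * 3 ^ k).sum,
    codeS_sum_lt _ (fun k => ω (vtx n k)) (fun k => h _), ?_⟩
  funext x
  unfold wt
  rw [dg_sum (List.range (2 ^ n)) List.nodup_range (fun k => ω (vtx n k)) (fun k => h _),
    if_pos (List.mem_range.mpr (idx_lt x)), vtx_idx]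

end Pool.Agent.Locke
end

section

/-! # Locke's conjecture, base facts: soundness of the direct check -/

namespace Pool.Agent.Locke

variable {n : ℕ}

lemma direct_steps_mem {L : List ℕ} {e : ℕ × ℕ} (h : e ∈ steps L) : e.1 ∈ L ∧ e.2 ∈ L := by
  cases L with
  | nil => simp [steps] at h
  | cons a l =>
    simp only [steps] at h
    obtain ⟨h1, h2⟩ := List.of_mem_zip (a := e.1) (b := e.2) h
    refine ⟨h1, ?_⟩
    rw [List.mem_append, List.mem_singleton] at h2
    rcases h2 with h2 | h2
    · exact List.mem_cons_of_mem _ h2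
    · rw [h2]; exact List.mem_cons_self

lemma direct_chain {R : ℕ → ℕ → Prop} (hr : ∀ a, R a a) (ht : ∀ a b c, R a b → R b c → R a c)
    (z : ℕ) (l : List ℕ) : ∀ a : ℕ, (∀ e ∈ (a :: l).zip (l ++ [z]), R e.1 e.2) →
      ∀ k ∈ a :: l, R a k := by
  induction l with
  | nil =>
    intro a _ k hk
    rw [List.mem_singleton] at hk
    rw [hk]
    exact hr a
  | cons b l ih =>
    intro a h k hk
    rw [List.mem_cons] at hk
    rcases hk with hk | hk
    · rw [hk]; exact hr a
    · have h1 : R a b := h (a, b) (by simp)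
      refine ht _ _ _ h1 (ih b (fun e he => h e ?_) k hk)
      rw [List.cons_append, List.zip_cons_cons]
      exact List.mem_cons_of_mem _ he

lemma direct_mem_nbr {E : List (ℕ × ℕ)} (hE : ∀ e ∈ E, e.1 ≠ e.2) (k j : ℕ) :
    j ∈ nbr E k ↔ (k, j) ∈ E ∨ (j, k) ∈ E := by
  unfold nbr
  rw [List.mem_filterMap]
  constructor
  · rintro ⟨⟨p, q⟩, he, h⟩
    simp only at h
    by_cases h1 : p = k
    · subst h1
      simp only [beq_self_eq_true, ↓reduceIte, Option.some.injEq] at h
      subst h
      exact Or.inl he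
    · have h1' : (p == k) = false := by simpa using h1
      rw [h1'] at h
      simp only [Bool.false_eq_true, ↓reduceIte] at h
      by_cases h2 : q = k
      · subst h2
        simp only [beq_self_eq_true, ↓reduceIte, Option.some.injEq] at h
        subst h
        exact Or.inr he
      · have h2' : (q == k) = false := by simpa using h2
        rw [h2'] at h
        simp at h
  · rintro (h | h)
    · exact ⟨(k, j), h, by simp⟩
    · refine ⟨(j, k), h, ?_⟩
      have hne : j ≠ k := hE _ h
      have h1' : (j == k) = false := by simpa using hne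
      simp [h1']

/-- a single checked cycle solves every pairing that agrees with `P` -/
theorem chk1_sound {c : ℕ} {P : List (ℕ × ℕ)} {L : List ℕ} (h : chk1 n c P L = true)
    {σ : V n → V n} (hσ : IsPairing (wt n c) σ)
    (hP : ∀ a b, (a, b) ∈ P → σ (vtx n a) = vtx n b)
    (hP' : ∀ x, σ x ≠ x → (idx x, idx (σ x)) ∈ P ∨ (idx (σ x), idx x) ∈ P) :
    ∃ M, SolvedBy M (wt n c) σ := by
  unfold chk1 at h
  set E : List (ℕ × ℕ) := (steps L).filter fun e => !inP P e with hEdef
  simp only [Bool.and_eq_true, List.all_eq_true] at h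
  obtain ⟨⟨hL, hadj⟩, hdeg⟩ := h
  have hL' : ∀ k ∈ L, k < 2 ^ n := fun k hk => by
    have := hL k hk
    rwa [Nat.blt_eq] at this
  have hEL : ∀ e ∈ E, e.1 ∈ L ∧ e.2 ∈ L := by
    intro e he
    rw [hEdef, List.mem_filter] at he
    exact direct_steps_mem he.1
  have hEQ : ∀ e ∈ E, (Q n).Adj (vtx n e.1) (vtx n e.2) := by
    intro e he
    exact (isAdj_iff (hL' _ (hEL e he).1) (hL' _ (hEL e he).2)).1 (hadj e he)
  have hEne : ∀ e ∈ E, e.1 ≠ e.2 := by
    intro e he heq
    have := hEQ e he
    rw [heq] at this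
    exact (Q n).loopless.irrefl _ this
  have hEx : ∀ x y : V n, (idx x, idx y) ∈ E → (Q n).Adj x y := by
    intro x y hxy
    have := hEQ _ hxy
    simpa only [vtx_idx] using this
  let M : SimpleGraph (V n) :=
    { Adj := fun x y => (idx x, idx y) ∈ E ∨ (idx y, idx x) ∈ E
      symm := ⟨fun x y hxy => hxy.symm⟩
      loopless := ⟨fun x hx => by
        rcases hx with hx | hx
        · exact hEne _ hx rfl
        · exact hEne _ hx rfl⟩ }
  have hMadj : ∀ x y, M.Adj x y ↔ idx y ∈ nbr E (idx x) := by
    intro x y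
    rw [direct_mem_nbr hEne]
  have hnlt : ∀ k j, j ∈ nbr E k → j < 2 ^ n := by
    intro k j hj
    rw [direct_mem_nbr hEne] at hj
    rcases hj with hj | hj
    · exact hL' _ (hEL _ hj).2
    · exact hL' _ (hEL _ hj).1
  refine ⟨M, ?_, ?_, ?_⟩
  · intro x y hxy
    rcases hxy with hxy | hxy
    · exact hEx x y hxy
    · exact (hEx y x hxy).symm
  · intro x
    have hx := hdeg (idx x) (List.mem_range.2 (idx_lt x))
    have hwt : wt n c x = dg c (idx x) := rfl
    have hset : M.neighborSet x = {y | idx y ∈ nbr E (idx x)} := by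
      ext y
      rw [SimpleGraph.mem_neighborSet, hMadj]
      rfl
    have hlt := hnlt (idx x)
    rw [hset, hwt]
    have hx1 := hx.1
    revert hx1 hlt
    generalize nbr E (idx x) = N
    intro hlt hx1
    match N, hx1, hlt with
    | [], hx1, _ =>
      simp only [beq_iff_eq] at hx1
      rw [hx1]
      simp
    | [a], hx1, hlt =>
      simp only [beq_iff_eq] at hx1
      rw [hx1]
      have ha : a < 2 ^ n := hlt a (by simp)
      have : {y : V n | idx y ∈ [a]} = {vtx n a} := by
        ext y
        simp only [List.mem_singleton, Set.mem_ofPred_eq, Set.mem_singleton_iff]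
        constructor
        · intro hy; rw [← hy, vtx_idx]
        · intro hy; rw [hy, idx_vtx ha]
      rw [this, Set.ncard_singleton]
    | [a, b], hx1, hlt =>
      simp only [Bool.and_eq_true, beq_iff_eq, bne_iff_ne, ne_eq] at hx1
      rw [hx1.1]
      have ha : a < 2 ^ n := hlt a (by simp)
      have hb : b < 2 ^ n := hlt b (by simp)
      have : {y : V n | idx y ∈ [a, b]} = {vtx n a, vtx n b} := by
        ext y
        simp only [List.mem_cons, List.not_mem_nil, or_false, Set.mem_ofPred_eq,
          Set.mem_insert_iff, Set.mem_singleton_iff]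
        constructor
        · rintro (hy | hy)
          · left; rw [← hy, vtx_idx]
          · right; rw [← hy, vtx_idx]
        · rintro (hy | hy)
          · left; rw [hy, idx_vtx ha]
          · right; rw [hy, idx_vtx hb]
      rw [this, Set.ncard_pair]
      intro hab
      apply hx1.2
      rw [← idx_vtx (n := n) ha, ← idx_vtx (n := n) hb, hab]
    | a :: b :: d :: l, hx1, _ => simp at hx1
  · have hmem : ∀ x : V n, wt n c x ≤ 1 → idx x ∈ L := by
      intro x hx
      have h1 := (hdeg (idx x) (List.mem_range.2 (idx_lt x))).2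
      have h2 : dg c (idx x) ≤ 1 := hx
      rw [Bool.or_eq_true] at h1
      rcases h1 with h1 | h1
      · rw [beq_iff_eq] at h1; omega
      · simpa using h1
    have hstep : ∀ e ∈ steps L, (M ⊔ pairG σ).Reachable (vtx n e.1) (vtx n e.2) := by
      intro e he
      have hlt1 := hL' _ (direct_steps_mem he).1
      have hlt2 := hL' _ (direct_steps_mem he).2
      by_cases hin : inP P e = true
      · have hpair : σ (vtx n e.1) = vtx n e.2 ∨ σ (vtx n e.2) = vtx n e.1 := by
          unfold inP at hin
          rw [List.any_eq_true] at hin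
          obtain ⟨⟨p, q⟩, hq, h1⟩ := hin
          simp only [Bool.or_eq_true, Bool.and_eq_true, beq_iff_eq] at h1
          rcases h1 with ⟨h1, h2⟩ | ⟨h1, h2⟩
          · left; rw [← h1, ← h2]; exact hP _ _ hq
          · right; rw [← h1, ← h2]; exact hP _ _ hq
        by_cases hne : vtx n e.1 = vtx n e.2
        · rw [hne]
        · apply SimpleGraph.Adj.reachable
          rw [SimpleGraph.sup_adj]
          right
          unfold pairG
          rw [SimpleGraph.fromRel_adj]
          exact ⟨hne, hpair⟩
      · have heE : e ∈ E := by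
          rw [hEdef, List.mem_filter]
          refine ⟨he, ?_⟩
          simpa using hin
        apply SimpleGraph.Adj.reachable
        rw [SimpleGraph.sup_adj]
        left
        show (idx (vtx n e.1), idx (vtx n e.2)) ∈ E ∨ _
        left
        rw [idx_vtx hlt1, idx_vtx hlt2]
        exact heE
    intro x y hx hy
    have hxL := hmem x hx
    have hyL := hmem y hy
    cases L with
    | nil => simp at hxL
    | cons a l =>
      have hall := direct_chain
        (R := fun p q => (M ⊔ pairG σ).Reachable (vtx n p) (vtx n q))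
        (fun p => SimpleGraph.Reachable.refl _)
        (fun p q r h1 h2 => h1.trans h2) a l a (fun e he => hstep e he)
      have h1 := hall _ hxL
      have h2 := hall _ hyL
      rw [vtx_idx] at h1 h2
      exact h1.symm.trans h2

/-- every involution without fixed points on the list is one of the pairings -/
theorem pairings_complete (f : ℕ) (l : List ℕ) (hf : l.length ≤ f) (hl : l.Nodup) (τ : ℕ → ℕ)
    (h1 : ∀ a ∈ l, τ a ∈ l) (h2 : ∀ a ∈ l, τ (τ a) = a) (h3 : ∀ a ∈ l, τ a ≠ a) :
    ∃ P ∈ pairings f l, (∀ a b, (a, b) ∈ P → a ∈ l ∧ b ∈ l ∧ τ a = b) ∧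
      ∀ a ∈ l, (a, τ a) ∈ P ∨ (τ a, a) ∈ P := by
  induction f generalizing l with
  | zero =>
    have : l = [] := List.length_eq_zero_iff.1 (by omega)
    subst this
    refine ⟨[], by simp [pairings], by simp, by simp⟩
  | succ f ih =>
    cases l with
    | nil => exact ⟨[], by simp [pairings], by simp, by simp⟩
    | cons a l =>
      rw [List.nodup_cons] at hl
      have hb : τ a ∈ l := by
        have := h1 a List.mem_cons_self
        rw [List.mem_cons] at this
        rcases this with h | h
        · exact absurd h (h3 a List.mem_cons_self)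
        · exact h
      have hmem : ∀ x, x ∈ l.erase (τ a) ↔ x ≠ τ a ∧ x ∈ l := fun x => hl.2.mem_erase_iff
      have key : ∀ x ∈ l.erase (τ a), τ x ∈ l.erase (τ a) := by
        intro x hx
        rw [hmem] at hx ⊢
        have hx1 : x ∈ a :: l := List.mem_cons_of_mem _ hx.2
        constructor
        · intro hxa
          have : x = a := by
            rw [← h2 x hx1, hxa, h2 a List.mem_cons_self]
          rw [this] at hx
          exact hl.1 hx.2
        · have := h1 x hx1
          rw [List.mem_cons] at this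
          rcases this with h | h
          · exfalso
            apply hx.1
            rw [← h2 x hx1, h]
          · exact h
      obtain ⟨P, hP, hP1, hP2⟩ := ih (l.erase (τ a)) (by
          have := List.length_erase_of_mem hb
          simp only [List.length_cons] at hf
          omega) (hl.2.erase _) key
        (fun x hx => h2 x (List.mem_cons_of_mem _ ((hmem x).1 hx).2))
        (fun x hx => h3 x (List.mem_cons_of_mem _ ((hmem x).1 hx).2))
      refine ⟨(a, τ a) :: P, ?_, ?_, ?_⟩
      · simp only [pairings]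
        rw [List.mem_flatMap]
        exact ⟨τ a, hb, List.mem_map.2 ⟨P, hP, rfl⟩⟩
      · intro x y hxy
        rw [List.mem_cons] at hxy
        rcases hxy with hxy | hxy
        · rw [Prod.mk.injEq] at hxy
          obtain ⟨rfl, rfl⟩ := hxy
          exact ⟨List.mem_cons_self, List.mem_cons_of_mem _ hb, rfl⟩
        · obtain ⟨hx, hy, hxy'⟩ := hP1 x y hxy
          exact ⟨List.mem_cons_of_mem _ ((hmem x).1 hx).2,
            List.mem_cons_of_mem _ ((hmem y).1 hy).2, hxy'⟩
      · intro x hx
        rw [List.mem_cons] at hx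
        rcases hx with hx | hx
        · rw [hx]
          left
          exact List.mem_cons_self
        · by_cases hxa : x = τ a
          · right
            rw [hxa, h2 a List.mem_cons_self]
            exact List.mem_cons_self
          · rcases hP2 x ((hmem x).2 ⟨hxa, hx⟩) with h | h
            · exact Or.inl (List.mem_cons_of_mem _ h)
            · exact Or.inr (List.mem_cons_of_mem _ h)

theorem chkD_sound {c : ℕ} {certs : List (List ℕ)} (h : chkD n c certs = true) :
    Good (wt n c) := by
  intro σ hσ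
  unfold chkD at h
  set T : List ℕ := (List.range (2 ^ n)).filter fun k => dg c k == 1 with hT
  simp only [Bool.and_eq_true] at h
  obtain ⟨hlen, hall⟩ := h
  have hlen' : certs.length = (pairings T.length T).length := by
    rwa [Nat.beq_eq] at hlen
  have hTm : ∀ k, k ∈ T ↔ k < 2 ^ n ∧ dg c k = 1 := by
    intro k
    rw [hT, List.mem_filter, List.mem_range, beq_iff_eq]
  have hTn : T.Nodup := List.nodup_range.filter _
  have hwt : ∀ x : V n, wt n c x = dg c (idx x) := fun _ => rfl
  have hs1 : ∀ a ∈ T, σ (vtx n a) ≠ vtx n a := by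
    intro a ha
    rw [hTm] at ha
    rw [hσ.ne_iff, wt_vtx c ha.1]
    exact ha.2
  obtain ⟨P, hP, hP1, hP2⟩ := pairings_complete T.length T le_rfl hTn
    (fun k => idx (σ (vtx n k)))
    (by
      intro a ha
      rw [hTm]
      refine ⟨idx_lt _, ?_⟩
      rw [← hwt, ← hσ.ne_iff, hσ.inv]
      exact (hs1 a ha).symm)
    (by
      intro a ha
      simp only [vtx_idx, hσ.inv]
      exact idx_vtx ((hTm a).1 ha).1)
    (by
      intro a ha hne
      apply hs1 a ha
      rw [← vtx_idx (σ (vtx n a)), hne])
  obtain ⟨i, hi, hPi⟩ := List.mem_iff_getElem.1 hP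
  have hi' : i < certs.length := by rw [hlen']; exact hi
  have hz : (P, certs[i]) ∈ (pairings T.length T).zip certs := by
    rw [List.mem_iff_getElem]
    refine ⟨i, ?_, ?_⟩
    · rw [List.length_zip]; exact lt_min hi hi'
    · rw [List.getElem_zip, hPi]
  have hc : chk1 n c P certs[i] = true := by
    have := List.all_eq_true.1 hall _ hz
    exact this
  apply chk1_sound hc hσ
  · intro a b hab
    have h1 := (hP1 a b hab).2.2
    rw [← h1, vtx_idx]
  · intro x hx
    have hxT : idx x ∈ T := by
      rw [hTm]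
      refine ⟨idx_lt _, ?_⟩
      rw [← hwt]
      exact (hσ.ne_iff x).1 hx
    have := hP2 _ hxT
    simpa only [vtx_idx] using this

end Pool.Agent.Locke
end
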