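import Pool.Agent.Lib.MP_8a5648_co.Mg.G002
import Pool.Agent.Lib.MP_8a5648_co.Mg.G004

section

/-! # Locke's conjecture, part 2: the rule R3 (all four side weights are small) -/

namespace Pool.Agent.Locke

variable {n m : ℕ}

lemma ruleE_good (hE : EL m) {η : V m → ℕ} (h2 : ∀ x, η x ≤ 2) (q : Bool) {k : ℕ}
    (h1 : W q η = k) (h1' : W (!q) η = k) (hk : k + 4 ≤ 2 * m) : Good η := by
  have h3 : W true η = k ∧ W false η = k := by
    cases q
    · exact ⟨h1', h1⟩
    · exact ⟨h1, h1'⟩
  exact hE η h2 (h3.1.trans h3.2.symm) (by rw [h3.1]; exact hk)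

lemma ruleE_W_single (q : Bool) (y : V m) :
    W q (fun x => if x = y then 1 else 0) = if par y = q then 1 else 0 := by
  unfold W
  rw [Finset.sum_ite_eq']
  simp

lemma ruleE_raise (hE : EL m) {η : V m → ℕ} (h2 : ∀ x, η x ≤ 2) (q : Bool) {k : ℕ}
    (h1 : W q η = k) (h1' : W (!q) η = k) (hk : k + 5 ≤ 2 * m) {y z : V m}
    (hadj : (Q m).Adj y z) (hy : η y = 0) (hz : η z = 0) :
    Good (fun x => η x + (if x = y then 1 else 0) + (if x = z then 1 else 0)) := by
  have hpar := par_adj hadj
  have hne : y ≠ z := hadj.ne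
  have hW : ∀ r, W r (fun x => η x + (if x = y then 1 else 0) + (if x = z then 1 else 0)) =
      W r η + 1 := by
    intro r
    rw [W_add r (fun x => η x + (if x = y then 1 else 0)), W_add, ruleE_W_single,
      ruleE_W_single, hpar]
    cases par y <;> cases r <;> simp
  refine ruleE_good hE ?_ q (k := k + 1) (by rw [hW, h1]) (by rw [hW, h1']) (by omega)
  intro x
  have := h2 x
  by_cases hxy : x = y
  · have hxz : x ≠ z := fun h => hne (hxy.symm.trans h)
    rw [if_pos hxy, if_neg hxz, hxy, hy]
    omega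
  · by_cases hxz : x = z
    · rw [if_neg hxy, if_pos hxz, hxz, hz]
      omega
    · rw [if_neg hxy, if_neg hxz]
      exact h2 x

lemma ruleE_plus_le {η : V m → ℕ} (h2 : ∀ x, η x ≤ 2) {C : Finset (V m)}
    (hC : ∀ x ∈ C, η x ≤ 1) : ∀ x, plus η C x ≤ 2 := by
  intro x
  unfold plus ind
  by_cases h : x ∈ C
  · rw [if_pos h]
    have := hC x h
    omega
  · rw [if_neg h]
    exact h2 x

/-- the completing set is given by its two halves -/
lemma ruleE_comp {p : Bool} {ω : V (m + 1) → ℕ} (hω : ∀ x, ω x ≤ 2) (i : Fin (m + 1))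
    (b : Bool) (U V' : Finset (V m))
    (hU : ∀ x ∈ U, par x = !(xor b p) ∧ half i b ω x = 0)
    (hV : ∀ x ∈ V', par x = xor b p ∧ half i (!b) ω x = 0)
    (hc : U.card + V'.card + W (!p) ω = W p ω)
    (hG : ∀ ω' : V (m + 1) → ℕ, (∀ x, ω' x ≤ 2) → half i b ω' = plus (half i b ω) U →
      half i (!b) ω' = plus (half i (!b) ω) V' → Good ω') : Comp p ω := by
  classical
  set A : Finset (V (m + 1)) := U.image (ins i b) ∪ V'.image (ins i (!b)) with hA
  have hdisj : Disjoint (U.image (ins i b)) (V'.image (ins i (!b))) := by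
    rw [Finset.disjoint_left]
    intro x h1 h2
    obtain ⟨y, -, hy⟩ := Finset.mem_image.1 h1
    obtain ⟨z, -, hz⟩ := Finset.mem_image.1 h2
    rw [← hy, ins_inj] at hz
    obtain ⟨hz, -⟩ := hz
    revert hz
    cases b <;> simp
  have hcard : A.card = U.card + V'.card := by
    rw [hA, Finset.card_union_of_disjoint hdisj,
      Finset.card_image_of_injective _ (ins_injective i b),
      Finset.card_image_of_injective _ (ins_injective i (!b))]
  have hAz : ∀ x ∈ A, par x = !p ∧ ω x = 0 := by
    intro x hx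
    rcases Finset.mem_union.1 hx with h | h
    · obtain ⟨y, hy, rfl⟩ := Finset.mem_image.1 h
      obtain ⟨h1, h2⟩ := hU y hy
      refine ⟨?_, h2⟩
      rw [par_ins, h1]
      cases b <;> cases p <;> rfl
    · obtain ⟨y, hy, rfl⟩ := Finset.mem_image.1 h
      obtain ⟨h1, h2⟩ := hV y hy
      refine ⟨?_, h2⟩
      rw [par_ins, h1]
      cases b <;> cases p <;> rfl
  refine ⟨A, hAz, by rw [hcard]; exact hc, ?_⟩
  apply hG
  · exact ruleE_plus_le hω (fun x hx => by rw [(hAz x hx).2]; omega)
  · funext x
    have hmem : ins i b x ∈ A ↔ x ∈ U := by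
      rw [hA, Finset.mem_union, Finset.mem_image, Finset.mem_image]
      constructor
      · rintro (⟨y, hy, h⟩ | ⟨y, hy, h⟩)
        · rw [ins_inj] at h
          rw [← h.2]; exact hy
        · rw [ins_inj] at h
          obtain ⟨h, -⟩ := h
          revert h
          cases b <;> simp
      · intro h
        exact Or.inl ⟨x, h, rfl⟩
    simp only [half, plus, ind, hmem]
  · funext x
    have hmem : ins i (!b) x ∈ A ↔ x ∈ V' := by
      rw [hA, Finset.mem_union, Finset.mem_image, Finset.mem_image]
      constructor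
      · rintro (⟨y, hy, h⟩ | ⟨y, hy, h⟩)
        · rw [ins_inj] at h
          obtain ⟨h, -⟩ := h
          revert h
          cases b <;> simp
        · rw [ins_inj] at h
          rw [← h.2]; exact hy
      · intro h
        exact Or.inr ⟨x, h, rfl⟩
    simp only [half, plus, ind, hmem]

/-- `good_of_split` for a general side -/
lemma ruleE_split (i : Fin (m + 1)) (b : Bool) (ω : V (m + 1) → ℕ) (hω : ∀ x, ω x ≤ 2)
    (C : Finset (V m)) (hC : C.Nonempty) (hz : ∀ x ∈ C, half i b ω x = 0)
    (hz' : ∀ x ∈ C, half i (!b) ω x = 0)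
    (h0 : Good (plus (half i b ω) C)) (h1 : Good (plus (half i (!b) ω) C))
    (he : Even (∑ x, plus (half i b ω) C x)) (he' : Even (∑ x, plus (half i (!b) ω) C x)) :
    Good ω := by
  cases b with
  | false =>
    refine good_of_split i ω hω C hC ?_ h0 h1 he
    intro x hx b
    cases b
    · exact hz x hx
    · exact hz' x hx
  | true =>
    refine good_of_split i ω hω C hC ?_ h1 h0 he'
    intro x hx b
    cases b
    · exact hz' x hx
    · exact hz x hx

lemma ruleE_even {η : V m → ℕ} (q : Bool) {k : ℕ} (h1 : W q η = k) (h1' : W (!q) η = k) :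
    Even (∑ x, η x) := by
  rw [sum_eq_W]
  have h3 : W true η = k ∧ W false η = k := by
    cases q
    · exact ⟨h1', h1⟩
    · exact ⟨h1, h1'⟩
  rw [h3.1, h3.2]
  exact ⟨k, rfl⟩

/-- zero vertices of both halves -/
lemma ruleE_zeros (q : Bool) (η η' : V (m + 1) → ℕ) :
    2 ^ m ≤ (Finset.univ.filter (fun x : V (m + 1) => par x = q ∧ η x = 0 ∧ η' x = 0)).card +
      W q η + W q η' := by
  have h := zeros_card q (fun x => η x + η' x)
  rw [W_add] at h
  have h2 : (Finset.univ.filter (fun x : V (m + 1) => par x = q ∧ η x + η' x = 0)) =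
      (Finset.univ.filter (fun x : V (m + 1) => par x = q ∧ η x = 0 ∧ η' x = 0)) := by
    apply Finset.filter_congr
    intro x _
    rw [Nat.add_eq_zero_iff]
  rw [h2] at h
  omega


/-- on the side `!b` the class `!p` is heavier -/
lemma ruleE_case1 {p : Bool} {ω : V (m + 1 + 1) → ℕ} (hω : ∀ x, ω x ≤ 2) (i : Fin (m + 1 + 1))
    (b : Bool) (hE : EL (m + 1)) (hW : W (!p) ω ≤ W p ω)
    (hlt : S p ω i (!b) < S (!p) ω i (!b))
    (h0 : S p ω i b + 4 ≤ 2 * (m + 1)) (h1 : S (!p) ω i (!b) + 4 ≤ 2 * (m + 1))
    (hs1 : W (!p) ω ≤ 2 ^ m) (hs2 : S p ω i b ≤ 2 ^ m) : Comp p ω := by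
  classical
  have a1 := W_half_heavy i b p ω
  have a2 := W_half_light i b p ω
  have a3 := W_half_other_heavy i b p ω
  have a4 := W_half_other_light i b p ω
  have a5 := S_add p b ω i
  have a6 := S_add (!p) b ω i
  have hH : ∀ x, half i b ω x ≤ 2 := half_le hω i b
  have hH' : ∀ x, half i (!b) ω x ≤ 2 := half_le hω i (!b)
  generalize hpb : xor b p = pb at a1 a2 a3 a4
  generalize hη : half i b ω = η at a1 a2 hH
  generalize hη' : half i (!b) ω = η' at a3 a4 hH'
  generalize S p ω i b = e0 at *
  generalize S (!p) ω i b = o0 at *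
  generalize S p ω i (!b) = e1 at *
  generalize S (!p) ω i (!b) = o1 at *
  have z1 := ruleE_zeros (!pb) η η'
  obtain ⟨C, hCs, hCc⟩ := Finset.exists_subset_card_eq
    (s := Finset.univ.filter (fun x : V (m + 1) => par x = (!pb) ∧ η x = 0 ∧ η' x = 0))
    (n := o1 - e1) (by omega)
  have hC : ∀ x ∈ C, par x = (!pb) ∧ η x = 0 ∧ η' x = 0 := by
    intro x hx
    exact (Finset.mem_filter.1 (hCs hx)).2
  have z2 := zeros_card (!pb) η
  have z3 : (Finset.univ.filter (fun x : V (m + 1) => par x = (!pb) ∧ η x = 0)).card ≤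
      ((Finset.univ.filter (fun x : V (m + 1) => par x = (!pb) ∧ η x = 0)) \ C).card + C.card := by
    have := Finset.card_le_card_sdiff_add_card
      (s := Finset.univ.filter (fun x : V (m + 1) => par x = (!pb) ∧ η x = 0)) (t := C)
    exact this
  obtain ⟨U, hUs, hUc⟩ := Finset.exists_subset_card_eq
    (s := (Finset.univ.filter (fun x : V (m + 1) => par x = (!pb) ∧ η x = 0)) \ C)
    (n := W p ω - W (!p) ω) (by omega)
  have hU : ∀ x ∈ U, (par x = (!pb) ∧ η x = 0) ∧ x ∉ C := by
    intro x hx
    have := Finset.mem_sdiff.1 (hUs hx)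
    exact ⟨(Finset.mem_filter.1 this.1).2, this.2⟩
  refine ruleE_comp hω i b U ∅ ?_ ?_ ?_ ?_
  · intro x hx
    rw [hpb, hη]
    exact (hU x hx).1
  · intro x hx
    exact absurd hx (Finset.notMem_empty x)
  · rw [hUc, Finset.card_empty]
    omega
  · intro ω' hω' hb hb'
    rw [hη] at hb
    rw [hη'] at hb'
    have e1' : plus η' ∅ = η' := by
      funext x
      simp [plus, ind]
    rw [e1'] at hb'
    have u1 : W (!pb) (plus (plus η U) C) = e0 := by
      rw [W_plus _ _ _ (fun x hx => (hC x hx).1), W_plus _ _ _ (fun x hx => (hU x hx).1.1)]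
      omega
    have u2 : W (!(!pb)) (plus (plus η U) C) = e0 := by
      rw [Bool.not_not, W_plus_not _ _ _ (fun x hx => (hC x hx).1),
        W_plus_not _ _ _ (fun x hx => (hU x hx).1.1)]
      omega
    have u3 : W (!pb) (plus η' C) = o1 := by
      rw [W_plus _ _ _ (fun x hx => (hC x hx).1)]
      omega
    have u4 : W (!(!pb)) (plus η' C) = o1 := by
      rw [Bool.not_not, W_plus_not _ _ _ (fun x hx => (hC x hx).1)]
      omega
    have hzero : ∀ x ∈ C, plus η U x = 0 := by
      intro x hx
      have : x ∉ U := fun h => (hU x h).2 hx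
      simp [plus, ind, this, (hC x hx).2.1]
    have hp1 : ∀ x, plus η U x ≤ 2 :=
      ruleE_plus_le hH (fun x hx => by rw [(hU x hx).1.2]; omega)
    refine ruleE_split i b ω' hω' C ?_ ?_ ?_ ?_ ?_ ?_ ?_
    · rw [← Finset.card_pos, hCc]
      omega
    · intro x hx
      rw [hb]
      exact hzero x hx
    · intro x hx
      rw [hb']
      exact (hC x hx).2.2
    · rw [hb]
      exact ruleE_good hE (ruleE_plus_le hp1 (fun x hx => by rw [hzero x hx]; omega)) (!pb)
        u1 u2 h0
    · rw [hb']
      exact ruleE_good hE (ruleE_plus_le hH' (fun x hx => by rw [(hC x hx).2.2]; omega)) (!pb)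
        u3 u4 h1
    · rw [hb]
      exact ruleE_even (!pb) u1 u2
    · rw [hb']
      exact ruleE_even (!pb) u3 u4

/-- one crossing edge -/
lemma ruleE_case3a {p : Bool} {ω : V (m + 1 + 1) → ℕ} (hω : ∀ x, ω x ≤ 2)
    (i : Fin (m + 1 + 1)) (b : Bool) (hE : EL (m + 1))
    (hlt : S (!p) ω i b < S p ω i b) (hle : S (!p) ω i (!b) ≤ S p ω i (!b))
    (h0 : S p ω i b + 4 ≤ 2 * (m + 1)) (h1 : S p ω i (!b) + 5 ≤ 2 * (m + 1))
    (hs1 : W p ω ≤ 2 ^ m) : Comp p ω := by
  classical
  have a1 := W_half_heavy i b p ω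
  have a2 := W_half_light i b p ω
  have a3 := W_half_other_heavy i b p ω
  have a4 := W_half_other_light i b p ω
  have a5 := S_add p b ω i
  have a6 := S_add (!p) b ω i
  have hH : ∀ x, half i b ω x ≤ 2 := half_le hω i b
  have hH' : ∀ x, half i (!b) ω x ≤ 2 := half_le hω i (!b)
  generalize hpb : xor b p = pb at a1 a2 a3 a4
  generalize hη : half i b ω = η at a1 a2 hH
  generalize hη' : half i (!b) ω = η' at a3 a4 hH'
  generalize S p ω i b = e0 at *
  generalize S (!p) ω i b = o0 at *
  generalize S p ω i (!b) = e1 at *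
  generalize S (!p) ω i (!b) = o1 at *
  have z1 := ruleE_zeros (!pb) η η'
  obtain ⟨C, hCs, hCc⟩ := Finset.exists_subset_card_eq
    (s := Finset.univ.filter (fun x : V (m + 1) => par x = (!pb) ∧ η x = 0 ∧ η' x = 0))
    (n := 1) (by omega)
  have hC : ∀ x ∈ C, par x = (!pb) ∧ η x = 0 ∧ η' x = 0 := by
    intro x hx
    exact (Finset.mem_filter.1 (hCs hx)).2
  have z2 := zeros_card (!pb) η
  have z3 : (Finset.univ.filter (fun x : V (m + 1) => par x = (!pb) ∧ η x = 0)).card ≤
      ((Finset.univ.filter (fun x : V (m + 1) => par x = (!pb) ∧ η x = 0)) \ C).card + C.card := by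
    have := Finset.card_le_card_sdiff_add_card
      (s := Finset.univ.filter (fun x : V (m + 1) => par x = (!pb) ∧ η x = 0)) (t := C)
    exact this
  obtain ⟨U, hUs, hUc⟩ := Finset.exists_subset_card_eq
    (s := (Finset.univ.filter (fun x : V (m + 1) => par x = (!pb) ∧ η x = 0)) \ C)
    (n := e0 - o0 - 1) (by omega)
  have hU : ∀ x ∈ U, (par x = (!pb) ∧ η x = 0) ∧ x ∉ C := by
    intro x hx
    have := Finset.mem_sdiff.1 (hUs hx)
    exact ⟨(Finset.mem_filter.1 this.1).2, this.2⟩
  have z4 := zeros_card pb η'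
  obtain ⟨V', hVs, hVc⟩ := Finset.exists_subset_card_eq
    (s := (Finset.univ.filter (fun x : V (m + 1) => par x = pb ∧ η' x = 0)))
    (n := e1 - o1 + 1) (by omega)
  have hV : ∀ x ∈ V', par x = pb ∧ η' x = 0 := by
    intro x hx
    exact (Finset.mem_filter.1 (hVs hx)).2
  refine ruleE_comp hω i b U V' ?_ ?_ ?_ ?_
  · intro x hx
    rw [hpb, hη]
    exact (hU x hx).1
  · intro x hx
    rw [hpb, hη']
    exact hV x hx
  · omega
  · intro ω' hω' hb hb'
    rw [hη] at hb
    rw [hη'] at hb'
    have u1 : W (!pb) (plus (plus η U) C) = e0 := by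
      rw [W_plus _ _ _ (fun x hx => (hC x hx).1), W_plus _ _ _ (fun x hx => (hU x hx).1.1)]
      omega
    have u2 : W (!(!pb)) (plus (plus η U) C) = e0 := by
      rw [Bool.not_not, W_plus_not _ _ _ (fun x hx => (hC x hx).1),
        W_plus_not _ _ _ (fun x hx => (hU x hx).1.1)]
      omega
    have u3 : W (!pb) (plus (plus η' V') C) = e1 + 1 := by
      rw [W_plus _ _ _ (fun x hx => (hC x hx).1),
        W_plus_not _ _ _ (fun x hx => by rw [Bool.not_not]; exact (hV x hx).1)]
      omega
    have u4 : W (!(!pb)) (plus (plus η' V') C) = e1 + 1 := by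
      rw [Bool.not_not, W_plus_not _ _ _ (fun x hx => (hC x hx).1),
        W_plus _ _ _ (fun x hx => (hV x hx).1)]
      omega
    have hzero : ∀ x ∈ C, plus η U x = 0 := by
      intro x hx
      have : x ∉ U := fun h => (hU x h).2 hx
      simp [plus, ind, this, (hC x hx).2.1]
    have hzero' : ∀ x ∈ C, plus η' V' x = 0 := by
      intro x hx
      have : x ∉ V' := by
        intro h
        have h2 := (hV x h).1
        have h3 := (hC x hx).1
        rw [h2] at h3
        revert h3
        cases pb <;> simp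
      simp [plus, ind, this, (hC x hx).2.2]
    have hp1 : ∀ x, plus η U x ≤ 2 :=
      ruleE_plus_le hH (fun x hx => by rw [(hU x hx).1.2]; omega)
    have hp2 : ∀ x, plus η' V' x ≤ 2 :=
      ruleE_plus_le hH' (fun x hx => by rw [(hV x hx).2]; omega)
    refine ruleE_split i b ω' hω' C ?_ ?_ ?_ ?_ ?_ ?_ ?_
    · rw [← Finset.card_pos, hCc]
      omega
    · intro x hx
      rw [hb]
      exact hzero x hx
    · intro x hx
      rw [hb']
      exact hzero' x hx
    · rw [hb]
      exact ruleE_good hE (ruleE_plus_le hp1 (fun x hx => by rw [hzero x hx]; omega)) (!pb)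
        u1 u2 h0
    · rw [hb']
      exact ruleE_good hE (ruleE_plus_le hp2 (fun x hx => by rw [hzero' x hx]; omega)) (!pb)
        u3 u4 (by omega)
    · rw [hb]
      exact ruleE_even (!pb) u1 u2
    · rw [hb']
      exact ruleE_even (!pb) u3 u4

/-- number of positive vertices -/
lemma ruleE_pos_card (η : V m → ℕ) (q : Bool) {k l : ℕ} (h1 : W q η = k) (h1' : W (!q) η = l) :
    (Finset.univ.filter (fun x : V m => 0 < η x)).card ≤ k + l := by
  have h : (Finset.univ.filter (fun x : V m => 0 < η x)).card ≤ ∑ x, η x := by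
    rw [Finset.card_filter]
    apply Finset.sum_le_sum
    intro x _
    by_cases hx : 0 < η x
    · rw [if_pos hx]; omega
    · rw [if_neg hx]; omega
  rw [sum_eq_W] at h
  have h3 : W true η + W false η = k + l := by
    cases q
    · rw [← h1, ← h1']
      exact Nat.add_comm _ _
    · rw [← h1, ← h1']
      rfl
  omega

/-- the trick -/
lemma ruleE_caseT {p : Bool} {ω : V (m + 1 + 1) → ℕ} (hω : ∀ x, ω x ≤ 2)
    (i : Fin (m + 1 + 1)) (b : Bool) (hE : EL (m + 1))
    (heq : S (!p) ω i b = S p ω i b) (hle : S (!p) ω i (!b) ≤ S p ω i (!b))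
    (h0 : S p ω i b + 4 ≤ 2 * (m + 1)) (h1 : S p ω i (!b) + 5 ≤ 2 * (m + 1))
    (hcount : 4 * S p ω i (!b) + S p ω i b < 2 ^ (m + 1)) :
    Comp p ω := by
  classical
  have a1 := W_half_heavy i b p ω
  have a2 := W_half_light i b p ω
  have a3 := W_half_other_heavy i b p ω
  have a4 := W_half_other_light i b p ω
  have a5 := S_add p b ω i
  have a6 := S_add (!p) b ω i
  have hH : ∀ x, half i b ω x ≤ 2 := half_le hω i b
  have hH' : ∀ x, half i (!b) ω x ≤ 2 := half_le hω i (!b)
  generalize hpb : xor b p = pb at a1 a2 a3 a4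
  generalize hη : half i b ω = η at a1 a2 hH
  generalize hη' : half i (!b) ω = η' at a3 a4 hH'
  generalize S p ω i b = e0 at *
  generalize S (!p) ω i b = o0 at *
  generalize S p ω i (!b) = e1 at *
  generalize S (!p) ω i (!b) = o1 at *
  have z4 := zeros_card pb η'
  obtain ⟨V', hVs, hVc⟩ := Finset.exists_subset_card_eq
    (s := (Finset.univ.filter (fun x : V (m + 1) => par x = pb ∧ η' x = 0)))
    (n := e1 - o1) (by omega)
  have hV : ∀ x ∈ V', par x = pb ∧ η' x = 0 := by
    intro x hx
    exact (Finset.mem_filter.1 (hVs hx)).2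
  refine ruleE_comp hω i b ∅ V' ?_ ?_ ?_ ?_
  · intro x hx
    exact absurd hx (Finset.notMem_empty x)
  · intro x hx
    rw [hpb, hη']
    exact hV x hx
  · rw [Finset.card_empty]
    omega
  · intro ω' hω' hb hb'
    rw [hη] at hb
    rw [hη'] at hb'
    have e1' : plus η ∅ = η := by
      funext x
      simp [plus, ind]
    rw [e1'] at hb
    have u1 : W (!pb) η = e0 := by omega
    have u2 : W (!(!pb)) η = e0 := by
      rw [Bool.not_not]
      omega
    have u3 : W (!pb) (plus η' V') = e1 := by
      rw [W_plus_not _ _ _ (fun x hx => by rw [Bool.not_not]; exact (hV x hx).1)]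
      omega
    have u4 : W (!(!pb)) (plus η' V') = e1 := by
      rw [Bool.not_not, W_plus _ _ _ (fun x hx => (hV x hx).1)]
      omega
    have hp2 : ∀ x, plus η' V' x ≤ 2 :=
      ruleE_plus_le hH' (fun x hx => by rw [(hV x hx).2]; omega)
    have hpc := ruleE_pos_card _ _ u3 u4
    refine good_of_split0 i b ω' hω' ?_ ?_ ?_ ?_ ?_
    · rw [hb]
      exact ruleE_good hE hH (!pb) u1 u2 h0
    · rw [hb']
      exact ruleE_good hE hp2 (!pb) u3 u4 (by omega)
    · rw [hb]
      exact ruleE_even (!pb) u1 u2
    · rw [hb']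
      intro y z hyz hy hz
      exact ruleE_raise hE hp2 (!pb) u3 u4 h1 hyz hy hz
    · rw [hb, hb', sum_eq_W]
      have h3 : W true η + W false η = e0 + e0 := by
        cases pb
        · rw [show W true η = e0 from u1, show W false η = e0 from u2]
        · rw [show W false η = e0 from u1, show W true η = e0 from u2]
      rw [h3]
      have : 2 ^ (m + 1) = 2 ^ (m + 1) := rfl
      omega

/-- the refined trick in dimension 5 -/
lemma ruleE_caseR {p : Bool} {ω : V (4 + 1) → ℕ} (hω : ∀ x, ω x ≤ 2)
    (i : Fin (4 + 1)) (b : Bool) (hE : EL 4)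
    (h0 : S p ω i b = 4) (h0' : S (!p) ω i b = 4) (h1 : S p ω i (!b) = 3)
    (h1' : S (!p) ω i (!b) ≤ 2) : Comp p ω := by
  classical
  have a1 := W_half_heavy i b p ω
  have a2 := W_half_light i b p ω
  have a3 := W_half_other_heavy i b p ω
  have a4 := W_half_other_light i b p ω
  have a5 := S_add p b ω i
  have a6 := S_add (!p) b ω i
  have hH : ∀ x, half i b ω x ≤ 2 := half_le hω i b
  have hH' : ∀ x, half i (!b) ω x ≤ 2 := half_le hω i (!b)
  generalize hpb : xor b p = pb at a1 a2 a3 a4
  generalize hη : half i b ω = η at a1 a2 hH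
  generalize hη' : half i (!b) ω = η' at a3 a4 hH'
  generalize S p ω i b = e0 at *
  generalize S (!p) ω i b = o0 at *
  generalize S p ω i (!b) = e1 at *
  generalize S (!p) ω i (!b) = o1 at *
  obtain ⟨x0, hx0, hx0'⟩ : ∃ x0, par x0 = pb ∧ 0 < η x0 := by
    by_contra hcon
    push Not at hcon
    have : W pb η = 0 := by
      unfold W
      apply Finset.sum_eq_zero
      intro x hx
      have := hcon x (Finset.mem_filter.1 hx).2
      omega
    omega
  have z4 := zeros_card (m := 3) pb η'
  obtain ⟨V', hVs0, hVs, hVc⟩ := Finset.exists_subsuperset_card_eq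
    (s := Finset.filter (fun x => η' x = 0) {x0})
    (t := (Finset.univ.filter (fun x : V (3 + 1) => par x = pb ∧ η' x = 0)))
    (n := e1 - o1) (by
      intro x hx
      rw [Finset.mem_filter, Finset.mem_singleton] at hx
      rw [Finset.mem_filter, hx.1]
      rw [hx.1] at hx
      exact ⟨Finset.mem_univ _, hx0, hx.2⟩)
    (by
      refine le_trans (Finset.card_filter_le _ _) ?_
      rw [Finset.card_singleton]
      omega) (by omega)
  have hV : ∀ x ∈ V', par x = pb ∧ η' x = 0 := by
    intro x hx
    exact (Finset.mem_filter.1 (hVs hx)).2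
  refine ruleE_comp hω i b ∅ V' ?_ ?_ ?_ ?_
  · intro x hx
    exact absurd hx (Finset.notMem_empty x)
  · intro x hx
    rw [hpb, hη']
    exact hV x hx
  · rw [Finset.card_empty]
    omega
  · intro ω' hω' hb hb'
    rw [hη] at hb
    rw [hη'] at hb'
    have e1' : plus η ∅ = η := by
      funext x
      simp [plus, ind]
    rw [e1'] at hb
    have u1 : W (!pb) η = 4 := by omega
    have u2 : W (!(!pb)) η = 4 := by
      rw [Bool.not_not]
      omega
    have u3 : W (!pb) (plus η' V') = 3 := by
      rw [W_plus_not _ _ _ (fun x hx => by rw [Bool.not_not]; exact (hV x hx).1)]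
      omega
    have u4 : W (!(!pb)) (plus η' V') = 3 := by
      rw [Bool.not_not, W_plus _ _ _ (fun x hx => (hV x hx).1)]
      omega
    have hp2 : ∀ x, plus η' V' x ≤ 2 :=
      ruleE_plus_le hH' (fun x hx => by rw [(hV x hx).2]; omega)
    have hpc := ruleE_pos_card _ _ u3 u4
    have hmem : 0 < plus η' V' x0 := by
      unfold plus ind
      by_cases h : η' x0 = 0
      · have : x0 ∈ V' := hVs0 (by
          rw [Finset.mem_filter, Finset.mem_singleton]
          exact ⟨rfl, h⟩)
        rw [if_pos this]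
        omega
      · omega
    refine good_of_split0' i b ω' hω' ?_ ?_ ?_ ?_ ?_
    · rw [hb]
      exact ruleE_good hE hH (!pb) u1 u2 (by norm_num)
    · rw [hb']
      exact ruleE_good hE hp2 (!pb) u3 u4 (by norm_num)
    · rw [hb]
      exact ruleE_even (!pb) u1 u2
    · rw [hb']
      intro y z hyz hy hz
      exact ruleE_raise hE hp2 (!pb) u3 u4 (by norm_num) hyz hy hz
    · rw [hb, hb', sum_eq_W]
      have h3 : W true η + W false η = 4 + 4 := by
        cases pb
        · rw [show W true η = 4 from u1, show W false η = 4 from u2]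
        · rw [show W false η = 4 from u1, show W true η = 4 from u2]
      rw [h3]
      set P := Finset.univ.filter (fun x : V 4 => 0 < plus η' V' x) with hP
      have hx0P : x0 ∈ P := by
        rw [hP, Finset.mem_filter]
        exact ⟨Finset.mem_univ _, hmem⟩
      have h5 : ∑ x ∈ P, (2 - η x) = ∑ x ∈ P.erase x0, (2 - η x) + (2 - η x0) :=
        (Finset.sum_erase_add _ _ hx0P).symm
      have h6 : ∑ x ∈ P.erase x0, (2 - η x) ≤ ∑ x ∈ P.erase x0, 2 :=
        Finset.sum_le_sum (fun x _ => Nat.sub_le _ _)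
      rw [Finset.sum_const, smul_eq_mul, Finset.card_erase_of_mem hx0P] at h6
      have h7 : (P.card - 1) * 2 ≤ 10 := by omega
      norm_num
      omega

lemma ruleE_pow1 {k : ℕ} (hk : 5 ≤ k) : 5 * k < 2 ^ k := by
  induction k, hk using Nat.le_induction with
  | base => norm_num
  | succ k hk ih =>
    rw [pow_succ]
    omega

lemma ruleE_pow2 {k : ℕ} (hk : 3 ≤ k) : 2 * (k + 1) ≤ 2 ^ k := by
  induction k, hk using Nat.le_induction with
  | base => norm_num
  | succ k hk ih =>
    rw [pow_succ]
    omega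

theorem comp_R3 {p : Bool} {ω : V (m + 1) → ℕ} (hω : ∀ x, ω x ≤ 2) (i : Fin (m + 1))
    (hE : EL m)
    (hm : (5 ≤ m ∧ W p ω ≤ 2 * m) ∨ (m = 4 ∧ W p ω ≤ 7 ∧ W (!p) ω ≤ 6))
    (hW : W (!p) ω ≤ W p ω) (h : ∀ q b, S q ω i b + 4 ≤ 2 * m) : Comp p ω := by
  have hm4 : 4 ≤ m := by omega
  obtain ⟨k, rfl⟩ : ∃ k, m = k + 1 := ⟨m - 1, by omega⟩
  have hk3 : 3 ≤ k := by omega
  have P1 := ruleE_pow2 hk3
  have P2 : 5 ≤ k + 1 → 5 * (k + 1) < 2 ^ (k + 1) := fun h => ruleE_pow1 h
  have P3 : k = 3 → 2 ^ (k + 1) = 16 := by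
    rintro rfl
    norm_num
  have hWk : W p ω ≤ 2 ^ k := by omega
  have s1 := S_add p false ω i
  have s2 := S_add (!p) false ω i
  simp only [Bool.not_false] at s1 s2
  have h1 := h p false
  have h2 := h p true
  have h3 := h (!p) false
  have h4 := h (!p) true
  by_cases c1 : S p ω i true < S (!p) ω i true
  · exact ruleE_case1 hω i false hE hW c1 h1 h4 (by omega) (by omega)
  by_cases c2 : S p ω i false < S (!p) ω i false
  · exact ruleE_case1 hω i true hE hW c2 h2 h3 (by omega) (by omega)
  by_cases c3 : S (!p) ω i false < S p ω i false ∧ S p ω i true + 5 ≤ 2 * (k + 1)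
  · exact ruleE_case3a hω i false hE c3.1 (by simpa using c1) h1 c3.2 hWk
  by_cases c4 : S (!p) ω i true < S p ω i true ∧ S p ω i false + 5 ≤ 2 * (k + 1)
  · exact ruleE_case3a hω i true hE c4.1 (by simpa using c2) h2 c4.2 hWk
  by_cases c5 : S (!p) ω i false = S p ω i false ∧ S p ω i true + 5 ≤ 2 * (k + 1) ∧
      4 * S p ω i true + S p ω i false < 2 ^ (k + 1)
  · exact ruleE_caseT hω i false hE c5.1 (by simpa using c1) h1 c5.2.1 c5.2.2
  by_cases c6 : S (!p) ω i true = S p ω i true ∧ S p ω i false + 5 ≤ 2 * (k + 1) ∧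
      4 * S p ω i false + S p ω i true < 2 ^ (k + 1)
  · exact ruleE_caseT hω i true hE c6.1 (by simpa using c2) h2 c6.2.1 c6.2.2
  by_cases c7 : k = 3 ∧ S p ω i false = 4 ∧ S (!p) ω i false = 4 ∧ S p ω i true = 3 ∧
      S (!p) ω i true ≤ 2
  · obtain ⟨rfl, d1, d2, d3, d4⟩ := c7
    exact ruleE_caseR hω i false hE d1 d2 d3 d4
  by_cases c8 : k = 3 ∧ S p ω i true = 4 ∧ S (!p) ω i true = 4 ∧ S p ω i false = 3 ∧
      S (!p) ω i false ≤ 2
  · obtain ⟨rfl, d1, d2, d3, d4⟩ := c8
    exact ruleE_caseR hω i true hE d1 d2 d3 d4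
  exfalso
  generalize S p ω i false = e0 at *
  generalize S (!p) ω i false = o0 at *
  generalize S p ω i true = e1 at *
  generalize S (!p) ω i true = o1 at *
  rcases hm with ⟨hm5, hm6⟩ | ⟨hm5, hm6, hm7⟩
  · have := P2 hm5
    omega
  · have hk : k = 3 := by omega
    have := P3 hk
    omega

end Pool.Agent.Locke
end

section

end

section

/-! # Locke's conjecture, part 2: what the failure of all rules says about one direction

`m` is the dimension of the halves.  `b` is an arbitrary side; the numbers are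
`e1 = S p ω i (!b)` etc. -/

namespace Pool.Agent.Locke

variable {m : ℕ}

/-- the completion of a half of heavy weight `2m - 3` -/
lemma steps_comp1 {g1 : ℕ} (h1 : B1 m g1) {p : Bool} {ω : V (m + 1) → ℕ}
    (hω : ∀ x, ω x ≤ 2) (hP : PW ω) (i : Fin (m + 1)) (b : Bool)
    (he : S p ω i b + 3 = 2 * m) (ho : S (!p) ω i b + 4 + g1 ≤ 2 * m) :
    Comp (xor b p) (half i b ω) := by
  refine h1 (xor b p) (half i b ω) (half_le hω i b) (PW_half hP i b) ?_ ?_
  · rw [W_half_heavy]; exact he
  · rw [W_half_light]; exact ho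

/-- the completion of a half of heavy weight `2m - 2` -/
lemma steps_comp2 {g2 : ℕ} (h2 : B2 m g2) {p : Bool} {ω : V (m + 1) → ℕ}
    (hω : ∀ x, ω x ≤ 2) (hP : PW ω) (i : Fin (m + 1)) (b : Bool)
    (he : S p ω i b + 2 = 2 * m) (ho : S (!p) ω i b + 4 + g2 ≤ 2 * m) :
    Comp (xor b p) (half i b ω) := by
  refine h2 (xor b p) (half i b ω) (half_le hω i b) (PW_half hP i b) ?_ ?_
  · rw [W_half_heavy]; exact he
  · rw [W_half_light]; exact ho

lemma steps_pow5 {m : ℕ} (hm : 5 ≤ m) : 5 * m + 7 ≤ 2 ^ m := by
  induction m, hm using Nat.le_induction with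
  | base => norm_num
  | succ k hk ih => rw [pow_succ]; omega

/-- the balanced step at the top weight `2(m+1) - 4 = 2m - 2` -/
theorem E_step {g1 g2 : ℕ} (hm : 4 ≤ m) (hE : EL m) (h1 : B1 m g1) (h2 : B2 m g2)
    {ω : V (m + 1) → ℕ} (hω : ∀ x, ω x ≤ 2) (hb : W true ω = W false ω)
    (hw : W true ω + 2 = 2 * m) (hbad : ¬ Good ω) (i : Fin (m + 1)) :
    (∃ q b, S q ω i b ≤ 1) ∧
    (∀ p b, S p ω i (!b) = 0 → S (!p) ω i (!b) < 2 + g2 ∨ 2 * m < S (!p) ω i (!b) + 4) ∧
    (∀ p b, S p ω i (!b) = 1 → S (!p) ω i (!b) < 2 + g1 ∨ 2 * m < S (!p) ω i (!b) + 4) := by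
  have hWp : ∀ p, W p ω + 2 = 2 * m := by
    intro p
    cases p
    · omega
    · exact hw
  have hP : PW ω := by
    intro j
    by_contra hcon
    push Not at hcon
    apply hbad
    have hcomp : Comp true ω := by
      refine comp_R3 hω j hE ?_ (by rw [Bool.not_true, hb]) ?_
      · rcases Nat.lt_or_ge 4 m with h | h
        · left; omega
        · right
          have h3 := hWp true
          have h4 := hWp false
          refine ⟨by omega, by omega, ?_⟩
          rw [Bool.not_true]; omega
      · intro q b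
        have h3 := S_add q b ω j
        have h4 := hcon q (!b)
        have h5 := hWp q
        omega
    exact good_of_comp hcomp (by rw [Bool.not_true, hb])
  refine ⟨hP i, ?_, ?_⟩
  · intro p b h0
    by_contra hcon
    push Not at hcon
    obtain ⟨hc1, hc2⟩ := hcon
    have h3 := S_add p b ω i
    have h4 := S_add (!p) b ω i
    have h5 := hWp p
    have h6 := hWp (!p)
    have hC := steps_comp2 h2 hω hP i b (p := p) (by omega) (by omega)
    have hcomp : Comp p ω :=
      comp_R1 hω i b hE hC (by omega) (by omega) (by omega) (Or.inl (by omega))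
    exact hbad (good_of_comp hcomp (by omega))
  · intro p b h0
    by_contra hcon
    push Not at hcon
    obtain ⟨hc1, hc2⟩ := hcon
    have h3 := S_add p b ω i
    have h4 := S_add (!p) b ω i
    have h5 := hWp p
    have h6 := hWp (!p)
    have hC := steps_comp1 h1 hω hP i b (p := p) (by omega) (by omega)
    exact hbad (good_R1m hω i b hm hE hC (by omega) (by omega) (by omega) (by omega) (by omega))

/-- the step for the heavy class `2(m+1) - 3 = 2m - 1`, light class at most `2m - 3` -/
theorem B1_step {g1 g2 : ℕ} (hm : 5 ≤ m) (hg : g1 + 3 ≤ m) (hE : EL m) (h1 : B1 m g1)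
    (h2 : B2 m g2) {p : Bool} {ω : V (m + 1) → ℕ} (hω : ∀ x, ω x ≤ 2) (hP : PW ω)
    (he : W p ω + 1 = 2 * m) (ho : W (!p) ω + 3 ≤ 2 * m) (hbad : ¬ Comp p ω)
    (i : Fin (m + 1)) (b : Bool) (hb : S p ω i (!b) ≤ S p ω i b) :
    S p ω i (!b) = 0 ∨
    (S p ω i (!b) = 1 ∧
      (2 * m < S (!p) ω i b + 4 + g2 ∨ (W (!p) ω + 3 = 2 * m ∧ S (!p) ω i b = 0))) ∨
    (S p ω i (!b) = 2 ∧
      (2 * m < S (!p) ω i b + 4 + g1 ∨ (W (!p) ω + 3 = 2 * m ∧ S (!p) ω i b = 0))) ∨
    (3 ≤ S p ω i (!b) ∧ S p ω i (!b) < 3 + g1 ∧ W (!p) ω + 3 = 2 * m ∧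
      S (!p) ω i (!b) = 0) := by
  have hpow := steps_pow5 hm
  have h3 := S_add p b ω i
  have h4 := S_add (!p) b ω i
  rcases Nat.lt_or_ge (S p ω i (!b)) 3 with hq | hq
  · -- q ≤ 2
    rcases Nat.eq_zero_or_pos (S p ω i (!b)) with hq0 | hq0
    · exact Or.inl hq0
    · rcases Nat.lt_or_ge (S p ω i (!b)) 2 with hq1 | hq2
      · -- q = 1
        right; left
        refine ⟨by omega, ?_⟩
        by_contra hcon
        rw [not_or, not_lt] at hcon
        obtain ⟨hc1, hc2⟩ := hcon
        have ho1 : S (!p) ω i (!b) + 4 ≤ 2 * m := by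
          by_contra h
          apply hc2
          constructor <;> omega
        have hC := steps_comp2 h2 hω hP i b (p := p) (by omega) (by omega)
        apply hbad
        rcases Nat.lt_or_ge (S (!p) ω i (!b)) 2 with hs | hs
        · exact comp_R2 hω i b hE hC (by omega) (by omega) (Or.inl (by omega))
        · exact comp_R1 hω i b hE hC (by omega) (by omega) (by omega) (Or.inl (by omega))
      · -- q = 2
        right; right; left
        refine ⟨by omega, ?_⟩
        by_contra hcon
        rw [not_or, not_lt] at hcon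
        obtain ⟨hc1, hc2⟩ := hcon
        have ho1 : S (!p) ω i (!b) + 4 ≤ 2 * m := by
          by_contra h
          apply hc2
          constructor <;> omega
        have hC := steps_comp1 h1 hω hP i b (p := p) (by omega) (by omega)
        apply hbad
        rcases Nat.lt_or_ge (S (!p) ω i (!b)) 3 with hs | hs
        · exact comp_R2 hω i b hE hC (by omega) (by omega) (Or.inl (by omega))
        · exact comp_R1 hω i b hE hC (by omega) (by omega) (by omega) (Or.inl (by omega))
  · -- q ≥ 3
    right; right; right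
    by_cases hbig1 : S (!p) ω i (!b) + 4 ≤ 2 * m
    · by_cases hbig0 : S (!p) ω i b + 4 ≤ 2 * m
      · exfalso
        apply hbad
        refine comp_R3 hω i hE (Or.inl ⟨hm, by omega⟩) (by omega) ?_
        intro q b'
        by_cases hqp : q = p
        · subst hqp
          by_cases hbb : b' = b
          · subst hbb; omega
          · have : b' = !b := by
              cases b <;> cases b' <;> simp_all
            subst this; omega
        · have hqn : q = !p := by
            cases q <;> cases p <;> simp_all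
          subst hqn
          by_cases hbb : b' = b
          · subst hbb; omega
          · have : b' = !b := by
              cases b <;> cases b' <;> simp_all
            subst this; omega
      · -- o0 = 2m - 3
        refine ⟨hq, ?_, by omega, by omega⟩
        by_contra hcon
        rw [not_lt] at hcon
        apply hbad
        have hC : Comp (xor b (!p)) (half i b ω) :=
          steps_comp1 h1 hω hP i b (p := !p) (by omega) (by rw [Bool.not_not]; omega)
        have hC' : Comp (!(xor b p)) (half i b ω) := by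
          have : (!(xor b p)) = xor b (!p) := by cases b <;> cases p <;> rfl
          rw [this]; exact hC
        exact comp_R4 hω i b hE hC' (by omega) (by omega) (by omega) (by omega)
    · -- o1 = 2m - 3
      exfalso
      apply hbad
      have hC : Comp (xor (!b) (!p)) (half i (!b) ω) :=
        steps_comp1 h1 hω hP i (!b) (p := !p) (by omega) (by rw [Bool.not_not]; omega)
      have hC' : Comp (!(xor (!b) p)) (half i (!b) ω) := by
        have : (!(xor (!b) p)) = xor (!b) (!p) := by cases b <;> cases p <;> rfl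
        rw [this]; exact hC
      refine comp_R4 hω i (!b) hE hC' (by omega) (by omega) ?_ ?_
      · rw [Bool.not_not]; omega
      · rw [Bool.not_not]; omega

/-- the step for the heavy class `2(m+1) - 2 = 2m`, light class at most `2m - 5` -/
theorem B2_step {g1 g2 : ℕ} (hm : 5 ≤ m) (hE : EL m) (h1 : B1 m g1)
    (h2 : B2 m g2) {p : Bool} {ω : V (m + 1) → ℕ} (hω : ∀ x, ω x ≤ 2) (hP : PW ω)
    (he : W p ω = 2 * m) (ho : W (!p) ω + 5 ≤ 2 * m) (ho' : W (!p) ω + 4 + g1 ≤ 2 * m)
    (hbad : ¬ Comp p ω)
    (i : Fin (m + 1)) (b : Bool) (hb : S p ω i (!b) ≤ S p ω i b) :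
    S p ω i (!b) ≤ 1 ∨ (S p ω i (!b) = 2 ∧ 2 * m < S (!p) ω i b + 4 + g2) := by
  have hpow := steps_pow5 hm
  have h3 := S_add p b ω i
  have h4 := S_add (!p) b ω i
  by_contra hcon
  rw [not_or, not_le] at hcon
  obtain ⟨hc1, hc2⟩ := hcon
  apply hbad
  rcases Nat.lt_or_ge (S p ω i (!b)) 3 with hq | hq
  · -- q = 2
    have hq2 : S p ω i (!b) = 2 := by omega
    have hc3 : S (!p) ω i b + 4 + g2 ≤ 2 * m := by
      by_contra h
      exact hc2 ⟨hq2, by omega⟩
    have hC := steps_comp2 h2 hω hP i b (p := p) (by omega) (by omega)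
    rcases Nat.lt_or_ge (S (!p) ω i (!b)) 3 with hs | hs
    · exact comp_R2 hω i b hE hC (by omega) (by omega) (Or.inl (by omega))
    · exact comp_R1 hω i b hE hC (by omega) (by omega) (by omega) (Or.inl (by omega))
  · rcases Nat.lt_or_ge (S p ω i (!b)) 4 with hq' | hq'
    · -- q = 3
      have hC := steps_comp1 h1 hω hP i b (p := p) (by omega) (by omega)
      rcases Nat.lt_or_ge (S (!p) ω i (!b)) 4 with hs | hs
      · exact comp_R2 hω i b hE hC (by omega) (by omega) (Or.inl (by omega))
      · exact comp_R1 hω i b hE hC (by omega) (by omega) (by omega) (Or.inl (by omega))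
    · refine comp_R3 hω i hE (Or.inl ⟨hm, by omega⟩) (by omega) ?_
      intro q b'
      by_cases hqp : q = p
      · subst hqp
        by_cases hbb : b' = b
        · subst hbb; omega
        · have : b' = !b := by
            cases b <;> cases b' <;> simp_all
          subst this; omega
      · have hqn : q = !p := by
          cases q <;> cases p <;> simp_all
        subst hqn
        by_cases hbb : b' = b
        · subst hbb; omega
        · have : b' = !b := by
            cases b <;> cases b' <;> simp_all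
          subst this; omega

end Pool.Agent.Locke
end

section

/-! # Locke's conjecture, part 2: the B statements in dimensions 11 and above -/

namespace Pool.Agent.Locke

variable {m : ℕ}

/-- sum over a set and its complement with constant bounds -/
lemma large_sum_le {n : ℕ} (f : Fin n → ℕ) (T : Finset (Fin n)) (a b : ℕ)
    (h1 : ∀ i ∈ T, f i ≤ a) (h2 : ∀ i ∈ Tᶜ, f i ≤ b) :
    ∑ i, f i ≤ T.card * a + Tᶜ.card * b := by
  rw [← Finset.sum_add_sum_compl T f]
  have e1 : ∑ i ∈ T, f i ≤ T.card * a := by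
    have := Finset.sum_le_card_nsmul T f a h1
    simpa using this
  have e2 : ∑ i ∈ Tᶜ, f i ≤ Tᶜ.card * b := by
    have := Finset.sum_le_card_nsmul Tᶜ f b h2
    simpa using this
  omega

/-- counting: with all `q i ≤ 2`, `∑ φ(q) + 3 #{q ≤ 1} + 3 #{q = 0} ≤ 6 n` -/
lemma large_phi {n : ℕ} (q : Fin n → ℕ) (hq : ∀ i, q i ≤ 2) :
    ∑ i, (q i + 2 * min (q i) 2) + 3 * (Finset.univ.filter (fun i => q i ≤ 1)).card
      + 3 * (Finset.univ.filter (fun i => q i = 0)).card ≤ 6 * n := by
  have hc1 : 3 * (Finset.univ.filter (fun i => q i ≤ 1)).card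
      = ∑ i : Fin n, (if q i ≤ 1 then 3 else 0) := by
    rw [← Finset.sum_filter, Finset.sum_const, smul_eq_mul, mul_comm]
  have hc0 : 3 * (Finset.univ.filter (fun i => q i = 0)).card
      = ∑ i : Fin n, (if q i = 0 then 3 else 0) := by
    rw [← Finset.sum_filter, Finset.sum_const, smul_eq_mul, mul_comm]
  rw [hc1, hc0, ← Finset.sum_add_distrib, ← Finset.sum_add_distrib]
  calc _ ≤ ∑ _i : Fin n, 6 := by
        apply Finset.sum_le_sum
        intro i _
        have := hq i
        interval_cases h : q i <;> simp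
    _ = 6 * n := by simp [mul_comm]

theorem B1_large (hm : 10 ≤ m) (hE : EL m) (h1 : B1 m 2) (h2 : B2 m 4) : B1 (m + 1) 2 := by
  intro p ω hω hP he ho
  by_contra hbad
  obtain ⟨c, hc⟩ := exists_centre p ω
  have hstep := fun i => B1_step (by omega) (by omega) hE h1 h2 hω hP (by omega) (by omega) hbad i
    (c i) (hc i)
  have hs : ∀ i, S (!p) ω i (c i) + S (!p) ω i (!c i) = W (!p) ω := fun i => S_add (!p) (c i) ω i
  have hq : ∀ i, S p ω i (!c i) = 0 ∨
      (S p ω i (!c i) = 1 ∧ 2 * m < S (!p) ω i (c i) + 8) ∨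
      (S p ω i (!c i) = 2 ∧ 2 * m < S (!p) ω i (c i) + 6) := by
    intro i
    have h := hstep i
    have h' := hs i
    omega
  have hq2 : ∀ i, S p ω i (!c i) ≤ 2 := by
    intro i
    have := hq i
    omega
  have hcard : ∀ T : Finset (Fin (m + 1)), T.card + Tᶜ.card = m + 1 := by
    intro T
    rw [Finset.card_add_card_compl, Fintype.card_fin]
  -- the parity of the centre
  have hcp : par c = !p := by
    by_contra hne
    have hcp : par c = p := by
      revert hne; cases par c <;> cases p <;> simp
    have hN2 := N2 hcp ω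
    have hsum : ∑ i, S p ω i (!c i) ≤ (m + 1) * 2 := by
      have := Finset.sum_le_card_nsmul Finset.univ (fun i => S p ω i (!c i)) 2
        (fun i _ => hq2 i)
      simpa using this
    have := hω c
    omega
  have hN1 := N1' hcp ω hω
  have hphi := large_phi (fun i => S p ω i (!c i)) hq2
  set T := Finset.univ.filter (fun i => S p ω i (!c i) ≤ 1) with hT
  have hT3 : T.card + (Finset.univ.filter (fun i => S p ω i (!c i) = 0)).card ≤ 3 := by omega
  have hTc := hcard T
  have hK : ∀ i ∈ Tᶜ, 2 * m < S (!p) ω i (c i) + 6 := by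
    intro i hi
    rw [Finset.mem_compl, hT, Finset.mem_filter] at hi
    have := hq i
    have : ¬ (S p ω i (!c i) ≤ 1) := fun h => hi ⟨Finset.mem_univ _, h⟩
    omega
  obtain ⟨k, hk⟩ : Tᶜ.Nonempty := by
    rw [← Finset.card_pos]; omega
  have hk1 := hK k hk
  have hk2 := hs k
  have hs1 : ∀ i ∈ Tᶜ, S (!p) ω i (!c i) ≤ W (!p) ω - (2 * m - 5) := by
    intro i hi
    have := hK i hi
    have := hs i
    omega
  have hN2' := N2 hcp ω
  have hωc := hω c
  rcases Finset.eq_empty_or_nonempty T with hTe | hTn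
  · have hsum : ∑ i, S (!p) ω i (!c i) ≤ T.card * 0 + Tᶜ.card * 1 := by
      apply large_sum_le
      · intro i hi; rw [hTe] at hi; simp at hi
      · intro i hi
        have := hs1 i hi
        omega
    omega
  · have hN3 := N3 (!p) c ω hω T hTn
    have hsumK : ∑ i ∈ Tᶜ, S (!p) ω i (!c i) ≤ Tᶜ.card * (W (!p) ω - (2 * m - 5)) := by
      have := Finset.sum_le_card_nsmul Tᶜ (fun i => S (!p) ω i (!c i)) _ hs1
      simpa using this
    have hTpos : 0 < T.card := Finset.card_pos.mpr hTn
    have hT3' : T.card = 1 ∨ T.card = 2 ∨ T.card = 3 := by omega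
    have hW : W (!p) ω - (2 * m - 5) = 0 ∨ W (!p) ω - (2 * m - 5) = 1 := by omega
    rcases hW with hW | hW
    · rw [hW] at hsumK
      rcases hT3' with h | h | h <;> rw [h] at hN3 <;> norm_num at hN3 <;> omega
    · rw [hW] at hsumK
      rcases hT3' with h | h | h
      · rw [h] at hN3; norm_num at hN3; omega
      · rw [h] at hN3; norm_num at hN3; omega
      · have hm10 : m = 10 := by rw [h] at hN3; norm_num at hN3; omega
        have h0 : (Finset.univ.filter (fun i => S p ω i (!c i) = 0)).card = 0 := by omega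
        rw [Finset.card_eq_zero, Finset.filter_eq_empty_iff] at h0
        have hsum : ∑ i, S (!p) ω i (!c i) ≤ T.card * 3 + Tᶜ.card * 1 := by
          apply large_sum_le
          · intro i hi
            have := hq i
            have := hs i
            have := h0 (Finset.mem_univ i)
            omega
          · intro i hi
            have := hs1 i hi
            omega
        omega

theorem B2_large (hm : 10 ≤ m) (hE : EL m) (h1 : B1 m 2) (h2 : B2 m 4) : B2 (m + 1) 4 := by
  intro p ω hω hP he ho
  by_contra hbad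
  obtain ⟨c, hc⟩ := exists_centre p ω
  have hstep := fun i => B2_step (by omega) hE h1 h2 hω hP (by omega) (by omega) (by omega) hbad i
    (c i) (hc i)
  have hs : ∀ i, S (!p) ω i (c i) + S (!p) ω i (!c i) = W (!p) ω := fun i => S_add (!p) (c i) ω i
  have hq2 : ∀ i, S p ω i (!c i) ≤ 2 := by
    intro i
    have := hstep i
    omega
  have hcard : ∀ T : Finset (Fin (m + 1)), T.card + Tᶜ.card = m + 1 := by
    intro T
    rw [Finset.card_add_card_compl, Fintype.card_fin]
  have hcp : par c = !p := by
    by_contra hne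
    have hcp : par c = p := by
      revert hne; cases par c <;> cases p <;> simp
    have hN2 := N2 hcp ω
    have hsum : ∑ i, S p ω i (!c i) ≤ (m + 1) * 2 := by
      have := Finset.sum_le_card_nsmul Finset.univ (fun i => S p ω i (!c i)) 2
        (fun i _ => hq2 i)
      simpa using this
    have := hω c
    omega
  have hN1 := N1' hcp ω hω
  have hphi := large_phi (fun i => S p ω i (!c i)) hq2
  set T := Finset.univ.filter (fun i => S p ω i (!c i) ≤ 1) with hT
  have hT2 : T.card ≤ 2 := by omega
  have hTc := hcard T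
  have hK : ∀ i ∈ Tᶜ, 2 * m < S (!p) ω i (c i) + 8 := by
    intro i hi
    rw [Finset.mem_compl, hT, Finset.mem_filter] at hi
    have := hstep i
    have : ¬ (S p ω i (!c i) ≤ 1) := fun h => hi ⟨Finset.mem_univ _, h⟩
    omega
  obtain ⟨k, hk⟩ : Tᶜ.Nonempty := by
    rw [← Finset.card_pos]; omega
  have hk1 := hK k hk
  have hk2 := hs k
  have hs1 : ∀ i ∈ Tᶜ, S (!p) ω i (!c i) ≤ W (!p) ω - (2 * m - 7) := by
    intro i hi
    have := hK i hi
    have := hs i
    omega
  have hN2' := N2 hcp ω
  have hωc := hω c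
  rcases Finset.eq_empty_or_nonempty T with hTe | hTn
  · have hsum : ∑ i, S (!p) ω i (!c i) ≤ T.card * 0 + Tᶜ.card * 1 := by
      apply large_sum_le
      · intro i hi; rw [hTe] at hi; simp at hi
      · intro i hi
        have := hs1 i hi
        omega
    omega
  · have hN3 := N3 (!p) c ω hω T hTn
    have hsumK : ∑ i ∈ Tᶜ, S (!p) ω i (!c i) ≤ Tᶜ.card * (W (!p) ω - (2 * m - 7)) := by
      have := Finset.sum_le_card_nsmul Tᶜ (fun i => S (!p) ω i (!c i)) _ hs1
      simpa using this
    have hTpos : 0 < T.card := Finset.card_pos.mpr hTn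
    have hT2' : T.card = 1 ∨ T.card = 2 := by omega
    have hW : W (!p) ω - (2 * m - 7) = 0 ∨ W (!p) ω - (2 * m - 7) = 1 := by omega
    rcases hW with hW | hW
    · rw [hW] at hsumK
      rcases hT2' with h | h <;> rw [h] at hN3 <;> norm_num at hN3 <;> omega
    · rw [hW] at hsumK
      rcases hT2' with h | h <;> rw [h] at hN3 <;> norm_num at hN3 <;> omega

end Pool.Agent.Locke
end

section

/-! # Locke's conjecture, part 2: the star configurations XS -/

namespace Pool.Agent.Locke

variable {m : ℕ}

/-- a star whose non-central part is completely described; see `XS_step` -/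
structure XS {n : ℕ} (p : Bool) (c : V n) (a b : Fin n) (ω : V n → ℕ) : Prop where
  le : ∀ x, ω x ≤ 2
  star : Star p c ω
  ne : a ≠ b
  fa : ω (flip c a) = 1
  fb : ω (flip c b) = 1
  fo : ∀ i, i ≠ a → i ≠ b → ω (flip c i) = 2
  Wl : W (!p) ω = n + 1
  centre : ω c = 1
  ab : ω (flip (flip c a) b) = 2
  light : ∀ i, i ≠ a → i ≠ b → S (!p) ω i (!c i) = 1

lemma starX_ins_flip2 (c : V (m + 1)) (i : Fin (m + 1)) (a b : Fin m) :
    ins i (c i) (flip (flip (fun j => c (i.succAbove j)) a) b)
      = flip (flip c (i.succAbove a)) (i.succAbove b) := by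
  funext j
  rcases Fin.eq_self_or_eq_succAbove i j with rfl | ⟨k, rfl⟩
  · rw [ins_apply_self, cube_flip_of_ne _ (Fin.succAbove_ne j b).symm,
      cube_flip_of_ne _ (Fin.succAbove_ne j a).symm]
  · rw [ins_succAbove]
    by_cases hb : k = b
    · subst hb
      rw [cube_flip_self, cube_flip_self]
      by_cases ha : k = a
      · subst ha
        rw [cube_flip_self, cube_flip_self]
      · rw [cube_flip_of_ne _ ha,
          cube_flip_of_ne _ (fun h => ha (Fin.succAbove_right_injective h))]
    · rw [cube_flip_of_ne _ hb,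
        cube_flip_of_ne _ (fun h => hb (Fin.succAbove_right_injective h))]
      by_cases ha : k = a
      · subst ha
        rw [cube_flip_self, cube_flip_self]
      · rw [cube_flip_of_ne _ ha,
          cube_flip_of_ne _ (fun h => ha (Fin.succAbove_right_injective h))]

lemma starX_all_one {ι : Type*} (s : Finset ι) (f : ι → ℕ) (hf : ∀ i ∈ s, f i ≤ 1)
    (h : s.card ≤ ∑ i ∈ s, f i) : ∀ i ∈ s, f i = 1 := by
  classical
  intro i hi
  by_contra hne
  have h1 : f i = 0 := by have := hf i hi; omega
  have h2 : ∑ j ∈ s, f j < ∑ j ∈ s, 1 := by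
    apply Finset.sum_lt_sum (fun j hj => hf j hj)
    exact ⟨i, hi, by omega⟩
  rw [Finset.sum_const, smul_eq_mul, mul_one] at h2
  omega

/-- the half of an `XS` configuration in a direction `i ≠ a, b` -/
theorem XS_half {p : Bool} {c : V (m + 1)} {a b : Fin m} {ω : V (m + 1) → ℕ} (i : Fin (m + 1))
    (hm : 4 ≤ m) (h : XS p c (i.succAbove a) (i.succAbove b) ω) :
    XS (xor (c i) p) (fun j => c (i.succAbove j)) a b (half i (c i) ω) := by
  have hia : i ≠ i.succAbove a := (Fin.succAbove_ne i a).symm
  have hib : i ≠ i.succAbove b := (Fin.succAbove_ne i b).symm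
  have hab : a ≠ b := fun hab => h.ne (by rw [hab])
  have hlight := h.light i hia hib
  have hWl : W (!(xor (c i) p)) (half i (c i) ω) = m + 1 := by
    rw [W_half_light]
    have h1 := S_add (!p) (c i) ω i
    have h2 := h.Wl
    omega
  have hstar := star_half h.star i
  have hcentre : half i (c i) ω (fun j => c (i.succAbove j)) = 1 := by
    rw [half_centre]; exact h.centre
  have habw : half i (c i) ω (flip (flip (fun j => c (i.succAbove j)) a) b) = 2 := by
    unfold half
    rw [starX_ins_flip2]
    exact h.ab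
  refine ⟨half_le h.le i (c i), hstar, hab, ?_, ?_, ?_, hWl, hcentre, habw, ?_⟩
  · rw [half_flip_centre]; exact h.fa
  · rw [half_flip_centre]; exact h.fb
  · intro j ha hb
    rw [half_flip_centre]
    exact h.fo _ (fun h' => ha (Fin.succAbove_right_injective h'))
      (fun h' => hb (Fin.succAbove_right_injective h'))
  · have hup : ∀ j ∈ ({a, b} : Finset (Fin m))ᶜ,
        S (!(xor (c i) p)) (half i (c i) ω) j (!c (i.succAbove j)) ≤ 1 := by
      intro j hj
      rw [Finset.mem_compl, Finset.mem_insert, Finset.mem_singleton, not_or] at hj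
      have h1 := S_half_le i (c i) (!(xor (c i) p)) ω j (!c (i.succAbove j))
      have h2 : xor (c i) (!(xor (c i) p)) = !p := by cases c i <;> cases p <;> rfl
      rw [h2] at h1
      have h3 := h.light (i.succAbove j) (fun h' => hj.1 (Fin.succAbove_right_injective h'))
        (fun h' => hj.2 (Fin.succAbove_right_injective h'))
      omega
    have hN := N3_two (p := !(xor (c i) p)) (c := fun j => c (i.succAbove j)) hstar.1
      (half i (c i) ω) hab
    rw [hWl, hcentre, habw] at hN
    change m + 1 ≤ 1 + 2 + ∑ j ∈ ({a, b} : Finset (Fin m))ᶜ,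
        S (!(xor (c i) p)) (half i (c i) ω) j (!c (i.succAbove j)) at hN
    have hcard : (({a, b} : Finset (Fin m))ᶜ).card = m - 2 := by
      rw [Finset.card_compl, Finset.card_pair hab, Fintype.card_fin]
    intro j ha hb
    apply starX_all_one (({a, b} : Finset (Fin m))ᶜ)
      (fun j => S (!(xor (c i) p)) (half i (c i) ω) j (!c (i.succAbove j))) hup
    · rw [hcard]
      omega
    · rw [Finset.mem_compl, Finset.mem_insert, Finset.mem_singleton, not_or]
      exact ⟨ha, hb⟩

lemma starX_pow (hm : 5 ≤ m) : 8 + 2 * m < 2 ^ m := by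
  induction m, hm using Nat.le_induction with
  | base => norm_num
  | succ k hk ih => rw [pow_succ]; omega

theorem XS_step (hm : 5 ≤ m) (hE : EL m)
    (h : ∀ (p : Bool) (c : V m) (a b : Fin m) (ω : V m → ℕ), XS p c a b ω → Comp p ω)
    (p : Bool) (c : V (m + 1)) (a b : Fin (m + 1)) (ω : V (m + 1) → ℕ) (hω : XS p c a b ω) :
    Comp p ω := by
  obtain ⟨i, hi⟩ : ∃ i : Fin (m + 1), i ∉ ({a, b} : Finset (Fin (m + 1))) := by
    by_contra hcon
    push Not at hcon
    have h1 : (Finset.univ : Finset (Fin (m + 1))) ⊆ {a, b} := fun x _ => hcon x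
    have h2 := Finset.card_le_card h1
    rw [Finset.card_univ, Fintype.card_fin] at h2
    have h3 : ({a, b} : Finset (Fin (m + 1))).card ≤ 2 := Finset.card_le_two
    omega
  rw [Finset.mem_insert, Finset.mem_singleton, not_or] at hi
  obtain ⟨a', rfl⟩ := Fin.exists_succAbove_eq (Ne.symm hi.1)
  obtain ⟨b', rfl⟩ := Fin.exists_succAbove_eq (Ne.symm hi.2)
  have hS1 : S p ω i (!c i) = 2 := by
    rw [star_S hω.star]; exact hω.fo i hi.1 hi.2
  have hS2 := hω.light i hi.1 hi.2
  have hW : W p ω ≤ 2 * (m + 1) := by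
    rw [star_W hω.star]
    calc ∑ i, ω (flip c i) ≤ ∑ _i : Fin (m + 1), 2 := Finset.sum_le_sum (fun i _ => hω.le _)
      _ = 2 * (m + 1) := by
        rw [Finset.sum_const, Finset.card_univ, Fintype.card_fin, smul_eq_mul, mul_comm]
  have hadd := S_add p (c i) ω i
  have hpow := starX_pow hm
  refine comp_R2 hω.le i (c i) hE (h _ _ a' b' _ (XS_half i (by omega) hω)) ?_ ?_ (Or.inl ?_)
  · omega
  · omega
  · omega

end Pool.Agent.Locke
end

section

/-! # Locke's conjecture, part 2: the special configurations of dimension 5.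

The propositions `SpecA`, `SpecX`, `SpecF`, `SpecD` are the explicit configurations (they are
proved by kernel computation elsewhere); the theorems of `Sp5A`, `Sp5X`, `Sp5D` move them to general
position by translations and permutations -/

namespace Pool.Agent.Locke

/-- the zero vertex -/
def z5 : V 5 := fun _ => false

def SpecA : Prop := ∀ b0 : V 5, par b0 = true →
  Comp true (fun x => starW z5 ![2, 2, 2, 1, 0] x + starW b0 ![1, 1, 1, 1, 2] x)

def SpecX : Prop := ∀ s0 s1 s2 : Bool,
  Comp true (fun x => starW z5 ![2, 2, 2, 1, 1] x + (if x = z5 then 1 else 0) +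
    (if x = flip (flip z5 3) 4 then 2 else 0) +
    (if x = flip (flip z5 0) (if s0 then 4 else 3) then 1 else 0) +
    (if x = flip (flip z5 1) (if s1 then 4 else 3) then 1 else 0) +
    (if x = flip (flip z5 2) (if s2 then 4 else 3) then 1 else 0))

def SpecF : Prop := Comp true (ds z5 2 ![2, 2, 2, 1, 1] ![1, 1, 0, 2, 2])

def SpecD : Prop := Comp true (ds z5 4 ![2, 2, 2, 1, 1] ![1, 1, 1, 2, 1])

/-- the exceptional configurations of `B1 5 0` -/
def A5 : Prop := ∀ (p : Bool) (c b0 : V 5) (a j : Fin 5) (t y : Fin 5 → ℕ), par c = !p →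
  par b0 = p → a ≠ j → t a = 0 → t j = 1 → (∀ i, i ≠ a → i ≠ j → t i = 2) →
  y a = 2 → (∀ i, i ≠ a → y i = 1) → Comp p (fun x => starW c t x + starW b0 y x)

end Pool.Agent.Locke
end

section

/-! # Locke's conjecture, part 2: the statement B1 in dimension 5 -/

namespace Pool.Agent.Locke

lemma l5b_R4 (hE : EL 4) (h1 : B1 4 0) (h2 : B2 4 0) {p : Bool} {ω : V 5 → ℕ}
    (hω : ∀ x, ω x ≤ 2) (hPW : PW ω) (hp : W p ω = 7) (hq : W (!p) ω ≤ 6) (i : Fin 5) (b : Bool)
    (h0 : 5 ≤ S (!p) ω i b) (he0 : S p ω i b ≤ 4) (he1 : S p ω i (!b) ≤ 4) : Comp p ω := by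
  have hs := S_add (!p) b ω i
  have hC : Comp (!(xor b p)) (half i b ω) := by
    rcases (by omega : S (!p) ω i b = 5 ∨ S (!p) ω i b = 6) with h | h
    · refine h1 (!(xor b p)) (half i b ω) (half_le hω i b) (PW_half hPW i b) ?_ ?_
      · rw [W_half_light, h]
      · rw [Bool.not_not, W_half_heavy]
        omega
    · refine h2 (!(xor b p)) (half i b ω) (half_le hω i b) (PW_half hPW i b) ?_ ?_
      · rw [W_half_light, h]
      · rw [Bool.not_not, W_half_heavy]
        omega
  rcases (by omega : S (!p) ω i (!b) = 0 ∨ S (!p) ω i (!b) = 1) with h | h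
  · exact comp_R4 hω i b hE hC (by omega) (by omega) (by omega) h
  · exact comp_R4m hω i b hE hC hp (by omega) (by omega) he1 he0 h.le

lemma l5b_bool (b b' : Bool) : b' = b ∨ b' = !b := by
  cases b <;> cases b' <;> simp

lemma l5b_dir (hE : EL 4) (h1 : B1 4 0) (h2 : B2 4 0) {p : Bool} {ω : V 5 → ℕ}
    (hω : ∀ x, ω x ≤ 2) (hPW : PW ω) (hp : W p ω = 7) (hq : W (!p) ω ≤ 6) (hN : ¬ Comp p ω)
    (i : Fin 5) (b : Bool) (hle : S p ω i (!b) ≤ S p ω i b) : S p ω i (!b) = 0 ∨
      (1 ≤ S p ω i (!b) ∧ S p ω i (!b) ≤ 2 ∧ (5 ≤ S (!p) ω i b ∨ 5 ≤ S (!p) ω i (!b))) := by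
  have hs := S_add p b ω i
  have hs' := S_add (!p) b ω i
  rcases (by omega : S p ω i (!b) = 0 ∨ S p ω i (!b) = 1 ∨ S p ω i (!b) = 2 ∨
    S p ω i (!b) = 3) with h | h | h | h
  · exact Or.inl h
  · right
    refine ⟨h.ge, by omega, ?_⟩
    by_contra hcon
    apply hN
    have hC : Comp (xor b p) (half i b ω) := by
      refine h2 (xor b p) (half i b ω) (half_le hω i b) (PW_half hPW i b) ?_ ?_
      · rw [W_half_heavy]
        omega
      · rw [W_half_light]
        omega
    rcases Nat.lt_or_ge (S (!p) ω i (!b)) 2 with h3 | h3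
    · exact comp_R2 hω i b hE hC (by omega) (by omega) (Or.inl (by norm_num; omega))
    · exact comp_R1 hω i b hE hC (by omega) (by omega) (by omega) (Or.inl (by omega))
  · right
    refine ⟨by omega, by omega, ?_⟩
    by_contra hcon
    rcases Nat.lt_or_ge (W (!p) ω) 6 with h5 | h5
    · apply hN
      have hC : Comp (xor b p) (half i b ω) := by
        refine h1 (xor b p) (half i b ω) (half_le hω i b) (PW_half hPW i b) ?_ ?_
        · rw [W_half_heavy]
          omega
        · rw [W_half_light]
          omega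
      rcases Nat.lt_or_ge (S (!p) ω i (!b)) 3 with h3 | h3
      · exact comp_R2 hω i b hE hC (by omega) (by omega) (Or.inl (by norm_num; omega))
      · exact comp_R1 hω i b hE hC (by omega) (by omega) (by omega) (Or.inl (by omega))
    · obtain ⟨q, b', hqb⟩ := hPW i
      rcases l5b_bool p q with rfl | rfl <;> rcases l5b_bool b b' with rfl | rfl <;> omega
  · exfalso
    rcases Nat.lt_or_ge 4 (S (!p) ω i b) with h3 | h3
    · exact hN (l5b_R4 hE h1 h2 hω hPW hp hq i b h3 (by omega) (by omega))
    · rcases Nat.lt_or_ge 4 (S (!p) ω i (!b)) with h4 | h4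
      · refine hN (l5b_R4 hE h1 h2 hω hPW hp hq i (!b) h4 (by omega) ?_)
        rw [Bool.not_not]
        omega
      · apply hN
        refine comp_R3 hω i hE (Or.inr ⟨rfl, hp.le, hq⟩) (by omega) ?_
        intro q b'
        rcases l5b_bool p q with rfl | rfl <;> rcases l5b_bool b b' with rfl | rfl <;> omega

/-- one side of a direction when the blacks lie in a face of dimension three -/
lemma l5b_face {p : Bool} {ω : V 5 → ℕ} (hω : ∀ x, ω x ≤ 2) (c : V 5) (T : Finset (Fin 5))
    (hT : T.card = 2) (h0 : ∀ i ∈ T, S p ω i (!c i) = 0) (j : Fin 5) (hj : j ∉ T) :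
    S p ω j (c j) ≤ 4 := by
  obtain ⟨ω', hω'⟩ : ∃ ω' : V 5 → ℕ, ω' = fun x => if x j = c j then ω x else 0 := ⟨_, rfl⟩
  have hle : ∀ x, ω' x ≤ ω x := by
    intro x
    rw [hω']
    dsimp only
    split_ifs
    · exact le_rfl
    · exact Nat.zero_le _
  have hW : W p ω' = S p ω j (c j) := by
    unfold W S
    rw [← Finset.filter_filter, Finset.sum_filter (fun x : V 5 => x j = c j), hω']
  have hcard : (Tᶜ.erase j).card = 2 := by
    rw [Finset.card_erase_of_mem (Finset.mem_compl.2 hj), Finset.card_compl, hT]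
    rfl
  have hne : (Tᶜ.erase j).Nonempty := by
    rw [← Finset.card_pos, hcard]
    norm_num
  have h3 := N3 p c ω' (fun x => (hle x).trans (hω x)) (Tᶜ.erase j) hne
  have hsum : ∑ i ∈ (Tᶜ.erase j)ᶜ, S p ω' i (!c i) = 0 := by
    refine Finset.sum_eq_zero ?_
    intro i hi
    rw [Finset.mem_compl, Finset.mem_erase, Finset.mem_compl] at hi
    by_cases hij : i = j
    · subst hij
      unfold S
      refine Finset.sum_eq_zero ?_
      intro x hx
      rw [Finset.mem_filter] at hx
      rw [hω']
      dsimp only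
      rw [if_neg]
      rw [hx.2.2]
      cases c i <;> simp
    · have hiT : i ∈ T := by
        by_contra h
        exact hi ⟨hij, h⟩
      have h4 : S p ω' i (!c i) ≤ S p ω i (!c i) := Finset.sum_le_sum (fun x _ => hle x)
      rw [h0 i hiT] at h4
      omega
  rw [hsum, hcard, hW] at h3
  norm_num at h3
  exact h3

theorem B15 (hE : EL 4) (h1 : B1 4 0) (h2 : B2 4 0) (hA : A5) : B1 5 0 := by
  intro p ω hω hPW hp hq
  by_contra hN
  have hp7 : W p ω = 7 := by omega
  have hq6 : W (!p) ω ≤ 6 := by omega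
  obtain ⟨c, hc⟩ := exists_centre p ω
  obtain ⟨d, hd⟩ := exists_centre (!p) ω
  have hdir : ∀ i, S p ω i (!c i) = 0 ∨ (1 ≤ S p ω i (!c i) ∧ S p ω i (!c i) ≤ 2 ∧
      S (!p) ω i (!d i) + 5 ≤ W (!p) ω) := by
    intro i
    rcases l5b_dir hE h1 h2 hω hPW hp7 hq6 hN i (c i) (hc i) with h | ⟨h3, h4, h5⟩
    · exact Or.inl h
    · right
      refine ⟨h3, h4, ?_⟩
      have h6 := S_add (!p) (d i) ω i
      have h7 := hd i
      rcases l5b_bool (d i) (c i) with h8 | h8
      · rw [h8] at h5
        omega
      · rw [h8, Bool.not_not] at h5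
        omega
  obtain ⟨T, hT⟩ : ∃ T : Finset (Fin 5), T = Finset.univ.filter (fun i => S p ω i (!c i) = 0) :=
    ⟨_, rfl⟩
  have hTmem : ∀ i, i ∈ T ↔ S p ω i (!c i) = 0 := by
    intro i
    rw [hT, Finset.mem_filter]
    exact ⟨fun h => h.2, fun h => ⟨Finset.mem_univ _, h⟩⟩
  have hTd : ∀ i, i ∉ T → 1 ≤ S p ω i (!c i) ∧ S p ω i (!c i) ≤ 2 ∧
      S (!p) ω i (!d i) + 5 ≤ W (!p) ω := by
    intro i hi
    rcases hdir i with h | h
    · exact (hi ((hTmem i).2 h)).elim
    · exact h
  -- some direction is not in `T`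
  have hTc : Tᶜ.Nonempty := by
    by_contra hne
    rw [Finset.not_nonempty_iff_eq_empty] at hne
    have h3 := N3 p c ω hω {0} (Finset.singleton_nonempty 0)
    rw [Finset.sum_eq_zero, Finset.card_singleton, hp7] at h3
    · norm_num at h3
    · intro i _
      rw [← hTmem]
      by_contra h
      have : i ∈ Tᶜ := Finset.mem_compl.2 h
      rw [hne] at this
      exact absurd this (Finset.notMem_empty i)
  obtain ⟨i0, hi0⟩ := hTc
  have hi0' := hTd i0 (Finset.mem_compl.1 hi0)
  have hcardT : T.card ≤ 2 := by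
    have h3 := N3 p c ω hω Tᶜ ⟨i0, hi0⟩
    rw [Finset.sum_eq_zero, Finset.card_compl, hp7, Fintype.card_fin] at h3
    · by_contra hcon
      have h4 : 5 - T.card ≤ 2 := by omega
      have h5 : 2 ^ (5 - T.card) ≤ 2 ^ 2 := Nat.pow_le_pow_right (by norm_num) h4
      norm_num at h5
      omega
    · intro i hi
      rw [compl_compl] at hi
      exact (hTmem i).1 hi
  rcases (by omega : W (!p) ω = 5 ∨ W (!p) ω = 6) with ho | ho
  · -- `o = 5`
    have hy : ∀ i, i ∉ T → S (!p) ω i (!d i) = 0 := by
      intro i hi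
      have := (hTd i hi).2.2
      omega
    rcases T.eq_empty_or_nonempty with hTe | hTne
    · have h3 := N3 (!p) d ω hω {0} (Finset.singleton_nonempty 0)
      rw [Finset.sum_eq_zero, Finset.card_singleton, ho] at h3
      · norm_num at h3
      · intro i _
        apply hy
        rw [hTe]
        exact Finset.notMem_empty i
    · have h3 := N3 (!p) d ω hω T hTne
      rw [Finset.sum_eq_zero, ho] at h3
      · have h5 : 2 ^ T.card ≤ 2 ^ 2 := Nat.pow_le_pow_right (by norm_num) hcardT
        norm_num at h5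
        omega
      · intro i hi
        exact hy i (Finset.mem_compl.1 hi)
  · -- `o = 6`
    have hy : ∀ i, i ∉ T → S (!p) ω i (!d i) ≤ 1 := by
      intro i hi
      have := (hTd i hi).2.2
      omega
    rcases (by omega : T.card = 0 ∨ T.card = 1 ∨ T.card = 2) with h | h | h
    · rw [Finset.card_eq_zero] at h
      have hy' : ∀ i, S (!p) ω i (!d i) ≤ 1 := by
        intro i
        apply hy
        rw [h]
        exact Finset.notMem_empty i
      rcases l5b_bool p (par d) with hpd | hpd
      · have h3 := N1' (p := !p) (c := d) (by rw [hpd, Bool.not_not]) ω hω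
        have h4 : ∑ i, (S (!p) ω i (!d i) + 2 * min (S (!p) ω i (!d i)) 2) ≤
            ∑ _i : Fin 5, 3 := by
          refine Finset.sum_le_sum ?_
          intro i _
          have := hy' i
          omega
        simp at h4
        omega
      · have h3 := N2 (p := !p) (c := d) hpd ω
        have h4 : ∑ i, S (!p) ω i (!d i) ≤ ∑ _i : Fin 5, 1 := by
          refine Finset.sum_le_sum ?_
          intro i _
          exact hy' i
        have h5 := hω d
        simp at h4
        omega
    · -- the special configuration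
      obtain ⟨a, ha⟩ := Finset.card_eq_one.1 h
      have hqa : S p ω a (!c a) = 0 := (hTmem a).1 (by rw [ha]; exact Finset.mem_singleton_self a)
      have hnT : ∀ i, i ≠ a → i ∉ T := by
        intro i hi
        rw [ha, Finset.mem_singleton]
        exact hi
      -- counting
      obtain ⟨k, hk⟩ : ∃ k, k = (Finset.univ.filter (fun i => S p ω i (!c i) = 1)).card := ⟨_, rfl⟩
      have hsum1 : ∑ i, S p ω i (!c i) + k + 2 = 10 := by
        have e1 : ∑ i, (S p ω i (!c i) + (if S p ω i (!c i) = 1 then 1 else 0) +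
            (if i ∈ T then 2 else 0)) = ∑ _i : Fin 5, 2 := by
          refine Finset.sum_congr rfl ?_
          intro i _
          by_cases hi : i ∈ T
          · rw [if_pos hi, (hTmem i).1 hi]
            rfl
          · rw [if_neg hi]
            have := hTd i hi
            split_ifs <;> omega
        rw [Finset.sum_add_distrib, Finset.sum_add_distrib, ← Finset.card_filter, ← hk,
          Finset.sum_ite_mem, Finset.univ_inter, ha, Finset.sum_singleton] at e1
        simpa using e1
      have hsum2 : ∑ i, (S p ω i (!c i) + 2 * min (S p ω i (!c i)) 2) + 3 * k + 6 = 30 := by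
        have e1 : ∑ i, (S p ω i (!c i) + 2 * min (S p ω i (!c i)) 2 +
            3 * (if S p ω i (!c i) = 1 then 1 else 0) +
            (if i ∈ T then 6 else 0)) = ∑ _i : Fin 5, 6 := by
          refine Finset.sum_congr rfl ?_
          intro i _
          by_cases hi : i ∈ T
          · rw [if_pos hi, (hTmem i).1 hi]
            rfl
          · rw [if_neg hi]
            have := hTd i hi
            split_ifs <;> omega
        rw [Finset.sum_add_distrib, Finset.sum_add_distrib, ← Finset.mul_sum,
          ← Finset.card_filter, ← hk,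
          Finset.sum_ite_mem, Finset.univ_inter, ha, Finset.sum_singleton] at e1
        simpa using e1
      have hpc : par c = !p := by
        rcases l5b_bool p (par c) with hpc | hpc
        · exfalso
          have h3 := N2 (p := p) (c := c) hpc ω
          have h4 := hω c
          omega
        · exact hpc
      have h3 := N1' hpc ω hω
      have h4 := N1_parity hpc ω
      have hk1 : k = 1 := by omega
      have hstar : Star p c ω := N1_star' hpc ω (by omega)
      rw [hk1] at hk
      obtain ⟨j, hj⟩ := Finset.card_eq_one.1 hk.symm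
      have hjmem : ∀ i, S p ω i (!c i) = 1 ↔ i = j := by
        intro i
        have h9 : i ∈ Finset.univ.filter (fun i => S p ω i (!c i) = 1) ↔
            i ∈ ({j} : Finset (Fin 5)) := by rw [hj]
        rw [Finset.mem_filter, Finset.mem_singleton] at h9
        exact ⟨fun h => h9.1 ⟨Finset.mem_univ _, h⟩, fun h => (h9.2 h).2⟩
      have haj : a ≠ j := by
        intro haj
        have := (hjmem a).2 haj
        omega
      -- the whites
      have hTc4 : ∑ i ∈ ({a} : Finset (Fin 5))ᶜ, S (!p) ω i (!d i) ≤ 4 := by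
        have e1 : ∑ i ∈ ({a} : Finset (Fin 5))ᶜ, S (!p) ω i (!d i) ≤
            ∑ _i ∈ ({a} : Finset (Fin 5))ᶜ, 1 := by
          refine Finset.sum_le_sum ?_
          intro i hi
          rw [Finset.mem_compl, Finset.mem_singleton] at hi
          exact hy i (hnT i hi)
        rw [Finset.sum_const, Finset.card_compl, Finset.card_singleton, Fintype.card_fin] at e1
        simpa using e1
      have h5 := N3 (!p) d ω hω {a} (Finset.singleton_nonempty a)
      rw [Finset.card_singleton, ho] at h5
      have hy1 : ∀ i, i ≠ a → S (!p) ω i (!d i) = 1 := by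
        intro i hi
        by_contra hcon
        have h6 := hy i (hnT i hi)
        have h7 : S (!p) ω i (!d i) = 0 := by omega
        have hia : i ∈ ({a} : Finset (Fin 5))ᶜ := by
          rw [Finset.mem_compl, Finset.mem_singleton]
          exact hi
        have e1 : ∑ i ∈ ({a} : Finset (Fin 5))ᶜ, S (!p) ω i (!d i) <
            ∑ _i ∈ ({a} : Finset (Fin 5))ᶜ, 1 := by
          refine Finset.sum_lt_sum ?_ ⟨i, hia, by omega⟩
          intro i hi
          rw [Finset.mem_compl, Finset.mem_singleton] at hi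
          exact hy i (hnT i hi)
        rw [Finset.sum_const, Finset.card_compl, Finset.card_singleton, Fintype.card_fin] at e1
        norm_num at e1 h5
        omega
      -- the white inner vertex
      obtain ⟨v, hv, hvd⟩ : ∃ v : V 5, par v = !p ∧ ∀ i, i ≠ a → v i = d i := by
        rcases l5b_bool p (par d) with hpd | hpd
        · refine ⟨flip d a, ?_, fun i hi => cube_flip_of_ne d hi⟩
          rw [par_flip, hpd]
        · exact ⟨d, hpd, fun _ _ => rfl⟩
      have hyv : ∀ i, i ≠ a → S (!p) ω i (!v i) = 1 := by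
        intro i hi
        rw [hvd i hi]
        exact hy1 i hi
      have hsv : ∑ i ∈ ({a} : Finset (Fin 5))ᶜ, S (!p) ω i (!v i) = 4 := by
        have e1 : ∑ i ∈ ({a} : Finset (Fin 5))ᶜ, S (!p) ω i (!v i) =
            ∑ _i ∈ ({a} : Finset (Fin 5))ᶜ, 1 := by
          refine Finset.sum_congr rfl ?_
          intro i hi
          rw [Finset.mem_compl, Finset.mem_singleton] at hi
          exact hyv i hi
        rw [Finset.sum_const, Finset.card_compl, Finset.card_singleton, Fintype.card_fin] at e1
        simpa using e1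
      have h6 := N3_centre hv ω hω {a} (Finset.singleton_nonempty a)
      rw [Finset.card_singleton, ho, hsv] at h6
      norm_num at h6
      have hv2 : ω v = 2 := by
        have := hω v
        omega
      have h7 := N2 hv ω
      have hsplit : ∀ u : V 5, ∑ i, S (!p) ω i (!u i) = S (!p) ω a (!u a) +
          ∑ i ∈ ({a} : Finset (Fin 5))ᶜ, S (!p) ω i (!u i) := by
        intro u
        rw [← Finset.sum_add_sum_compl {a}, Finset.sum_singleton]
      rw [hsplit, hsv, ho, hv2] at h7
      -- the white star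
      have hb0 : par (flip v a) = !(!p) := by
        rw [par_flip, hv]
      have hyb : ∀ i, i ≠ a → S (!p) ω i (!(flip v a) i) = 1 := by
        intro i hi
        rw [cube_flip_of_ne v hi]
        exact hyv i hi
      have hsb : ∑ i ∈ ({a} : Finset (Fin 5))ᶜ, S (!p) ω i (!(flip v a) i) = 4 := by
        have e1 : ∑ i ∈ ({a} : Finset (Fin 5))ᶜ, S (!p) ω i (!(flip v a) i) =
            ∑ _i ∈ ({a} : Finset (Fin 5))ᶜ, 1 := by
          refine Finset.sum_congr rfl ?_
          intro i hi
          rw [Finset.mem_compl, Finset.mem_singleton] at hi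
          exact hyb i hi
        rw [Finset.sum_const, Finset.card_compl, Finset.card_singleton, Fintype.card_fin] at e1
        simpa using e1
      have h8 := S_add (!p) (v a) ω a
      have hstar' : Star (!p) (flip v a) ω := by
        apply N1_star' hb0
        rw [hsplit, hsb, cube_flip_self, Bool.not_not, ho]
        omega
      have heq := eq_starW hstar hstar'
      apply hN
      rw [heq]
      refine hA p c (flip v a) a j _ _ hpc (by rw [hb0, Bool.not_not]) haj ?_ ?_ ?_ ?_ ?_
      · rw [← star_S hstar]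
        exact hqa
      · rw [← star_S hstar]
        exact (hjmem j).2 rfl
      · intro i hia hij
        rw [← star_S hstar]
        have h9 := hTd i (hnT i hia)
        have h10 : S p ω i (!c i) ≠ 1 := fun h => hij ((hjmem i).1 h)
        omega
      · rw [flip_flip]
        exact hv2
      · intro i hi
        rw [← star_S hstar']
        exact hyb i hi
    · have hi0T := Finset.mem_compl.1 hi0
      have h3 := l5b_face hω c T h (fun i hi => (hTmem i).1 hi) i0 hi0T
      have h4 := S_add p (c i0) ω i0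
      omega

end Pool.Agent.Locke
end

section

/-! # Locke's conjecture, part 2: the balanced statement in dimension 5 -/

namespace Pool.Agent.Locke

theorem EL5 (hE : EL 4) (h1 : B1 4 0) (h2 : B2 4 0) : EL 5 := by
  refine EL_of_top (by norm_num) ?_
  intro ω hω hb hw
  by_contra hbad
  have hW : ∀ p, W p ω = 6 := by
    intro p
    cases p <;> omega
  -- a light side of one class is a side which is light or heavy for the other class
  have key : ∀ (i : Fin 5) (q b : Bool), S q ω i b ≤ 1 → S (!q) ω i b < 2 ∨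
      8 < S (!q) ω i b + 4 := by
    intro i q b h
    obtain ⟨-, e2, e3⟩ := E_step (m := 4) (by norm_num) hE h1 h2 hω hb (by omega) hbad i
    have h0 : S q ω i b = 0 ∨ S q ω i b = 1 := by omega
    rcases h0 with h0 | h0
    · have := e2 q (!b) (by rw [Bool.not_not]; exact h0)
      rw [Bool.not_not] at this
      omega
    · have := e3 q (!b) (by rw [Bool.not_not]; exact h0)
      rw [Bool.not_not] at this
      omega
  have light : ∀ (i : Fin 5) (p : Bool), ∃ b, S p ω i b ≤ 1 := by
    intro i p
    obtain ⟨⟨q, b, h⟩, -, -⟩ := E_step (m := 4) (by norm_num) hE h1 h2 hω hb (by omega) hbad i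
    have hk := key i q b h
    have hadd := S_add (!q) b ω i
    rw [hW] at hadd
    have hnq : ∃ b, S (!q) ω i b ≤ 1 := by
      rcases hk with hk | hk
      · exact ⟨b, by omega⟩
      · exact ⟨!b, by omega⟩
    rcases Bool.eq_or_eq_not p q with e | e
    · exact ⟨b, by rw [e]; exact h⟩
    · rw [e]; exact hnq
  obtain ⟨c, hc⟩ := exists_centre true ω
  have hq : ∀ i, S true ω i (!c i) ≤ 1 := by
    intro i
    obtain ⟨b, hb'⟩ := light i true
    rcases Bool.eq_or_eq_not b (c i) with e | e
    · rw [e] at hb'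
      exact (hc i).trans hb'
    · rw [← e]; exact hb'
  rcases Bool.eq_false_or_eq_true (par c) with hp | hp
  · have := N2 (p := true) hp ω
    rw [hW] at this
    have hs : ∑ i, S true ω i (!c i) ≤ ∑ _i : Fin 5, 1 := Finset.sum_le_sum fun i _ => hq i
    have hs' : ∑ _i : Fin 5, 1 = 5 := by simp
    have := hω c
    omega
  · have := N1' (p := true) (by rw [hp]; rfl) ω hω
    rw [hW] at this
    have hs : ∑ i, (S true ω i (!c i) + 2 * min (S true ω i (!c i)) 2) ≤ ∑ _i : Fin 5, 3 :=
      Finset.sum_le_sum fun i _ => by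
        have := hq i
        omega
    have hs' : ∑ _i : Fin 5, 3 = 15 := by simp
    omega

end Pool.Agent.Locke
end

section

end

section

/-! # Locke's conjecture, part 2: the statement B1 in dimension 6 -/

namespace Pool.Agent.Locke

/-- N3 for a half, when all the light sides outside a three-element set are empty -/
lemma l6b1_half {p : Bool} {ω : V 6 → ℕ} (hω : ∀ x, ω x ≤ 2) {d : V 6}
    {T : Finset (Fin 6)} (hT : T.card = 3) (h0 : ∀ j, j ∉ T → S p ω j (!d j) = 0)
    {i : Fin 6} (hi : i ∈ T) (b : Bool) : S p ω i b ≤ 4 := by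
  classical
  set T' : Finset (Fin 5) := Finset.univ.filter (fun j => Fin.succAbove i j ∈ T) with hT'
  have hcard : T'.card = 2 := by
    have h1 : T'.map i.succAboveEmb = T.erase i := by
      ext k
      simp only [Finset.mem_map, Finset.mem_erase, hT', Finset.mem_filter, Finset.mem_univ,
        true_and, Fin.succAboveEmb_apply]
      constructor
      · rintro ⟨j, hj, rfl⟩
        exact ⟨Fin.succAbove_ne i j, hj⟩
      · rintro ⟨hk, hkT⟩
        obtain ⟨j, rfl⟩ := Fin.exists_succAbove_eq hk
        exact ⟨j, hkT, rfl⟩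
    rw [← Finset.card_map i.succAboveEmb, h1, Finset.card_erase_of_mem hi, hT]
  have hne : T'.Nonempty := by
    rw [← Finset.card_pos]
    omega
  have h := N3 (xor b p) (fun j => d (i.succAbove j)) (half i b ω) (half_le hω i b) T' hne
  rw [W_half_heavy, hcard] at h
  have hz : ∑ j ∈ T'ᶜ, S (xor b p) (half i b ω) j (!(d (i.succAbove j))) = 0 := by
    apply Finset.sum_eq_zero
    intro j hj
    have hj' : i.succAbove j ∉ T := by
      rw [Finset.mem_compl, hT', Finset.mem_filter] at hj
      intro hc
      exact hj ⟨Finset.mem_univ _, hc⟩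
    have h2 := S_half_le i b (xor b p) ω j (!(d (i.succAbove j)))
    have h3 : xor b (xor b p) = p := by
      cases b <;> cases p <;> rfl
    rw [h3, h0 _ hj'] at h2
    omega
  omega

theorem B16 (hE : EL 5) (h1 : B1 5 0) (hS : ST2 5 5) : B1 6 1 := by
  classical
  intro p ω hω hP he ho
  by_contra hbad
  have h2 : B2 5 7 := by
    intro p ω _ _ _ h
    omega
  obtain ⟨c, hc⟩ := exists_centre p ω
  obtain ⟨d, hd⟩ := exists_centre (!p) ω
  have hstep := fun i => B1_step (g1 := 0) (g2 := 7) (m := 5) (by norm_num) (by norm_num) hE h1 h2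
    hω hP (by omega) (by omega) hbad i (c i) (hc i)
  have hq : ∀ i, S p ω i (!c i) ≤ 2 := by
    intro i
    rcases hstep i with h | ⟨h, -⟩ | ⟨h, -⟩ | ⟨h, h', -⟩ <;> omega
  -- a direction with light side 2 has all the white weight on one side
  have hy : ∀ i, S p ω i (!c i) = 2 → W (!p) ω = 7 ∧ S (!p) ω i (!d i) = 0 := by
    intro i hi
    have hs := S_add (!p) (c i) ω i
    have hs' := S_add (!p) (d i) ω i
    have hdi := hd i
    have h3 : W (!p) ω = 7 ∧ (S (!p) ω i (c i) = 0 ∨ S (!p) ω i (!c i) = 0) := by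
      rcases hstep i with h | ⟨h, -⟩ | ⟨h, h'⟩ | ⟨h, h', -⟩
      · omega
      · omega
      · rcases h' with h' | h' <;> omega
      · omega
    refine ⟨h3.1, ?_⟩
    have h4 : S (!p) ω i (d i) = 0 ∨ S (!p) ω i (!d i) = 0 := by
      have h5 := h3.2
      rcases Bool.eq_or_eq_not (c i) (d i) with h6 | h6
      · rw [h6] at h5
        exact h5
      · rw [h6, Bool.not_not] at h5
        exact h5.symm
    rcases h4 with h4 | h4 <;> omega
  have hpc : par c = p ∨ par c = !p := by
    cases par c <;> cases p <;> simp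
  rcases hpc with hpc | hpc
  · have h := N2 hpc ω
    have h3 : ∑ i, S p ω i (!c i) ≤ ∑ _i : Fin 6, 2 := Finset.sum_le_sum fun i _ => hq i
    have h4 : ∑ _i : Fin 6, 2 = 12 := by simp
    have h5 := hω c
    omega
  have hN := N1' hpc ω hω
  have hN' : 9 ≤ ∑ i, S p ω i (!c i) := by
    have h3 : ∑ i, (S p ω i (!c i) + 2 * min (S p ω i (!c i)) 2) =
        3 * ∑ i, S p ω i (!c i) := by
      rw [Finset.mul_sum]
      apply Finset.sum_congr rfl
      intro i _
      have := hq i
      rw [min_eq_left this]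
      ring
    omega
  set T : Finset (Fin 6) := Finset.univ.filter (fun i => S p ω i (!c i) ≤ 1) with hT
  have hT2 : ∀ i, i ∉ T → S p ω i (!c i) = 2 := by
    intro i hi
    have h3 : ¬ S p ω i (!c i) ≤ 1 := by
      intro h
      exact hi (by rw [hT, Finset.mem_filter]; exact ⟨Finset.mem_univ _, h⟩)
    have := hq i
    omega
  have hle : ∀ i, S p ω i (!c i) + (if i ∈ T then 1 else 0) ≤ 2 := by
    intro i
    split_ifs with h
    · rw [hT, Finset.mem_filter] at h
      omega
    · exact hq i
  have hsum : ∑ i, (S p ω i (!c i) + (if i ∈ T then 1 else 0)) =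
      ∑ i, S p ω i (!c i) + T.card := by
    rw [Finset.sum_add_distrib]
    simp
  have hsum2 : ∑ i, (S p ω i (!c i) + (if i ∈ T then 1 else 0)) ≤ ∑ _i : Fin 6, 2 :=
    Finset.sum_le_sum fun i _ => hle i
  have h12 : ∑ _i : Fin 6, 2 = 12 := by simp
  -- `T` is not everything
  have hTc : T.card ≤ 3 := by omega
  obtain ⟨i₁, hi₁⟩ : ∃ i, i ∉ T := by
    by_contra hcon
    push Not at hcon
    have : T = Finset.univ := Finset.eq_univ_iff_forall.2 hcon
    rw [this] at hTc
    simp at hTc
  have hW7 : W (!p) ω = 7 := (hy i₁ (hT2 i₁ hi₁)).1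
  have hy0 : ∀ i, i ∉ T → S (!p) ω i (!d i) = 0 := fun i hi => (hy i (hT2 i hi)).2
  have hT3 : 3 ≤ T.card := by
    rcases T.eq_empty_or_nonempty with hemp | hne
    · have h := N3 (!p) d ω hω {0} (Finset.singleton_nonempty _)
      have hz : ∑ i ∈ ({0} : Finset (Fin 6))ᶜ, S (!p) ω i (!d i) = 0 :=
        Finset.sum_eq_zero fun i _ => hy0 i (by rw [hemp]; simp)
      rw [hz, hW7] at h
      simp at h
    · have h := N3 (!p) d ω hω T hne
      have hz : ∑ i ∈ Tᶜ, S (!p) ω i (!d i) = 0 :=
        Finset.sum_eq_zero fun i hi => hy0 i (by rwa [Finset.mem_compl] at hi)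
      rw [hz, hW7] at h
      by_contra hcon
      have h3 : T.card ≤ 2 := by omega
      have h4 : 2 ^ T.card ≤ 2 ^ 2 := Nat.pow_le_pow_right (by norm_num) h3
      omega
  have hT3' : T.card = 3 := le_antisymm hTc hT3
  have hs9 : ∑ i, S p ω i (!c i) = 9 := by omega
  have heq : ∀ i, S p ω i (!c i) + (if i ∈ T then 1 else 0) = 2 := by
    have h3 : ∑ i, (S p ω i (!c i) + (if i ∈ T then 1 else 0)) = ∑ _i : Fin 6, 2 := by omega
    intro i
    exact (Finset.sum_eq_sum_iff_of_le fun i _ => hle i).1 h3 i (Finset.mem_univ _)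
  have hstar : Star p c ω := N1_star' hpc ω (by omega)
  obtain ⟨i, hi⟩ : T.Nonempty := by
    rw [← Finset.card_pos]
    omega
  have hqi : S p ω i (!c i) = 1 := by
    have := heq i
    rw [if_pos hi] at this
    omega
  have ha := S_add p (c i) ω i
  have hb := S_add (!p) (c i) ω i
  have hb0 := l6b1_half hω hT3' hy0 hi (c i)
  have hb1 := l6b1_half hω hT3' hy0 hi (!c i)
  have hC : Comp (xor (c i) p) (half i (c i) ω) := by
    apply hS (xor (c i) p) (fun j => c (i.succAbove j)) (half i (c i) ω) (half_le hω i (c i))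
      (star_half hstar i)
    · rw [W_half_heavy]
      omega
    · rw [W_half_light]
      omega
  exact hbad (comp_R1 hω i (c i) hE hC (by omega) (by omega) (by omega) (Or.inl (by omega)))

end Pool.Agent.Locke
end
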