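import Pool.Agent.Lib.MP_8a5648_co.Mg.G001
import Pool.Agent.Lib.MP_8a5648_co.Split
import Pool.Agent.Lib.MP_8a5648_co.Trick

section

/-! The three splitting rules used in the induction. -/

namespace Pool.Agent.Locke

variable {n : ℕ}

/-- the weight `η + 1_C` on a half -/
def plus (η : V n → ℕ) (C : Finset (V n)) : V n → ℕ := fun x => η x + ind C x

/-- the total weight is even as soon as the terminals can be paired up -/
lemma SG_even_total {ω : V n → ℕ} {σ : V n → V n} (hσ : IsPairing ω σ) (hω : ∀ x, ω x ≤ 2) :
    Even (∑ x, ω x) := by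
  classical
  have h1 : Even (Finset.univ.filter (fun x : V n => ω x = 1)).card := by
    apply even_card_of_involution _ σ
    intro x hx
    rw [Finset.mem_filter] at hx
    have hx' := (hσ.ne_iff x).2 hx.2
    refine ⟨?_, hx', hσ.inv x⟩
    rw [Finset.mem_filter]
    refine ⟨Finset.mem_univ _, (hσ.ne_iff (σ x)).1 ?_⟩
    intro h
    rw [hσ.inv] at h
    exact hx' h.symm
  have h2 : ∑ x, ω x = (Finset.univ.filter (fun x : V n => ω x = 1)).card +
      2 * (Finset.univ.filter (fun x : V n => ω x = 2)).card := by
    rw [Finset.card_filter, Finset.card_filter, Finset.mul_sum, ← Finset.sum_add_distrib]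
    apply Finset.sum_congr rfl
    intro x _
    have := hω x
    by_cases h1 : ω x = 1
    · simp [h1]
    · by_cases h2 : ω x = 2
      · simp [h2]
      · have : ω x = 0 := by omega
        simp [this]
  rw [h2]
  exact h1.add (even_two_mul _)

lemma SG_even_half {i : Fin (n + 1)} {ω : V (n + 1) → ℕ} {σ : V (n + 1) → V (n + 1)}
    (hσ : IsPairing ω σ) (hω : ∀ x, ω x ≤ 2) {b : Bool} (he : Even (∑ x, half i b ω x)) :
    Even (∑ x, half i false ω x) := by
  cases b with
  | false => exact he
  | true =>
    have h1 := SG_even_total hσ hω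
    rw [sum_ins i] at h1
    have h2 : Even (∑ x, half i false ω x + ∑ x, half i true ω x) := h1
    rw [Nat.even_add] at h2
    exact h2.2 he

/-- a vertex over the set `C` -/
def SGover (i : Fin (n + 1)) (C : Finset (V n)) (z : V (n + 1)) : Prop :=
  ∃ x ∈ C, ∃ b, z = ins i b x

lemma SGover_ins {i : Fin (n + 1)} {C : Finset (V n)} {b : Bool} {x : V n} :
    SGover i C (ins i b x) ↔ x ∈ C := by
  constructor
  · rintro ⟨y, hy, c, hc⟩
    rw [ins_inj] at hc
    rwa [hc.2]
  · intro h
    exact ⟨x, h, b, rfl⟩

lemma SGover_flip {i : Fin (n + 1)} {C : Finset (V n)} {z : V (n + 1)} (h : SGover i C z) :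
    SGover i C (flip z i) := by
  obtain ⟨x, hx, b, rfl⟩ := h
  rw [flip_ins_self]
  exact SGover_ins.2 hx

/-- the graph of the crossing edges over `C` -/
def SGcross (i : Fin (n + 1)) (C : Finset (V n)) : SimpleGraph (V (n + 1)) where
  Adj z w := SGover i C z ∧ w = flip z i
  symm := ⟨by
    rintro z w ⟨h1, rfl⟩
    exact ⟨SGover_flip h1, (flip_flip z i).symm⟩⟩
  loopless := ⟨by
    rintro z ⟨_, h⟩
    exact flip_ne z i h.symm⟩

/-- Rule 1 for a single pairing. -/
theorem SG_rule1 (i : Fin (n + 1)) {ω : V (n + 1) → ℕ} {σ : V (n + 1) → V (n + 1)}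
    (hσ : IsPairing ω σ) (hω : ∀ x, ω x ≤ 2) (C : Finset (V n))
    (hC : C.Nonempty) (hz : ∀ x ∈ C, ∀ b, half i b ω x = 0)
    (h0 : Good (plus (half i false ω) C)) (h1 : Good (plus (half i true ω) C)) {b : Bool}
    (he : Even (∑ x, plus (half i b ω) C x)) : ∃ M, SolvedBy M ω σ := by
  classical
  have hz' : ∀ z, SGover i C z → ω z = 0 := by
    rintro z ⟨x, hx, b, rfl⟩
    exact hz x hx b
  set ω' : V (n + 1) → ℕ := fun z => ω z + (if SGover i C z then 1 else 0) with hω'
  set σ' : V (n + 1) → V (n + 1) := fun z => if SGover i C z then flip z i else σ z with hσ'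
  have hhalf : ∀ b, half i b ω' = plus (half i b ω) C := by
    intro b
    funext x
    simp only [half, hω', plus, ind, SGover_ins]
  have hω2 : ∀ x, ω' x ≤ 2 := by
    intro x
    simp only [hω']
    by_cases h : SGover i C x
    · rw [if_pos h, hz' x h]
      omega
    · rw [if_neg h]
      exact hω x
  have hnot : ∀ z, ¬ SGover i C z → ¬ SGover i C (σ z) := by
    intro z hz1 hz2
    have h2 : σ (σ z) = σ z := by
      by_contra h3
      have h4 := (hσ.ne_iff (σ z)).1 h3
      rw [hz' _ hz2] at h4
      omega
    rw [hσ.inv] at h2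
    rw [← h2] at hz2
    exact hz1 hz2
  have hpair : IsPairing ω' σ' := by
    constructor
    · intro z
      by_cases h : SGover i C z
      · simp only [hσ']
        rw [if_pos h, if_pos (SGover_flip h), flip_flip]
      · simp only [hσ']
        rw [if_neg h, if_neg (hnot z h), hσ.inv]
    · intro z
      by_cases h : SGover i C z
      · simp only [hσ', hω', if_pos h, hz' z h, zero_add, iff_true]
        exact flip_ne z i
      · simp only [hσ', hω', if_neg h, add_zero]
        exact hσ.ne_iff z
  have hcross : ∃ x, σ' x i ≠ x i := by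
    obtain ⟨c, hc⟩ := hC
    refine ⟨ins i false c, ?_⟩
    simp only [hσ', if_pos (SGover_ins.2 hc), flip_ins_self, ins_apply_self]
    simp
  obtain ⟨M', hM', hno⟩ := split_solved i hpair hω2 (by rw [hhalf]; exact h0)
    (by rw [hhalf]; exact h1) (SG_even_half (b := b) hpair hω2 (by rw [hhalf]; exact he)) hcross
  have hno' : ∀ z, ¬ M'.Adj z (flip z i) := by
    intro z hz1
    obtain ⟨x, hx⟩ := exists_ins i z
    cases hb : z i with
    | false =>
      rw [hb] at hx
      rw [hx, flip_ins_self] at hz1
      exact hno x hz1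
    | true =>
      rw [hb] at hx
      rw [hx, flip_ins_self] at hz1
      exact hno x hz1.symm
  refine ⟨M' ⊔ SGcross i C, ?_, ?_, ?_⟩
  · apply sup_le hM'.le
    rintro z w ⟨_, rfl⟩
    exact adj_iff.2 ⟨i, rfl⟩
  · intro z
    have h2 := hM'.deg z
    by_cases h : SGover i C z
    · have h3 : (M' ⊔ SGcross i C).neighborSet z = insert (flip z i) (M'.neighborSet z) := by
        ext w
        simp only [SimpleGraph.mem_neighborSet, SimpleGraph.sup_adj, SGcross, h, true_and,
          Set.mem_insert_iff]
        tauto
      have h4 : flip z i ∉ M'.neighborSet z := fun hh => hno' z hh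
      rw [h3, Set.ncard_insert_of_notMem h4 (Set.toFinite _)]
      simp only [hω', if_pos h] at h2
      omega
    · have h3 : (M' ⊔ SGcross i C).neighborSet z = M'.neighborSet z := by
        ext w
        simp only [SimpleGraph.mem_neighborSet, SimpleGraph.sup_adj, SGcross, h, false_and,
          or_false]
      rw [h3]
      simp only [hω', if_neg h, add_zero] at h2
      exact h2
  · intro x y hx hy
    have hle : ∀ z, ω z ≤ 1 → ω' z ≤ 1 := by
      intro z hz1
      by_cases h : SGover i C z
      · simp only [hω', if_pos h, hz' z h]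
        omega
      · simp only [hω', if_neg h, add_zero]
        exact hz1
    have h3 := hM'.conn x y (hle x hx) (hle y hy)
    refine h3.mono ?_
    rintro z w (h4 | h4)
    · exact Or.inl (Or.inl h4)
    · rw [pairG, SimpleGraph.fromRel_adj] at h4
      obtain ⟨hne, h5 | h5⟩ := h4
      · by_cases h : SGover i C z
        · simp only [hσ', if_pos h] at h5
          exact Or.inl (Or.inr ⟨h, h5.symm⟩)
        · simp only [hσ', if_neg h] at h5
          refine Or.inr ?_
          rw [pairG, SimpleGraph.fromRel_adj]
          exact ⟨hne, Or.inl h5⟩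
      · by_cases h : SGover i C w
        · simp only [hσ', if_pos h] at h5
          have h6 : (SGcross i C).Adj w z := ⟨h, h5.symm⟩
          exact Or.inl (Or.inr h6.symm)
        · simp only [hσ', if_neg h] at h5
          refine Or.inr ?_
          rw [pairG, SimpleGraph.fromRel_adj]
          exact ⟨hne, Or.inr h5⟩

/-- Rule 0 for a single pairing. -/
theorem SG_rule0 (i : Fin (n + 1)) (b : Bool) {ω : V (n + 1) → ℕ}
    {σ : V (n + 1) → V (n + 1)} (hσ : IsPairing ω σ) (hω : ∀ x, ω x ≤ 2)
    (h0 : Good (half i b ω)) (h1 : Good (half i (!b) ω))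
    (he : Even (∑ x, half i b ω x))
    (hT : ∀ y z : V n, (Q n).Adj y z → half i (!b) ω y = 0 → half i (!b) ω z = 0 →
      Good (fun x => half i (!b) ω x + (if x = y then 1 else 0) + (if x = z then 1 else 0)))
    (hcount : 2 * (2 * (Finset.univ.filter (fun x : V n => 0 < half i (!b) ω x)).card) +
      ∑ x, half i b ω x < 2 * 2 ^ n) : ∃ M, SolvedBy M ω σ := by
  by_cases hx : ∃ x, σ x i ≠ x i
  · have h2 : Good (half i false ω) ∧ Good (half i true ω) := by
      cases b
      · exact ⟨h0, h1⟩
      · exact ⟨h1, h0⟩
    obtain ⟨M, hM, -⟩ := split_solved i hσ hω h2.1 h2.2 (SG_even_half hσ hω he) hx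
    exact ⟨M, hM⟩
  · push Not at hx
    exact trick_solved i b hσ h0 hT hcount hx

/-- Rule 1: crossing edges at the (nonempty) set `C`, both ends of weight 0. -/
theorem good_of_split (i : Fin (n + 1)) (ω : V (n + 1) → ℕ) (hω : ∀ x, ω x ≤ 2)
    (C : Finset (V n))
    (hC : C.Nonempty) (hz : ∀ x ∈ C, ∀ b, half i b ω x = 0)
    (h0 : Good (plus (half i false ω) C)) (h1 : Good (plus (half i true ω) C))
    (he : Even (∑ x, plus (half i false ω) C x)) : Good ω :=
  fun _ hσ => SG_rule1 i hσ hω C hC hz h0 h1 he

/-- Rule 0: no crossing edges needed. -/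
theorem good_of_split0 (i : Fin (n + 1)) (b : Bool) (ω : V (n + 1) → ℕ) (hω : ∀ x, ω x ≤ 2)
    (h0 : Good (half i b ω)) (h1 : Good (half i (!b) ω))
    (he : Even (∑ x, half i b ω x))
    (hT : ∀ y z : V n, (Q n).Adj y z → half i (!b) ω y = 0 → half i (!b) ω z = 0 →
      Good (fun x => half i (!b) ω x + (if x = y then 1 else 0) + (if x = z then 1 else 0)))
    (hcount : 2 * (2 * (Finset.univ.filter (fun x : V n => 0 < half i (!b) ω x)).card) +
      ∑ x, half i b ω x < 2 * 2 ^ n) : Good ω :=
  fun _ hσ => SG_rule0 i b hσ hω h0 h1 he hT hcount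

/-- Rule 2 (merge): crossing edges at `C` (both ends of weight 0) and at one further point `z`
whose end in half `b` has weight 0 and whose end in the half `!b` has weight 1.  If `C` is empty
the counting condition of the trick (for the raised weights) is needed as well. -/
theorem good_of_split_merge (i : Fin (n + 1)) (b : Bool) (ω : V (n + 1) → ℕ)
    (hω : ∀ x, ω x ≤ 2) (C : Finset (V n))
    (z : V n) (hzC : z ∉ C) (hz : ∀ x ∈ C, ∀ b, half i b ω x = 0)
    (hz0 : half i b ω z = 0) (hz1 : half i (!b) ω z = 1)
    (h0 : Good (plus (half i b ω) (insert z C))) (h1 : Good (plus (half i (!b) ω) (insert z C)))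
    (he : Even (∑ x, plus (half i b ω) (insert z C) x))
    (hor : C.Nonempty ∨
      ((∀ y y' : V n, (Q n).Adj y y' → plus (half i (!b) ω) {z} y = 0 →
          plus (half i (!b) ω) {z} y' = 0 →
          Good (fun x => plus (half i (!b) ω) {z} x + (if x = y then 1 else 0) +
            (if x = y' then 1 else 0))) ∧
        2 * (2 * (Finset.univ.filter (fun x : V n => 0 < plus (half i (!b) ω) {z} x)).card) +
          ∑ x, plus (half i b ω) {z} x < 2 * 2 ^ n)) : Good ω := by
  classical
  intro σ hσ
  set u : V (n + 1) := ins i b z with hu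
  set v : V (n + 1) := ins i (!b) z with hv
  have hωu : ω u = 0 := hz0
  have hωv : ω v = 1 := hz1
  have huv : u ≠ v := by
    rw [hu, hv, Ne, ins_inj]
    rintro ⟨h, -⟩
    cases b <;> simp at h
  have hadj : (Q (n + 1)).Adj u v := by
    rw [hu, hv]
    exact (adj_ins_ne (by cases b <;> simp)).2 rfl
  have hσu : σ u = u := by
    by_contra h
    have := (hσ.ne_iff u).1 h
    omega
  have hne : σ u ≠ v := by rw [hσu]; exact huv
  have hpair := isPairing_splice hσ huv (by omega) (by omega) hne
  have hω1 : ∀ x, addEdge ω u v x ≤ 2 := by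
    intro x
    unfold addEdge
    by_cases h2 : x = u
    · have h3 : x ≠ v := by rw [h2]; exact huv
      rw [if_pos h2, if_neg h3, h2, hωu]
      omega
    · by_cases h3 : x = v
      · rw [if_neg h2, if_pos h3, h3, hωv]
      · rw [if_neg h2, if_neg h3]
        exact hω x
  have hhalf : ∀ c, half i c (addEdge ω u v) = plus (half i c ω) {z} := by
    intro c
    funext x
    simp only [half, addEdge, plus, ind, hu, hv, ins_inj, Finset.mem_singleton]
    by_cases hx : x = z
    · cases c <;> cases b <;> simp [hx]
    · simp [hx]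
  have hhalf' : ∀ c, plus (half i c (addEdge ω u v)) C = plus (half i c ω) (insert z C) := by
    intro c
    rw [hhalf]
    funext x
    simp only [plus, ind, Finset.mem_singleton, Finset.mem_insert]
    by_cases hx : x = z
    · subst hx
      simp [hzC]
    · simp [hx]
  have hsol : ∃ M, SolvedBy M (addEdge ω u v) (splice σ u v) := by
    rcases hor with hC | ⟨hT, hcount⟩
    · have h2 : Good (plus (half i false (addEdge ω u v)) C) ∧
          Good (plus (half i true (addEdge ω u v)) C) := by
        rw [hhalf', hhalf']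
        cases b
        · exact ⟨h0, h1⟩
        · exact ⟨h1, h0⟩
      refine SG_rule1 i hpair hω1 C hC ?_ h2.1 h2.2 (b := b) (by rw [hhalf']; exact he)
      intro x hx c
      rw [hhalf]
      have hxz : x ≠ z := fun h => hzC (h ▸ hx)
      simp only [plus, ind, Finset.mem_singleton, if_neg hxz, add_zero]
      exact hz x hx c
    · rcases C.eq_empty_or_nonempty with hC | hC
      · subst hC
        have e1 : ∀ c, plus (half i c ω) (insert z ∅) = plus (half i c ω) {z} := fun c => rfl
        rw [e1] at h0 h1 he
        refine SG_rule0 i b hpair hω1 ?_ ?_ ?_ ?_ ?_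
        · rw [hhalf]; exact h0
        · rw [hhalf]; exact h1
        · rw [hhalf]; exact he
        · rw [hhalf]; exact hT
        · rw [hhalf, hhalf]; exact hcount
      · have h2 : Good (plus (half i false (addEdge ω u v)) C) ∧
          Good (plus (half i true (addEdge ω u v)) C) := by
          rw [hhalf', hhalf']
          cases b
          · exact ⟨h0, h1⟩
          · exact ⟨h1, h0⟩
        refine SG_rule1 i hpair hω1 C hC ?_ h2.1 h2.2 (b := b) (by rw [hhalf']; exact he)
        intro x hx c
        rw [hhalf]
        have hxz : x ≠ z := fun h => hzC (h ▸ hx)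
        simp only [plus, ind, Finset.mem_singleton, if_neg hxz, add_zero]
        exact hz x hx c
  obtain ⟨M, hM⟩ := hsol
  have hnadj : ¬ M.Adj u v := by
    intro h
    have h2 := hM.deg v
    have h3 : addEdge ω u v v = 2 := by
      unfold addEdge
      rw [if_neg huv.symm, if_pos rfl, hωv]
    rw [h3] at h2
    have h4 : (M.neighborSet v).ncard = 0 := by omega
    rw [Set.ncard_eq_zero (Set.toFinite _)] at h4
    have h5 : u ∈ M.neighborSet v := h.symm
    rw [h4] at h5
    exact h5
  exact ⟨_, absorb hσ hadj (by omega) (by omega) hne hM hnadj⟩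

end Pool.Agent.Locke
end

section

/-! # Locke's conjecture, part 2: definitions and basic facts for the counting part -/

namespace Pool.Agent.Locke

variable {n m : ℕ}

/-- weight of the class `p` on the side `x i = b` -/
def S (p : Bool) (ω : V n → ℕ) (i : Fin n) (b : Bool) : ℕ :=
  ∑ x ∈ Finset.univ.filter (fun x : V n => par x = p ∧ x i = b), ω x

/-- property P: in every direction some class has at most weight 1 on some side -/
def PW (ω : V n → ℕ) : Prop := ∀ i : Fin n, ∃ p b, S p ω i b ≤ 1

/-- `ω` becomes balanced and good when suitable zero-weight vertices of the class `!p` are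
raised to weight 1 -/
def Comp (p : Bool) (ω : V n → ℕ) : Prop :=
  ∃ U : Finset (V n), (∀ x ∈ U, par x = !p ∧ ω x = 0) ∧
    U.card + W (!p) ω = W p ω ∧ Good (plus ω U)

/-- all the weight of the class `p` sits on the neighbours of the centre `c` -/
def Star (p : Bool) (c : V n) (ω : V n → ℕ) : Prop :=
  par c = !p ∧ ∀ x, par x = p → ω x ≠ 0 → ∃ j, x = flip c j

/-- heavy class `2n-3`, light class at most `2n-4-g` -/
def B1 (n g : ℕ) : Prop :=
  ∀ (p : Bool) (ω : V n → ℕ), (∀ x, ω x ≤ 2) → PW ω → W p ω + 3 = 2 * n →
    W (!p) ω + 4 + g ≤ 2 * n → Comp p ω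

/-- heavy class `2n-2`, light class at most `2n-4-g` -/
def B2 (n g : ℕ) : Prop :=
  ∀ (p : Bool) (ω : V n → ℕ), (∀ x, ω x ≤ 2) → PW ω → W p ω + 2 = 2 * n →
    W (!p) ω + 4 + g ≤ 2 * n → Comp p ω

/-- stars with a faulty centre -/
def SF (n : ℕ) : Prop :=
  ∀ (p : Bool) (c : V n) (ω : V n → ℕ), (∀ x, ω x ≤ 2) → Star p c ω → ω c = 2 →
    2 * n ≤ W p ω + 3 → W (!p) ω + 4 ≤ 2 * n → Comp p ω

/-- stars with heavy class `2n-2` and light class at most `k` -/
def ST2 (n k : ℕ) : Prop :=
  ∀ (p : Bool) (c : V n) (ω : V n → ℕ), (∀ x, ω x ≤ 2) → Star p c ω → W p ω + 2 = 2 * n →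
    W (!p) ω ≤ k → Comp p ω

/-! ### side weights -/

lemma comp_sum_half (i : Fin (m + 1)) (b : Bool) (ω : V (m + 1) → ℕ) (P : V (m + 1) → Prop)
    [DecidablePred P] (R : V m → Prop) [DecidablePred R] (h : ∀ x, R x ↔ P (ins i b x))
    (hP : ∀ z, P z → z i = b) :
    ∑ x ∈ Finset.univ.filter R, half i b ω x = ∑ z ∈ Finset.univ.filter P, ω z := by
  refine Finset.sum_bij (fun x _ => ins i b x) ?_ ?_ ?_ ?_
  · intro x hx
    rw [Finset.mem_filter] at hx ⊢
    exact ⟨Finset.mem_univ _, (h x).1 hx.2⟩
  · intro x _ y _ hxy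
    exact (ins_inj.1 hxy).2
  · intro z hz
    rw [Finset.mem_filter] at hz
    obtain ⟨x, hx⟩ := exists_ins i z
    rw [hP z hz.2] at hx
    refine ⟨x, ?_, hx.symm⟩
    rw [Finset.mem_filter]
    exact ⟨Finset.mem_univ _, (h x).2 (hx ▸ hz.2)⟩
  · intro x _
    rfl

lemma S_add (p b : Bool) (ω : V n → ℕ) (i : Fin n) : S p ω i b + S p ω i (!b) = W p ω := by
  unfold S W
  rw [← Finset.sum_filter_add_sum_filter_not (Finset.univ.filter (fun x : V n => par x = p))
    (fun x => x i = b), Finset.filter_filter, Finset.filter_filter]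
  congr 1
  refine Finset.sum_congr ?_ (fun _ _ => rfl)
  ext x
  simp only [Finset.mem_filter, Finset.mem_univ, true_and]
  cases x i <;> cases b <;> simp

lemma W_half (i : Fin (m + 1)) (b q : Bool) (ω : V (m + 1) → ℕ) :
    W q (half i b ω) = S (xor b q) ω i b := by
  unfold W S
  refine comp_sum_half i b ω _ _ ?_ (fun z hz => hz.2)
  intro x
  rw [par_ins, ins_apply_self]
  cases b <;> cases q <;> cases par x <;> simp

/-- the class `p` of the big cube is the class `xor b p` of the half `b` -/
lemma W_half_heavy (i : Fin (m + 1)) (b p : Bool) (ω : V (m + 1) → ℕ) :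
    W (xor b p) (half i b ω) = S p ω i b := by
  rw [W_half]
  cases b <;> cases p <;> rfl

lemma W_half_light (i : Fin (m + 1)) (b p : Bool) (ω : V (m + 1) → ℕ) :
    W (!(xor b p)) (half i b ω) = S (!p) ω i b := by
  rw [W_half]
  cases b <;> cases p <;> rfl

/-- on the other half the roles of the labels are exchanged -/
lemma W_half_other_heavy (i : Fin (m + 1)) (b p : Bool) (ω : V (m + 1) → ℕ) :
    W (!(xor b p)) (half i (!b) ω) = S p ω i (!b) := by
  rw [W_half]
  cases b <;> cases p <;> rfl

lemma W_half_other_light (i : Fin (m + 1)) (b p : Bool) (ω : V (m + 1) → ℕ) :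
    W (xor b p) (half i (!b) ω) = S (!p) ω i (!b) := by
  rw [W_half]
  cases b <;> cases p <;> rfl

/-- a side weight of a half, as a sum over the big cube -/
lemma S_half (i : Fin (m + 1)) (b q : Bool) (ω : V (m + 1) → ℕ) (j : Fin m) (b' : Bool) :
    S q (half i b ω) j b' = ∑ x ∈ Finset.univ.filter (fun x : V (m + 1) =>
      par x = xor b q ∧ x i = b ∧ x (i.succAbove j) = b'), ω x := by
  unfold S
  refine comp_sum_half i b ω _ _ ?_ (fun z hz => hz.2.1)
  intro x
  rw [par_ins, ins_apply_self, ins_succAbove]
  have h : (xor b (par x) = xor b q) ↔ par x = q := by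
    cases b <;> cases q <;> cases par x <;> simp
  rw [h]
  constructor
  · rintro ⟨h1, h2⟩
    exact ⟨h1, rfl, h2⟩
  · rintro ⟨h1, -, h2⟩
    exact ⟨h1, h2⟩

lemma S_half_le (i : Fin (m + 1)) (b q : Bool) (ω : V (m + 1) → ℕ) (j : Fin m) (b' : Bool) :
    S q (half i b ω) j b' ≤ S (xor b q) ω (i.succAbove j) b' := by
  rw [S_half]
  unfold S
  refine Finset.sum_le_sum_of_subset ?_
  intro x hx
  rw [Finset.mem_filter] at hx ⊢
  exact ⟨hx.1, hx.2.1, hx.2.2.2⟩

lemma PW_half {ω : V (m + 1) → ℕ} (h : PW ω) (i : Fin (m + 1)) (b : Bool) :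
    PW (half i b ω) := by
  intro j
  obtain ⟨p, b', hp⟩ := h (i.succAbove j)
  refine ⟨xor b p, b', (S_half_le i b (xor b p) ω j b').trans ?_⟩
  have e : xor b (xor b p) = p := by cases b <;> cases p <;> rfl
  rw [e]
  exact hp

lemma half_le {ω : V (m + 1) → ℕ} (h : ∀ x, ω x ≤ 2) (i : Fin (m + 1)) (b : Bool) :
    ∀ x, half i b ω x ≤ 2 := fun _ => h _

lemma single_le_S (ω : V n → ℕ) (x : V n) (i : Fin n) : ω x ≤ S (par x) ω i (x i) := by
  unfold S
  refine Finset.single_le_sum (f := ω) (fun _ _ => Nat.zero_le _) ?_
  rw [Finset.mem_filter]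
  exact ⟨Finset.mem_univ _, rfl, rfl⟩

lemma single_le_W (ω : V n → ℕ) (x : V n) : ω x ≤ W (par x) ω := by
  unfold W
  refine Finset.single_le_sum (f := ω) (fun _ _ => Nat.zero_le _) ?_
  rw [Finset.mem_filter]
  exact ⟨Finset.mem_univ _, rfl⟩

/-! ### zero-weight vertices -/

/-- there are at least `2^m - W q ω` zero-weight vertices in the class `q` of the `m+1`-cube -/
lemma zeros_card (q : Bool) (ω : V (m + 1) → ℕ) :
    2 ^ m ≤ (Finset.univ.filter (fun x : V (m + 1) => par x = q ∧ ω x = 0)).card + W q ω := by
  have h1 := card_pos_le_W q ω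
  have h2 := card_par (n := m) q
  have h3 : (Finset.univ.filter (fun x : V (m + 1) => par x = q)).card =
      (Finset.univ.filter (fun x : V (m + 1) => par x = q ∧ ω x = 0)).card +
      (Finset.univ.filter (fun x : V (m + 1) => par x = q ∧ 0 < ω x)).card := by
    rw [← Finset.card_filter_add_card_filter_not (s := Finset.univ.filter
      (fun x : V (m + 1) => par x = q)) (fun x => ω x = 0), Finset.filter_filter,
      Finset.filter_filter]
    congr 2
    ext x
    simp only [Finset.mem_filter, Finset.mem_univ, true_and]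
    rw [Nat.pos_iff_ne_zero]
  omega

lemma W_plus (q : Bool) (ω : V n → ℕ) (C : Finset (V n)) (hC : ∀ x ∈ C, par x = q) :
    W q (plus ω C) = W q ω + C.card := by
  unfold plus
  rw [W_add, W_ind, Finset.filter_true_of_mem hC]

lemma W_plus_not (q : Bool) (ω : V n → ℕ) (C : Finset (V n)) (hC : ∀ x ∈ C, par x = !q) :
    W q (plus ω C) = W q ω := by
  unfold plus
  rw [W_add, W_ind, Finset.filter_false_of_mem, Finset.card_empty, add_zero]
  intro x hx h
  rw [hC x hx] at h
  cases q <;> simp at h

/-! ### completability -/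

lemma comp_plus_empty (ω : V n → ℕ) : plus ω ∅ = ω := by
  funext x
  simp [plus, ind]

lemma good_of_comp {p : Bool} {ω : V n → ℕ} (h : Comp p ω) (hW : W (!p) ω = W p ω) :
    Good ω := by
  obtain ⟨U, -, h2, h3⟩ := h
  have h4 : U.card = 0 := by omega
  rw [Finset.card_eq_zero] at h4
  rw [h4, comp_plus_empty] at h3
  exact h3

lemma comp_of_good {p : Bool} {ω : V n → ℕ} (h : Good ω) (hW : W (!p) ω = W p ω) :
    Comp p ω := by
  refine ⟨∅, fun x hx => absurd hx (Finset.notMem_empty x), ?_, ?_⟩
  · rw [Finset.card_empty, hW, zero_add]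
  · rw [comp_plus_empty]
    exact h

lemma comp_le {p : Bool} {ω : V n → ℕ} (h : Comp p ω) : W (!p) ω ≤ W p ω := by
  obtain ⟨U, -, h, -⟩ := h
  omega

/-- adding one unit of the light class first -/
lemma comp_of_raise {p : Bool} {ω : V n → ℕ} {x : V n} (hx : par x = !p) (h0 : ω x = 0)
    (h : Comp p (fun y => ω y + if y = x then 1 else 0)) : Comp p ω := by
  have e : (fun y => ω y + if y = x then 1 else 0) = plus ω {x} := by
    funext y
    simp [plus, ind]
  rw [e] at h
  obtain ⟨U, h1, h2, h3⟩ := h
  have hxU : x ∉ U := by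
    intro hU
    have := (h1 x hU).2
    simp [plus, ind] at this
  have hx1 : ∀ y ∈ ({x} : Finset (V n)), par y = !p := by
    intro y hy
    rw [Finset.mem_singleton] at hy
    rw [hy, hx]
  rw [W_plus (!p) ω {x} hx1, W_plus_not p ω {x} hx1, Finset.card_singleton] at h2
  refine ⟨insert x U, ?_, ?_, ?_⟩
  · intro y hy
    rw [Finset.mem_insert] at hy
    rcases hy with rfl | hy
    · exact ⟨hx, h0⟩
    · refine ⟨(h1 y hy).1, ?_⟩
      have := (h1 y hy).2
      unfold plus at this
      omega
  · rw [Finset.card_insert_of_notMem hxU]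
    omega
  · have e2 : plus ω (insert x U) = plus (plus ω {x}) U := by
      funext y
      simp only [plus, ind, Finset.mem_insert, Finset.mem_singleton]
      by_cases h4 : y = x
      · subst h4
        simp [hxU]
      · simp [h4]
    rw [e2]
    exact h3

lemma comp_iso_aux (e : Q n ≃g Q n) (s : Bool) (he : ∀ x, par (e x) = xor (par x) s)
    (hW : ∀ (q : Bool) (ω : V n → ℕ), W q (fun x => ω (e x)) = W (xor q s) ω) (p : Bool)
    (ω : V n → ℕ) (h : Comp (xor s p) ω) : Comp p (fun x => ω (e x)) := by
  obtain ⟨U, h1, h2, h3⟩ := h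
  refine ⟨Finset.univ.filter (fun x => e x ∈ U), ?_, ?_, ?_⟩
  · intro x hx
    rw [Finset.mem_filter] at hx
    obtain ⟨h4, h5⟩ := h1 _ hx.2
    refine ⟨?_, h5⟩
    rw [he] at h4
    revert h4
    cases par x <;> cases s <;> cases p <;> simp
  · have hc : (Finset.univ.filter (fun x => e x ∈ U)).card = U.card := by
      refine Finset.card_bij (fun x _ => e x) ?_ ?_ ?_
      · intro x hx
        exact (Finset.mem_filter.1 hx).2
      · intro x _ y _ hxy
        exact e.injective hxy
      · intro y hy
        refine ⟨e.symm y, ?_, by simp⟩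
        rw [Finset.mem_filter]
        exact ⟨Finset.mem_univ _, by simpa using hy⟩
    rw [hc, hW, hW]
    have e1 : xor (!p) s = !(xor s p) := by cases p <;> cases s <;> rfl
    have e2 : xor p s = xor s p := by cases p <;> cases s <;> rfl
    rw [e1, e2]
    exact h2
  · have e3 : plus (fun x => ω (e x)) (Finset.univ.filter (fun x => e x ∈ U)) =
        fun x => plus ω U (e x) := by
      funext x
      simp [plus, ind]
    rw [e3]
    exact (good_comp_iso e (plus ω U)).2 h3

lemma comp_iso (e : Q n ≃g Q n) (s : Bool) (he : ∀ x, par (e x) = xor (par x) s)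
    (hW : ∀ (q : Bool) (ω : V n → ℕ), W q (fun x => ω (e x)) = W (xor q s) ω) (p : Bool)
    (ω : V n → ℕ) : Comp p (fun x => ω (e x)) ↔ Comp (xor s p) ω := by
  constructor
  · intro h
    have he' : ∀ y, par (e.symm y) = xor (par y) s := by
      intro y
      have := he (e.symm y)
      rw [RelIso.apply_symm_apply] at this
      rw [this]
      cases par (e.symm y) <;> cases s <;> rfl
    have hW' : ∀ (q : Bool) (ω : V n → ℕ), W q (fun x => ω (e.symm x)) = W (xor q s) ω := by
      intro q ω
      have := hW (xor q s) (fun x => ω (e.symm x))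
      simp only [RelIso.symm_apply_apply] at this
      rw [this]
      cases q <;> cases s <;> rfl
    have h1 := comp_iso_aux e.symm s he' hW' (xor s p) (fun x => ω (e x)) (by
      have : xor s (xor s p) = p := by cases s <;> cases p <;> rfl
      rw [this]
      exact h)
    simp only [RelIso.apply_symm_apply] at h1
    exact h1
  · exact comp_iso_aux e s he hW p ω

lemma comp_trans (t : V n) (p : Bool) (ω : V n → ℕ) :
    Comp p (fun x => ω (transIso t x)) ↔ Comp (xor (par t) p) ω :=
  comp_iso (transIso t) (par t) (par_trans t) (fun q ω => W_comp_trans t q ω) p ω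

lemma comp_perm (τ : Equiv.Perm (Fin n)) (p : Bool) (ω : V n → ℕ) :
    Comp p (fun x => ω (permIso τ x)) ↔ Comp p ω := by
  have h := comp_iso (permIso τ) false
    (fun x => by rw [par_perm, Bool.xor_false]) (fun q ω => by
      rw [W_comp_perm, Bool.xor_false]) p ω
  rwa [Bool.false_xor] at h

/-! ### stars -/

lemma star_S {p : Bool} {c : V n} {ω : V n → ℕ} (h : Star p c ω) (i : Fin n) :
    S p ω i (!c i) = ω (flip c i) := by
  unfold S
  refine Finset.sum_eq_single (flip c i) ?_ ?_
  · intro x hx hne
    rw [Finset.mem_filter] at hx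
    by_contra h0
    obtain ⟨j, rfl⟩ := h.2 x hx.2.1 h0
    have hj : j = i := by
      by_contra hj
      have h1 := hx.2.2
      rw [cube_flip_of_ne c (Ne.symm hj)] at h1
      cases hc : c i <;> rw [hc] at h1 <;> simp at h1
    exact hne (by rw [hj])
  · intro hx
    exfalso
    apply hx
    rw [Finset.mem_filter]
    refine ⟨Finset.mem_univ _, ?_, cube_flip_self c i⟩
    rw [par_flip, h.1, Bool.not_not]

lemma star_W {p : Bool} {c : V n} {ω : V n → ℕ} (h : Star p c ω) :
    W p ω = ∑ i, ω (flip c i) := by
  unfold W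
  have h1 : ∑ i, ω (flip c i) = ∑ x ∈ Finset.univ.image (fun i => flip c i), ω x := by
    rw [Finset.sum_image]
    intro i _ j _ hij
    exact flip_inj c hij
  rw [h1]
  symm
  refine Finset.sum_subset ?_ ?_
  · intro x hx
    rw [Finset.mem_image] at hx
    obtain ⟨i, -, rfl⟩ := hx
    rw [Finset.mem_filter]
    refine ⟨Finset.mem_univ _, ?_⟩
    rw [par_flip, h.1, Bool.not_not]
  · intro x hx hx'
    rw [Finset.mem_filter] at hx
    by_contra h0
    obtain ⟨j, rfl⟩ := h.2 x hx.2 h0
    exact hx' (Finset.mem_image.2 ⟨j, Finset.mem_univ _, rfl⟩)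

lemma comp_ins_self (c : V (m + 1)) (i : Fin (m + 1)) :
    ins i (c i) (fun j => c (i.succAbove j)) = c := by
  funext k
  rcases Fin.eq_self_or_eq_succAbove i k with rfl | ⟨j, rfl⟩
  · rw [ins_apply_self]
  · rw [ins_succAbove]

/-- the half containing the centre is a star again -/
lemma star_half {p : Bool} {c : V (m + 1)} {ω : V (m + 1) → ℕ} (h : Star p c ω)
    (i : Fin (m + 1)) :
    Star (xor (c i) p) (fun j => c (i.succAbove j)) (half i (c i) ω) := by
  constructor
  · have h1 := par_ins i (c i) (fun j => c (i.succAbove j))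
    rw [comp_ins_self, h.1] at h1
    revert h1
    cases p <;> cases c i <;> cases par (fun j => c (i.succAbove j)) <;> simp
  · intro x hx h0
    have h1 : par (ins i (c i) x) = p := by
      rw [par_ins, hx]
      cases c i <;> cases p <;> rfl
    obtain ⟨j, hj⟩ := h.2 _ h1 h0
    have hji : j ≠ i := by
      rintro rfl
      have h2 := congrFun hj j
      rw [ins_apply_self, cube_flip_self] at h2
      cases hc : c j <;> rw [hc] at h2 <;> simp at h2
    obtain ⟨k, rfl⟩ := Fin.exists_succAbove_eq hji
    refine ⟨k, ?_⟩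
    have h3 : flip c (i.succAbove k) = ins i (c i) (flip (fun j => c (i.succAbove j)) k) := by
      rw [← flip_ins_succAbove, comp_ins_self]
    rw [h3] at hj
    exact (ins_inj.1 hj).2

lemma half_centre (c : V (m + 1)) (ω : V (m + 1) → ℕ) (i : Fin (m + 1)) :
    half i (c i) ω (fun j => c (i.succAbove j)) = ω c := by
  unfold half
  rw [comp_ins_self]

lemma half_flip_centre (c : V (m + 1)) (ω : V (m + 1) → ℕ) (i : Fin (m + 1)) (j : Fin m) :
    half i (c i) ω (flip (fun j => c (i.succAbove j)) j) = ω (flip c (i.succAbove j)) := by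
  unfold half
  rw [← flip_ins_succAbove, comp_ins_self]

end Pool.Agent.Locke
end

section

/-! # Locke's conjecture, part 2: the counting lemmas N1, N2, N3 -/

namespace Pool.Agent.Locke

variable {n m : ℕ}

/-! ### distances to a centre -/

/-- the Hamming distance to `c` -/
def count_D (c x : V n) : ℕ := (Finset.univ.filter (fun i => x i ≠ c i)).card

lemma count_par (c x : V n) : xor (par x) (par c) = decide (Odd (count_D c x)) := by
  rw [← par_trans c x]
  unfold par count_D
  congr 2
  have : (Finset.univ.filter (fun i => (transIso c x) i = true)) =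
      (Finset.univ.filter (fun i => x i ≠ c i)) := by
    ext i
    simp only [Finset.mem_filter, Finset.mem_univ, true_and]
    show (xor (x i) (c i)) = true ↔ x i ≠ c i
    cases x i <;> cases c i <;> simp
  rw [this]

lemma count_odd {c x : V n} (h : par x = !par c) : Odd (count_D c x) := by
  have h1 := count_par c x
  rw [h] at h1
  have h2 : decide (Odd (count_D c x)) = true := by
    rw [← h1]; cases par c <;> rfl
  exact of_decide_eq_true h2

lemma count_even {c x : V n} (h : par x = par c) : Even (count_D c x) := by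
  have h1 := count_par c x
  rw [h] at h1
  have h2 : decide (Odd (count_D c x)) = false := by
    rw [← h1]; cases par c <;> rfl
  exact Nat.not_odd_iff_even.mp (of_decide_eq_false h2)

lemma count_D_zero {c x : V n} (h : count_D c x = 0) : x = c := by
  unfold count_D at h
  rw [Finset.card_eq_zero, Finset.filter_eq_empty_iff] at h
  funext i
  have := h (Finset.mem_univ i)
  simpa using this

lemma count_D_one {c x : V n} (h : count_D c x = 1) : ∃ i, x = flip c i := by
  unfold count_D at h
  rw [Finset.card_eq_one] at h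
  obtain ⟨i, hi⟩ := h
  refine ⟨i, ?_⟩
  funext j
  by_cases hj : j = i
  · subst hj
    rw [cube_flip_self]
    have : j ∈ Finset.univ.filter (fun i => x i ≠ c i) := by rw [hi]; simp
    have h2 := (Finset.mem_filter.1 this).2
    revert h2
    cases x j <;> cases c j <;> simp
  · rw [cube_flip_of_ne c hj]
    by_contra hne
    have : j ∈ Finset.univ.filter (fun i => x i ≠ c i) := by simp [hne]
    rw [hi, Finset.mem_singleton] at this
    exact hj this

/-- a centre: the heavy side in every direction -/
lemma exists_centre (p : Bool) (ω : V n → ℕ) :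
    ∃ c : V n, ∀ i, S p ω i (!c i) ≤ S p ω i (c i) := by
  refine ⟨fun i => if S p ω i true ≤ S p ω i false then false else true, fun i => ?_⟩
  by_cases h : S p ω i true ≤ S p ω i false
  · simp [h]
  · simp only [h, if_false, Bool.not_true]
    omega

/-- the light side weights count distances to the centre -/
lemma sum_S (p : Bool) (ω : V n → ℕ) (c : V n) :
    ∑ i, S p ω i (!c i) = ∑ x ∈ Finset.univ.filter (fun x : V n => par x = p),
      ω x * (Finset.univ.filter (fun i => x i ≠ c i)).card := by
  have h1 : ∀ i, S p ω i (!c i) = ∑ x ∈ Finset.univ.filter (fun x : V n => par x = p),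
      if x i ≠ c i then ω x else 0 := by
    intro i
    unfold S
    rw [← Finset.sum_filter, Finset.filter_filter]
    refine Finset.sum_congr ?_ fun _ _ => rfl
    ext x
    simp only [Finset.mem_filter, Finset.mem_univ, true_and]
    refine and_congr_right fun _ => ?_
    cases x i <;> cases c i <;> simp
  simp only [h1]
  rw [Finset.sum_comm]
  refine Finset.sum_congr rfl fun x _ => ?_
  rw [← Finset.sum_filter, Finset.sum_const, smul_eq_mul, mul_comm]

lemma count_sum_S (p : Bool) (ω : V n → ℕ) (c : V n) :
    ∑ i, S p ω i (!c i) = ∑ x ∈ Finset.univ.filter (fun x : V n => par x = p),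
      ω x * count_D c x := sum_S p ω c

lemma count_par_flip {p : Bool} {c : V n} (hc : par c = !p) (i : Fin n) : par (flip c i) = p := by
  rw [par_flip, hc, Bool.not_not]

lemma flip_le_S {p : Bool} {c : V n} (hc : par c = !p) (ω : V n → ℕ) (i : Fin n) :
    ω (flip c i) ≤ S p ω i (!c i) := by
  unfold S
  refine Finset.single_le_sum (f := ω) (fun _ _ => Nat.zero_le _) ?_
  simp only [Finset.mem_filter, Finset.mem_univ, true_and]
  exact ⟨count_par_flip hc i, cube_flip_self c i⟩

/-- the neighbours of the centre -/
def count_F (c : V n) : Finset (V n) := Finset.univ.image (flip c)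

lemma count_mem_F {c x : V n} : x ∈ count_F c ↔ ∃ i, x = flip c i := by
  unfold count_F
  simp only [Finset.mem_image, Finset.mem_univ, true_and]
  constructor
  · rintro ⟨i, h⟩; exact ⟨i, h.symm⟩
  · rintro ⟨i, h⟩; exact ⟨i, h.symm⟩

lemma count_F_sub {p : Bool} {c : V n} (hc : par c = !p) :
    count_F c ⊆ Finset.univ.filter (fun x : V n => par x = p) := by
  intro x hx
  obtain ⟨i, rfl⟩ := count_mem_F.1 hx
  simp only [Finset.mem_filter, Finset.mem_univ, true_and]
  exact count_par_flip hc i

lemma count_sum_F (c : V n) (f : V n → ℕ) : ∑ x ∈ count_F c, f x = ∑ i, f (flip c i) := by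
  unfold count_F
  rw [Finset.sum_image]
  intro i _ j _ h
  exact flip_inj c h

lemma count_sum_F' {p : Bool} {c : V n} (hc : par c = !p) (ω : V n → ℕ) :
    ∑ x ∈ Finset.univ.filter (fun x : V n => par x = p), (if x ∈ count_F c then ω x else 0) =
      ∑ i, ω (flip c i) := by
  rw [← count_sum_F c ω, ← Finset.sum_filter]
  refine Finset.sum_congr ?_ fun _ _ => rfl
  rw [Finset.filter_mem_eq_inter, Finset.inter_eq_right.2 (count_F_sub hc)]

lemma sum_flip_le_W {p : Bool} {c : V n} (hc : par c = !p) (ω : V n → ℕ) :
    ∑ i, ω (flip c i) ≤ W p ω := by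
  rw [← count_sum_F c ω]
  exact Finset.sum_le_sum_of_subset (count_F_sub hc)

/-- N1: centre of the opposite parity -/
theorem N1 {p : Bool} {c : V n} (hc : par c = !p) (ω : V n → ℕ) :
    3 * W p ω ≤ ∑ i, S p ω i (!c i) + 2 * ∑ i, ω (flip c i) := by
  rw [count_sum_S, ← count_sum_F' hc ω]
  unfold W
  rw [Finset.mul_sum, Finset.mul_sum, ← Finset.sum_add_distrib]
  refine Finset.sum_le_sum fun x hx => ?_
  have hpx : par x = p := (Finset.mem_filter.1 hx).2
  have hodd : Odd (count_D c x) := count_odd (by rw [hpx, hc, Bool.not_not])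
  by_cases hF : x ∈ count_F c
  · rw [if_pos hF]
    have h1 : 1 ≤ count_D c x := hodd.pos
    nlinarith [Nat.mul_le_mul_left (ω x) h1]
  · rw [if_neg hF]
    have h3 : 3 ≤ count_D c x := by
      by_contra hlt
      have h1 : count_D c x = 1 := by
        obtain ⟨k, hk⟩ := hodd
        omega
      exact hF (count_mem_F.2 (count_D_one h1))
    nlinarith [Nat.mul_le_mul_left (ω x) h3]

/-- N1 with `φ(q) = q + 2 min(q,2)` -/
theorem N1' {p : Bool} {c : V n} (hc : par c = !p) (ω : V n → ℕ) (hω : ∀ x, ω x ≤ 2) :
    3 * W p ω ≤ ∑ i, (S p ω i (!c i) + 2 * min (S p ω i (!c i)) 2) := by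
  refine (N1 hc ω).trans ?_
  rw [Finset.mul_sum, ← Finset.sum_add_distrib]
  refine Finset.sum_le_sum fun i _ => ?_
  have h1 := flip_le_S hc ω i
  have h2 := hω (flip c i)
  have h3 : ω (flip c i) ≤ min (S p ω i (!c i)) 2 := le_min h1 h2
  omega

theorem N1_parity {p : Bool} {c : V n} (hc : par c = !p) (ω : V n → ℕ) :
    (∑ i, S p ω i (!c i)) % 2 = W p ω % 2 := by
  rw [count_sum_S]
  unfold W
  rw [Finset.sum_nat_mod, Finset.sum_nat_mod (s := Finset.univ.filter (fun x : V n => par x = p))
    (f := ω)]
  congr 1
  refine Finset.sum_congr rfl fun x hx => ?_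
  have hpx : par x = p := (Finset.mem_filter.1 hx).2
  have hodd : Odd (count_D c x) := count_odd (by rw [hpx, hc, Bool.not_not])
  rw [Nat.mul_mod, Nat.odd_iff.1 hodd, mul_one, Nat.mod_mod]

theorem N1_star {p : Bool} {c : V n} (hc : par c = !p) (ω : V n → ℕ)
    (h : W p ω ≤ ∑ i, ω (flip c i)) : Star p c ω := by
  refine ⟨hc, fun x hx h0 => ?_⟩
  by_contra hne
  have hF : x ∉ count_F c := fun h' => hne (count_mem_F.1 h')
  rw [← count_sum_F c ω] at h
  unfold W at h
  have h1 : ∑ y ∈ insert x (count_F c), ω y ≤
      ∑ y ∈ Finset.univ.filter (fun y : V n => par y = p), ω y := by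
    refine Finset.sum_le_sum_of_subset ?_
    intro y hy
    rcases Finset.mem_insert.1 hy with rfl | hy
    · simp [hx]
    · exact count_F_sub hc hy
  rw [Finset.sum_insert hF] at h1
  have h2 : 0 < ω x := Nat.pos_of_ne_zero h0
  omega

/-- if the light sides weigh less than `W + 2` in total then `ω` is a star -/
theorem N1_star' {p : Bool} {c : V n} (hc : par c = !p) (ω : V n → ℕ)
    (h : ∑ i, S p ω i (!c i) < W p ω + 2) : Star p c ω := by
  refine ⟨hc, fun x hx h0 => ?_⟩
  by_contra hne
  rw [count_sum_S] at h
  unfold W at h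
  have hmem : x ∈ Finset.univ.filter (fun y : V n => par y = p) := by simp [hx]
  rw [← Finset.add_sum_erase _ _ hmem, ← Finset.add_sum_erase _ (fun y => ω y) hmem] at h
  have h1 : ∑ y ∈ (Finset.univ.filter (fun y : V n => par y = p)).erase x, ω y ≤
      ∑ y ∈ (Finset.univ.filter (fun y : V n => par y = p)).erase x, ω y * count_D c y := by
    refine Finset.sum_le_sum fun y hy => ?_
    have hpy : par y = p := (Finset.mem_filter.1 (Finset.mem_of_mem_erase hy)).2
    have hodd : Odd (count_D c y) := count_odd (by rw [hpy, hc, Bool.not_not])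
    exact Nat.le_mul_of_pos_right _ hodd.pos
  have hodd : Odd (count_D c x) := count_odd (by rw [hx, hc, Bool.not_not])
  have h3 : 3 ≤ count_D c x := by
    by_contra hlt
    have h1 : count_D c x = 1 := by
      obtain ⟨k, hk⟩ := hodd
      omega
    exact hne (count_D_one h1)
  have h4 : ω x * 3 ≤ ω x * count_D c x := Nat.mul_le_mul_left _ h3
  have h5 : 0 < ω x := Nat.pos_of_ne_zero h0
  omega

/-- N2: centre of the same parity -/
theorem N2 {p : Bool} {c : V n} (hc : par c = p) (ω : V n → ℕ) :
    2 * W p ω ≤ ∑ i, S p ω i (!c i) + 2 * ω c := by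
  rw [count_sum_S]
  unfold W
  have hmem : c ∈ Finset.univ.filter (fun y : V n => par y = p) := by simp [hc]
  rw [← Finset.add_sum_erase _ (fun y => ω y) hmem,
    ← Finset.add_sum_erase _ (fun y => ω y * count_D c y) hmem, mul_add, Finset.mul_sum]
  have h1 : ∑ y ∈ (Finset.univ.filter (fun y : V n => par y = p)).erase c, 2 * ω y ≤
      ∑ y ∈ (Finset.univ.filter (fun y : V n => par y = p)).erase c, ω y * count_D c y := by
    refine Finset.sum_le_sum fun y hy => ?_
    have hpy : par y = p := (Finset.mem_filter.1 (Finset.mem_of_mem_erase hy)).2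
    have heven : Even (count_D c y) := count_even (by rw [hpy, hc])
    have hne : count_D c y ≠ 0 := fun h0 => Finset.ne_of_mem_erase hy (count_D_zero h0)
    have h2 : 2 ≤ count_D c y := by
      obtain ⟨k, hk⟩ := heven
      omega
    rw [mul_comm]
    exact Nat.mul_le_mul_left _ h2
  omega

/-! ### N3 -/

/-- the vertices which agree with `c` outside `T` -/
def count_box (c : V n) (T : Finset (Fin n)) : Finset (V n) :=
  Finset.univ.filter (fun x : V n => ∀ i, i ∉ T → x i = c i)

lemma count_box_card (c : V n) (T : Finset (Fin n)) : (count_box c T).card = 2 ^ T.card := by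
  classical
  have h : count_box c T =
      Fintype.piFinset (fun i => if i ∈ T then (Finset.univ : Finset Bool) else {c i}) := by
    ext x
    simp only [count_box, Finset.mem_filter, Finset.mem_univ, true_and, Fintype.mem_piFinset]
    refine forall_congr' fun i => ?_
    by_cases hi : i ∈ T
    · simp [hi]
    · simp [hi]
  rw [h, Fintype.card_piFinset]
  have h2 : ∀ i, (if i ∈ T then (Finset.univ : Finset Bool) else {c i}).card =
      if i ∈ T then 2 else 1 := by
    intro i
    by_cases hi : i ∈ T
    · simp [hi]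
    · simp [hi]
  simp only [h2]
  rw [Finset.prod_ite_mem, Finset.univ_inter, Finset.prod_const]

/-- the inner black vertices -/
def count_In (p : Bool) (c : V n) (T : Finset (Fin n)) : Finset (V n) :=
  (count_box c T).filter (fun x => par x = p)

lemma count_In_card (p : Bool) (c : V n) (T : Finset (Fin n)) (hT : T.Nonempty) :
    2 * (count_In p c T).card ≤ 2 ^ T.card := by
  obtain ⟨t, ht⟩ := hT
  rw [← count_box_card c T, two_mul]
  have h1 : (count_In p c T).card = ((count_In p c T).image (fun x => flip x t)).card := by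
    rw [Finset.card_image_of_injective]
    intro x y hxy
    have := congrArg (fun z => flip z t) hxy
    simpa [flip_flip] using this
  have hdisj : Disjoint (count_In p c T) ((count_In p c T).image (fun x => flip x t)) := by
    rw [Finset.disjoint_left]
    intro x hx hx'
    obtain ⟨y, hy, rfl⟩ := Finset.mem_image.1 hx'
    have h2 : par (flip y t) = p := (Finset.mem_filter.1 hx).2
    have h3 : par y = p := (Finset.mem_filter.1 hy).2
    rw [par_flip, h3] at h2
    cases p <;> simp at h2
  calc (count_In p c T).card + (count_In p c T).card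
      = (count_In p c T).card + ((count_In p c T).image (fun x => flip x t)).card := by
        rw [← h1]
    _ = (count_In p c T ∪ (count_In p c T).image (fun x => flip x t)).card := by
        rw [Finset.card_union_of_disjoint hdisj]
    _ ≤ (count_box c T).card := by
        refine Finset.card_le_card ?_
        intro x hx
        rcases Finset.mem_union.1 hx with hx | hx
        · exact (Finset.mem_filter.1 hx).1
        · obtain ⟨y, hy, rfl⟩ := Finset.mem_image.1 hx
          have h4 := (Finset.mem_filter.1 (Finset.mem_filter.1 hy).1).2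
          simp only [count_box, Finset.mem_filter, Finset.mem_univ, true_and]
          intro i hi
          have hit : i ≠ t := fun h => hi (h ▸ ht)
          rw [cube_flip_of_ne y hit]
          exact h4 i hi

/-- splitting off the inner vertices -/
lemma count_N3 (p : Bool) (c : V n) (ω : V n → ℕ) (T : Finset (Fin n)) :
    W p ω ≤ ∑ x ∈ count_In p c T, ω x + ∑ i ∈ Tᶜ, S p ω i (!c i) := by
  have h1 : ∀ i, S p ω i (!c i) = ∑ x ∈ Finset.univ.filter (fun x : V n => par x = p),
      if x i ≠ c i then ω x else 0 := by
    intro i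
    unfold S
    rw [← Finset.sum_filter, Finset.filter_filter]
    refine Finset.sum_congr ?_ fun _ _ => rfl
    ext x
    simp only [Finset.mem_filter, Finset.mem_univ, true_and]
    refine and_congr_right fun _ => ?_
    cases x i <;> cases c i <;> simp
  simp only [h1]
  rw [Finset.sum_comm]
  have h2 : ∑ x ∈ count_In p c T, ω x = ∑ x ∈ Finset.univ.filter (fun x : V n => par x = p),
      if (∀ i, i ∉ T → x i = c i) then ω x else 0 := by
    rw [← Finset.sum_filter]
    refine Finset.sum_congr ?_ fun _ _ => rfl
    ext x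
    simp only [count_In, count_box, Finset.mem_filter, Finset.mem_univ, true_and]
    exact and_comm
  rw [h2, ← Finset.sum_add_distrib]
  unfold W
  refine Finset.sum_le_sum fun x _ => ?_
  by_cases hx : ∀ i, i ∉ T → x i = c i
  · rw [if_pos hx]
    exact Nat.le_add_right _ _
  · rw [if_neg hx, zero_add]
    push Not at hx
    obtain ⟨i, hi, hne⟩ := hx
    have h3 : (if x i ≠ c i then ω x else 0) ≤ ∑ i ∈ Tᶜ, if x i ≠ c i then ω x else 0 :=
      Finset.single_le_sum (f := fun i => if x i ≠ c i then ω x else 0)
        (fun _ _ => Nat.zero_le _) (Finset.mem_compl.2 hi)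
    rw [if_pos hne] at h3
    exact h3

/-- N3: threshold inequality -/
theorem N3 (p : Bool) (c : V n) (ω : V n → ℕ) (hω : ∀ x, ω x ≤ 2) (T : Finset (Fin n))
    (hT : T.Nonempty) : W p ω ≤ 2 ^ T.card + ∑ i ∈ Tᶜ, S p ω i (!c i) := by
  refine (count_N3 p c ω T).trans (Nat.add_le_add_right ?_ _)
  calc ∑ x ∈ count_In p c T, ω x ≤ ∑ _x ∈ count_In p c T, 2 :=
        Finset.sum_le_sum fun x _ => hω x
    _ = 2 * (count_In p c T).card := by rw [Finset.sum_const, smul_eq_mul, mul_comm]
    _ ≤ 2 ^ T.card := count_In_card p c T hT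

/-- N3 for a centre of the same parity, keeping the weight of the centre -/
theorem N3_centre {p : Bool} {c : V n} (hc : par c = p) (ω : V n → ℕ) (hω : ∀ x, ω x ≤ 2)
    (T : Finset (Fin n)) (hT : T.Nonempty) :
    W p ω + 2 ≤ 2 ^ T.card + ω c + ∑ i ∈ Tᶜ, S p ω i (!c i) := by
  have h1 := count_N3 p c ω T
  have hmem : c ∈ count_In p c T := by
    simp [count_In, count_box, hc]
  have h2 : ∑ x ∈ (count_In p c T).erase c, ω x ≤ 2 * ((count_In p c T).card - 1) := by
    calc ∑ x ∈ (count_In p c T).erase c, ω x ≤ ∑ _x ∈ (count_In p c T).erase c, 2 :=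
          Finset.sum_le_sum fun x _ => hω x
      _ = 2 * ((count_In p c T).card - 1) := by
          rw [Finset.sum_const, smul_eq_mul, mul_comm, Finset.card_erase_of_mem hmem]
  rw [← Finset.add_sum_erase _ _ hmem] at h1
  have h3 : 1 ≤ (count_In p c T).card := Finset.card_pos.2 ⟨c, hmem⟩
  have h4 := count_In_card p c T hT
  omega

/-- N3 for two directions and a centre of the same parity -/
theorem N3_two {p : Bool} {c : V n} (hc : par c = p) (ω : V n → ℕ) {a b : Fin n}
    (hab : a ≠ b) :
    W p ω ≤ ω c + ω (flip (flip c a) b) + ∑ i ∈ ({a, b} : Finset (Fin n))ᶜ, S p ω i (!c i) := by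
  refine (count_N3 p c ω {a, b}).trans (Nat.add_le_add_right ?_ _)
  have hsub : count_In p c {a, b} ⊆ {c, flip (flip c a) b} := by
    intro x hx
    have hpx : par x = p := (Finset.mem_filter.1 hx).2
    have hbox := (Finset.mem_filter.1 (Finset.mem_filter.1 hx).1).2
    simp only [Finset.mem_insert, Finset.mem_singleton, not_or] at hbox
    rw [Finset.mem_insert, Finset.mem_singleton]
    have hba : b ≠ a := Ne.symm hab
    by_cases ha : x a = c a
    · by_cases hb : x b = c b
      · left
        funext i
        by_cases hia : i = a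
        · rw [hia, ha]
        · by_cases hib : i = b
          · rw [hib, hb]
          · exact hbox i ⟨hia, hib⟩
      · exfalso
        have hx' : x = flip c b := by
          funext i
          by_cases hib : i = b
          · rw [hib, cube_flip_self]
            revert hb
            cases x b <;> cases c b <;> simp
          · rw [cube_flip_of_ne c hib]
            by_cases hia : i = a
            · rw [hia, ha]
            · exact hbox i ⟨hia, hib⟩
        rw [hx', par_flip, hc] at hpx
        cases p <;> simp at hpx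
    · by_cases hb : x b = c b
      · exfalso
        have hx' : x = flip c a := by
          funext i
          by_cases hia : i = a
          · rw [hia, cube_flip_self]
            revert ha
            cases x a <;> cases c a <;> simp
          · rw [cube_flip_of_ne c hia]
            by_cases hib : i = b
            · rw [hib, hb]
            · exact hbox i ⟨hia, hib⟩
        rw [hx', par_flip, hc] at hpx
        cases p <;> simp at hpx
      · right
        funext i
        by_cases hib : i = b
        · rw [hib, cube_flip_self, cube_flip_of_ne c hba]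
          revert hb
          cases x b <;> cases c b <;> simp
        · rw [cube_flip_of_ne _ hib]
          by_cases hia : i = a
          · rw [hia, cube_flip_self]
            revert ha
            cases x a <;> cases c a <;> simp
          · rw [cube_flip_of_ne _ hia]
            exact hbox i ⟨hia, hib⟩
  refine (Finset.sum_le_sum_of_subset hsub).trans ?_
  rw [Finset.sum_pair]
  intro h
  have h1 := congrFun h b
  rw [cube_flip_self, cube_flip_of_ne c (Ne.symm hab)] at h1
  revert h1
  cases c b <;> simp

/-- a weight that is a star for both classes is given by its values on the two stars -/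
def starW (c : V n) (t : Fin n → ℕ) : V n → ℕ := fun x => ∑ i, if x = flip c i then t i else 0

lemma count_starW_self {p : Bool} {c : V n} {ω : V n → ℕ} (hc : Star p c ω) {x : V n}
    (hx : par x = p) : starW c (fun i => ω (flip c i)) x = ω x := by
  unfold starW
  by_cases h0 : ω x = 0
  · rw [h0]
    refine Finset.sum_eq_zero fun i _ => ?_
    by_cases h : x = flip c i
    · rw [if_pos h]
      show ω (flip c i) = 0
      rw [← h, h0]
    · rw [if_neg h]
  · obtain ⟨j, hj⟩ := hc.2 x hx h0
    rw [Finset.sum_eq_single j]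
    · rw [if_pos hj]
      show ω (flip c j) = ω x
      rw [← hj]
    · intro i _ hij
      rw [if_neg]
      intro h
      exact hij (flip_inj c (h.symm.trans hj))
    · simp

lemma count_starW_other {p : Bool} {c : V n} {t : Fin n → ℕ} (hc : par c = !p) {x : V n}
    (hx : par x = !p) : starW c t x = 0 := by
  unfold starW
  refine Finset.sum_eq_zero fun i _ => ?_
  rw [if_neg]
  intro h
  rw [h, count_par_flip hc] at hx
  cases p <;> simp at hx

theorem eq_starW {p : Bool} {c d : V n} {ω : V n → ℕ} (hc : Star p c ω) (hd : Star (!p) d ω) :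
    ω = fun x => starW c (fun i => ω (flip c i)) x + starW d (fun i => ω (flip d i)) x := by
  funext x
  by_cases hx : par x = p
  · rw [count_starW_self hc hx, count_starW_other (p := !p) hd.1 (by rw [hx, Bool.not_not]),
      add_zero]
  · have hx' : par x = !p := by
      revert hx
      cases par x <;> cases p <;> simp
    rw [count_starW_self hd hx', count_starW_other hc.1 hx', zero_add]

end Pool.Agent.Locke
end

section

/-! # Locke's conjecture, part 2: the rules R1, R1m

Throughout `b` is the half that is completed with the help of the hypothesis `hC`; the class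
`p` of the big cube has label `xor b p` in that half.  Write `e0 = S p ω i b`,
`o0 = S (!p) ω i b`, `e1 = S p ω i (!b)`, `o1 = S (!p) ω i (!b)`. -/

namespace Pool.Agent.Locke

variable {n m : ℕ}

lemma ruleA_sum (q : Bool) (η : V n → ℕ) : ∑ x, η x = W q η + W (!q) η := by
  rw [sum_eq_W]
  cases q
  · exact add_comm _ _
  · rfl

lemma ruleA_EL (hE : EL n) (q : Bool) {η : V n → ℕ} (h2 : ∀ x, η x ≤ 2)
    (h : W q η = W (!q) η) (hw : W q η + 4 ≤ 2 * n) : Good η := by
  cases q
  · exact hE η h2 h.symm (by have := h; simp only [Bool.not_false] at this; omega)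
  · exact hE η h2 h hw

lemma ruleA_split (i : Fin (n + 1)) (b : Bool) (ω : V (n + 1) → ℕ) (hω : ∀ x, ω x ≤ 2)
    (C : Finset (V n)) (hC : C.Nonempty) (hz : ∀ x ∈ C, ∀ b, half i b ω x = 0)
    (h0 : Good (plus (half i b ω) C)) (h1 : Good (plus (half i (!b) ω) C))
    (he : Even (∑ x, plus (half i b ω) C x)) : Good ω := by
  have h2 : Good (plus (half i false ω) C) ∧ Good (plus (half i true ω) C) := by
    cases b
    · exact ⟨h0, h1⟩
    · exact ⟨h1, h0⟩
  exact fun _ hσ => SG_rule1 (b := b) i hσ hω C hC hz h2.1 h2.2 he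

lemma ruleA_both {i : Fin (n + 1)} {b : Bool} {ω : V (n + 1) → ℕ} {x : V n}
    (h0 : half i b ω x = 0) (h1 : half i (!b) ω x = 0) : ∀ c, half i c ω x = 0 := by
  intro c
  cases b <;> cases c <;> assumption

/-- the number of vertices of positive weight in a set inside a class -/
lemma ruleA_card_le (q : Bool) (η : V n → ℕ) (K : Finset (V n))
    (hK : ∀ x ∈ K, par x = q ∧ η x ≠ 0) : K.card ≤ W q η := by
  refine le_trans (Finset.card_le_card ?_) (card_pos_le_W q η)
  intro x hx
  rw [Finset.mem_filter]
  exact ⟨Finset.mem_univ _, (hK x hx).1, Nat.pos_of_ne_zero (hK x hx).2⟩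

/-- the image of a set of vertices of a half -/
def ruleA_img (i : Fin (n + 1)) (b : Bool) (C : Finset (V n)) : Finset (V (n + 1)) :=
  C.image (ins i b)

lemma ruleA_mem_img {i : Fin (n + 1)} {b c : Bool} {C : Finset (V n)} {x : V n} :
    ins i c x ∈ ruleA_img i b C ↔ c = b ∧ x ∈ C := by
  unfold ruleA_img
  rw [Finset.mem_image]
  constructor
  · rintro ⟨y, hy, hyx⟩
    rw [ins_inj] at hyx
    exact ⟨hyx.1.symm, hyx.2 ▸ hy⟩
  · rintro ⟨rfl, hx⟩
    exact ⟨x, hx, rfl⟩

lemma ruleA_card_img (i : Fin (n + 1)) (b : Bool) (C : Finset (V n)) :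
    (ruleA_img i b C).card = C.card := by
  unfold ruleA_img
  refine Finset.card_image_of_injective _ ?_
  intro x y hxy
  exact (ins_inj.1 hxy).2

lemma ruleA_half_img_same (i : Fin (n + 1)) (b : Bool) (ω : V (n + 1) → ℕ)
    (C : Finset (V n)) :
    half i b (plus ω (ruleA_img i b C)) = plus (half i b ω) C := by
  funext x
  simp only [half, plus, ind, ruleA_mem_img, true_and]

lemma ruleA_half_img_other (i : Fin (n + 1)) (b : Bool) (ω : V (n + 1) → ℕ)
    (C : Finset (V n)) :
    half i (!b) (plus ω (ruleA_img i b C)) = half i (!b) ω := by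
  funext x
  have h : ¬ ((!b) = b ∧ x ∈ C) := by
    rintro ⟨h, -⟩
    cases b <;> simp at h
  simp only [half, plus, ind, ruleA_mem_img, if_neg h, add_zero]

lemma ruleA_plus_plus (η : V n → ℕ) {C D : Finset (V n)} (h : C ⊆ D) :
    plus (plus η (D \ C)) C = plus η D := by
  funext x
  by_cases h1 : x ∈ C
  · have h2 := h h1
    simp [plus, ind, h1, h2]
  · by_cases h2 : x ∈ D
    · simp [plus, ind, h1, h2]
    · simp [plus, ind, h1, h2]

lemma ruleA_plus_le {η : V n → ℕ} (h : ∀ x, η x ≤ 2) {C : Finset (V n)}
    (hC : ∀ x ∈ C, η x ≤ 1) : ∀ x, plus η C x ≤ 2 := by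
  intro x
  unfold plus ind
  by_cases hx : x ∈ C
  · rw [if_pos hx]
    have := hC x hx
    omega
  · rw [if_neg hx]
    exact h x

/-- R1: cross `o1 - e1` units of the completing set -/
theorem comp_R1 {p : Bool} {ω : V (m + 1) → ℕ} (hω : ∀ x, ω x ≤ 2) (i : Fin (m + 1)) (b : Bool)
    (hE : EL m) (hC : Comp (xor b p) (half i b ω)) (hW : W (!p) ω ≤ W p ω)
    (h1 : S p ω i (!b) < S (!p) ω i (!b)) (h2 : S (!p) ω i (!b) + 4 ≤ 2 * m)
    (hk : S p ω i (!b) + W (!p) ω ≤ W p ω ∨
      ∀ x : V m, par x = !(xor b p) → half i (!b) ω x ≠ 0 → half i b ω x ≠ 0) :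
    Comp p ω := by
  classical
  obtain ⟨U0, hU0, hcard, hgood⟩ := hC
  have hl0 := W_half_light i b p ω
  have hh0 := W_half_heavy i b p ω
  have hh1 := W_half_other_heavy i b p ω
  have hl1 := W_half_other_light i b p ω
  have ha := S_add p b ω i
  have hb := S_add (!p) b ω i
  set pb := xor b p with hpb
  rw [hl0, hh0] at hcard
  set K := U0.filter (fun x => half i (!b) ω x ≠ 0) with hK
  set D := U0.filter (fun x => ¬ half i (!b) ω x ≠ 0) with hD
  have hKD : K.card + D.card = U0.card := Finset.card_filter_add_card_filter_not _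
  have hKle : K.card ≤ S p ω i (!b) := by
    rw [← hh1]
    refine ruleA_card_le _ _ _ ?_
    intro x hx
    rw [hK, Finset.mem_filter] at hx
    exact ⟨(hU0 x hx.1).1, hx.2⟩
  have hDge : S (!p) ω i (!b) - S p ω i (!b) ≤ D.card := by
    rcases hk with hk | hk
    · omega
    · have hK0 : K.card = 0 := by
        rw [Finset.card_eq_zero, hK, Finset.filter_eq_empty_iff]
        intro x hx hx'
        exact hk x (hU0 x hx).1 hx' (hU0 x hx).2
      omega
  obtain ⟨C, hCD, hCc⟩ := Finset.exists_subset_card_eq hDge
  have hCU : C ⊆ U0 := fun x hx => (Finset.mem_filter.1 (hCD hx)).1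
  have hC1 : ∀ x ∈ C, half i (!b) ω x = 0 := by
    intro x hx
    have := (Finset.mem_filter.1 (hCD hx)).2
    simpa using this
  have hUc : (U0 \ C).card = U0.card - C.card := Finset.card_sdiff_of_subset hCU
  have hCle : C.card ≤ U0.card := Finset.card_le_card hCU
  have hpar : ∀ x ∈ U0, par (ins i b x) = !p := by
    intro x hx
    rw [par_ins, (hU0 x hx).1, hpb]
    cases b <;> cases p <;> rfl
  have hmem : ∀ z ∈ ruleA_img i b (U0 \ C), par z = !p ∧ ω z = 0 := by
    intro z hz
    unfold ruleA_img at hz
    rw [Finset.mem_image] at hz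
    obtain ⟨x, hx, rfl⟩ := hz
    have hx' := (Finset.mem_sdiff.1 hx).1
    exact ⟨hpar x hx', (hU0 x hx').2⟩
  refine ⟨ruleA_img i b (U0 \ C), hmem, ?_, ?_⟩
  · rw [ruleA_card_img, hUc]
    omega
  · have hes : plus (half i b (plus ω (ruleA_img i b (U0 \ C)))) C = plus (half i b ω) U0 := by
      rw [ruleA_half_img_same, ruleA_plus_plus _ hCU]
    refine ruleA_split i b _ ?_ C ?_ ?_ ?_ ?_ ?_
    · refine ruleA_plus_le hω ?_
      intro x hx
      rw [(hmem x hx).2]
      omega
    · rw [← Finset.card_pos, hCc]
      omega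
    · intro x hx
      refine ruleA_both (b := b) ?_ ?_
      · rw [ruleA_half_img_same]
        have h3 : x ∉ U0 \ C := fun h => (Finset.mem_sdiff.1 h).2 hx
        simp only [plus, ind, if_neg h3, add_zero]
        exact (hU0 x (hCU hx)).2
      · rw [ruleA_half_img_other]
        exact hC1 x hx
    · rw [hes]
      exact hgood
    · rw [ruleA_half_img_other]
      refine ruleA_EL hE (!pb) ?_ ?_ ?_
      · refine ruleA_plus_le (half_le hω i (!b)) ?_
        intro x hx
        rw [hC1 x hx]
        omega
      · rw [W_plus _ _ _ (fun x hx => (hU0 x (hCU hx)).1), Bool.not_not,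
          W_plus_not _ _ _ (fun x hx => (hU0 x (hCU hx)).1), hh1, hl1, hCc]
        omega
      · rw [W_plus _ _ _ (fun x hx => (hU0 x (hCU hx)).1), hh1, hCc]
        omega
    · rw [hes, ruleA_sum pb, W_plus_not _ _ _ (fun x hx => (hU0 x hx).1),
        W_plus _ _ _ (fun x hx => (hU0 x hx).1), hl0, hh0]
      exact ⟨S p ω i b, by omega⟩

/-- R1m: the balanced case with at most one unit of `p` on the other side -/
theorem good_R1m {p : Bool} {ω : V (m + 1) → ℕ} (hω : ∀ x, ω x ≤ 2) (i : Fin (m + 1)) (b : Bool)
    (hm : 4 ≤ m) (hE : EL m) (hC : Comp (xor b p) (half i b ω)) (hW : W (!p) ω = W p ω)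
    (hw : W p ω + 2 ≤ 2 * m) (h0 : S p ω i (!b) ≤ 1)
    (h1 : 2 ≤ S (!p) ω i (!b)) (h2 : S (!p) ω i (!b) + 4 ≤ 2 * m) : Good ω := by
  classical
  obtain ⟨U0, hU0, hcard, hgood⟩ := hC
  have hl0 := W_half_light i b p ω
  have hh0 := W_half_heavy i b p ω
  have hh1 := W_half_other_heavy i b p ω
  have hl1 := W_half_other_light i b p ω
  have ha := S_add p b ω i
  have hb := S_add (!p) b ω i
  set pb := xor b p with hpb
  rw [hl0, hh0] at hcard
  have hpar : ∀ x ∈ U0, par x = !pb := fun x hx => (hU0 x hx).1
  have heven : Even (∑ x, plus (half i b ω) U0 x) := by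
    rw [ruleA_sum pb, W_plus_not _ _ _ hpar, W_plus _ _ _ hpar, hl0, hh0]
    exact ⟨S p ω i b, by omega⟩
  by_cases hK : ∀ x ∈ U0, half i (!b) ω x = 0
  · refine ruleA_split i b _ hω U0 ?_ ?_ hgood ?_ heven
    · rw [← Finset.card_pos]
      omega
    · intro x hx
      exact ruleA_both (hU0 x hx).2 (hK x hx)
    · refine ruleA_EL hE (!pb) ?_ ?_ ?_
      · refine ruleA_plus_le (half_le hω i (!b)) ?_
        intro x hx
        rw [hK x hx]
        omega
      · rw [W_plus _ _ _ hpar, Bool.not_not, W_plus_not _ _ _ hpar, hh1, hl1]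
        omega
      · rw [W_plus _ _ _ hpar, hh1]
        omega
  · push Not at hK
    obtain ⟨z, hzU, hz⟩ := hK
    have hz1 : half i (!b) ω z ≤ S p ω i (!b) := by
      rw [← hh1, ← hpar z hzU]
      exact single_le_W _ _
    have hz2 : half i (!b) ω z = 1 := by omega
    have he1 : S p ω i (!b) = 1 := by omega
    -- all other vertices of `U0` have weight 0 on the other side
    have hoth : ∀ x ∈ U0, x ≠ z → half i (!b) ω x = 0 := by
      intro x hx hxz
      by_contra hne
      have h3 : ({x, z} : Finset (V m)).card ≤ S p ω i (!b) := by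
        rw [← hh1]
        refine ruleA_card_le _ _ _ ?_
        intro y hy
        rw [Finset.mem_insert, Finset.mem_singleton] at hy
        rcases hy with rfl | rfl
        · exact ⟨hpar _ hx, hne⟩
        · exact ⟨hpar _ hzU, hz⟩
      rw [Finset.card_pair hxz] at h3
      omega
    have hins : insert z (U0.erase z) = U0 := Finset.insert_erase hzU
    have hle1 : ∀ x ∈ U0, half i (!b) ω x ≤ 1 := by
      intro x hx
      by_cases hxz : x = z
      · rw [hxz, hz2]
      · rw [hoth x hx hxz]
        omega
    refine good_of_split_merge i b ω hω (U0.erase z) z (Finset.notMem_erase _ _) ?_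
      (hU0 z hzU).2 hz2 (by rw [hins]; exact hgood) ?_ (by rw [hins]; exact heven) ?_
    · intro x hx
      rw [Finset.mem_erase] at hx
      exact ruleA_both (hU0 x hx.2).2 (hoth x hx.2 hx.1)
    · rw [hins]
      refine ruleA_EL hE (!pb) ?_ ?_ ?_
      · exact ruleA_plus_le (half_le hω i (!b)) hle1
      · rw [W_plus _ _ _ hpar, Bool.not_not, W_plus_not _ _ _ hpar, hh1, hl1]
        omega
      · rw [W_plus _ _ _ hpar, hh1]
        omega
    · by_cases hne : (U0.erase z).Nonempty
      · exact Or.inl hne
      · right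
        rw [Finset.not_nonempty_iff_eq_empty] at hne
        have hU1 : U0 = {z} := by
          rw [← hins, hne]
          rfl
        have hc1 : U0.card = 1 := by rw [hU1, Finset.card_singleton]
        have ho1 : S (!p) ω i (!b) = 2 := by omega
        rw [← hU1]
        have hA : W (!pb) (plus (half i (!b) ω) U0) = 2 := by
          rw [W_plus _ _ _ hpar, hh1]
          omega
        have hB : W pb (plus (half i (!b) ω) U0) = 2 := by
          rw [W_plus_not _ _ _ hpar, hl1]
          omega
        refine ⟨?_, ?_⟩
        · intro y y' hyy hy0 hy0'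
          have hne' : y ≠ y' := hyy.ne
          have hp' := par_adj hyy
          have hfun : (fun x => plus (half i (!b) ω) U0 x + (if x = y then 1 else 0) +
              (if x = y' then 1 else 0)) =
              plus (plus (plus (half i (!b) ω) U0) {y}) {y'} := by
            funext x
            simp only [plus, ind, Finset.mem_singleton]
          rw [hfun]
          have hq : ∀ q, W q (plus (plus (plus (half i (!b) ω) U0) {y}) {y'}) =
              W q (plus (half i (!b) ω) U0) + 1 := by
            intro q
            by_cases hyq : par y = q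
            · rw [W_plus_not q _ {y'} (by
                intro x hx
                rw [Finset.mem_singleton.1 hx, hp', hyq]),
                W_plus q _ {y} (by
                  intro x hx
                  rw [Finset.mem_singleton.1 hx, hyq]), Finset.card_singleton]
            · have hyq' : par y = !q := by
                revert hyq
                cases par y <;> cases q <;> simp
              rw [W_plus q _ {y'} (by
                intro x hx
                rw [Finset.mem_singleton.1 hx, hp', hyq', Bool.not_not]),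
                W_plus_not q _ {y} (by
                  intro x hx
                  rw [Finset.mem_singleton.1 hx, hyq']), Finset.card_singleton]
          have hbase : ∀ x, plus (half i (!b) ω) U0 x ≤ 2 :=
            ruleA_plus_le (half_le hω i (!b)) hle1
          refine ruleA_EL hE pb ?_ ?_ ?_
          · refine ruleA_plus_le (ruleA_plus_le hbase ?_) ?_
            · intro x hx
              rw [Finset.mem_singleton.1 hx, hy0]
              omega
            · intro x hx
              rw [Finset.mem_singleton.1 hx]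
              have h5 : y' ∉ ({y} : Finset (V m)) := by
                rw [Finset.mem_singleton]
                exact hne'.symm
              have h6 : plus (plus (half i (!b) ω) U0) {y} y' =
                  plus (half i (!b) ω) U0 y' + ind {y} y' := rfl
              rw [h6, hy0', ind, if_neg h5]
              omega
          · rw [hq, hq, hA, hB]
          · rw [hq, hB]
            omega
        · have hs : ∑ x, plus (half i b ω) U0 x = 2 * S p ω i b := by
            rw [ruleA_sum pb, W_plus_not _ _ _ hpar, W_plus _ _ _ hpar, hl0, hh0]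
            omega
          rw [hs]
          have hcnt : (Finset.univ.filter
              (fun x : V m => 0 < plus (half i (!b) ω) U0 x)).card ≤ 3 := by
            have hsub : Finset.univ.filter (fun x : V m => 0 < plus (half i (!b) ω) U0 x) ⊆
                Finset.univ.filter (fun x : V m => par x = (!pb) ∧ 0 < half i (!b) ω x) ∪
                Finset.univ.filter (fun x : V m => par x = pb ∧
                  0 < plus (half i (!b) ω) U0 x) := by
              intro x hx
              rw [Finset.mem_filter] at hx
              rw [Finset.mem_union, Finset.mem_filter, Finset.mem_filter]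
              by_cases hxp : par x = pb
              · exact Or.inr ⟨Finset.mem_univ _, hxp, hx.2⟩
              · left
                have hxp' : par x = !pb := by
                  revert hxp
                  cases par x <;> cases pb <;> simp
                refine ⟨Finset.mem_univ _, hxp', ?_⟩
                by_cases hxz : x = z
                · rw [hxz, hz2]
                  omega
                · have h7 : x ∉ U0 := by
                    rw [hU1, Finset.mem_singleton]
                    exact hxz
                  have h8 := hx.2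
                  unfold plus ind at h8
                  rw [if_neg h7] at h8
                  omega
            have e1 := card_pos_le_W (!pb) (half i (!b) ω)
            have e2 := card_pos_le_W pb (plus (half i (!b) ω) U0)
            have e3 := Finset.card_le_card hsub
            have e4 := Finset.card_union_le
              (Finset.univ.filter (fun x : V m => par x = (!pb) ∧ 0 < half i (!b) ω x))
              (Finset.univ.filter (fun x : V m => par x = pb ∧
                  0 < plus (half i (!b) ω) U0 x))
            rw [hh1] at e1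
            rw [hB] at e2
            omega
          have hpow : 2 * m + 3 < 2 ^ m := by
            clear_value pb
            clear * - hm
            induction m, hm using Nat.le_induction with
            | base => norm_num
            | succ k hk ih =>
              rw [pow_succ]
              omega
          omega

end Pool.Agent.Locke
end

section

/-! # Locke's conjecture, part 2: the rule R2

Throughout `b` is the half that is completed with the help of the hypothesis `hC`; the class
`p` of the big cube has label `xor b p` in that half.  Write `e0 = S p ω i b`,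
`o0 = S (!p) ω i b`, `e1 = S p ω i (!b)`, `o1 = S (!p) ω i (!b)`. -/

namespace Pool.Agent.Locke

variable {n m : ℕ}

/-- the union of a set in the half `b` and a set in the half `!b` -/
def ruleB_two (i : Fin (m + 1)) (b : Bool) (U V' : Finset (V m)) : Finset (V (m + 1)) :=
  U.image (ins i b) ∪ V'.image (ins i (!b))

lemma ruleB_mem {i : Fin (m + 1)} {b : Bool} {U V' : Finset (V m)} {x : V (m + 1)} :
    x ∈ ruleB_two i b U V' ↔ (∃ u ∈ U, ins i b u = x) ∨ ∃ v ∈ V', ins i (!b) v = x := by
  unfold ruleB_two
  rw [Finset.mem_union, Finset.mem_image, Finset.mem_image]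

lemma ruleB_mem_b {i : Fin (m + 1)} {b : Bool} {U V' : Finset (V m)} {x : V m} :
    ins i b x ∈ ruleB_two i b U V' ↔ x ∈ U := by
  rw [ruleB_mem]
  constructor
  · rintro (⟨u, hu, h⟩ | ⟨u, hu, h⟩)
    · rw [ins_inj] at h
      rw [← h.2]
      exact hu
    · rw [ins_inj] at h
      have := h.1
      cases b <;> simp at this
  · intro h
    exact Or.inl ⟨x, h, rfl⟩

lemma ruleB_mem_nb {i : Fin (m + 1)} {b : Bool} {U V' : Finset (V m)} {x : V m} :
    ins i (!b) x ∈ ruleB_two i b U V' ↔ x ∈ V' := by
  rw [ruleB_mem]
  constructor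
  · rintro (⟨u, hu, h⟩ | ⟨u, hu, h⟩)
    · rw [ins_inj] at h
      have := h.1
      cases b <;> simp at this
    · rw [ins_inj] at h
      rw [← h.2]
      exact hu
  · intro h
    exact Or.inr ⟨x, h, rfl⟩

lemma ruleB_half (i : Fin (m + 1)) (b : Bool) (U V' : Finset (V m)) (ω : V (m + 1) → ℕ) :
    half i b (plus ω (ruleB_two i b U V')) = plus (half i b ω) U := by
  funext x
  simp only [half, plus, ind, ruleB_mem_b]

lemma ruleB_half' (i : Fin (m + 1)) (b : Bool) (U V' : Finset (V m)) (ω : V (m + 1) → ℕ) :
    half i (!b) (plus ω (ruleB_two i b U V')) = plus (half i (!b) ω) V' := by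
  funext x
  simp only [half, plus, ind, ruleB_mem_nb]

lemma ruleB_card (i : Fin (m + 1)) (b : Bool) (U V' : Finset (V m)) :
    (ruleB_two i b U V').card = U.card + V'.card := by
  unfold ruleB_two
  rw [Finset.card_union_of_disjoint]
  · rw [Finset.card_image_of_injective _ (fun x y h => (ins_inj.1 h).2),
      Finset.card_image_of_injective _ (fun x y h => (ins_inj.1 h).2)]
  · rw [Finset.disjoint_left]
    intro x hx hx'
    rw [Finset.mem_image] at hx hx'
    obtain ⟨u, -, rfl⟩ := hx
    obtain ⟨v, -, hv⟩ := hx'
    have := (ins_inj.1 hv).1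
    cases b <;> simp at this

/-- the splitting rule with an arbitrary half first -/
lemma ruleB_split (i : Fin (m + 1)) (b : Bool) (ω : V (m + 1) → ℕ) (hω : ∀ x, ω x ≤ 2)
    (C : Finset (V m)) (hC : C.Nonempty) (hz : ∀ x ∈ C, ∀ b, half i b ω x = 0)
    (h0 : Good (plus (half i b ω) C)) (h1 : Good (plus (half i (!b) ω) C))
    (he : Even (∑ x, plus (half i b ω) C x)) : Good ω := by
  cases b
  · exact fun _ hσ => SG_rule1 i hσ hω C hC hz h0 h1 he
  · exact fun _ hσ => SG_rule1 i hσ hω C hC hz h1 h0 he

lemma ruleB_sum (q : Bool) (η : V n → ℕ) : ∑ x, η x = W q η + W (!q) η := by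
  rw [sum_eq_W]
  cases q
  · simp only [Bool.not_false]
    omega
  · simp only [Bool.not_true]

lemma ruleB_EL (hE : EL m) {η : V m → ℕ} (hη : ∀ x, η x ≤ 2) {q : Bool} {k : ℕ}
    (h1 : W q η = k) (h2 : W (!q) η = k) (hk : k + 4 ≤ 2 * m) : Good η := by
  cases q
  · simp only [Bool.not_false] at h2
    exact hE η hη (by omega) (by omega)
  · simp only [Bool.not_true] at h2
    exact hE η hη (by omega) (by omega)

/-- the number of vertices of positive weight is at most the total weight -/
lemma ruleB_pos (q : Bool) (η : V n → ℕ) :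
    (Finset.univ.filter (fun x : V n => 0 < η x)).card ≤ W q η + W (!q) η := by
  rw [← ruleB_sum, Finset.card_filter]
  refine Finset.sum_le_sum ?_
  intro x _
  split_ifs <;> omega

lemma ruleB_plus_le {η : V n → ℕ} {C : Finset (V n)} (hη : ∀ x, η x ≤ 2)
    (hC : ∀ x ∈ C, η x = 0) : ∀ x, plus η C x ≤ 2 := by
  intro x
  unfold plus ind
  by_cases h : x ∈ C
  · rw [if_pos h, hC x h]
    omega
  · rw [if_neg h]
    exact hη x

lemma ruleB_raise (η : V n → ℕ) {y z : V n} (h : (Q n).Adj y z) (q : Bool) :
    W q (fun x => η x + (if x = y then 1 else 0) + (if x = z then 1 else 0)) = W q η + 1 := by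
  have h1 : (fun x => η x + (if x = y then 1 else 0) + (if x = z then 1 else 0)) =
      (fun x => η x + ind {y, z} x) := by
    funext x
    have hne : y ≠ z := h.ne
    simp only [ind, Finset.mem_insert, Finset.mem_singleton]
    by_cases h1 : x = y
    · have h2 : x ≠ z := by rw [h1]; exact hne
      simp [h1, hne]
    · by_cases h2 : x = z <;> simp [h1, h2, hne.symm]
  rw [h1, W_add, W_ind]
  congr 1
  have hp := par_adj h
  by_cases hq : par y = q
  · have : ({y, z} : Finset (V n)).filter (fun x => par x = q) = {y} := by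
      ext x
      simp only [Finset.mem_filter, Finset.mem_insert, Finset.mem_singleton]
      constructor
      · rintro ⟨rfl | rfl, h2⟩
        · rfl
        · exfalso
          rw [hp, hq] at h2
          cases q <;> simp at h2
      · rintro rfl
        exact ⟨Or.inl rfl, hq⟩
    rw [this, Finset.card_singleton]
  · have hq' : par z = q := by
      rw [hp]
      revert hq
      cases par y <;> cases q <;> simp
    have : ({y, z} : Finset (V n)).filter (fun x => par x = q) = {z} := by
      ext x
      simp only [Finset.mem_filter, Finset.mem_insert, Finset.mem_singleton]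
      constructor
      · rintro ⟨rfl | rfl, h2⟩
        · exact absurd h2 hq
        · rfl
      · rintro rfl
        exact ⟨Or.inr rfl, hq'⟩
    rw [this, Finset.card_singleton]

/-- choose a set of zero vertices of given size in a given class -/
lemma ruleB_choose {m : ℕ} (hm : 1 ≤ m) (q : Bool) (η : V m → ℕ) (k : ℕ)
    (hk : k + W q η ≤ 2 ^ (m - 1)) :
    ∃ C : Finset (V m), (∀ x ∈ C, par x = q ∧ η x = 0) ∧ C.card = k := by
  obtain ⟨m', rfl⟩ : ∃ m', m = m' + 1 := ⟨m - 1, by omega⟩
  have h := zeros_card q η
  simp only [Nat.add_sub_cancel] at hk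
  obtain ⟨C, hC, hc⟩ := Finset.exists_subset_card_eq
    (s := Finset.univ.filter (fun x : V (m' + 1) => par x = q ∧ η x = 0)) (n := k) (by omega)
  refine ⟨C, ?_, hc⟩
  intro x hx
  have := hC hx
  rw [Finset.mem_filter] at this
  exact this.2

/-- R2: the other half has at least as much weight in `p` as in `!p` -/
theorem comp_R2 {p : Bool} {ω : V (m + 1) → ℕ} (hω : ∀ x, ω x ≤ 2) (i : Fin (m + 1)) (b : Bool)
    (hE : EL m) (hC : Comp (xor b p) (half i b ω))
    (h1 : S (!p) ω i (!b) ≤ S p ω i (!b)) (h2 : S p ω i (!b) + 5 ≤ 2 * m)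
    (hk : 4 * S p ω i (!b) + S p ω i b < 2 ^ m ∨
      (S (!p) ω i b < S p ω i b ∧
        ∀ x : V m, par x = !(xor b p) → half i (!b) ω x ≠ 0 → half i b ω x ≠ 0)) :
    Comp p ω := by
  obtain ⟨U0, hU0, hcard, hgood⟩ := hC
  have hWh := W_half_heavy i b p ω
  have hWl := W_half_light i b p ω
  have hWoh := W_half_other_heavy i b p ω
  have hWol := W_half_other_light i b p ω
  have hS1 := S_add p b ω i
  have hS2 := S_add (!p) b ω i
  rw [hWh, hWl] at hcard
  have hm1 : 1 ≤ m := by omega
  have hpow : 2 ^ m = 2 * 2 ^ (m - 1) := by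
    conv_lhs => rw [show m = (m - 1) + 1 by omega]
    rw [pow_succ]
    ring
  -- weights after completion of the half `b`
  have hWU1 : W (xor b p) (plus (half i b ω) U0) = S p ω i b := by
    rw [W_plus_not _ _ _ (fun x hx => (hU0 x hx).1), hWh]
  have hWU2 : W (!(xor b p)) (plus (half i b ω) U0) = S p ω i b := by
    rw [W_plus _ _ _ (fun x hx => (hU0 x hx).1), hWl]
    omega
  have heven : Even (∑ x, plus (half i b ω) U0 x) := by
    rw [ruleB_sum (xor b p), hWU1, hWU2]
    exact ⟨_, rfl⟩
  -- general form of the completing set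
  have key : ∀ U V' : Finset (V m), (∀ x ∈ U, par x = !(xor b p) ∧ half i b ω x = 0) →
      (∀ x ∈ V', par x = (xor b p) ∧ half i (!b) ω x = 0) →
      U.card + V'.card + S (!p) ω i b + S (!p) ω i (!b) = S p ω i b + S p ω i (!b) →
      Good (plus ω (ruleB_two i b U V')) → Comp p ω := by
    intro U V' hU hV hc hg
    refine ⟨ruleB_two i b U V', ?_, ?_, hg⟩
    · intro x hx
      rw [ruleB_mem] at hx
      rcases hx with ⟨u, hu, rfl⟩ | ⟨v, hv, rfl⟩
      · refine ⟨?_, (hU u hu).2⟩
        rw [par_ins, (hU u hu).1]
        cases b <;> cases p <;> rfl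
      · refine ⟨?_, (hV v hv).2⟩
        rw [par_ins, (hV v hv).1]
        cases b <;> cases p <;> rfl
    · rw [ruleB_card]
      omega
  have hω' : ∀ U V' : Finset (V m), (∀ x ∈ U, par x = !(xor b p) ∧ half i b ω x = 0) →
      (∀ x ∈ V', par x = (xor b p) ∧ half i (!b) ω x = 0) →
      ∀ x, plus ω (ruleB_two i b U V') x ≤ 2 := by
    intro U V' hU hV
    refine ruleB_plus_le hω ?_
    intro x hx
    rw [ruleB_mem] at hx
    rcases hx with ⟨u, hu, rfl⟩ | ⟨v, hv, rfl⟩
    · exact (hU u hu).2
    · exact (hV v hv).2
  rcases hk with hk | ⟨hlt, hno⟩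
  · -- variant 1: the trick
    obtain ⟨V', hV', hVc⟩ := ruleB_choose hm1 (xor b p) (half i (!b) ω)
      (S p ω i (!b) - S (!p) ω i (!b)) (by rw [hWol]; omega)
    have hWV1 : W (xor b p) (plus (half i (!b) ω) V') = S p ω i (!b) := by
      rw [W_plus _ _ _ (fun x hx => (hV' x hx).1), hWol]
      omega
    have hWV2 : W (!(xor b p)) (plus (half i (!b) ω) V') = S p ω i (!b) := by
      rw [W_plus_not _ _ _ (fun x hx => by rw [(hV' x hx).1, Bool.not_not]), hWoh]
    have hV2 : ∀ x, plus (half i (!b) ω) V' x ≤ 2 :=
      ruleB_plus_le (fun x => hω _) (fun x hx => (hV' x hx).2)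
    refine key U0 V' hU0 hV' (by omega) ?_
    refine good_of_split0 i b _ (hω' U0 V' hU0 hV') ?_ ?_ ?_ ?_ ?_
    · rw [ruleB_half]
      exact hgood
    · rw [ruleB_half']
      exact ruleB_EL hE hV2 hWV1 hWV2 (by omega)
    · rw [ruleB_half]
      exact heven
    · rw [ruleB_half']
      intro y z hyz hy hz
      refine ruleB_EL (q := xor b p) (k := S p ω i (!b) + 1) hE ?_ ?_ ?_ (by omega)
      · intro x
        have h3 := hV2 x
        have hne : y ≠ z := hyz.ne
        by_cases hxy : x = y
        · have hxz : x ≠ z := by rw [hxy]; exact hne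
          simp only [if_pos hxy, if_neg hxz]
          rw [hxy, hy]
          omega
        · by_cases hxz : x = z
          · simp only [if_neg hxy, if_pos hxz]
            rw [hxz, hz]
            omega
          · simp only [if_neg hxy, if_neg hxz]
            omega
      · rw [ruleB_raise _ hyz, hWV1]
      · rw [ruleB_raise _ hyz, hWV2]
    · rw [ruleB_half, ruleB_half', ruleB_sum (xor b p), hWU1, hWU2]
      have h3 := ruleB_pos (xor b p) (plus (half i (!b) ω) V')
      rw [hWV1, hWV2] at h3
      omega
  · -- variant 2: one crossing edge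
    have hne : U0.Nonempty := by
      rw [← Finset.card_pos]
      omega
    obtain ⟨z, hz⟩ := hne
    have hz1 : par z = !(xor b p) := (hU0 z hz).1
    have hz0 : half i b ω z = 0 := (hU0 z hz).2
    have hz0' : half i (!b) ω z = 0 := by
      by_contra h
      exact hno z hz1 h hz0
    have hpow2 : 2 * m ≤ 2 ^ (m - 1) + 4 := by
      have : ∀ k : ℕ, 2 * (k + 1) ≤ 2 ^ k + 4 := by
        intro k
        induction k with
        | zero => norm_num
        | succ k ih =>
          rcases Nat.eq_zero_or_pos k with rfl | hk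
          · norm_num
          · have h4 : 2 ≤ 2 ^ k := by
              calc 2 = 2 ^ 1 := by norm_num
                _ ≤ 2 ^ k := Nat.pow_le_pow_right (by norm_num) hk
            rw [pow_succ]
            omega
      have h5 := this (m - 1)
      rwa [show m - 1 + 1 = m by omega] at h5
    obtain ⟨V', hV', hVc⟩ := ruleB_choose hm1 (xor b p) (half i (!b) ω)
      (S p ω i (!b) - S (!p) ω i (!b) + 1) (by rw [hWol]; omega)
    have hzV : z ∉ V' := by
      intro h
      have h3 := (hV' z h).1
      rw [hz1] at h3
      revert h3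
      cases b <;> cases p <;> simp
    have hV2 : ∀ x, plus (half i (!b) ω) V' x ≤ 2 :=
      ruleB_plus_le (fun x => hω _) (fun x hx => (hV' x hx).2)
    have hVz : plus (half i (!b) ω) V' z = 0 := by
      unfold plus ind
      rw [if_neg hzV, hz0']
    have hUz : plus (half i b ω) (U0.erase z) z = 0 := by
      unfold plus ind
      rw [if_neg (Finset.notMem_erase z U0), hz0]
    have hUe : plus (plus (half i b ω) (U0.erase z)) {z} = plus (half i b ω) U0 := by
      funext x
      simp only [plus, ind, Finset.mem_erase, Finset.mem_singleton]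
      by_cases hx : x = z
      · simp [hx, hz]
      · simp [hx]
    have hUs : ∀ x ∈ U0.erase z, par x = !(xor b p) ∧ half i b ω x = 0 :=
      fun x hx => hU0 x (Finset.mem_of_mem_erase hx)
    have hUc : (U0.erase z).card + 1 = U0.card := Finset.card_erase_add_one hz
    refine key (U0.erase z) V' hUs hV' (by omega) ?_
    refine ruleB_split i b _ (hω' _ V' hUs hV') {z} (Finset.singleton_nonempty z) ?_ ?_ ?_ ?_
    · intro x hx b'
      rw [Finset.mem_singleton] at hx
      subst hx
      by_cases hb : b' = b
      · subst hb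
        rw [ruleB_half]
        exact hUz
      · have hb' : b' = !b := by
          revert hb
          cases b' <;> cases b <;> simp
        subst hb'
        rw [ruleB_half']
        exact hVz
    · rw [ruleB_half, hUe]
      exact hgood
    · rw [ruleB_half']
      refine ruleB_EL (q := xor b p) (k := S p ω i (!b) + 1) hE ?_ ?_ ?_ (by omega)
      · refine ruleB_plus_le hV2 ?_
        intro x hx
        rw [Finset.mem_singleton] at hx
        rw [hx]
        exact hVz
      · rw [W_plus_not _ _ _ (fun x hx => by rw [Finset.mem_singleton] at hx; rw [hx, hz1]),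
          W_plus _ _ _ (fun x hx => (hV' x hx).1), hWol]
        omega
      · rw [W_plus _ _ _ (fun x hx => by rw [Finset.mem_singleton] at hx; rw [hx, hz1]),
          W_plus_not _ _ _ (fun x hx => by rw [(hV' x hx).1, Bool.not_not]), hWoh,
          Finset.card_singleton]
    · rw [ruleB_half, hUe]
      exact heven

end Pool.Agent.Locke
end

section

/-! # Locke's conjecture, part 2: the rules R4, R4m

Throughout `b` is the half that is completed with the help of the hypothesis `hC`; the class
`p` of the big cube has label `xor b p` in that half.  Write `e0 = S p ω i b`,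
`o0 = S (!p) ω i b`, `e1 = S p ω i (!b)`, `o1 = S (!p) ω i (!b)`. -/

namespace Pool.Agent.Locke

variable {n m : ℕ}

lemma ruleC_EL (hE : EL m) {η : V m → ℕ} (q : Bool) (h2 : ∀ x, η x ≤ 2)
    (hb : W q η = W (!q) η) (hw : W q η + 4 ≤ 2 * m) : Good η := by
  cases q
  · exact hE η h2 hb.symm (by rw [Bool.not_false] at hb; omega)
  · exact hE η h2 hb hw

lemma ruleC_sum (η : V m → ℕ) (q : Bool) : ∑ x, η x = W q η + W (!q) η := by
  rw [sum_eq_W]
  cases q
  · exact add_comm _ _
  · rfl

lemma ruleC_even {η : V m → ℕ} (q : Bool) (hb : W q η = W (!q) η) : Even (∑ x, η x) := by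
  rw [ruleC_sum η q, ← hb]
  exact ⟨_, rfl⟩

lemma ruleC_half_same (i : Fin (m + 1)) (b : Bool) (ω : V (m + 1) → ℕ) (A : Finset (V m)) :
    half i b (plus ω (A.image (ins i (!b)))) = half i b ω := by
  funext x
  simp only [half, plus, ind, Finset.mem_image, ins_inj]
  rw [if_neg]
  · rfl
  · rintro ⟨a, -, h, -⟩
    cases b <;> simp at h

lemma ruleC_half_other (i : Fin (m + 1)) (b : Bool) (ω : V (m + 1) → ℕ) (A : Finset (V m)) :
    half i (!b) (plus ω (A.image (ins i (!b)))) = plus (half i (!b) ω) A := by
  funext x
  have h : ins i (!b) x ∈ A.image (ins i (!b)) ↔ x ∈ A := by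
    rw [Finset.mem_image]
    constructor
    · rintro ⟨a, ha, h⟩
      rw [ins_inj] at h
      rw [← h.2]
      exact ha
    · intro h
      exact ⟨x, h, rfl⟩
  show ω (ins i (!b) x) + ind (A.image (ins i (!b))) (ins i (!b) x) =
    ω (ins i (!b) x) + ind A x
  congr 1
  unfold ind
  by_cases hx : x ∈ A
  · rw [if_pos (h.mpr hx), if_pos hx]
  · rw [if_neg (fun h' => hx (h.mp h')), if_neg hx]

lemma ruleC_W_plus_add (q : Bool) (η : V m → ℕ) (A B : Finset (V m))
    (hA : ∀ x ∈ A, par x = q) (hB : ∀ x ∈ B, par x = q) :
    W q (plus (plus η A) B) = W q η + A.card + B.card := by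
  rw [W_plus q _ B hB, W_plus q _ A hA]

lemma ruleC_W_plus_not (q : Bool) (η : V m → ℕ) (A B : Finset (V m))
    (hA : ∀ x ∈ A, par x = !q) (hB : ∀ x ∈ B, par x = !q) :
    W q (plus (plus η A) B) = W q η := by
  rw [W_plus_not q _ B hB, W_plus_not q _ A hA]

/-- raising zero vertices keeps the weight at most two -/
lemma ruleC_plus_le {ω : V n → ℕ} (hω : ∀ x, ω x ≤ 2) (U : Finset (V n))
    (hU : ∀ x ∈ U, ω x = 0) : ∀ x, plus ω U x ≤ 2 := by
  intro x
  unfold plus ind
  by_cases h : x ∈ U
  · rw [if_pos h, hU x h]; omega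
  · rw [if_neg h]; exact hω x

/-- the common part of the two rules: the set `U` to be raised -/
lemma ruleC_comp {p : Bool} {ω : V (m + 1) → ℕ} (i : Fin (m + 1)) (b : Bool)
    (V' : Finset (V m)) (hV : ∀ x ∈ V', par x = xor b p ∧ half i (!b) ω x = 0)
    (hcard : V'.card + W (!p) ω = W p ω)
    (hg : Good (plus ω (V'.image (ins i (!b))))) : Comp p ω := by
  refine ⟨V'.image (ins i (!b)), ?_, ?_, hg⟩
  · intro x hx
    rw [Finset.mem_image] at hx
    obtain ⟨a, ha, rfl⟩ := hx
    obtain ⟨h1, h2⟩ := hV a ha
    refine ⟨?_, h2⟩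
    rw [par_ins, h1]
    cases b <;> cases p <;> rfl
  · rw [Finset.card_image_of_injective _ (ins_injective i (!b))]
    exact hcard

lemma ruleC_zero {ω : V (m + 1) → ℕ} (i : Fin (m + 1)) (b : Bool)
    (V' : Finset (V m)) (hV : ∀ x ∈ V', half i (!b) ω x = 0) :
    ∀ x ∈ V'.image (ins i (!b)), ω x = 0 := by
  intro x hx
  rw [Finset.mem_image] at hx
  obtain ⟨a, ha, rfl⟩ := hx
  exact hV a ha

/-- the case in which the crossing set avoids the weight of the other half -/
lemma ruleC_core {p : Bool} {ω : V (m + 1) → ℕ} (hω : ∀ x, ω x ≤ 2) (i : Fin (m + 1)) (b : Bool)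
    (hE : EL m) (C V' : Finset (V m)) (hCne : C.Nonempty)
    (hC : ∀ x ∈ C, par x = xor b p ∧ half i b ω x = 0) (hC' : ∀ x ∈ C, half i (!b) ω x = 0)
    (hCg : Good (plus (half i b ω) C))
    (hCcard : C.card + S p ω i b = S (!p) ω i b)
    (hV : ∀ x ∈ V', (par x = xor b p ∧ half i (!b) ω x = 0) ∧ x ∉ C)
    (hVcard : V'.card + C.card + S (!p) ω i (!b) = S p ω i (!b))
    (h1 : S p ω i (!b) + 4 ≤ 2 * m) : Comp p ω := by
  have hWp := S_add p b ω i
  have hWq := S_add (!p) b ω i
  apply ruleC_comp i b V' (fun x hx => (hV x hx).1) (by omega)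
  set ω' : V (m + 1) → ℕ := plus ω (V'.image (ins i (!b))) with hω'
  have e1 : half i b ω' = half i b ω := ruleC_half_same i b ω V'
  have e2 : half i (!b) ω' = plus (half i (!b) ω) V' := ruleC_half_other i b ω V'
  have hω'2 : ∀ x, ω' x ≤ 2 :=
    ruleC_plus_le hω _ (ruleC_zero i b V' (fun x hx => (hV x hx).1.2))
  have hz : ∀ x ∈ C, ∀ c, half i c ω' x = 0 := by
    intro x hx c
    have h3 : half i b ω' x = 0 := by rw [e1]; exact (hC x hx).2
    have h4 : half i (!b) ω' x = 0 := by
      rw [e2]
      unfold plus ind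
      rw [hC' x hx, if_neg]
      intro h5
      exact (hV x h5).2 hx
    by_cases hcb : c = b
    · rw [hcb]; exact h3
    · have : c = !b := by cases c <;> cases b <;> simp_all
      rw [this]; exact h4
  have g0 : Good (plus (half i b ω') C) := by rw [e1]; exact hCg
  have hw1 : W (xor b p) (plus (half i (!b) ω') C) = S p ω i (!b) := by
    rw [e2, ruleC_W_plus_add _ _ _ _ (fun x hx => (hV x hx).1.1) (fun x hx => (hC x hx).1),
      W_half_other_light]
    omega
  have hw2 : W (!(xor b p)) (plus (half i (!b) ω') C) = S p ω i (!b) := by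
    rw [e2, ruleC_W_plus_not _ _ _ _
      (fun x hx => by rw [(hV x hx).1.1, Bool.not_not])
      (fun x hx => by rw [(hC x hx).1, Bool.not_not]), W_half_other_heavy]
  have g1 : Good (plus (half i (!b) ω') C) := by
    apply ruleC_EL hE (xor b p)
    · apply ruleC_plus_le (half_le hω'2 i (!b))
      intro x hx
      exact hz x hx (!b)
    · rw [hw1, hw2]
    · rw [hw1]; exact h1
  have he : Even (∑ x, plus (half i (!b) ω') C x) :=
    ruleC_even (xor b p) (by rw [hw1, hw2])
  intro σ hσ
  refine SG_rule1 i hσ hω'2 C hCne hz ?_ ?_ (b := !b) he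
  · cases b
    · exact g0
    · exact g1
  · cases b
    · exact g1
    · exact g0

/-- R4: the half `b` carries all the weight of `!p`, and more of it than of `p` -/
theorem comp_R4 {p : Bool} {ω : V (m + 1) → ℕ} (hω : ∀ x, ω x ≤ 2) (i : Fin (m + 1)) (b : Bool)
    (hE : EL m) (hC : Comp (!(xor b p)) (half i b ω)) (hW : W (!p) ω ≤ W p ω)
    (h0 : S p ω i b < S (!p) ω i b) (h1 : S p ω i (!b) + 4 ≤ 2 * m)
    (h2 : S (!p) ω i (!b) = 0) : Comp p ω := by
  obtain ⟨C, hC1, hC2, hC3⟩ := hC
  rw [Bool.not_not, W_half_heavy, W_half_light] at hC2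
  have hWp := S_add p b ω i
  have hWq := S_add (!p) b ω i
  have hCne : C.Nonempty := by
    rw [← Finset.card_pos]; omega
  have hC1' : ∀ x ∈ C, par x = xor b p ∧ half i b ω x = 0 := by
    intro x hx
    have := hC1 x hx
    rwa [Bool.not_not] at this
  -- the white weights of the other half vanish
  have hzero : ∀ x : V m, par x = xor b p → half i (!b) ω x = 0 := by
    intro x hx
    have h3 := single_le_W (half i (!b) ω) x
    rw [hx, W_half_other_light, h2] at h3
    omega
  obtain ⟨k, rfl⟩ : ∃ k, m = k + 1 := ⟨m - 1, by omega⟩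
  have hcl := card_par (n := k) (xor b p)
  have hk : 2 * k ≤ 2 ^ k + 2 := by
    clear * -
    induction k with
    | zero => simp
    | succ k ih =>
      rcases k with - | k
      · simp
      · have : 2 ≤ 2 ^ (k + 1) := by
          calc 2 = 2 ^ 1 := rfl
            _ ≤ 2 ^ (k + 1) := Nat.pow_le_pow_right (by norm_num) (by omega)
        rw [pow_succ]
        omega
  set P : Finset (V (k + 1)) := Finset.univ.filter (fun x : V (k + 1) => par x = xor b p) with hP
  have hCP : C ⊆ P := by
    intro x hx
    rw [hP, Finset.mem_filter]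
    exact ⟨Finset.mem_univ _, (hC1' x hx).1⟩
  have hPC : (P \ C).card = 2 ^ k - C.card := by
    rw [Finset.card_sdiff_of_subset hCP, hcl]
  obtain ⟨V', hV'1, hV'2⟩ := Finset.exists_subset_card_eq
    (s := P \ C) (n := S p ω i (!b) - C.card) (by rw [hPC]; omega)
  refine ruleC_core hω i b hE C V' hCne hC1' (fun x hx => hzero x (hC1' x hx).1) hC3 hC2 ?_ ?_ h1
  · intro x hx
    have h3 := hV'1 hx
    rw [Finset.mem_sdiff, hP, Finset.mem_filter] at h3
    exact ⟨⟨h3.1.2, hzero x h3.1.2⟩, h3.2⟩
  · rw [hV'2, h2]
    omega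

/-- R4m: the same with one unit of `!p` on the other side, only needed in dimension 5 -/
theorem comp_R4m {p : Bool} {ω : V 5 → ℕ} (hω : ∀ x, ω x ≤ 2) (i : Fin 5) (b : Bool)
    (hE : EL 4) (hC : Comp (!(xor b p)) (half i b ω)) (hp : W p ω = 7) (hq : W (!p) ω = 6)
    (h0 : S p ω i b < S (!p) ω i b) (h1 : S p ω i (!b) ≤ 4) (h1' : S p ω i b ≤ 4)
    (h2 : S (!p) ω i (!b) ≤ 1) : Comp p ω := by
  rcases Nat.lt_or_ge (S (!p) ω i (!b)) 1 with h3 | h3
  · exact comp_R4 (m := 4) hω i b hE hC (by omega) h0 (by omega) (by omega)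
  have h4 : S (!p) ω i (!b) = 1 := by omega
  clear h3 h2
  obtain ⟨C, hC1, hC2, hC3⟩ := hC
  rw [Bool.not_not, W_half_heavy, W_half_light] at hC2
  have hWp := S_add p b ω i
  have hWq := S_add (!p) b ω i
  have hC1' : ∀ x ∈ C, par x = xor b p ∧ half i b ω x = 0 := by
    intro x hx
    have := hC1 x hx
    rwa [Bool.not_not] at this
  have hCne : C.Nonempty := by
    rw [← Finset.card_pos]; omega
  -- the unit of the white class in the other half
  have hW1 : W (xor b p) (half i (!b) ω) = 1 := by rw [W_half_other_light, h4]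
  obtain ⟨z, hz, hz1⟩ : ∃ z : V 4, par z = xor b p ∧ half i (!b) ω z ≠ 0 := by
    by_contra hcon
    push Not at hcon
    have : W (xor b p) (half i (!b) ω) = 0 := by
      unfold W
      apply Finset.sum_eq_zero
      intro x hx
      rw [Finset.mem_filter] at hx
      exact hcon x hx.2
    omega
  have hz2 : half i (!b) ω z = 1 := by
    have h5 := single_le_W (half i (!b) ω) z
    rw [hz, hW1] at h5
    omega
  have hzu : ∀ x : V 4, par x = xor b p → x ≠ z → half i (!b) ω x = 0 := by
    intro x hx hxz
    by_contra hne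
    have h5 : ∑ y ∈ ({x, z} : Finset (V 4)), half i (!b) ω y ≤ W (xor b p) (half i (!b) ω) := by
      unfold W
      apply Finset.sum_le_sum_of_subset
      intro y hy
      rw [Finset.mem_insert, Finset.mem_singleton] at hy
      rw [Finset.mem_filter]
      refine ⟨Finset.mem_univ _, ?_⟩
      rcases hy with rfl | rfl
      · exact hx
      · exact hz
    rw [Finset.sum_pair hxz, hW1] at h5
    omega
  -- a further zero vertex
  have hcl := card_par (n := 3) (xor b p)
  set P : Finset (V 4) := Finset.univ.filter (fun x : V 4 => par x = xor b p) with hP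
  have hCz : (insert z C).card ≤ C.card + 1 := Finset.card_insert_le _ _
  have hPC : 0 < (P \ insert z C).card := by
    have := Finset.le_card_sdiff (insert z C) P
    omega
  obtain ⟨v, hv⟩ := Finset.card_pos.mp hPC
  rw [Finset.mem_sdiff, hP, Finset.mem_filter, Finset.mem_insert, not_or] at hv
  obtain ⟨⟨-, hv1⟩, hvz, hvC⟩ := hv
  have hv0 := hzu v hv1 hvz
  by_cases hzC : z ∈ C
  swap
  · refine ruleC_core hω i b hE C {v} hCne hC1' ?_ hC3 hC2 ?_ ?_ (by omega)
    · intro x hx
      apply hzu x (hC1' x hx).1
      rintro rfl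
      exact hzC hx
    · intro x hx
      rw [Finset.mem_singleton] at hx
      subst hx
      exact ⟨⟨hv1, hv0⟩, hvC⟩
    · rw [Finset.card_singleton]
      omega
  -- the merging case
  apply ruleC_comp i b {v}
  · intro x hx
    rw [Finset.mem_singleton] at hx
    subst hx
    exact ⟨hv1, hv0⟩
  · rw [Finset.card_singleton]; omega
  set ω' : V 5 → ℕ := plus ω (({v} : Finset (V 4)).image (ins i (!b))) with hω'
  have e1 : half i b ω' = half i b ω := ruleC_half_same i b ω {v}
  have e2 : half i (!b) ω' = plus (half i (!b) ω) {v} := ruleC_half_other i b ω {v}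
  have hω'2 : ∀ x, ω' x ≤ 2 := by
    apply ruleC_plus_le hω _ (ruleC_zero i b {v} _)
    intro x hx
    rw [Finset.mem_singleton] at hx
    subst hx
    exact hv0
  have hins : insert z (C.erase z) = C := Finset.insert_erase hzC
  have hzC' : z ∉ C.erase z := Finset.notMem_erase z C
  have hval : ∀ x : V 4, half i (!b) ω' x = half i (!b) ω x + if x = v then 1 else 0 := by
    intro x
    rw [e2]
    simp only [plus, ind, Finset.mem_singleton]
  have hza : ∀ x ∈ C.erase z, ∀ c, half i c ω' x = 0 := by
    intro x hx c
    rw [Finset.mem_erase] at hx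
    have h3 : half i b ω' x = 0 := by rw [e1]; exact (hC1' x hx.2).2
    have h4 : half i (!b) ω' x = 0 := by
      rw [hval, hzu x (hC1' x hx.2).1 hx.1, if_neg]
      rintro rfl
      exact hvC hx.2
    by_cases hcb : c = b
    · rw [hcb]; exact h3
    · have : c = !b := by cases c <;> cases b <;> simp_all
      rw [this]; exact h4
  have hz0' : half i b ω' z = 0 := by rw [e1]; exact (hC1' z hzC).2
  have hz1' : half i (!b) ω' z = 1 := by
    rw [hval, hz2, if_neg (Ne.symm hvz)]
  have hCp : ∀ x ∈ C, par x = xor b p := fun x hx => (hC1' x hx).1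
  have hvp : ∀ x ∈ ({v} : Finset (V 4)), par x = xor b p := by
    intro x hx
    rw [Finset.mem_singleton] at hx
    subst hx
    exact hv1
  have hw1 : W (xor b p) (plus (half i (!b) ω') C) = S p ω i (!b) := by
    rw [e2, ruleC_W_plus_add _ _ _ _ hvp hCp, W_half_other_light, Finset.card_singleton]
    omega
  have hw2 : W (!(xor b p)) (plus (half i (!b) ω') C) = S p ω i (!b) := by
    rw [e2, ruleC_W_plus_not _ _ _ _
      (fun x hx => by rw [hvp x hx, Bool.not_not])
      (fun x hx => by rw [hCp x hx, Bool.not_not]), W_half_other_heavy]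
  have hle1 : ∀ x, plus (half i (!b) ω') C x ≤ 2 := by
    intro x
    unfold plus ind
    by_cases hx : x ∈ C
    · rw [if_pos hx]
      by_cases hxz : x = z
      · rw [hxz, hz1']
      · rw [hza x (Finset.mem_erase.mpr ⟨hxz, hx⟩) (!b)]
        omega
    · rw [if_neg hx]
      exact half_le hω'2 i (!b) x
  have g0 : Good (plus (half i b ω') C) := by rw [e1]; exact hC3
  have g1 : Good (plus (half i (!b) ω') C) := by
    apply ruleC_EL hE (xor b p) hle1
    · rw [hw1, hw2]
    · rw [hw1]; omega
  have hv1' : W (xor b p) (plus (half i b ω') C) = S (!p) ω i b := by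
    rw [e1, W_plus _ _ _ hCp, W_half_heavy]
    omega
  have hv2' : W (!(xor b p)) (plus (half i b ω') C) = S (!p) ω i b := by
    rw [e1, W_plus_not _ _ _ (fun x hx => by rw [hCp x hx, Bool.not_not]), W_half_light]
  have he : Even (∑ x, plus (half i b ω') C x) :=
    ruleC_even (xor b p) (by rw [hv1', hv2'])
  refine good_of_split_merge i b ω' hω'2 (C.erase z) z hzC' hza hz0' hz1'
    (by rw [hins]; exact g0) (by rw [hins]; exact g1) (by rw [hins]; exact he) ?_
  rcases (C.erase z).eq_empty_or_nonempty with hem | hne
  swap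
  · exact Or.inl hne
  right
  have hCs : C = {z} := by rw [← hins, hem]; rfl
  have hCc : C.card = 1 := by rw [hCs]; exact Finset.card_singleton z
  rw [← hCs]
  constructor
  · intro y y' hyy' hy hy'
    have hyne : y ≠ y' := (hyy').ne
    have hpar := par_adj hyy'
    set η : V 4 → ℕ := plus (half i (!b) ω') C with hη
    set ζ : V 4 → ℕ := fun x => η x + (if x = y then 1 else 0) + (if x = y' then 1 else 0) with hζ
    have hζ1 : ζ = plus (plus η {y}) {y'} := by
      funext x
      simp only [hζ, plus, ind, Finset.mem_singleton]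
    have hWζ : ∀ q, W q ζ = W q η + 1 := by
      intro q
      rw [hζ1]
      by_cases hq : par y = q
      · rw [W_plus_not q _ {y'} (by
          intro x hx
          rw [Finset.mem_singleton] at hx
          rw [hx, hpar, hq]), W_plus q _ {y} (by
          intro x hx
          rw [Finset.mem_singleton] at hx
          rw [hx, hq])]
        rw [Finset.card_singleton]
      · have hq' : par y = !q := by
          cases hpy : par y <;> cases q <;> simp_all
        rw [W_plus q _ {y'} (by
          intro x hx
          rw [Finset.mem_singleton] at hx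
          rw [hx, hpar, hq', Bool.not_not]), W_plus_not q _ {y} (by
          intro x hx
          rw [Finset.mem_singleton] at hx
          rw [hx, hq'])]
        rw [Finset.card_singleton]
    apply ruleC_EL hE (xor b p)
    · intro x
      show ζ x ≤ 2
      simp only [hζ]
      by_cases hx : x = y
      · have hx' : x ≠ y' := by rw [hx]; exact hyne
        rw [if_pos hx, if_neg hx', hx, hy]
        omega
      · by_cases hx' : x = y'
        · rw [if_neg hx, if_pos hx', hx', hy']
          omega
        · rw [if_neg hx, if_neg hx']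
          exact hle1 x
    · show W (xor b p) ζ = W (!(xor b p)) ζ
      rw [hWζ, hWζ, hw1, hw2]
    · show W (xor b p) ζ + 4 ≤ 2 * 4
      rw [hWζ, hw1]
      omega
  · have hs : ∑ x, plus (half i b ω') C x = 10 := by
      rw [ruleC_sum _ (xor b p), hv1', hv2']
      omega
    have hcnt : (Finset.univ.filter (fun x : V 4 => 0 < plus (half i (!b) ω') C x)).card ≤ 5 := by
      have hsub : Finset.univ.filter (fun x : V 4 => 0 < plus (half i (!b) ω') C x) ⊆
          Finset.univ.filter (fun x : V 4 => par x = (!(xor b p)) ∧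
            0 < plus (half i (!b) ω') C x) ∪ {z, v} := by
        intro x hx
        rw [Finset.mem_filter] at hx
        rw [Finset.mem_union, Finset.mem_filter]
        by_cases hpx : par x = xor b p
        · right
          rw [Finset.mem_insert, Finset.mem_singleton]
          by_contra hcon
          push Not at hcon
          have h5 := hx.2
          unfold plus at h5
          rw [hval, hzu x hpx hcon.1, if_neg hcon.2] at h5
          unfold ind at h5
          rw [if_neg] at h5
          · omega
          · rw [hCs, Finset.mem_singleton]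
            exact hcon.1
        · left
          refine ⟨Finset.mem_univ _, ?_, hx.2⟩
          cases hpy : par x <;> cases hbp : (xor b p) <;> simp_all
      have h5 := card_pos_le_W (!(xor b p)) (plus (half i (!b) ω') C)
      have h6 := Finset.card_le_card hsub
      have h7 := Finset.card_union_le (Finset.univ.filter (fun x : V 4 => par x = (!(xor b p)) ∧
            0 < plus (half i (!b) ω') C x)) {z, v}
      have h8 : ({z, v} : Finset (V 4)).card ≤ 2 := Finset.card_le_two
      rw [hw2] at h5
      omega
    rw [hs]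
    omega

end Pool.Agent.Locke
end

section

/-! # The trick with a refined count

The solution `M₀` of the half `b` has `(2 * 2^n - ∑ ω) / 2` edges, and a vertex `x` meets exactly
`2 - ω x` of them.  So the count only needs the sum of `2 - half i b ω x` over the vertices `x`
with `half i (!b) ω x > 0`. -/

namespace Pool.Agent.Locke

variable {n : ℕ}

open TrickAux

/-- the counting step: some edge has both ends outside `P` -/
lemma trick2_exists_edge (M : SimpleGraph (V n)) (f p : V n → ℕ)
    (hdeg : ∀ x, (M.neighborSet x).ncard + f x = 2)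
    (hcount : 2 * (∑ x ∈ Finset.univ.filter (fun x : V n => 0 < p x), (2 - f x)) +
      ∑ x, f x < 2 * 2 ^ n) : ∃ y z, M.Adj y z ∧ p y = 0 ∧ p z = 0 := by
  classical
  by_contra hcon
  push Not at hcon
  set S := (Finset.univ : Finset (V n × V n)).filter (fun q => M.Adj q.1 q.2) with hS
  set P := Finset.univ.filter (fun x : V n => 0 < p x) with hP
  have key : ∀ T : Finset (V n), (S.filter (fun q => q.1 ∈ T)).card =
      ∑ x ∈ T, (M.neighborSet x).ncard := by
    intro T
    have e : S.filter (fun q => q.1 ∈ T) = (T ×ˢ Finset.univ).filter (fun q => M.Adj q.1 q.2) := by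
      ext q
      simp only [hS, Finset.mem_filter, Finset.mem_univ, true_and, Finset.mem_product, and_true]
      tauto
    rw [e, Finset.card_filter, Finset.sum_product]
    refine Finset.sum_congr rfl ?_
    intro x _
    rw [← Finset.card_filter, ← Set.ncard_coe_finset]
    congr 1
    ext y
    simp
  have h1 : S.card = ∑ x, (M.neighborSet x).ncard := by
    rw [← key Finset.univ]
    congr 1
    ext q
    simp
  have h2 : ∑ x, (M.neighborSet x).ncard + ∑ x, f x = 2 * 2 ^ n := by
    rw [← Finset.sum_add_distrib, Finset.sum_congr rfl (fun x _ => hdeg x)]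
    simp [mul_comm]
  have h3 : (S.filter (fun q => q.1 ∈ P)).card ≤ ∑ x ∈ P, (2 - f x) := by
    rw [key P]
    refine Finset.sum_le_sum ?_
    intro x _
    have := hdeg x
    omega
  have h4 : (S.filter (fun q => q.2 ∈ P)).card = (S.filter (fun q => q.1 ∈ P)).card := by
    refine Finset.card_bij (fun q _ => q.swap) ?_ ?_ ?_
    · rintro ⟨a, c⟩ h
      simp only [hS, Finset.mem_filter, Finset.mem_univ, true_and, Prod.swap] at h ⊢
      exact ⟨h.1.symm, h.2⟩
    · intro q _ q' _ h
      exact Prod.swap_injective h
    · rintro ⟨a, c⟩ h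
      simp only [hS, Finset.mem_filter, Finset.mem_univ, true_and] at h
      refine ⟨(c, a), ?_, rfl⟩
      simp only [hS, Finset.mem_filter, Finset.mem_univ, true_and]
      exact ⟨h.1.symm, h.2⟩
  have h5 : S ⊆ S.filter (fun q => q.1 ∈ P) ∪ S.filter (fun q => q.2 ∈ P) := by
    rintro ⟨a, c⟩ h
    have hadj : M.Adj a c := by
      simpa [hS] using h
    rw [Finset.mem_union]
    by_cases ha : p a = 0
    · right
      refine Finset.mem_filter.2 ⟨h, ?_⟩
      have := hcon a c hadj ha
      simp only [hP, Finset.mem_filter, Finset.mem_univ, true_and]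
      omega
    · left
      refine Finset.mem_filter.2 ⟨h, ?_⟩
      simp only [hP, Finset.mem_filter, Finset.mem_univ, true_and]
      omega
  have h6 := (Finset.card_le_card h5).trans (Finset.card_union_le _ _)
  omega

theorem trick_solved' (i : Fin (n + 1)) (b : Bool) {ω : V (n + 1) → ℕ}
    {σ : V (n + 1) → V (n + 1)} (hσ : IsPairing ω σ)
    (hb : Good (half i b ω))
    (hT : ∀ y z : V n, (Q n).Adj y z → half i (!b) ω y = 0 → half i (!b) ω z = 0 →
      Good (fun x => half i (!b) ω x + (if x = y then 1 else 0) + (if x = z then 1 else 0)))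
    (hcount : 2 * (∑ x ∈ Finset.univ.filter (fun x : V n => 0 < half i (!b) ω x),
        (2 - half i b ω x)) + ∑ x, half i b ω x < 2 * 2 ^ n)
    (hx : ∀ x, σ x i = x i) :
    ∃ M, SolvedBy M ω σ := by
  classical
  have hp0 := isPairing_sres b hσ hx
  have hp1 := isPairing_sres (!b) hσ hx
  set s0 := sres i b σ with hs0
  set s1 := sres i (!b) σ with hs1
  have e0 : ∀ x, ins i b (s0 x) = σ (ins i b x) := fun x =>
    ins_sres (by rw [hx, ins_apply_self])
  have e1 : ∀ x, ins i (!b) (s1 x) = σ (ins i (!b) x) := fun x =>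
    ins_sres (by rw [hx, ins_apply_self])
  obtain ⟨M0, hM0⟩ := hb s0 hp0
  obtain ⟨y, z, hyz, hy, hz⟩ := trick2_exists_edge M0 (half i b ω) (half i (!b) ω) hM0.deg hcount
  have hne : y ≠ z := hyz.ne
  -- degrees after deleting the edge
  have hdel : ∀ x, ((del M0 y z).neighborSet x).ncard +
      (half i b ω x + (if x = y then 1 else 0) + (if x = z then 1 else 0)) = 2 := by
    intro x
    have h1 := del_deg hyz x
    have h2 := hM0.deg x
    omega
  have hω0 : ∀ x, half i b ω x ≤ 2 := fun x => by
    have := hM0.deg x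
    omega
  set H0 := del M0 y z ⊔ pairG s0 with hH0
  -- y and z are connected in H0
  have hreach : H0.Reachable y z := by
    by_contra hnot
    set K := Finset.univ.filter (fun x : V n => H0.Reachable y x) with hK
    have hmem : ∀ x, x ∈ K ↔ H0.Reachable y x := by
      intro x
      simp [hK]
    have hyK : y ∈ K := (hmem y).2 (SimpleGraph.Reachable.refl _)
    have hzK : z ∉ K := fun h => hnot ((hmem z).1 h)
    have h1 : Even (∑ x ∈ K, (half i b ω x + (if x = y then 1 else 0) +
        (if x = z then 1 else 0))) := by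
      refine even_sum_closed (del M0 y z) _ hdel K ?_
      intro x hxK w hw
      rw [hmem] at hxK ⊢
      exact hxK.trans (SimpleGraph.Adj.reachable (Or.inl hw))
    have h2 : Even (∑ x ∈ K, half i b ω x) := by
      refine even_sum_paired hp0 hω0 K ?_
      intro x hxK
      rw [hmem] at hxK ⊢
      by_cases hxx : s0 x = x
      · rw [hxx]
        exact hxK
      · refine hxK.trans (SimpleGraph.Adj.reachable (Or.inr ?_))
        rw [pairG_adj]
        exact ⟨fun h => hxx h.symm, Or.inl rfl⟩
    rw [Finset.sum_add_distrib, Finset.sum_add_distrib, Finset.sum_ite_eq' K y,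
      Finset.sum_ite_eq' K z, if_pos hyK, if_neg hzK] at h1
    rcases h1 with ⟨k, hk⟩
    rcases h2 with ⟨l, hl⟩
    omega
  have hconn0 : ∀ u v, half i b ω u ≤ 1 → half i b ω v ≤ 1 → H0.Reachable u v := by
    intro u v hu hv
    refine reach_of_adj (G := M0 ⊔ pairG s0) id ?_ (hM0.conn u v hu hv)
    intro u v huv
    show H0.Reachable u v
    rcases huv with huv | huv
    · by_cases h1 : u = y ∧ v = z
      · rw [h1.1, h1.2]
        exact hreach
      · by_cases h2 : u = z ∧ v = y
        · rw [h2.1, h2.2]
          exact hreach.symm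
        · exact SimpleGraph.Adj.reachable (Or.inl ⟨huv, h1, h2⟩)
    · exact SimpleGraph.Adj.reachable (Or.inr huv)
  -- the other half
  have hsy : s1 y = y := by
    by_contra h
    have := (hp1.ne_iff y).1 h
    omega
  have hsz : s1 z = z := by
    by_contra h
    have := (hp1.ne_iff z).1 h
    omega
  set t1 : V n → V n := fun x => if x = y then z else if x = z then y else s1 x with ht1
  have ty : t1 y = z := by simp [ht1]
  have tz : t1 z = y := by simp [ht1, hne.symm]
  have toth : ∀ x, x ≠ y → x ≠ z → t1 x = s1 x := by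
    intro x h1 h2
    simp [ht1, h1, h2]
  have hpt : IsPairing (fun x => half i (!b) ω x + (if x = y then 1 else 0) +
      (if x = z then 1 else 0)) t1 := by
    constructor
    · intro x
      by_cases h1 : x = y
      · rw [h1, ty, tz]
      · by_cases h2 : x = z
        · rw [h2, tz, ty]
        · rw [toth x h1 h2, toth, hp1.inv]
          · intro h
            apply h1
            rw [← hp1.inv x, h, hsy]
          · intro h
            apply h2
            rw [← hp1.inv x, h, hsz]
    · intro x
      by_cases h1 : x = y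
      · rw [h1, ty]
        simp only [if_pos, if_neg hne, hy]
        simp [hne.symm]
      · by_cases h2 : x = z
        · rw [h2, tz]
          simp only [if_pos, if_neg hne.symm, hz]
          simp [hne]
        · rw [toth x h1 h2]
          simp only [if_neg h1, if_neg h2, add_zero]
          exact hp1.ne_iff x
  obtain ⟨M1, hM1⟩ := hT y z (hM0.le hyz) hy hz t1 hpt
  -- the glued graph
  set A : Bool → SimpleGraph (V n) := fun c => if c = b then del M0 y z else M1 with hA
  have hAb : A b = del M0 y z := by simp [hA]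
  have hAb' : A (!b) = M1 := by
    have : (!b) ≠ b := by cases b <;> simp
    simp [hA]
  set M := TrickAux.glue i A {x | x = y ∨ x = z} with hM
  set G := M ⊔ pairG σ with hG
  have hmemC : ∀ x, x ∈ ({x | x = y ∨ x = z} : Set (V n)) ↔ x = y ∨ x = z := fun x => Iff.rfl
  -- connecting edges
  have g0 : ∀ u v, H0.Reachable u v → G.Reachable (ins i b u) (ins i b v) := by
    intro u v huv
    refine reach_of_adj (ins i b) ?_ huv
    rintro u v (h | h)
    · refine SimpleGraph.Adj.reachable (Or.inl ?_)
      rw [hM, TrickAux.glue_adj_same, hAb]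
      exact h
    · refine SimpleGraph.Adj.reachable (Or.inr ?_)
      rw [pairG_adj] at h ⊢
      refine ⟨fun h' => h.1 (ins_inj.1 h').2, ?_⟩
      rcases h.2 with h2 | h2
      · left
        rw [← e0, h2]
      · right
        rw [← e0, h2]
  have gy : G.Reachable (ins i b y) (ins i (!b) y) := by
    refine SimpleGraph.Adj.reachable (Or.inl ?_)
    rw [hM, TrickAux.glue_adj_ne]
    exact ⟨rfl, Or.inl rfl⟩
  have gz : G.Reachable (ins i b z) (ins i (!b) z) := by
    refine SimpleGraph.Adj.reachable (Or.inl ?_)
    rw [hM, TrickAux.glue_adj_ne]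
    exact ⟨rfl, Or.inr rfl⟩
  have gyz : G.Reachable (ins i (!b) y) (ins i (!b) z) :=
    (gy.symm.trans (g0 y z hreach)).trans gz
  have g1 : ∀ u v, (M1 ⊔ pairG t1).Reachable u v →
      G.Reachable (ins i (!b) u) (ins i (!b) v) := by
    intro u v huv
    refine reach_of_adj (ins i (!b)) ?_ huv
    rintro u v (h | h)
    · refine SimpleGraph.Adj.reachable (Or.inl ?_)
      rw [hM, TrickAux.glue_adj_same, hAb']
      exact h
    · rw [pairG_adj] at h
      have aux : ∀ u v, u ≠ v → t1 u = v → G.Reachable (ins i (!b) u) (ins i (!b) v) := by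
        intro u v huv ht
        by_cases h1 : u = y
        · rw [h1, ty] at ht
          rw [h1, ← ht]
          exact gyz
        · by_cases h2 : u = z
          · rw [h2, tz] at ht
            rw [h2, ← ht]
            exact gyz.symm
          · rw [toth u h1 h2] at ht
            refine SimpleGraph.Adj.reachable (Or.inr ?_)
            rw [pairG_adj]
            refine ⟨fun h' => huv (ins_inj.1 h').2, Or.inl ?_⟩
            rw [← e1, ht]
      rcases h.2 with h2 | h2
      · exact aux u v h.1 h2
      · exact (aux v u h.1.symm h2).symm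
  have hyh : half i b ω y ≤ 1 := by
    have h1 := hdel y
    rw [if_pos rfl] at h1
    omega
  refine ⟨M, ?_, ?_, ?_⟩
  · -- M ≤ Q
    intro u v huv
    obtain ⟨u', hu⟩ := exists_ins i u
    obtain ⟨v', hv⟩ := exists_ins i v
    by_cases hc : u i = v i
    · rw [← hc] at hv
      rw [hu, hv] at huv ⊢
      rw [adj_ins_same]
      rw [hM, TrickAux.glue_adj_same] at huv
      by_cases hb' : u i = b
      · rw [hb', hAb] at huv
        exact hM0.le huv.1
      · have : u i = !b := eq_not_of_ne hb'
        rw [this, hAb'] at huv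
        exact hM1.le huv
    · have hc' : v i = !(u i) := eq_not_of_ne (fun h => hc h.symm)
      rw [hc'] at hv
      rw [hu, hv] at huv ⊢
      rw [hM, TrickAux.glue_adj_ne] at huv
      rw [adj_ins_ne (by cases u i <;> simp)]
      exact huv.1
  · -- degrees
    intro u
    obtain ⟨x, hu⟩ := exists_ins i u
    rw [hu]
    by_cases hb' : u i = b
    · rw [hb', hM, TrickAux.glue_deg, hAb]
      have h1 := hdel x
      have h2 : half i b ω x = ω (ins i b x) := rfl
      have h3 : (if x ∈ ({x | x = y ∨ x = z} : Set (V n)) then 1 else 0) =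
          (if x = y then 1 else 0) + (if x = z then 1 else 0) := by
        by_cases h4 : x = y
        · have h5 : x ≠ z := fun h => hne (h4.symm.trans h)
          rw [if_pos h4, if_neg h5, if_pos ((hmemC x).2 (Or.inl h4))]
        · by_cases h5 : x = z
          · rw [if_neg h4, if_pos h5, if_pos ((hmemC x).2 (Or.inr h5))]
          · rw [if_neg h4, if_neg h5, if_neg (fun h => ((hmemC x).1 h).elim h4 h5)]
      omega
    · have : u i = !b := eq_not_of_ne hb'
      rw [this, hM, TrickAux.glue_deg, hAb']
      have h1 := hM1.deg x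
      have h2 : half i (!b) ω x = ω (ins i (!b) x) := rfl
      have h3 : (if x ∈ ({x | x = y ∨ x = z} : Set (V n)) then 1 else 0) =
          (if x = y then 1 else 0) + (if x = z then 1 else 0) := by
        by_cases h4 : x = y
        · have h5 : x ≠ z := fun h => hne (h4.symm.trans h)
          rw [if_pos h4, if_neg h5, if_pos ((hmemC x).2 (Or.inl h4))]
        · by_cases h5 : x = z
          · rw [if_neg h4, if_pos h5, if_pos ((hmemC x).2 (Or.inr h5))]
          · rw [if_neg h4, if_neg h5, if_neg (fun h => ((hmemC x).1 h).elim h4 h5)]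
      omega
  · -- connectivity
    have toY : ∀ u, ω u ≤ 1 → G.Reachable u (ins i b y) := by
      intro u hωu
      obtain ⟨x, hu⟩ := exists_ins i u
      by_cases hb' : u i = b
      · rw [hb'] at hu
        rw [hu] at hωu ⊢
        exact g0 x y (hconn0 x y hωu hyh)
      · have : u i = !b := eq_not_of_ne hb'
        rw [this] at hu
        rw [hu] at hωu ⊢
        refine (g1 x y (hM1.conn x y ?_ ?_)).trans gy.symm
        · have h2 : half i (!b) ω x = ω (ins i (!b) x) := rfl
          by_cases h4 : x = y
          · have h5 : x ≠ z := fun h => hne (h4.symm.trans h)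
            simp only [if_pos h4, if_neg h5]
            rw [h4, hy]
          · by_cases h5 : x = z
            · simp only [if_neg h4, if_pos h5]
              rw [h5, hz]
            · simp only [if_neg h4, if_neg h5]
              omega
        · simp [hy, hne]
    intro u v hu hv
    exact (toY u hu).trans (toY v hv).symm

theorem good_of_split0' (i : Fin (n + 1)) (b : Bool) (ω : V (n + 1) → ℕ) (hω : ∀ x, ω x ≤ 2)
    (h0 : Good (half i b ω)) (h1 : Good (half i (!b) ω))
    (he : Even (∑ x, half i b ω x))
    (hT : ∀ y z : V n, (Q n).Adj y z → half i (!b) ω y = 0 → half i (!b) ω z = 0 →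
      Good (fun x => half i (!b) ω x + (if x = y then 1 else 0) + (if x = z then 1 else 0)))
    (hcount : 2 * (∑ x ∈ Finset.univ.filter (fun x : V n => 0 < half i (!b) ω x),
        (2 - half i b ω x)) + ∑ x, half i b ω x < 2 * 2 ^ n) : Good ω := by
  intro σ hσ
  by_cases hx : ∃ x, σ x i ≠ x i
  · have h2 : Good (half i false ω) ∧ Good (half i true ω) := by
      cases b
      · exact ⟨h0, h1⟩
      · exact ⟨h1, h0⟩
    obtain ⟨M, hM, -⟩ := split_solved i hσ hω h2.1 h2.2 (SG_even_half hσ hω he) hx
    exact ⟨M, hM⟩
  · push Not at hx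
    exact trick_solved' i b hσ h0 hT hcount hx

end Pool.Agent.Locke
end

section

/-! # Locke's conjecture, part 2: double stars -/

namespace Pool.Agent.Locke

variable {m : ℕ}

/-! ### double stars

`ds c f t y` has a star of class `!par c` around `c` with weights `t` and a star of class `par c`
around `flip c f` with weights `y`. -/

def ds {n : ℕ} (c : V n) (f : Fin n) (t y : Fin n → ℕ) : V n → ℕ :=
  fun x => starW c t x + starW (flip c f) y x

/-- `a` directions other than `f` of type (1,2), the others of type (2,1); `f` of type `(u,v)` -/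
def DSC (n a u v : ℕ) : Prop :=
  ∀ (c : V n) (f : Fin n) (t y : Fin n → ℕ), t f = u → y f = v →
    (∀ i, i ≠ f → (t i = 1 ∧ y i = 2) ∨ (t i = 2 ∧ y i = 1)) →
    (Finset.univ.filter (fun i => i ≠ f ∧ t i = 1)).card = a →
    Comp (!(par c)) (ds c f t y)

/-! #### auxiliary facts on `starW` -/

lemma starD_starW_flip {n : ℕ} (c : V n) (t : Fin n → ℕ) (j : Fin n) :
    starW c t (flip c j) = t j := by
  unfold starW
  rw [Finset.sum_eq_single j]
  · rw [if_pos rfl]
  · intro i _ hij
    rw [if_neg]
    intro h
    exact hij (flip_inj c h).symm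
  · intro h
    exact absurd (Finset.mem_univ j) h

lemma starD_starW_ne {n : ℕ} (c : V n) (t : Fin n → ℕ) (x : V n) (h : starW c t x ≠ 0) :
    ∃ j, x = flip c j := by
  by_contra hcon
  push Not at hcon
  apply h
  unfold starW
  apply Finset.sum_eq_zero
  intro i _
  rw [if_neg (hcon i)]

lemma starD_starW_par {n : ℕ} (c : V n) (t : Fin n → ℕ) (x : V n) (h : par x = par c) :
    starW c t x = 0 := by
  by_contra hcon
  obtain ⟨j, rfl⟩ := starD_starW_ne c t x hcon
  rw [par_flip] at h
  revert h
  cases par c <;> simp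

lemma starD_starW_le {n : ℕ} (c : V n) (t : Fin n → ℕ) (ht : ∀ i, t i ≤ 2) (x : V n) :
    starW c t x ≤ 2 := by
  by_cases h : starW c t x = 0
  · rw [h]; omega
  · obtain ⟨j, rfl⟩ := starD_starW_ne c t x h
    rw [starD_starW_flip]
    exact ht j

lemma starD_ds_le {n : ℕ} (c : V n) (f : Fin n) (t y : Fin n → ℕ) (ht : ∀ i, t i ≤ 2)
    (hy : ∀ i, y i ≤ 2) (x : V n) : ds c f t y x ≤ 2 := by
  unfold ds
  by_cases h : par x = par c
  · rw [starD_starW_par c t x h, zero_add]
    exact starD_starW_le _ _ hy x
  · have h' : par x = par (flip c f) := by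
      rw [par_flip]
      revert h
      cases par x <;> cases par c <;> simp
    rw [starD_starW_par (flip c f) y x h', add_zero]
    exact starD_starW_le _ _ ht x

lemma starD_ds_flip {n : ℕ} (c : V n) (f : Fin n) (t y : Fin n → ℕ) (j : Fin n) :
    ds c f t y (flip c j) = t j := by
  unfold ds
  rw [starD_starW_flip, starD_starW_par (flip c f) y (flip c j) (by rw [par_flip, par_flip]),
    add_zero]

lemma starD_ds_flip2 {n : ℕ} (c : V n) (f : Fin n) (t y : Fin n → ℕ) (j : Fin n) :
    ds c f t y (flip (flip c f) j) = y j := by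
  unfold ds
  rw [starD_starW_flip, starD_starW_par c t (flip (flip c f) j)
    (by rw [par_flip, par_flip, Bool.not_not]), zero_add]

lemma starD_star1 {n : ℕ} (c : V n) (f : Fin n) (t y : Fin n → ℕ) :
    Star (!(par c)) c (ds c f t y) := by
  refine ⟨(Bool.not_not _).symm, ?_⟩
  intro x hx h
  unfold ds at h
  rw [starD_starW_par (flip c f) y x (by rw [hx, par_flip]), add_zero] at h
  exact starD_starW_ne _ _ _ h

lemma starD_star2 {n : ℕ} (c : V n) (f : Fin n) (t y : Fin n → ℕ) :
    Star (!(!(par c))) (flip c f) (ds c f t y) := by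
  refine ⟨by rw [par_flip, Bool.not_not], ?_⟩
  intro x hx h
  unfold ds at h
  rw [starD_starW_par c t x (by rw [hx, Bool.not_not]), zero_add] at h
  exact starD_starW_ne _ _ _ h

lemma starD_W1 {n : ℕ} (c : V n) (f : Fin n) (t y : Fin n → ℕ) :
    W (!(par c)) (ds c f t y) = ∑ i, t i := by
  rw [star_W (starD_star1 c f t y)]
  exact Finset.sum_congr rfl (fun i _ => starD_ds_flip c f t y i)

lemma starD_W2 {n : ℕ} (c : V n) (f : Fin n) (t y : Fin n → ℕ) :
    W (!(!(par c))) (ds c f t y) = ∑ i, y i := by
  rw [star_W (starD_star2 c f t y)]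
  exact Finset.sum_congr rfl (fun i _ => starD_ds_flip2 c f t y i)

lemma starD_S1 {n : ℕ} (c : V n) (f : Fin n) (t y : Fin n → ℕ) (j : Fin n) :
    S (!(par c)) (ds c f t y) j (!c j) = t j := by
  rw [star_S (starD_star1 c f t y), starD_ds_flip]

lemma starD_S2 {n : ℕ} (c : V n) (f : Fin n) (t y : Fin n → ℕ) {j : Fin n} (hj : j ≠ f) :
    S (!(!(par c))) (ds c f t y) j (!c j) = y j := by
  have h := star_S (starD_star2 c f t y) j
  rw [cube_flip_of_ne c hj, starD_ds_flip2] at h
  exact h

lemma starD_half_starW (c : V (m + 1)) (t : Fin (m + 1) → ℕ) (j : Fin (m + 1)) :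
    half j (c j) (starW c t) =
      starW (fun k => c (j.succAbove k)) (fun k => t (j.succAbove k)) := by
  funext x
  unfold half starW
  have hc : c = ins j (c j) (fun k => c (j.succAbove k)) := by
    funext k
    rcases Fin.eq_self_or_eq_succAbove j k with rfl | ⟨l, rfl⟩
    · rw [ins_apply_self]
    · rw [ins_succAbove]
  have h1 : ins j (c j) x ≠ flip c j := by
    intro h
    have h2 := congrFun h j
    rw [ins_apply_self, cube_flip_self] at h2
    revert h2
    cases c j <;> simp
  rw [Fin.sum_univ_succAbove _ j, if_neg h1, zero_add]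
  apply Finset.sum_congr rfl
  intro k _
  have h3 : flip c (j.succAbove k) = ins j (c j) (flip (fun k => c (j.succAbove k)) k) := by
    rw [← flip_ins_succAbove, ← hc]
  rw [h3]
  by_cases hx : x = flip (fun k => c (j.succAbove k)) k
  · rw [if_pos hx, if_pos (by rw [hx])]
  · rw [if_neg hx, if_neg]
    intro h
    exact hx (ins_inj.1 h).2

lemma starD_half_ds (c : V (m + 1)) (j : Fin (m + 1)) (f' : Fin m) (t y : Fin (m + 1) → ℕ) :
    half j (c j) (ds c (j.succAbove f') t y) =
      ds (fun k => c (j.succAbove k)) f' (fun k => t (j.succAbove k))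
        (fun k => y (j.succAbove k)) := by
  have hne : j ≠ j.succAbove f' := (Fin.succAbove_ne j f').symm
  have h1 := starD_half_starW c t j
  have h2 := starD_half_starW (flip c (j.succAbove f')) y j
  rw [cube_flip_of_ne c hne] at h2
  have h3 : (fun k => flip c (j.succAbove f') (j.succAbove k)) =
      flip (fun k => c (j.succAbove k)) f' := by
    funext k
    by_cases hk : k = f'
    · subst hk
      rw [cube_flip_self, cube_flip_self]
    · rw [cube_flip_of_ne _ hk, cube_flip_of_ne]
      intro h
      exact hk (Fin.succAbove_right_injective h)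
  rw [h3] at h2
  funext x
  have h4 := congrFun h1 x
  have h5 := congrFun h2 x
  unfold half at h4 h5
  unfold half ds
  rw [h4, h5]

lemma starD_label (c : V (m + 1)) (j : Fin (m + 1)) :
    xor (c j) (!(par c)) = !(par (fun k => c (j.succAbove k))) := by
  have hc : c = ins j (c j) (fun k => c (j.succAbove k)) := by
    funext k
    rcases Fin.eq_self_or_eq_succAbove j k with rfl | ⟨l, rfl⟩
    · rw [ins_apply_self]
    · rw [ins_succAbove]
  have h : par c = xor (c j) (par (fun k => c (j.succAbove k))) := by
    rw [← par_ins j, ← hc]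
  rw [h]
  cases c j <;> cases par (fun k => c (j.succAbove k)) <;> rfl

lemma starD_sums (f : Fin (m + 1)) (t y : Fin (m + 1) → ℕ)
    (hty : ∀ i, i ≠ f → (t i = 1 ∧ y i = 2) ∨ (t i = 2 ∧ y i = 1)) :
    ∑ i, t i + (Finset.univ.filter (fun i => i ≠ f ∧ t i = 1)).card = t f + 2 * m ∧
    ∑ i, y i = y f + m + (Finset.univ.filter (fun i => i ≠ f ∧ t i = 1)).card := by
  have h0 : (Finset.univ.filter (fun i => i ≠ f ∧ t i = 1)).card =
      ∑ i ∈ Finset.univ.erase f, (if t i = 1 then 1 else 0) := by
    rw [Finset.card_filter, ← Finset.add_sum_erase _ _ (Finset.mem_univ f), if_neg (by simp),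
      zero_add]
    apply Finset.sum_congr rfl
    intro i hi
    have := Finset.ne_of_mem_erase hi
    by_cases h : t i = 1
    · rw [if_pos ⟨this, h⟩, if_pos h]
    · rw [if_neg (fun hh => h hh.2), if_neg h]
  have hcard : (Finset.univ.erase f).card = m := by
    rw [Finset.card_erase_of_mem (Finset.mem_univ f), Finset.card_univ, Fintype.card_fin]
    rfl
  constructor
  · rw [← Finset.add_sum_erase _ _ (Finset.mem_univ f), h0, add_assoc, ← Finset.sum_add_distrib]
    have : ∑ i ∈ Finset.univ.erase f, (t i + if t i = 1 then 1 else 0) =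
        ∑ i ∈ Finset.univ.erase f, 2 := by
      apply Finset.sum_congr rfl
      intro i hi
      rcases hty i (Finset.ne_of_mem_erase hi) with h | h
      · rw [h.1, if_pos rfl]
      · rw [h.1, if_neg (by norm_num)]
    rw [this, Finset.sum_const, hcard, smul_eq_mul]
    omega
  · rw [← Finset.add_sum_erase _ _ (Finset.mem_univ f), h0, add_assoc]
    have : ∑ i ∈ Finset.univ.erase f, y i =
        ∑ i ∈ Finset.univ.erase f, (1 + if t i = 1 then 1 else 0) := by
      apply Finset.sum_congr rfl
      intro i hi
      rcases hty i (Finset.ne_of_mem_erase hi) with h | h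
      · rw [h.1, if_pos rfl, h.2]
      · rw [h.1, if_neg (by norm_num), h.2]
    rw [this, Finset.sum_add_distrib, Finset.sum_const, hcard, smul_eq_mul, mul_one]

lemma starD_card (j : Fin (m + 1)) (f' : Fin m) (t : Fin (m + 1) → ℕ) :
    (Finset.univ.filter (fun i => i ≠ j.succAbove f' ∧ t i = 1)).card =
      (if t j = 1 then 1 else 0) +
      (Finset.univ.filter (fun i => i ≠ f' ∧ t (j.succAbove i) = 1)).card := by
  rw [Finset.card_filter, Finset.card_filter, Fin.sum_univ_succAbove _ j]
  have hne : j ≠ j.succAbove f' := (Fin.succAbove_ne j f').symm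
  congr 1
  · simp [hne]
  · apply Finset.sum_congr rfl
    intro k _
    have : j.succAbove k ≠ j.succAbove f' ↔ k ≠ f' := by
      rw [not_iff_not]
      exact ⟨fun h => Fin.succAbove_right_injective h, fun h => by rw [h]⟩
    simp only [this]

/-- the half of a double star is completed by the hypothesis -/
lemma starD_comp {a u v : ℕ} (h : DSC m a u v) (c : V (m + 1)) (f j : Fin (m + 1))
    (t y : Fin (m + 1) → ℕ) (ht : t f = u) (hy : y f = v)
    (hty : ∀ i, i ≠ f → (t i = 1 ∧ y i = 2) ∨ (t i = 2 ∧ y i = 1)) (hj : j ≠ f)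
    (hcard : (Finset.univ.filter (fun i => i ≠ f ∧ t i = 1)).card =
      (if t j = 1 then 1 else 0) + a) :
    Comp (xor (c j) (!(par c))) (half j (c j) (ds c f t y)) := by
  obtain ⟨f', rfl⟩ : ∃ f', j.succAbove f' = f := Fin.exists_succAbove_eq hj.symm
  rw [starD_half_ds, starD_label]
  apply h _ _ _ _ ht hy
  · intro i hi
    exact hty _ (fun hh => hi (Fin.succAbove_right_injective hh))
  · rw [starD_card] at hcard
    omega

/-- a star of one class around `c` and a star of the other class around `flip c f` is a `ds` -/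
theorem eq_ds {n : ℕ} {p : Bool} {c : V n} {f : Fin n} {ω : V n → ℕ} (hc : Star p c ω)
    (hd : Star (!p) (flip c f) ω) :
    ω = ds c f (fun i => ω (flip c i)) (fun i => ω (flip (flip c f) i)) :=
  eq_starW hc hd

/-- removing a direction of type (1,2) -/
theorem DSC_step_A {a u v : ℕ} (hm : 5 ≤ m) (hE : EL m) (hu : u ≤ 2) (hv : v ≤ 2)
    (h : DSC m a u v) (hF : v + 2 * a + 3 ≤ u + m) : DSC (m + 1) (a + 1) u v := by
  intro c f t y ht hy hty hcard
  obtain ⟨j, hj⟩ : (Finset.univ.filter (fun i => i ≠ f ∧ t i = 1)).Nonempty := by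
    rw [← Finset.card_pos, hcard]
    omega
  rw [Finset.mem_filter] at hj
  obtain ⟨-, hjf, hj1⟩ := hj
  have hj2 : y j = 2 := by
    rcases hty j hjf with h | h
    · exact h.2
    · omega
  obtain ⟨hs1, hs2⟩ := starD_sums f t y hty
  have hω : ∀ x, ds c f t y x ≤ 2 := by
    apply starD_ds_le
    · intro i
      by_cases hi : i = f
      · rw [hi, ht]; exact hu
      · rcases hty i hi with h | h <;> omega
    · intro i
      by_cases hi : i = f
      · rw [hi, hy]; exact hv
      · rcases hty i hi with h | h <;> omega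
  have hC := starD_comp h c f j t y ht hy hty hjf (by rw [hcard, if_pos hj1]; omega)
  refine comp_R1 hω j (c j) hE hC ?_ ?_ ?_ (Or.inl ?_)
  · rw [starD_W1, starD_W2]
    omega
  · rw [starD_S1, starD_S2 c f t y hjf]
    omega
  · rw [starD_S2 c f t y hjf]
    omega
  · rw [starD_S1, starD_W1, starD_W2]
    omega

lemma starD_pow {k : ℕ} (hk : 5 ≤ k) : 8 + 2 * k < 2 ^ k := by
  induction k, hk using Nat.le_induction with
  | base => norm_num
  | succ k hk ih =>
    rw [pow_succ]
    omega

/-- removing a direction of type (2,1) -/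
theorem DSC_step_K {a u v : ℕ} (hm : 5 ≤ m) (hE : EL m) (hu : u ≤ 2) (hv : v ≤ 2)
    (h : DSC m a u v) (ha : a < m) : DSC (m + 1) a u v := by
  intro c f t y ht hy hty hcard
  obtain ⟨j, hjf, hj1⟩ : ∃ j, j ≠ f ∧ t j ≠ 1 := by
    by_contra hcon
    push Not at hcon
    have h2 : (Finset.univ.filter (fun i => i ≠ f ∧ t i = 1)) = Finset.univ.erase f := by
      ext i
      rw [Finset.mem_filter, Finset.mem_erase]
      constructor
      · rintro ⟨h1, h2, -⟩
        exact ⟨h2, h1⟩
      · rintro ⟨h1, h2⟩
        exact ⟨h2, h1, hcon i h1⟩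
    rw [h2, Finset.card_erase_of_mem (Finset.mem_univ f), Finset.card_univ,
      Fintype.card_fin] at hcard
    omega
  have hj2 : t j = 2 ∧ y j = 1 := by
    rcases hty j hjf with h | h
    · omega
    · exact h
  obtain ⟨hs1, hs2⟩ := starD_sums f t y hty
  have hω : ∀ x, ds c f t y x ≤ 2 := by
    apply starD_ds_le
    · intro i
      by_cases hi : i = f
      · rw [hi, ht]; exact hu
      · rcases hty i hi with h | h <;> omega
    · intro i
      by_cases hi : i = f
      · rw [hi, hy]; exact hv
      · rcases hty i hi with h | h <;> omega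
  have hC := starD_comp h c f j t y ht hy hty hjf (by rw [hcard, if_neg hj1]; omega)
  have hadd := S_add (!(par c)) (c j) (ds c f t y) j
  rw [starD_S1, starD_W1] at hadd
  have hpow := starD_pow hm
  refine comp_R2 hω j (c j) hE hC ?_ ?_ (Or.inl ?_)
  · rw [starD_S1, starD_S2 c f t y hjf]
    omega
  · rw [starD_S1]
    omega
  · rw [starD_S1]
    omega

/-- the balanced double star in dimension 7 -/
theorem DS7 (hE : EL 6) (h : DSC 6 2 1 1) (c : V 7) (f : Fin 7) (t y : Fin 7 → ℕ)
    (ht : t f = 1) (hy : y f = 1)
    (hty : ∀ i, i ≠ f → (t i = 1 ∧ y i = 2) ∨ (t i = 2 ∧ y i = 1))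
    (ha : (Finset.univ.filter (fun i => i ≠ f ∧ t i = 1)).card = 3) : Good (ds c f t y) := by
  obtain ⟨j, hj⟩ : (Finset.univ.filter (fun i => i ≠ f ∧ t i = 1)).Nonempty := by
    rw [← Finset.card_pos, ha]
    omega
  rw [Finset.mem_filter] at hj
  obtain ⟨-, hjf, hj1⟩ := hj
  have hj2 : y j = 2 := by
    rcases hty j hjf with h | h
    · exact h.2
    · omega
  have hs : ∑ i : Fin 7, t i + (Finset.univ.filter (fun i => i ≠ f ∧ t i = 1)).card =
      t f + 2 * 6 ∧
      ∑ i : Fin 7, y i = y f + 6 + (Finset.univ.filter (fun i => i ≠ f ∧ t i = 1)).card :=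
    starD_sums (m := 6) f t y hty
  rw [ha, ht, hy] at hs
  have ht10 : ∑ i : Fin 7, t i = 10 := by omega
  have hy10 : ∑ i : Fin 7, y i = 10 := by omega
  have hω : ∀ x, ds c f t y x ≤ 2 := by
    apply starD_ds_le
    · intro i
      by_cases hi : i = f
      · rw [hi, ht]; omega
      · rcases hty i hi with h | h <;> omega
    · intro i
      by_cases hi : i = f
      · rw [hi, hy]; omega
      · rcases hty i hi with h | h <;> omega
  have hC := starD_comp (m := 6) h c f j t y ht hy hty hjf (by rw [ha, if_pos hj1])
  refine good_R1m (m := 6) (p := !(par c)) hω j (c j) (by norm_num) hE hC ?_ ?_ ?_ ?_ ?_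
  · rw [starD_W1, starD_W2]
    exact hy10.trans ht10.symm
  · rw [starD_W1]
    exact le_of_eq (by rw [ht10])
  · rw [starD_S1]
    omega
  · rw [starD_S2 c f t y hjf]
    omega
  · rw [starD_S2 c f t y hjf]
    omega

end Pool.Agent.Locke
end
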