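import Pool.Agent.Lib.MP_8a5648_co.Mg.G004
import Pool.Agent.Lib.MP_8a5648_co.Mg.G003
import Pool.Agent.Lib.MP_8a5648_co.Mg.G002

section

end

section

/-! # Locke's conjecture, part 2: the statement B2 in dimensions 7 to 10 -/

namespace Pool.Agent.Locke

variable {m : ℕ}

theorem B2_mid (hm : 6 ≤ m) (hm' : m ≤ 9) (hE : EL m) (h1 : B1 m 1) (h2 : B2 m 3)
    (hSF : SF (m + 1)) (hS7 : ST2 7 7)
    (hX : ∀ (p : Bool) (c : V 8) (a b : Fin 8) (ω : V 8 → ℕ), XS p c a b ω → Comp p ω) :
    B2 (m + 1) 3 := by
  classical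
  intro p ω hω hP he ho
  by_contra hbad
  have he' : W p ω = 2 * m := by omega
  have ho' : W (!p) ω + 5 ≤ 2 * m := by omega
  obtain ⟨c, hc⟩ := exists_centre p ω
  obtain ⟨q, hq⟩ : ∃ q : Fin (m + 1) → ℕ, ∀ i, S p ω i (!c i) = q i :=
    ⟨fun i => S p ω i (!c i), fun _ => rfl⟩
  obtain ⟨s, hs⟩ : ∃ s : Fin (m + 1) → ℕ, ∀ i, S (!p) ω i (!c i) = s i :=
    ⟨fun i => S (!p) ω i (!c i), fun _ => rfl⟩
  obtain ⟨o, hoW⟩ : ∃ o : ℕ, W (!p) ω = o := ⟨_, rfl⟩
  have hadd : ∀ i, S (!p) ω i (c i) + s i = o := fun i => by
    rw [← hs, ← hoW]; exact S_add (!p) (c i) ω i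
  have hstep : ∀ i, q i ≤ 1 ∨ (q i = 2 ∧ 2 * m < S (!p) ω i (c i) + 4 + 3) := fun i => by
    rw [← hq]
    exact B2_step (by omega) hE h1 h2 hω hP he' ho' (by omega) hbad i (c i) (hc i)
  have hq2 : ∀ i, q i ≤ 2 := fun i => by rcases hstep i with h | h <;> omega
  have hsumq : ∑ i, q i ≤ 2 * (m + 1) := by
    calc ∑ i, q i ≤ ∑ _i : Fin (m + 1), 2 := Finset.sum_le_sum (fun i _ => hq2 i)
      _ = 2 * (m + 1) := by simp [mul_comm]
  have hcw : ω c ≤ 2 := hω c
  by_cases hpar : par c = p
  · have h := N2 hpar ω
    simp only [hq] at h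
    omega
  · have hpar' : par c = !p := by
      cases hh : par c <;> cases p <;> simp_all
    -- the total light weight
    have hN1 : W p ω ≤ ∑ i, q i := by
      have h := N1' hpar' ω hω
      simp only [hq] at h
      have h3 : ∑ i, (q i + 2 * min (q i) 2) = 3 * ∑ i, q i := by
        rw [Finset.mul_sum]
        refine Finset.sum_congr rfl (fun i _ => ?_)
        rw [min_eq_left (hq2 i)]; ring
      rw [h3] at h
      omega
    have hpty : (∑ i, q i) % 2 = W p ω % 2 := by
      have h := N1_parity hpar' ω
      simpa only [hq] using h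
    obtain ⟨T, hTdef⟩ : ∃ T : Finset (Fin (m + 1)), T = Finset.univ.filter (fun i => q i ≤ 1) :=
      ⟨_, rfl⟩
    have hTmem : ∀ i, i ∈ T ↔ q i ≤ 1 := fun i => by rw [hTdef]; simp
    have hK : ∀ i, i ∉ T → q i = 2 ∧ s i + (2 * m - 6) ≤ o := by
      intro i hi
      rw [hTmem] at hi
      rcases hstep i with h | h
      · exact absurd h hi
      · have := hadd i
        exact ⟨h.1, by omega⟩
    have hdef : T.card + ∑ i, q i ≤ 2 * (m + 1) := by
      have h3 : ∑ i, q i + ∑ i, (2 - q i) = 2 * (m + 1) := by
        rw [← Finset.sum_add_distrib]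
        calc ∑ i, (q i + (2 - q i)) = ∑ _i : Fin (m + 1), 2 :=
              Finset.sum_congr rfl (fun i _ => by have := hq2 i; omega)
          _ = 2 * (m + 1) := by simp [mul_comm]
      have h4 : T.card ≤ ∑ i, (2 - q i) := by
        calc T.card = ∑ _i ∈ T, 1 := by simp
          _ ≤ ∑ i ∈ T, (2 - q i) := Finset.sum_le_sum (fun i hi => by
              have := (hTmem i).mp hi; omega)
          _ ≤ ∑ i, (2 - q i) := Finset.sum_le_sum_of_subset (Finset.subset_univ _)
      omega
    have hTc : Tᶜ.card = m + 1 - T.card := by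
      rw [Finset.card_compl, Fintype.card_fin]
    have hKne : ∃ i, i ∉ T := by
      by_contra hcon
      push Not at hcon
      have : T = Finset.univ := Finset.eq_univ_of_forall hcon
      rw [this, Finset.card_univ, Fintype.card_fin] at hdef
      omega
    obtain ⟨i0, hi0⟩ := hKne
    have hi0' := (hK i0 hi0).2
    -- o = 2m-6 or 2m-5
    have ho2 : o = 2 * m - 6 ∨ o = 2 * m - 5 := by omega
    have hsK : ∀ i ∈ Tᶜ, s i ≤ o - (2 * m - 6) := by
      intro i hi
      rw [Finset.mem_compl] at hi
      have := (hK i hi).2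
      omega
    have hsumK : ∑ i ∈ Tᶜ, s i ≤ (m + 1 - T.card) * (o - (2 * m - 6)) := by
      have := Finset.sum_le_card_nsmul _ _ _ hsK
      rwa [hTc, smul_eq_mul] at this
    have hsumle : ∑ i, q i = 2 * m ∨ ∑ i, q i = 2 * m + 2 := by omega
    rcases hsumle with hsum | hsum
    · -- a star
      have hstar : Star p c ω := by
        apply N1_star' hpar' ω
        simp only [hq]
        omega
      have hT2 : T.card ≤ 2 := by omega
      have hTne : T.Nonempty := by
        rw [Finset.nonempty_iff_ne_empty]
        intro hT0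
        have h3 : ∀ i, q i = 2 := by
          intro i
          have : i ∉ T := by rw [hT0]; simp
          exact (hK i this).1
        have h4 : ∑ i, q i = 2 * (m + 1) := by
          calc ∑ i, q i = ∑ _i : Fin (m + 1), 2 := Finset.sum_congr rfl (fun i _ => h3 i)
            _ = 2 * (m + 1) := by simp [mul_comm]
        omega
      have hT1 : 1 ≤ T.card := hTne.card_pos
      have hN3 := N3_centre hpar' ω hω T hTne
      rw [hoW] at hN3
      simp only [hs] at hN3
      have hpow : 2 ^ T.card ≤ 4 := by
        calc 2 ^ T.card ≤ 2 ^ 2 := Nat.pow_le_pow_right (by norm_num) hT2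
          _ = 4 := by norm_num
      rcases ho2 with ho3 | ho3
      · have : o - (2 * m - 6) = 0 := by omega
        rw [this, mul_zero] at hsumK
        omega
      · have hd1 : o - (2 * m - 6) = 1 := by omega
        rw [hd1, mul_one] at hsumK
        -- m = 6
        rcases Nat.lt_or_ge m 7 with hm7 | hm7
        · have hm6 : m = 6 := by omega
          subst hm6
          exact hbad (hS7 p c ω hω hstar (by omega) (by omega))
        · by_cases hcc : ω c = 2
          · exact hbad (hSF p c ω hω hstar hcc (by omega) (by omega))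
          · have hcc1 : ω c ≤ 1 := by omega
            have hTcases : T.card = 1 ∨ T.card = 2 := by omega
            rcases hTcases with hT | hT
            · rw [hT] at hN3 hsumK
              norm_num at hN3
              omega
            · rw [hT] at hN3 hsumK
              norm_num at hN3
              have hm7' : m = 7 := by omega
              subst hm7'
              have hc1 : ω c = 1 := by omega
              have hsum6 : ∑ i ∈ Tᶜ, s i = 6 := by omega
              have hs1 : ∀ i ∈ Tᶜ, s i = 1 := by
                by_contra hcon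
                push Not at hcon
                obtain ⟨i, hi, hne⟩ := hcon
                have h5 : ∑ i ∈ Tᶜ, s i < ∑ _i ∈ Tᶜ, 1 := by
                  apply Finset.sum_lt_sum
                  · intro j hj
                    have := hsK j hj
                    omega
                  · refine ⟨i, hi, ?_⟩
                    have := hsK i hi
                    omega
                rw [Finset.sum_const, smul_eq_mul, mul_one, hTc, hT] at h5
                omega
              obtain ⟨a, b, hab, hTab⟩ := Finset.card_eq_two.mp hT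
              have hN32 := N3_two hpar' ω hab
              rw [hoW, ← hTab] at hN32
              simp only [hs] at hN32
              have hff : ω (flip (flip c a) b) ≤ 2 := hω _
              -- q = 1 on T
              have hqT : ∀ i ∈ T, q i = 1 := by
                have h3 : ∑ i ∈ T, q i + ∑ i ∈ Tᶜ, q i = 14 := by
                  rw [Finset.sum_add_sum_compl]; omega
                have h4 : ∑ i ∈ Tᶜ, q i = 12 := by
                  calc ∑ i ∈ Tᶜ, q i = ∑ _i ∈ Tᶜ, 2 :=
                        Finset.sum_congr rfl (fun i hi => (hK i (Finset.mem_compl.mp hi)).1)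
                    _ = 12 := by rw [Finset.sum_const, hTc, hT]; norm_num
                by_contra hcon
                push Not at hcon
                obtain ⟨i, hi, hne⟩ := hcon
                have h5 : ∑ i ∈ T, q i < ∑ _i ∈ T, 1 := by
                  apply Finset.sum_lt_sum
                  · intro j hj
                    exact (hTmem j).mp hj
                  · refine ⟨i, hi, ?_⟩
                    have := (hTmem i).mp hi
                    omega
                rw [Finset.sum_const, smul_eq_mul, mul_one, hT] at h5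
                omega
              have hflip : ∀ i, ω (flip c i) = q i := fun i => by
                rw [← hq]; exact (star_S hstar i).symm
              have haT : a ∈ T := by rw [hTab]; simp
              have hbT : b ∈ T := by rw [hTab]; simp
              have hout : ∀ i, i ≠ a → i ≠ b → i ∉ T := by
                intro i hia hib
                rw [hTab]; simp [hia, hib]
              apply hbad
              apply hX p c a b ω
              refine ⟨hω, hstar, hab, ?_, ?_, ?_, ?_, hc1, ?_, ?_⟩
              · rw [hflip]; exact hqT a haT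
              · rw [hflip]; exact hqT b hbT
              · intro i hia hib
                rw [hflip]; exact (hK i (hout i hia hib)).1
              · omega
              · omega
              · intro i hia hib
                rw [hs]
                exact hs1 i (Finset.mem_compl.mpr (hout i hia hib))
    · -- all light sides weigh 2
      have hT0 : T.card = 0 := by omega
      have hTe : T = ∅ := Finset.card_eq_zero.mp hT0
      have h := N2 hpar' ω
      rw [hoW] at h
      simp only [hs] at h
      rw [hTe, Finset.compl_empty, Finset.card_empty] at hsumK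
      rcases ho2 with ho3 | ho3
      · have : o - (2 * m - 6) = 0 := by omega
        rw [this, mul_zero] at hsumK
        omega
      · have : o - (2 * m - 6) = 1 := by omega
        rw [this, mul_one] at hsumK
        omega

end Pool.Agent.Locke
end

section

/-! # Locke's conjecture, part 2: the configurations A5 in general position -/

namespace Pool.Agent.Locke

lemma sp5A_trans_flip {n : ℕ} (c d : V n) (i : Fin n) :
    transIso c (flip d i) = flip (transIso c d) i := by
  funext k
  by_cases hk : k = i
  · subst hk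
    rw [cube_flip_self]
    change xor (flip d k k) (c k) = !(xor (d k) (c k))
    rw [cube_flip_self]
    cases d k <;> cases c k <;> rfl
  · rw [cube_flip_of_ne _ hk]
    change xor (flip d i k) (c k) = xor (d k) (c k)
    rw [cube_flip_of_ne _ hk]

lemma sp5A_trans_trans {n : ℕ} (c x : V n) : transIso c (transIso c x) = x := by
  funext k
  change xor (xor (x k) (c k)) (c k) = x k
  cases x k <;> cases c k <;> rfl

lemma sp5A_starW_trans {n : ℕ} (c d : V n) (t : Fin n → ℕ) (x : V n) :
    starW d t (transIso c x) = starW (transIso c d) t x := by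
  unfold starW
  refine Finset.sum_congr rfl fun i _ => ?_
  have h : transIso c x = flip d i ↔ x = flip (transIso c d) i := by
    constructor
    · intro h
      rw [← sp5A_trans_flip, ← h, sp5A_trans_trans]
    · intro h
      rw [h, ← sp5A_trans_flip, sp5A_trans_trans]
  simp only [h]

lemma sp5A_perm_flip {n : ℕ} (τ : Equiv.Perm (Fin n)) (d : V n) (i : Fin n) :
    permIso τ (flip d (τ i)) = flip (permIso τ d) i := by
  funext k
  change flip d (τ i) (τ k) = flip (permIso τ d) i k
  by_cases hk : k = i
  · subst hk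
    rw [cube_flip_self, cube_flip_self]
    rfl
  · rw [cube_flip_of_ne _ hk, cube_flip_of_ne _ (fun h => hk (τ.injective h))]
    rfl

lemma sp5A_starW_perm {n : ℕ} (τ : Equiv.Perm (Fin n)) (d : V n) (t : Fin n → ℕ) (x : V n) :
    starW (permIso τ d) t (permIso τ x) = starW d (fun k => t (τ.symm k)) x := by
  unfold starW
  rw [← Equiv.sum_comp τ (fun k => if x = flip d k then t (τ.symm k) else 0)]
  refine Finset.sum_congr rfl fun i _ => ?_
  have h : permIso τ x = flip (permIso τ d) i ↔ x = flip d (τ i) := by
    constructor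
    · intro h
      rw [← sp5A_perm_flip] at h
      exact (permIso τ).injective h
    · intro h
      rw [h, sp5A_perm_flip]
  simp only [h, Equiv.symm_apply_apply]

/-- a permutation with prescribed images of `4` and `3` -/
lemma sp5A_exists_perm {a j : Fin 5} (h : a ≠ j) :
    ∃ σ : Equiv.Perm (Fin 5), σ 4 = a ∧ σ 3 = j := by
  obtain ⟨k, hk⟩ : ∃ k, k = Equiv.swap 4 a j := ⟨_, rfl⟩
  have hk4 : (4 : Fin 5) ≠ k := by
    intro h4
    apply h
    have h5 : Equiv.swap 4 a k = j := by rw [hk, Equiv.swap_apply_self]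
    rw [← h4, Equiv.swap_apply_left] at h5
    exact h5
  refine ⟨Equiv.swap 4 a * Equiv.swap 3 k, ?_, ?_⟩
  · rw [Equiv.Perm.mul_apply, Equiv.swap_apply_of_ne_of_ne (by decide) hk4,
      Equiv.swap_apply_left]
  · rw [Equiv.Perm.mul_apply, Equiv.swap_apply_left, hk, Equiv.swap_apply_self]

theorem A5_of_spec (hA : SpecA) : A5 := by
  intro p c b0 a j t y hc hb haj hta htj ht hya hy
  obtain ⟨σ, h4, h3⟩ := sp5A_exists_perm haj
  have hcp : xor (par c) true = p := by
    rw [hc]
    cases p <;> rfl
  have ht' : (fun k => t (σ k)) = ![2, 2, 2, 1, 0] := by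
    funext k
    have hne4 : k ≠ 4 → σ k ≠ a := by
      intro h hk
      apply h
      apply σ.injective
      rw [hk, h4]
    have hne3 : k ≠ 3 → σ k ≠ j := by
      intro h hk
      apply h
      apply σ.injective
      rw [hk, h3]
    fin_cases k
    · exact ht _ (hne4 (by decide)) (hne3 (by decide))
    · exact ht _ (hne4 (by decide)) (hne3 (by decide))
    · exact ht _ (hne4 (by decide)) (hne3 (by decide))
    · change t (σ 3) = 1
      rw [h3]
      exact htj
    · change t (σ 4) = 0
      rw [h4]
      exact hta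
  have hy' : (fun k => y (σ k)) = ![1, 1, 1, 1, 2] := by
    funext k
    have hne4 : k ≠ 4 → σ k ≠ a := by
      intro h hk
      apply h
      apply σ.injective
      rw [hk, h4]
    fin_cases k
    · exact hy _ (hne4 (by decide))
    · exact hy _ (hne4 (by decide))
    · exact hy _ (hne4 (by decide))
    · exact hy _ (hne4 (by decide))
    · change y (σ 4) = 2
      rw [h4]
      exact hya
  obtain ⟨b1, hb1⟩ : ∃ b1, permIso σ.symm b1 = transIso c b0 :=
    ⟨(permIso σ.symm).symm (transIso c b0), RelIso.apply_symm_apply _ _⟩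
  have hpb : par b1 = true := by
    rw [← par_perm σ.symm b1, hb1, par_trans, hb, hc]
    cases p <;> rfl
  have hspec := hA b1 hpb
  have hz : permIso σ.symm z5 = transIso c c := by
    funext k
    change false = xor (c k) (c k)
    cases c k <;> rfl
  have hkey : (fun x => starW z5 ![2, 2, 2, 1, 0] x + starW b1 ![1, 1, 1, 1, 2] x) =
      fun x => (fun x => (fun x => starW c t x + starW b0 y x) (transIso c x))
        (permIso σ.symm x) := by
    funext x
    dsimp only
    rw [sp5A_starW_trans, sp5A_starW_trans, ← hz, ← hb1, sp5A_starW_perm, sp5A_starW_perm,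
      Equiv.symm_symm, ht', hy']
  rw [hkey] at hspec
  have h5 := (comp_perm σ.symm true
    (fun x => (fun x => starW c t x + starW b0 y x) (transIso c x))).1 hspec
  have h6 := (comp_trans c true (fun x => starW c t x + starW b0 y x)).1 h5
  rw [hcp] at h6
  exact h6

end Pool.Agent.Locke
end

section

/-! # Locke's conjecture, part 2: the double stars of dimension 5 in general position -/

namespace Pool.Agent.Locke

lemma sp5D_trans_flip {n : ℕ} (c x : V n) (i : Fin n) :
    transIso c (flip x i) = flip (transIso c x) i := by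
  funext j
  show xor (flip x i j) (c j) = flip (transIso c x) i j
  by_cases h : j = i
  · subst h
    rw [cube_flip_self, cube_flip_self]
    show xor (!x j) (c j) = !(xor (x j) (c j))
    cases x j <;> cases c j <;> rfl
  · rw [cube_flip_of_ne _ h, cube_flip_of_ne _ h]
    rfl

lemma sp5D_trans_self {n : ℕ} (c : V n) : transIso c c = fun _ => false := by
  funext j
  show xor (c j) (c j) = false
  simp

lemma sp5D_perm_flip {n : ℕ} (τ : Equiv.Perm (Fin n)) (x : V n) (i : Fin n) :
    permIso τ (flip x i) = flip (permIso τ x) (τ.symm i) := by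
  funext j
  show flip x i (τ j) = flip (permIso τ x) (τ.symm i) j
  by_cases h : j = τ.symm i
  · subst h
    rw [cube_flip_self]
    show flip x i (τ (τ.symm i)) = !(x (τ (τ.symm i)))
    rw [Equiv.apply_symm_apply, cube_flip_self]
  · have h' : τ j ≠ i := by
      intro h2
      apply h
      rw [← h2, Equiv.symm_apply_apply]
    rw [cube_flip_of_ne _ h, cube_flip_of_ne _ h']
    rfl

lemma sp5D_perm_zero {n : ℕ} (τ : Equiv.Perm (Fin n)) :
    permIso τ (fun _ => false : V n) = fun _ => false := rfl

lemma sp5D_starW_trans {n : ℕ} (c d : V n) (t : Fin n → ℕ) (x : V n) :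
    starW d t x = starW (transIso c d) t (transIso c x) := by
  unfold starW
  refine Finset.sum_congr rfl ?_
  intro i _
  rw [← sp5D_trans_flip]
  simp only [EmbeddingLike.apply_eq_iff_eq]

lemma sp5D_starW_perm {n : ℕ} (τ : Equiv.Perm (Fin n)) (d : V n) (t : Fin n → ℕ) (x : V n) :
    starW d t x = starW (permIso τ d) (fun i => t (τ i)) (permIso τ x) := by
  unfold starW
  rw [← Equiv.sum_comp τ]
  refine Finset.sum_congr rfl ?_
  intro i _
  have h : flip (permIso τ d) i = permIso τ (flip d (τ i)) := by
    rw [sp5D_perm_flip, Equiv.symm_apply_apply]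
  rw [h]
  simp only [EmbeddingLike.apply_eq_iff_eq]

lemma sp5D_ds (c : V 5) (f : Fin 5) (t y : Fin 5 → ℕ) (τ : Equiv.Perm (Fin 5)) :
    ds c f t y = fun x => ds z5 f t y (transIso c x) := by
  funext x
  unfold ds
  rw [sp5D_starW_trans c c, sp5D_starW_trans c (flip c f), sp5D_trans_flip, sp5D_trans_self]
  rfl

lemma sp5D_ds_perm (f : Fin 5) (t y : Fin 5 → ℕ) (τ : Equiv.Perm (Fin 5)) :
    ds z5 f t y = fun x => ds z5 (τ.symm f) (fun i => t (τ i)) (fun i => y (τ i))
      (permIso τ x) := by
  funext x
  unfold ds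
  rw [sp5D_starW_perm τ z5, sp5D_starW_perm τ (flip z5 f), sp5D_perm_flip]
  rfl

/-- moving a double star of dimension 5 -/
lemma sp5D_move (c : V 5) (f f' : Fin 5) (t y t' y' : Fin 5 → ℕ) (τ : Equiv.Perm (Fin 5))
    (hf : τ f' = f) (ht : ∀ i, t (τ i) = t' i) (hy : ∀ i, y (τ i) = y' i)
    (h : Comp true (ds z5 f' t' y')) : Comp (!(par c)) (ds c f t y) := by
  rw [sp5D_ds c f t y τ, comp_trans]
  have h1 : xor (par c) (!(par c)) = true := by cases par c <;> rfl
  rw [h1, sp5D_ds_perm f t y τ, comp_perm]
  have h2 : τ.symm f = f' := by rw [← hf, Equiv.symm_apply_apply]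
  have h3 : (fun i => t (τ i)) = t' := funext ht
  have h4 : (fun i => y (τ i)) = y' := funext hy
  rw [h2, h3, h4]
  exact h

/-- a permutation from five distinct values -/
lemma sp5D_perm_of (a : Fin 5 → Fin 5) (ha : Function.Injective a) :
    ∃ τ : Equiv.Perm (Fin 5), ∀ i, τ i = a i :=
  ⟨Equiv.ofBijective a (Finite.injective_iff_bijective.1 ha), fun _ => rfl⟩

lemma sp5D_inj {a0 a1 a2 a3 a4 : Fin 5} (h01 : a0 ≠ a1) (h02 : a0 ≠ a2) (h03 : a0 ≠ a3)
    (h04 : a0 ≠ a4) (h12 : a1 ≠ a2) (h13 : a1 ≠ a3) (h14 : a1 ≠ a4) (h23 : a2 ≠ a3)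
    (h24 : a2 ≠ a4) (h34 : a3 ≠ a4) :
    Function.Injective (![a0, a1, a2, a3, a4] : Fin 5 → Fin 5) := by
  intro i j h
  fin_cases i <;> fin_cases j <;> simp_all [eq_comm]

theorem DSC_of_specF (hF : SpecF) : DSC 5 2 2 0 := by
  intro c f t y hu hv hty hcard
  obtain ⟨a, b, hab, hA⟩ := Finset.card_eq_two.1 hcard
  have ha : a ≠ f ∧ t a = 1 := by
    have : a ∈ Finset.univ.filter (fun i => i ≠ f ∧ t i = 1) := by rw [hA]; simp
    simpa using this
  have hb : b ≠ f ∧ t b = 1 := by
    have : b ∈ Finset.univ.filter (fun i => i ≠ f ∧ t i = 1) := by rw [hA]; simp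
    simpa using this
  have hC : (({f, a, b} : Finset (Fin 5))ᶜ).card = 2 := by
    rw [Finset.card_compl, Fintype.card_fin,
      Finset.card_eq_three.2 ⟨f, a, b, ha.1.symm, hb.1.symm, hab, rfl⟩]
  obtain ⟨d, e, hde, hD⟩ := Finset.card_eq_two.1 hC
  have hd : d ∈ ({f, a, b} : Finset (Fin 5))ᶜ := by rw [hD]; simp
  have he : e ∈ ({f, a, b} : Finset (Fin 5))ᶜ := by rw [hD]; simp
  simp only [Finset.mem_compl, Finset.mem_insert, Finset.mem_singleton, not_or] at hd he
  obtain ⟨hdf, hda, hdb⟩ := hd
  obtain ⟨hef, hea, heb⟩ := he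
  have hother : ∀ i, i ≠ f → i ≠ a → i ≠ b → t i = 2 ∧ y i = 1 := by
    intro i h1 h2 h3
    rcases hty i h1 with h4 | h4
    · have : i ∈ Finset.univ.filter (fun i => i ≠ f ∧ t i = 1) := by
        simp [h1, h4.1]
      rw [hA] at this
      simp [h2, h3] at this
    · exact h4
  have hya : y a = 2 := by
    rcases hty a ha.1 with h4 | h4
    · exact h4.2
    · have := ha.2; omega
  have hyb : y b = 2 := by
    rcases hty b hb.1 with h4 | h4
    · exact h4.2
    · have := hb.2; omega
  obtain ⟨τ, hτ⟩ := sp5D_perm_of ![d, e, f, a, b]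
    (sp5D_inj hde hdf hda hdb hef hea heb ha.1.symm hb.1.symm hab)
  have hd' := hother d hdf hda hdb
  have he' := hother e hef hea heb
  refine sp5D_move c f 2 t y ![2, 2, 2, 1, 1] ![1, 1, 0, 2, 2] τ ?_ ?_ ?_ hF
  · rw [hτ]; rfl
  · intro i
    rw [hτ]
    fin_cases i
    · exact hd'.1
    · exact he'.1
    · exact hu
    · exact ha.2
    · exact hb.2
  · intro i
    rw [hτ]
    fin_cases i
    · exact hd'.2
    · exact he'.2
    · exact hv
    · exact hya
    · exact hyb

theorem DSC_of_specD (hD : SpecD) : DSC 5 1 1 1 := by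
  intro c f t y hu hv hty hcard
  obtain ⟨a, hA⟩ := Finset.card_eq_one.1 hcard
  have ha : a ≠ f ∧ t a = 1 := by
    have : a ∈ Finset.univ.filter (fun i => i ≠ f ∧ t i = 1) := by rw [hA]; simp
    simpa using this
  have hC : (({f, a} : Finset (Fin 5))ᶜ).card = 3 := by
    rw [Finset.card_compl, Fintype.card_fin, Finset.card_eq_two.2 ⟨f, a, ha.1.symm, rfl⟩]
  obtain ⟨d, e, g, hde, hdg, heg, hE⟩ := Finset.card_eq_three.1 hC
  have hd : d ∈ ({f, a} : Finset (Fin 5))ᶜ := by rw [hE]; simp
  have he : e ∈ ({f, a} : Finset (Fin 5))ᶜ := by rw [hE]; simp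
  have hg : g ∈ ({f, a} : Finset (Fin 5))ᶜ := by rw [hE]; simp
  simp only [Finset.mem_compl, Finset.mem_insert, Finset.mem_singleton, not_or] at hd he hg
  obtain ⟨hdf, hda⟩ := hd
  obtain ⟨hef, hea⟩ := he
  obtain ⟨hgf, hga⟩ := hg
  have hother : ∀ i, i ≠ f → i ≠ a → t i = 2 ∧ y i = 1 := by
    intro i h1 h2
    rcases hty i h1 with h4 | h4
    · have : i ∈ Finset.univ.filter (fun i => i ≠ f ∧ t i = 1) := by
        simp [h1, h4.1]
      rw [hA] at this
      simp [h2] at this
    · exact h4
  have hya : y a = 2 := by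
    rcases hty a ha.1 with h4 | h4
    · exact h4.2
    · have := ha.2; omega
  obtain ⟨τ, hτ⟩ := sp5D_perm_of ![d, e, g, a, f]
    (sp5D_inj hde hdg hda hdf heg hea hef hga hgf ha.1)
  have hd' := hother d hdf hda
  have he' := hother e hef hea
  have hg' := hother g hgf hga
  refine sp5D_move c f 4 t y ![2, 2, 2, 1, 1] ![1, 1, 1, 2, 1] τ ?_ ?_ ?_ hD
  · rw [hτ]; rfl
  · intro i
    rw [hτ]
    fin_cases i
    · exact hd'.1
    · exact he'.1
    · exact hg'.1
    · exact ha.2
    · exact hu
  · intro i
    rw [hτ]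
    fin_cases i
    · exact hd'.2
    · exact he'.2
    · exact hg'.2
    · exact hya
    · exact hv

end Pool.Agent.Locke
end

section

/-! # Locke's conjecture, part 2: the configurations XS of dimension 5 in general position -/

namespace Pool.Agent.Locke

/-! ### transport by translations and permutations -/

lemma sp5X_trans_flip {n : ℕ} (t x : V n) (i : Fin n) :
    transIso t (flip x i) = flip (transIso t x) i := by
  funext j
  show xor (flip x i j) (t j) = flip (transIso t x) i j
  by_cases h : j = i
  · subst h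
    rw [cube_flip_self, cube_flip_self]
    show xor (!x j) (t j) = !(xor (x j) (t j))
    cases x j <;> cases t j <;> rfl
  · rw [cube_flip_of_ne x h, cube_flip_of_ne _ h]
    rfl

lemma sp5X_perm_flip {n : ℕ} (τ : Equiv.Perm (Fin n)) (x : V n) (i : Fin n) :
    permIso τ (flip x (τ i)) = flip (permIso τ x) i := by
  funext j
  show flip x (τ i) (τ j) = flip (permIso τ x) i j
  by_cases h : j = i
  · subst h
    rw [cube_flip_self, cube_flip_self]
    rfl
  · have h' : τ j ≠ τ i := fun h1 => h (τ.injective h1)
    rw [cube_flip_of_ne x h', cube_flip_of_ne _ h]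
    rfl

lemma sp5X_S_trans {n : ℕ} (t : V n) (q b : Bool) (ω : V n → ℕ) (i : Fin n) :
    S q (fun x => ω (transIso t x)) i b = S (xor q (par t)) ω i (xor b (t i)) := by
  unfold S
  refine Finset.sum_bij (fun x _ => transIso t x) ?_ ?_ ?_ ?_
  · intro x hx
    obtain ⟨hx1, hx2⟩ := (Finset.mem_filter.1 hx).2
    refine Finset.mem_filter.2 ⟨Finset.mem_univ _, ?_, ?_⟩
    · rw [par_trans, hx1]
    · show xor (x i) (t i) = _
      rw [hx2]
  · intro x _ y _ h
    exact (transIso t).injective h
  · intro y hy
    obtain ⟨hy1, hy2⟩ := (Finset.mem_filter.1 hy).2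
    refine ⟨(transIso t).symm y, ?_, by simp⟩
    refine Finset.mem_filter.2 ⟨Finset.mem_univ _, ?_, ?_⟩
    · have h1 := par_trans t ((transIso t).symm y)
      rw [RelIso.apply_symm_apply, hy1] at h1
      revert h1
      cases q <;> cases par t <;> cases par ((transIso t).symm y) <;> simp
    · show xor (y i) (t i) = b
      rw [hy2]
      cases b <;> cases t i <;> rfl
  · intro x _
    rfl

lemma sp5X_S_perm {n : ℕ} (τ : Equiv.Perm (Fin n)) (q b : Bool) (ω : V n → ℕ) (i : Fin n) :
    S q (fun x => ω (permIso τ x)) (τ i) b = S q ω i b := by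
  unfold S
  refine Finset.sum_bij (fun x _ => permIso τ x) ?_ ?_ ?_ ?_
  · intro x hx
    obtain ⟨hx1, hx2⟩ := (Finset.mem_filter.1 hx).2
    refine Finset.mem_filter.2 ⟨Finset.mem_univ _, ?_, ?_⟩
    · rw [par_perm, hx1]
    · exact hx2
  · intro x _ y _ h
    exact (permIso τ).injective h
  · intro y hy
    obtain ⟨hy1, hy2⟩ := (Finset.mem_filter.1 hy).2
    refine ⟨(permIso τ).symm y, ?_, by simp⟩
    refine Finset.mem_filter.2 ⟨Finset.mem_univ _, ?_, ?_⟩
    · have h1 := par_perm τ ((permIso τ).symm y)
      rw [RelIso.apply_symm_apply, hy1] at h1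
      exact h1.symm
    · show y (τ.symm (τ i)) = b
      rw [Equiv.symm_apply_apply]
      exact hy2
  · intro x _
    rfl

/-- moving the centre to the zero vertex -/
lemma sp5X_XS_trans {p : Bool} {c : V 5} {a b : Fin 5} {ω : V 5 → ℕ} (h : XS p c a b ω) :
    XS true z5 a b (fun x => ω (transIso c x)) := by
  have h0 : transIso c z5 = c := by
    funext j
    show xor false (c j) = c j
    simp
  have hpc : par c = !p := h.star.1
  refine ⟨fun x => h.le _, ⟨by decide, ?_⟩, h.ne, ?_, ?_, ?_, ?_, ?_, ?_, ?_⟩
  · intro x hx hx0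
    have h1 : par (transIso c x) = p := by
      rw [par_trans, hx, hpc]
      simp
    obtain ⟨j, hj⟩ := h.star.2 _ h1 hx0
    refine ⟨j, (transIso c).injective ?_⟩
    rw [sp5X_trans_flip, h0]
    exact hj
  · show ω (transIso c (flip z5 a)) = 1
    rw [sp5X_trans_flip, h0]
    exact h.fa
  · show ω (transIso c (flip z5 b)) = 1
    rw [sp5X_trans_flip, h0]
    exact h.fb
  · intro i ha hb
    show ω (transIso c (flip z5 i)) = 2
    rw [sp5X_trans_flip, h0]
    exact h.fo i ha hb
  · have h1 := W_comp_trans c false ω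
    rw [hpc, Bool.false_xor, h.Wl] at h1
    exact h1
  · show ω (transIso c z5) = 1
    rw [h0]
    exact h.centre
  · show ω (transIso c (flip (flip z5 a) b)) = 2
    rw [sp5X_trans_flip, sp5X_trans_flip, h0]
    exact h.ab
  · intro i ha hb
    have h1 := sp5X_S_trans c false (!z5 i) ω i
    rw [hpc, Bool.false_xor] at h1
    have h2 : xor (!z5 i) (c i) = !c i := by
      show xor true (c i) = !c i
      simp
    rw [h2, h.light i ha hb] at h1
    exact h1

/-- moving the two special directions to `3` and `4` -/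
lemma sp5X_XS_perm {a b : Fin 5} {ω : V 5 → ℕ} (h : XS true z5 a b ω) (τ : Equiv.Perm (Fin 5)) :
    XS true z5 (τ a) (τ b) (fun x => ω (permIso τ x)) := by
  have h0 : permIso τ z5 = z5 := by
    funext j
    rfl
  refine ⟨fun x => h.le _, ⟨by decide, ?_⟩, ?_, ?_, ?_, ?_, ?_, ?_, ?_, ?_⟩
  · intro x hx hx0
    have h1 : par (permIso τ x) = true := by
      rw [par_perm, hx]
    obtain ⟨j, hj⟩ := h.star.2 _ h1 hx0
    refine ⟨τ j, (permIso τ).injective ?_⟩
    rw [sp5X_perm_flip, h0]
    exact hj
  · exact fun h1 => h.ne (τ.injective h1)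
  · show ω (permIso τ (flip z5 (τ a))) = 1
    rw [sp5X_perm_flip, h0]
    exact h.fa
  · show ω (permIso τ (flip z5 (τ b))) = 1
    rw [sp5X_perm_flip, h0]
    exact h.fb
  · intro i ha hb
    obtain ⟨i, rfl⟩ := τ.surjective i
    show ω (permIso τ (flip z5 (τ i))) = 2
    rw [sp5X_perm_flip, h0]
    exact h.fo i (fun h1 => ha (by rw [h1])) (fun h1 => hb (by rw [h1]))
  · exact (W_comp_perm τ false ω).trans h.Wl
  · show ω (permIso τ z5) = 1
    rw [h0]
    exact h.centre
  · show ω (permIso τ (flip (flip z5 (τ a)) (τ b))) = 2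
    rw [sp5X_perm_flip, sp5X_perm_flip, h0]
    exact h.ab
  · intro i ha hb
    obtain ⟨i, rfl⟩ := τ.surjective i
    have h1 := sp5X_S_perm τ false (!z5 i) ω i
    have h2 := h.light i (fun h1 => ha (by rw [h1])) (fun h1 => hb (by rw [h1]))
    exact h1.trans h2

lemma sp5X_exists_perm {a b : Fin 5} (hab : a ≠ b) :
    ∃ τ : Equiv.Perm (Fin 5), τ a = 3 ∧ τ b = 4 := by
  have h1 : Equiv.swap a 3 b ≠ 3 := by
    intro h
    apply hab
    have h2 : Equiv.swap a 3 a = 3 := Equiv.swap_apply_left a 3
    exact (Equiv.swap a 3).injective (h2.trans h.symm)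
  refine ⟨(Equiv.swap a 3).trans (Equiv.swap (Equiv.swap a 3 b) 4), ?_, ?_⟩
  · rw [Equiv.trans_apply, Equiv.swap_apply_left]
    exact Equiv.swap_apply_of_ne_of_ne h1.symm (by decide)
  · rw [Equiv.trans_apply, Equiv.swap_apply_left]

/-! ### the standard position -/

/-- the vertex with given bits -/
def sp5X_v (b0 b1 b2 b3 b4 : Bool) : V 5 := ![b0, b1, b2, b3, b4]

lemma sp5X_eta (x : V 5) : x = sp5X_v (x 0) (x 1) (x 2) (x 3) (x 4) := by
  funext j
  fin_cases j <;> rfl

lemma sp5X_sum (f : V 5 → ℕ) : ∑ x, f x =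
    ∑ b0 : Bool, ∑ b1 : Bool, ∑ b2 : Bool, ∑ b3 : Bool, ∑ b4 : Bool,
      f (sp5X_v b0 b1 b2 b3 b4) := by
  have h : ∑ x, f x = ∑ q : Bool × Bool × Bool × Bool × Bool,
      f (sp5X_v q.1 q.2.1 q.2.2.1 q.2.2.2.1 q.2.2.2.2) := by
    refine (Fintype.sum_bijective (fun q : Bool × Bool × Bool × Bool × Bool =>
      sp5X_v q.1 q.2.1 q.2.2.1 q.2.2.2.1 q.2.2.2.2) ?_ _ _ (fun _ => rfl)).symm
    constructor
    · rintro ⟨b0, b1, b2, b3, b4⟩ ⟨c0, c1, c2, c3, c4⟩ h
      have h0 : b0 = c0 := congrFun h 0
      have h1 : b1 = c1 := congrFun h 1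
      have h2 : b2 = c2 := congrFun h 2
      have h3 : b3 = c3 := congrFun h 3
      have h4 : b4 = c4 := congrFun h 4
      rw [h0, h1, h2, h3, h4]
    · intro x
      exact ⟨(x 0, x 1, x 2, x 3, x 4), (sp5X_eta x).symm⟩
  rw [h]
  simp only [Fintype.sum_prod_type]

lemma sp5X_par : ∀ b0 b1 b2 b3 b4 : Bool, par (sp5X_v b0 b1 b2 b3 b4) =
    xor b0 (xor b1 (xor b2 (xor b3 b4))) := by
  decide

lemma sp5X_not_flip : ∀ b0 b1 b2 b3 b4 : Bool,
    (∃ j, sp5X_v b0 b1 b2 b3 b4 = flip z5 j) →
    (if b0 then 1 else 0) + (if b1 then 1 else 0) + (if b2 then 1 else 0) +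
      (if b3 then 1 else 0) + (if b4 then 1 else 0) = 1 := by
  decide

lemma sp5X_S (q b : Bool) (ω : V 5 → ℕ) (i : Fin 5) : S q ω i b =
    ∑ b0 : Bool, ∑ b1 : Bool, ∑ b2 : Bool, ∑ b3 : Bool, ∑ b4 : Bool,
      (if xor b0 (xor b1 (xor b2 (xor b3 b4))) = q ∧ sp5X_v b0 b1 b2 b3 b4 i = b
        then ω (sp5X_v b0 b1 b2 b3 b4) else 0) := by
  unfold S
  rw [Finset.sum_filter, sp5X_sum]
  simp only [sp5X_par]

lemma sp5X_v0 (b0 b1 b2 b3 b4 : Bool) : sp5X_v b0 b1 b2 b3 b4 0 = b0 := rfl

lemma sp5X_v1 (b0 b1 b2 b3 b4 : Bool) : sp5X_v b0 b1 b2 b3 b4 1 = b1 := rfl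

lemma sp5X_v2 (b0 b1 b2 b3 b4 : Bool) : sp5X_v b0 b1 b2 b3 b4 2 = b2 := rfl

lemma sp5X_W (q : Bool) (ω : V 5 → ℕ) : W q ω =
    ∑ b0 : Bool, ∑ b1 : Bool, ∑ b2 : Bool, ∑ b3 : Bool, ∑ b4 : Bool,
      (if xor b0 (xor b1 (xor b2 (xor b3 b4))) = q then ω (sp5X_v b0 b1 b2 b3 b4) else 0) := by
  unfold W
  rw [Finset.sum_filter, sp5X_sum]
  simp only [sp5X_par]

/-- the weight of `SpecX` -/
def sp5X_R (s0 s1 s2 : Bool) : V 5 → ℕ := fun x =>
  starW z5 ![2, 2, 2, 1, 1] x + (if x = z5 then 1 else 0) +
    (if x = flip (flip z5 3) 4 then 2 else 0) +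
    (if x = flip (flip z5 0) (if s0 then 4 else 3) then 1 else 0) +
    (if x = flip (flip z5 1) (if s1 then 4 else 3) then 1 else 0) +
    (if x = flip (flip z5 2) (if s2 then 4 else 3) then 1 else 0)

lemma sp5X_std {ω : V 5 → ℕ} (h : XS true z5 3 4 ω) :
    ∃ s0 s1 s2 : Bool, ω = sp5X_R s0 s1 s2 := by
  have hW : W false ω = 6 := h.Wl
  have hS0 : S false ω 0 true = 1 := h.light 0 (by decide) (by decide)
  have hS1 : S false ω 1 true = 1 := h.light 1 (by decide) (by decide)
  have hS2 : S false ω 2 true = 1 := h.light 2 (by decide) (by decide)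
  rw [sp5X_W] at hW
  rw [sp5X_S] at hS0 hS1 hS2
  simp only [Fintype.sum_bool, Bool.xor_true, Bool.xor_false, Bool.not_true, Bool.not_false,
    if_true, if_false, Bool.true_eq_false, Bool.false_eq_true,
    sp5X_v0, sp5X_v1, sp5X_v2, and_true, and_false, add_zero, zero_add]
    at hW hS0 hS1 hS2
  have hc : ω (sp5X_v false false false false false) = 1 := by
    have h1 : sp5X_v false false false false false = z5 := by decide
    rw [h1]
    exact h.centre
  have hab : ω (sp5X_v false false false true true) = 2 := by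
    have h1 : sp5X_v false false false true true = flip (flip z5 3) 4 := by decide
    rw [h1]
    exact h.ab
  have k00001 : ω (sp5X_v false false false false true) = 1 := by
    have h1 : sp5X_v false false false false true = flip z5 4 := by decide
    rw [h1]
    exact h.fb
  have k00010 : ω (sp5X_v false false false true false) = 1 := by
    have h1 : sp5X_v false false false true false = flip z5 3 := by decide
    rw [h1]
    exact h.fa
  have k00100 : ω (sp5X_v false false true false false) = 2 := by
    have h1 : sp5X_v false false true false false = flip z5 2 := by decide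
    rw [h1]
    exact h.fo 2 (by decide) (by decide)
  have k00111 : ω (sp5X_v false false true true true) = 0 := by
    by_contra h3
    exact absurd (sp5X_not_flip _ _ _ _ _ (h.star.2 _ (sp5X_par _ _ _ _ _) h3)) (by decide)
  have k01000 : ω (sp5X_v false true false false false) = 2 := by
    have h1 : sp5X_v false true false false false = flip z5 1 := by decide
    rw [h1]
    exact h.fo 1 (by decide) (by decide)
  have k01011 : ω (sp5X_v false true false true true) = 0 := by
    by_contra h3
    exact absurd (sp5X_not_flip _ _ _ _ _ (h.star.2 _ (sp5X_par _ _ _ _ _) h3)) (by decide)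
  have k01100 : ω (sp5X_v false true true false false) = 0 := by omega
  have k01101 : ω (sp5X_v false true true false true) = 0 := by
    by_contra h3
    exact absurd (sp5X_not_flip _ _ _ _ _ (h.star.2 _ (sp5X_par _ _ _ _ _) h3)) (by decide)
  have k01110 : ω (sp5X_v false true true true false) = 0 := by
    by_contra h3
    exact absurd (sp5X_not_flip _ _ _ _ _ (h.star.2 _ (sp5X_par _ _ _ _ _) h3)) (by decide)
  have k01111 : ω (sp5X_v false true true true true) = 0 := by omega
  have k10000 : ω (sp5X_v true false false false false) = 2 := by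
    have h1 : sp5X_v true false false false false = flip z5 0 := by decide
    rw [h1]
    exact h.fo 0 (by decide) (by decide)
  have k10011 : ω (sp5X_v true false false true true) = 0 := by
    by_contra h3
    exact absurd (sp5X_not_flip _ _ _ _ _ (h.star.2 _ (sp5X_par _ _ _ _ _) h3)) (by decide)
  have k10100 : ω (sp5X_v true false true false false) = 0 := by omega
  have k10101 : ω (sp5X_v true false true false true) = 0 := by
    by_contra h3
    exact absurd (sp5X_not_flip _ _ _ _ _ (h.star.2 _ (sp5X_par _ _ _ _ _) h3)) (by decide)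
  have k10110 : ω (sp5X_v true false true true false) = 0 := by
    by_contra h3
    exact absurd (sp5X_not_flip _ _ _ _ _ (h.star.2 _ (sp5X_par _ _ _ _ _) h3)) (by decide)
  have k10111 : ω (sp5X_v true false true true true) = 0 := by omega
  have k11000 : ω (sp5X_v true true false false false) = 0 := by omega
  have k11001 : ω (sp5X_v true true false false true) = 0 := by
    by_contra h3
    exact absurd (sp5X_not_flip _ _ _ _ _ (h.star.2 _ (sp5X_par _ _ _ _ _) h3)) (by decide)
  have k11010 : ω (sp5X_v true true false true false) = 0 := by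
    by_contra h3
    exact absurd (sp5X_not_flip _ _ _ _ _ (h.star.2 _ (sp5X_par _ _ _ _ _) h3)) (by decide)
  have k11011 : ω (sp5X_v true true false true true) = 0 := by omega
  have k11100 : ω (sp5X_v true true true false false) = 0 := by
    by_contra h3
    exact absurd (sp5X_not_flip _ _ _ _ _ (h.star.2 _ (sp5X_par _ _ _ _ _) h3)) (by decide)
  have k11101 : ω (sp5X_v true true true false true) = 0 := by omega
  have k11110 : ω (sp5X_v true true true true false) = 0 := by omega
  have k11111 : ω (sp5X_v true true true true true) = 0 := by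
    by_contra h3
    exact absurd (sp5X_not_flip _ _ _ _ _ (h.star.2 _ (sp5X_par _ _ _ _ _) h3)) (by decide)
  obtain ⟨s0, k10010, k10001⟩ : ∃ s : Bool, ω (sp5X_v true false false true false) = (if s then 0 else 1) ∧
      ω (sp5X_v true false false false true) = (if s then 1 else 0) := by
    by_cases h1 : ω (sp5X_v true false false false true) = 0
    · exact ⟨false, by simp only [Bool.false_eq_true, if_false]; omega,
        by simp only [Bool.false_eq_true, if_false]; omega⟩
    · exact ⟨true, by simp only [if_true]; omega, by simp only [if_true]; omega⟩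
  obtain ⟨s1, k01010, k01001⟩ : ∃ s : Bool, ω (sp5X_v false true false true false) = (if s then 0 else 1) ∧
      ω (sp5X_v false true false false true) = (if s then 1 else 0) := by
    by_cases h1 : ω (sp5X_v false true false false true) = 0
    · exact ⟨false, by simp only [Bool.false_eq_true, if_false]; omega,
        by simp only [Bool.false_eq_true, if_false]; omega⟩
    · exact ⟨true, by simp only [if_true]; omega, by simp only [if_true]; omega⟩
  obtain ⟨s2, k00110, k00101⟩ : ∃ s : Bool, ω (sp5X_v false false true true false) = (if s then 0 else 1) ∧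
      ω (sp5X_v false false true false true) = (if s then 1 else 0) := by
    by_cases h1 : ω (sp5X_v false false true false true) = 0
    · exact ⟨false, by simp only [Bool.false_eq_true, if_false]; omega,
        by simp only [Bool.false_eq_true, if_false]; omega⟩
    · exact ⟨true, by simp only [if_true]; omega, by simp only [if_true]; omega⟩
  refine ⟨s0, s1, s2, ?_⟩
  funext x
  rw [sp5X_eta x]
  generalize x 0 = b0
  generalize x 1 = b1
  generalize x 2 = b2
  generalize x 3 = b3
  generalize x 4 = b4
  cases b0 <;> cases b1 <;> cases b2 <;> cases b3 <;> cases b4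
  · rw [hc]; clear * -; revert s0 s1 s2; decide
  · rw [k00001]; clear * -; revert s0 s1 s2; decide
  · rw [k00010]; clear * -; revert s0 s1 s2; decide
  · rw [hab]; clear * -; revert s0 s1 s2; decide
  · rw [k00100]; clear * -; revert s0 s1 s2; decide
  · rw [k00101]; clear * -; revert s0 s1 s2; decide
  · rw [k00110]; clear * -; revert s0 s1 s2; decide
  · rw [k00111]; clear * -; revert s0 s1 s2; decide
  · rw [k01000]; clear * -; revert s0 s1 s2; decide
  · rw [k01001]; clear * -; revert s0 s1 s2; decide
  · rw [k01010]; clear * -; revert s0 s1 s2; decide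
  · rw [k01011]; clear * -; revert s0 s1 s2; decide
  · rw [k01100]; clear * -; revert s0 s1 s2; decide
  · rw [k01101]; clear * -; revert s0 s1 s2; decide
  · rw [k01110]; clear * -; revert s0 s1 s2; decide
  · rw [k01111]; clear * -; revert s0 s1 s2; decide
  · rw [k10000]; clear * -; revert s0 s1 s2; decide
  · rw [k10001]; clear * -; revert s0 s1 s2; decide
  · rw [k10010]; clear * -; revert s0 s1 s2; decide
  · rw [k10011]; clear * -; revert s0 s1 s2; decide
  · rw [k10100]; clear * -; revert s0 s1 s2; decide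
  · rw [k10101]; clear * -; revert s0 s1 s2; decide
  · rw [k10110]; clear * -; revert s0 s1 s2; decide
  · rw [k10111]; clear * -; revert s0 s1 s2; decide
  · rw [k11000]; clear * -; revert s0 s1 s2; decide
  · rw [k11001]; clear * -; revert s0 s1 s2; decide
  · rw [k11010]; clear * -; revert s0 s1 s2; decide
  · rw [k11011]; clear * -; revert s0 s1 s2; decide
  · rw [k11100]; clear * -; revert s0 s1 s2; decide
  · rw [k11101]; clear * -; revert s0 s1 s2; decide
  · rw [k11110]; clear * -; revert s0 s1 s2; decide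
  · rw [k11111]; clear * -; revert s0 s1 s2; decide

theorem XS5_of_spec (hX : SpecX) (p : Bool) (c : V 5) (a b : Fin 5) (ω : V 5 → ℕ)
    (h : XS p c a b ω) : Comp p ω := by
  obtain ⟨τ, ha, hb⟩ := sp5X_exists_perm h.ne
  have h1 := sp5X_XS_perm (sp5X_XS_trans h) τ
  rw [ha, hb] at h1
  obtain ⟨s0, s1, s2, h2⟩ := sp5X_std h1
  have h3 : Comp true (sp5X_R s0 s1 s2) := hX s0 s1 s2
  rw [← h2] at h3
  have h4 := (comp_perm τ true (fun x => ω (transIso c x))).1 h3
  have h5 := (comp_trans c true ω).1 h4
  have hpc : par c = !p := h.star.1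
  rw [hpc] at h5
  cases p
  · exact h5
  · exact h5

end Pool.Agent.Locke
end

section

end
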