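import Pool.Agent.Lib.MP_8a5648_co.Mg.G003
import Pool.Agent.Lib.MP_8a5648_co.Mg.G006
import Pool.Agent.Lib.MP_8a5648_co.Mg.G002
import Pool.Agent.Lib.MP_8a5648_co.Mg.G004

section

/-! # Locke's conjecture, part 2: the statement B1 in dimensions 7 to 10 -/

namespace Pool.Agent.Locke

variable {m : ℕ}

/-- number of directions with the property `P` -/
private def midB1_cnt {n : ℕ} (P : Fin n → Prop) [DecidablePred P] : ℕ :=
  ∑ i, if P i then 1 else 0

private lemma midB1_cnt_eq {n : ℕ} (P : Fin n → Prop) [DecidablePred P] :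
    midB1_cnt P = (Finset.univ.filter P).card := by
  unfold midB1_cnt
  rw [Finset.card_filter]

private lemma midB1_cnt_pos {n : ℕ} (P : Fin n → Prop) [DecidablePred P] (h : ∃ i, P i) :
    1 ≤ midB1_cnt P := by
  rw [midB1_cnt_eq]
  obtain ⟨i, hi⟩ := h
  exact Finset.card_pos.mpr ⟨i, by simp [hi]⟩

private lemma midB1_cnt_zero {n : ℕ} (P : Fin n → Prop) [DecidablePred P]
    (h : midB1_cnt P = 0) (i : Fin n) : ¬ P i := by
  intro hi
  have := midB1_cnt_pos P ⟨i, hi⟩
  omega

private lemma midB1_total {n : ℕ} (q : Fin n → ℕ) (hq : ∀ i, q i ≤ 3) :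
    midB1_cnt (fun i => q i = 0) + midB1_cnt (fun i => q i = 1) +
    midB1_cnt (fun i => q i = 2) + midB1_cnt (fun i => q i = 3) = n := by
  have h : ∀ i, ((if q i = 0 then 1 else 0) + (if q i = 1 then 1 else 0) +
      (if q i = 2 then 1 else 0) + (if q i = 3 then 1 else 0) : ℕ) = 1 := by
    intro i
    have := hq i
    have h4 : q i = 0 ∨ q i = 1 ∨ q i = 2 ∨ q i = 3 := by omega
    rcases h4 with h | h | h | h <;> simp [h]
  unfold midB1_cnt
  rw [← Finset.sum_add_distrib, ← Finset.sum_add_distrib, ← Finset.sum_add_distrib]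
  rw [Finset.sum_congr rfl (fun i _ => h i)]
  simp

private lemma midB1_sum_q {n : ℕ} (q : Fin n → ℕ) (hq : ∀ i, q i ≤ 3) (g : ℕ → ℕ) :
    ∑ i, g (q i) = g 0 * midB1_cnt (fun i => q i = 0) + g 1 * midB1_cnt (fun i => q i = 1) +
    g 2 * midB1_cnt (fun i => q i = 2) + g 3 * midB1_cnt (fun i => q i = 3) := by
  unfold midB1_cnt
  rw [Finset.mul_sum, Finset.mul_sum, Finset.mul_sum, Finset.mul_sum,
    ← Finset.sum_add_distrib, ← Finset.sum_add_distrib, ← Finset.sum_add_distrib]
  apply Finset.sum_congr rfl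
  intro i _
  have := hq i
  have h4 : q i = 0 ∨ q i = 1 ∨ q i = 2 ∨ q i = 3 := by omega
  rcases h4 with h | h | h | h <;> simp [h]

private lemma midB1_split {n : ℕ} (P R : Fin n → Prop) [DecidablePred P] [DecidablePred R] :
    midB1_cnt P = midB1_cnt (fun i => P i ∧ R i) + midB1_cnt (fun i => P i ∧ ¬ R i) := by
  unfold midB1_cnt
  rw [← Finset.sum_add_distrib]
  apply Finset.sum_congr rfl
  intro i _
  by_cases h1 : P i <;> by_cases h2 : R i <;> simp [h1, h2]

private lemma midB1_bound {n : ℕ} (P R T : Fin n → Prop) [DecidablePred P] [DecidablePred R]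
    [DecidablePred T] (A B C : ℕ) (g : Fin n → ℕ)
    (h : ∀ i, g i ≤ A * (if P i then 1 else 0) + B * (if R i then 1 else 0) +
      C * (if T i then 1 else 0)) :
    ∑ i, g i ≤ A * midB1_cnt P + B * midB1_cnt R + C * midB1_cnt T := by
  unfold midB1_cnt
  rw [Finset.mul_sum, Finset.mul_sum, Finset.mul_sum,
    ← Finset.sum_add_distrib, ← Finset.sum_add_distrib]
  exact Finset.sum_le_sum (fun i _ => h i)

/-- equality case of `midB1_bound` -/
private lemma midB1_bound_eq {n : ℕ} (P R T : Fin n → Prop) [DecidablePred P] [DecidablePred R]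
    [DecidablePred T] (A B C : ℕ) (g : Fin n → ℕ)
    (h : ∀ i, g i ≤ A * (if P i then 1 else 0) + B * (if R i then 1 else 0) +
      C * (if T i then 1 else 0))
    (he : A * midB1_cnt P + B * midB1_cnt R + C * midB1_cnt T ≤ ∑ i, g i) (i : Fin n) :
    g i = A * (if P i then 1 else 0) + B * (if R i then 1 else 0) +
      C * (if T i then 1 else 0) := by
  have h2 : ∑ i, (A * (if P i then 1 else 0) + B * (if R i then 1 else 0) +
      C * (if T i then 1 else 0)) ≤ ∑ i, g i := by
    unfold midB1_cnt at he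
    rw [Finset.mul_sum, Finset.mul_sum, Finset.mul_sum,
      ← Finset.sum_add_distrib, ← Finset.sum_add_distrib] at he
    exact he
  have h3 := Finset.sum_le_sum (s := Finset.univ) (fun i _ => h i)
  have h4 := (Finset.sum_eq_sum_iff_of_le (s := Finset.univ) (fun i _ => h i)).mp
    (le_antisymm h3 h2)
  exact h4 i (Finset.mem_univ i)

/-- `T = {q ≤ 1}` -/
private lemma midB1_T {n : ℕ} (q : Fin n → ℕ) :
    (Finset.univ.filter (fun i => q i ≤ 1)).card =
      midB1_cnt (fun i => q i = 0) + midB1_cnt (fun i => q i = 1) := by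
  rw [← midB1_cnt_eq]
  unfold midB1_cnt
  rw [← Finset.sum_add_distrib]
  apply Finset.sum_congr rfl
  intro i _
  by_cases h0 : q i = 0
  · simp [h0]
  · by_cases h1 : q i = 1
    · simp [h1]
    · have : ¬ q i ≤ 1 := by omega
      simp [h0, h1, this]

private lemma midB1_Tc {n : ℕ} (T : Finset (Fin n)) (g : Fin n → ℕ) :
    ∑ i ∈ Tᶜ, g i = ∑ i, if i ∈ T then 0 else g i := by
  rw [← Finset.sum_filter_add_sum_filter_not Finset.univ (fun i => i ∈ T)
    (fun i => if i ∈ T then 0 else g i)]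
  have h1 : ∑ i ∈ Finset.univ.filter (fun i => i ∈ T), (if i ∈ T then 0 else g i) = 0 := by
    apply Finset.sum_eq_zero
    intro i hi
    rw [Finset.mem_filter] at hi
    simp [hi.2]
  rw [h1, zero_add]
  have h2 : Finset.univ.filter (fun i => ¬ i ∈ T) = Tᶜ := by
    ext i
    simp
  rw [h2]
  apply Finset.sum_congr rfl
  intro i hi
  rw [Finset.mem_compl] at hi
  simp [hi]

private lemma midB1_sum_phi {n : ℕ} (q : Fin n → ℕ) (hq : ∀ i, q i ≤ 3) :
    ∑ i, (q i + 2 * min (q i) 2) = 3 * midB1_cnt (fun i => q i = 1) +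
    6 * midB1_cnt (fun i => q i = 2) + 7 * midB1_cnt (fun i => q i = 3) := by
  have e := midB1_sum_q q hq (fun x => x + 2 * min x 2)
  have e0 : (0 + 2 * min 0 2 : ℕ) = 0 := rfl
  have e1 : (1 + 2 * min 1 2 : ℕ) = 3 := rfl
  have e2 : (2 + 2 * min 2 2 : ℕ) = 6 := rfl
  have e3 : (3 + 2 * min 3 2 : ℕ) = 7 := rfl
  simp only [e0, e1, e2, e3, Nat.zero_mul, Nat.zero_add] at e
  exact e

private lemma midB1_sum_id {n : ℕ} (q : Fin n → ℕ) (hq : ∀ i, q i ≤ 3) :
    ∑ i, q i = midB1_cnt (fun i => q i = 1) +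
    2 * midB1_cnt (fun i => q i = 2) + 3 * midB1_cnt (fun i => q i = 3) := by
  have e := midB1_sum_q q hq (fun x => x)
  simp only [Nat.zero_mul, Nat.zero_add, Nat.one_mul] at e
  exact e

/-- the cases `o ≤ 2m - 4` -/
private lemma midB1_ab (hm : 6 ≤ m) {p : Bool} {ω : V (m + 1) → ℕ} (hω : ∀ x, ω x ≤ 2)
    (he : W p ω + 1 = 2 * m) (ho : W (!p) ω + 4 ≤ 2 * m) (c : V (m + 1))
    (hst : ∀ i, S p ω i (!c i) = 0 ∨
      (S p ω i (!c i) = 1 ∧
        (2 * m < S (!p) ω i (c i) + 4 + 3 ∨ (W (!p) ω + 3 = 2 * m ∧ S (!p) ω i (c i) = 0))) ∨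
      (S p ω i (!c i) = 2 ∧
        (2 * m < S (!p) ω i (c i) + 4 + 1 ∨ (W (!p) ω + 3 = 2 * m ∧ S (!p) ω i (c i) = 0))) ∨
      (3 ≤ S p ω i (!c i) ∧ S p ω i (!c i) < 3 + 1 ∧ W (!p) ω + 3 = 2 * m ∧
        S (!p) ω i (!c i) = 0)) : False := by
  have hs' : ∀ i, S (!p) ω i (c i) + S (!p) ω i (!c i) = W (!p) ω := fun i => S_add _ _ _ _
  have hNp : par c = !p → 3 * W p ω ≤ ∑ i, (S p ω i (!c i) + 2 * min (S p ω i (!c i)) 2) :=
    fun h => N1' h ω hω
  have hNn : par c = p → 2 * W p ω ≤ ∑ i, S p ω i (!c i) + 2 * ω c :=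
    fun h => N2 h ω
  have hWn : par c = !p → 2 * W (!p) ω ≤ ∑ i, S (!p) ω i (!c i) + 2 * ω c :=
    fun h => N2 h ω
  have hN3 : ∀ T : Finset (Fin (m + 1)), T.Nonempty →
      W (!p) ω ≤ 2 ^ T.card + ∑ i ∈ Tᶜ, S (!p) ω i (!c i) := fun T hT => N3 (!p) c ω hω T hT
  have hcc := hω c
  obtain ⟨q, hq⟩ : ∃ q : Fin (m + 1) → ℕ, ∀ i, S p ω i (!c i) = q i := ⟨_, fun _ => rfl⟩
  obtain ⟨s, hs⟩ : ∃ s : Fin (m + 1) → ℕ, ∀ i, S (!p) ω i (!c i) = s i := ⟨_, fun _ => rfl⟩
  simp only [hq, hs] at hst hs' hNp hNn hWn hN3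
  have hq3 : ∀ i, q i ≤ 3 := by
    intro i
    have := hst i
    omega
  have htot := midB1_total q hq3
  have hphi := midB1_sum_phi q hq3
  have hid := midB1_sum_id q hq3
  have h3 : midB1_cnt (fun i => q i = 3) = 0 := by
    unfold midB1_cnt
    apply Finset.sum_eq_zero
    intro i _
    have : ¬ q i = 3 := by
      have := hst i
      omega
    simp [this]
  -- N2 is impossible
  have hpar : par c = !p := by
    by_contra hpc
    have hpc' : par c = p := by
      revert hpc
      cases par c <;> cases p <;> simp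
    have := hNn hpc'
    omega
  have h1 := hNp hpar
  have h2 := hWn hpar
  have hn1 : 3 * midB1_cnt (fun i => q i = 1) + 6 * midB1_cnt (fun i => q i = 0) ≤ 9 := by
    omega
  -- bound for the sum of the `s`
  have hsb : ∑ i, s i ≤ 0 * midB1_cnt (fun i => q i = 1) +
      2 * midB1_cnt (fun i => q i = 1) + (2 * m) * midB1_cnt (fun i => q i = 0) := by
    apply midB1_bound
    intro i
    have h5 := hst i
    have h6 := hs' i
    by_cases e0 : q i = 0
    · rw [if_pos e0]
      omega
    · by_cases e1 : q i = 1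
      · rw [if_pos e1]
        omega
      · omega
  have hTc := midB1_T q
  have ho4 : W (!p) ω + 4 = 2 * m := by
    by_cases h20 : ∀ i, q i ≤ 1
    · have : midB1_cnt (fun i => q i = 2) = 0 := by
        unfold midB1_cnt
        apply Finset.sum_eq_zero
        intro i _
        have : ¬ q i = 2 := by
          have := h20 i
          omega
        simp [this]
      omega
    · push Not at h20
      obtain ⟨j, hj⟩ := h20
      have h5 := hst j
      have h6 := hs' j
      omega
  rcases Finset.eq_empty_or_nonempty (Finset.univ.filter (fun i => q i ≤ 1)) with hT | hT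
  · rw [hT, Finset.card_empty] at hTc
    have e0 : midB1_cnt (fun i => q i = 0) = 0 := by omega
    have e1 : midB1_cnt (fun i => q i = 1) = 0 := by omega
    rw [e0, e1] at hsb
    omega
  · have h7 := hN3 _ hT
    have h8 : ∑ i ∈ (Finset.univ.filter (fun i => q i ≤ 1))ᶜ, s i = 0 := by
      apply Finset.sum_eq_zero
      intro i hi
      rw [Finset.mem_compl, Finset.mem_filter] at hi
      have h9 : ¬ q i ≤ 1 := fun h => hi ⟨Finset.mem_univ i, h⟩
      have h5 := hst i
      have h6 := hs' i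
      omega
    rw [h8] at h7
    have hpos : 1 ≤ (Finset.univ.filter (fun i => q i ≤ 1)).card := Finset.card_pos.mpr hT
    have ht : (Finset.univ.filter (fun i => q i ≤ 1)).card ≤ 3 := by omega
    generalize (Finset.univ.filter (fun i => q i ≤ 1)).card = t at *
    interval_cases t
    · omega
    · omega
    · have e0 : midB1_cnt (fun i => q i = 0) = 0 := by omega
      have e1 : midB1_cnt (fun i => q i = 1) = 3 := by omega
      rw [e0, e1] at hsb
      omega

private lemma midB1_num {m N0 N1 N2 N3 U1 K1 U2 K2 K0 sy sf : ℕ} {P : Prop}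
    (hm : 6 ≤ m) (hm' : m ≤ 9)
    (htot : N0 + N1 + N2 + N3 = m + 1) (h1 : N1 = U1 + K1) (h2 : N2 = U2 + K2) (h0 : K0 ≤ N0)
    (hstar : 6 * m ≤ 3 * N1 + 6 * N2 + 7 * N3 + 3) (hpar : (N1 + 2 * N2 + 3 * N3) % 2 = 1)
    (ht : 1 ≤ N0 + N1) (h3 : 2 * m ≤ 2 ^ (N0 + N1) + U2 + 3)
    (hw : (P ∧ 4 * m ≤ sy + 10) ∨ (¬ P ∧ 6 * m ≤ sf + 9 ∧ 1 ≤ K0 + K1 + K2))
    (hsy : sy ≤ (m - 2) * N0 + 3 * U1 + 1 * U2) (hsf : sf ≤ (m + 2) * N0 + 7 * U1 + 3 * U2) :
    (m = 6 ∧ N0 = 1 ∧ N1 = 1 ∧ N2 = 5 ∧ N3 = 0 ∧ U2 = 5) ∨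
    (¬ P ∧ m = 7 ∧ N0 = 0 ∧ N1 = 3 ∧ N2 = 5 ∧ N3 = 0 ∧ K1 = 0 ∧ K2 = 1 ∧ 33 ≤ sf) ∨
    (¬ P ∧ m = 6 ∧ N0 = 0 ∧ N1 = 3 ∧ N2 = 4 ∧ N3 = 0 ∧ K1 = 0 ∧ 1 ≤ K2 ∧ 27 ≤ sf) := by
  have ht4 : N0 + N1 ≤ 4 := by omega
  rcases hw with ⟨hP, hw⟩ | ⟨hP, hw, hK⟩
  · left
    interval_cases m
    all_goals
      generalize htt : N0 + N1 = t at *
      interval_cases t
      all_goals
        first
        | omega
        | (have hN0 : N0 ≤ 4 := by omega
           have hN3 : N3 ≤ 10 := by omega
           interval_cases N0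
           all_goals
             first
             | omega
             | (interval_cases N3
                all_goals omega))
  · simp only [hP, not_false_eq_true, true_and]
    interval_cases m
    all_goals
      generalize htt : N0 + N1 = t at *
      interval_cases t
      all_goals
        first
        | omega
        | (have hN0 : N0 ≤ 4 := by omega
           have hN3 : N3 ≤ 10 := by omega
           interval_cases N0
           all_goals
             first
             | omega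
             | (interval_cases N3
                all_goals omega))

/-- the type of a direction when `o = 2m - 3` -/
private lemma midB1_ty (hm : 6 ≤ m) {p : Bool} {ω : V (m + 1) → ℕ}
    (ho : W (!p) ω + 3 = 2 * m) (c d : V (m + 1))
    (hd : ∀ i, S (!p) ω i (!d i) ≤ S (!p) ω i (d i))
    (i : Fin (m + 1))
    (hst : S p ω i (!c i) = 0 ∨
      (S p ω i (!c i) = 1 ∧
        (2 * m < S (!p) ω i (c i) + 4 + 3 ∨ (W (!p) ω + 3 = 2 * m ∧ S (!p) ω i (c i) = 0))) ∨
      (S p ω i (!c i) = 2 ∧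
        (2 * m < S (!p) ω i (c i) + 4 + 1 ∨ (W (!p) ω + 3 = 2 * m ∧ S (!p) ω i (c i) = 0))) ∨
      (3 ≤ S p ω i (!c i) ∧ S p ω i (!c i) < 3 + 1 ∧ W (!p) ω + 3 = 2 * m ∧
        S (!p) ω i (!c i) = 0)) :
    (S p ω i (!c i) = 0 ∧ 2 * S (!p) ω i (!d i) + 3 ≤ 2 * m) ∨
    (S p ω i (!c i) = 1 ∧ c i = d i ∧ S (!p) ω i (!d i) ≤ 3) ∨
    (S p ω i (!c i) = 1 ∧ ¬ c i = d i ∧ S (!p) ω i (!d i) = 0) ∨
    (S p ω i (!c i) = 2 ∧ c i = d i ∧ S (!p) ω i (!d i) ≤ 1) ∨
    (S p ω i (!c i) = 2 ∧ ¬ c i = d i ∧ S (!p) ω i (!d i) = 0) ∨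
    (S p ω i (!c i) = 3 ∧ c i = d i ∧ S (!p) ω i (!d i) = 0) := by
  have h1 := S_add (!p) (c i) ω i
  have h2 := S_add (!p) (d i) ω i
  have h3 := hd i
  by_cases hu : c i = d i
  · rw [hu] at h1 hst ⊢
    simp only [not_true_eq_false, false_and, and_false, or_false, false_or, true_and]
    omega
  · have hu' : d i = !c i := by
      revert hu
      cases c i <;> cases d i <;> simp
    rw [hu', Bool.not_not] at h2 h3 ⊢
    have hu'' : ¬ c i = !c i := by cases c i <;> simp
    simp only [hu'', not_false_eq_true, false_and, and_false, or_false, false_or, true_and]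
    omega

/-- numeric summary of case (c), `par c = !p` -/
private lemma midB1_c (hm : 6 ≤ m) (hm' : m ≤ 9) {p : Bool} {ω : V (m + 1) → ℕ}
    (hω : ∀ x, ω x ≤ 2) (he : W p ω + 1 = 2 * m) (ho : W (!p) ω + 3 = 2 * m) (c d : V (m + 1))
    (hty : ∀ i, (S p ω i (!c i) = 0 ∧ 2 * S (!p) ω i (!d i) + 3 ≤ 2 * m) ∨
      (S p ω i (!c i) = 1 ∧ c i = d i ∧ S (!p) ω i (!d i) ≤ 3) ∨
      (S p ω i (!c i) = 1 ∧ ¬ c i = d i ∧ S (!p) ω i (!d i) = 0) ∨
      (S p ω i (!c i) = 2 ∧ c i = d i ∧ S (!p) ω i (!d i) ≤ 1) ∨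
      (S p ω i (!c i) = 2 ∧ ¬ c i = d i ∧ S (!p) ω i (!d i) = 0) ∨
      (S p ω i (!c i) = 3 ∧ c i = d i ∧ S (!p) ω i (!d i) = 0)) :
    par c = !p ∧
    ((m = 6 ∧ midB1_cnt (fun i => S p ω i (!c i) = 0) = 1 ∧
      midB1_cnt (fun i => S p ω i (!c i) = 1) = 1 ∧
      midB1_cnt (fun i => S p ω i (!c i) = 2) = 5 ∧
      midB1_cnt (fun i => S p ω i (!c i) = 3) = 0 ∧
      midB1_cnt (fun i => S p ω i (!c i) = 2 ∧ c i = d i) = 5) ∨
    (par d = p ∧ m = 7 ∧ midB1_cnt (fun i => S p ω i (!c i) = 0) = 0 ∧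
      midB1_cnt (fun i => S p ω i (!c i) = 1) = 3 ∧
      midB1_cnt (fun i => S p ω i (!c i) = 2) = 5 ∧
      midB1_cnt (fun i => S p ω i (!c i) = 3) = 0 ∧
      midB1_cnt (fun i => S p ω i (!c i) = 1 ∧ ¬ c i = d i) = 0 ∧
      midB1_cnt (fun i => S p ω i (!c i) = 2 ∧ ¬ c i = d i) = 1 ∧
      33 ≤ ∑ i, (S (!p) ω i (!d i) + 2 * min (S (!p) ω i (!d i)) 2)) ∨
    (par d = p ∧ m = 6 ∧ midB1_cnt (fun i => S p ω i (!c i) = 0) = 0 ∧
      midB1_cnt (fun i => S p ω i (!c i) = 1) = 3 ∧
      midB1_cnt (fun i => S p ω i (!c i) = 2) = 4 ∧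
      midB1_cnt (fun i => S p ω i (!c i) = 3) = 0 ∧
      midB1_cnt (fun i => S p ω i (!c i) = 1 ∧ ¬ c i = d i) = 0 ∧
      1 ≤ midB1_cnt (fun i => S p ω i (!c i) = 2 ∧ ¬ c i = d i) ∧
      27 ≤ ∑ i, (S (!p) ω i (!d i) + 2 * min (S (!p) ω i (!d i)) 2))) := by
  have hNp : par c = !p → 3 * W p ω ≤ ∑ i, (S p ω i (!c i) + 2 * min (S p ω i (!c i)) 2) :=
    fun h => N1' h ω hω
  have hNn : par c = p → 2 * W p ω ≤ ∑ i, S p ω i (!c i) + 2 * ω c :=
    fun h => N2 h ω
  have hpar2 : par c = !p → (∑ i, S p ω i (!c i)) % 2 = W p ω % 2 := fun h => N1_parity h ω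
  have hWp : par d = p → 3 * W (!p) ω ≤
      ∑ i, (S (!p) ω i (!d i) + 2 * min (S (!p) ω i (!d i)) 2) := by
    intro h
    have h' : par d = !(!p) := by rw [h, Bool.not_not]
    exact N1' h' ω hω
  have hWn : par d = !p → 2 * W (!p) ω ≤ ∑ i, S (!p) ω i (!d i) + 2 * ω d :=
    fun h => N2 h ω
  have hN3 : ∀ T : Finset (Fin (m + 1)), T.Nonempty →
      W (!p) ω ≤ 2 ^ T.card + ∑ i ∈ Tᶜ, S (!p) ω i (!d i) := fun T hT => N3 (!p) d ω hω T hT
  have hcc := hω c
  have hdd := hω d
  obtain ⟨q, hq⟩ : ∃ q : Fin (m + 1) → ℕ, ∀ i, S p ω i (!c i) = q i := ⟨_, fun _ => rfl⟩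
  obtain ⟨y, hy⟩ : ∃ y : Fin (m + 1) → ℕ, ∀ i, S (!p) ω i (!d i) = y i := ⟨_, fun _ => rfl⟩
  simp only [hq, hy] at hty hNp hNn hpar2 hWp hWn hN3 ⊢
  have hq3 : ∀ i, q i ≤ 3 := by
    intro i
    have := hty i
    omega
  have htot := midB1_total q hq3
  have hphi := midB1_sum_phi q hq3
  have hid := midB1_sum_id q hq3
  have hs1 := midB1_split (fun i => q i = 1) (fun i => c i = d i)
  have hs2 := midB1_split (fun i => q i = 2) (fun i => c i = d i)
  have hs0 := midB1_split (fun i => q i = 0) (fun i => c i = d i)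
  have hsy : ∑ i, y i ≤ (m - 2) * midB1_cnt (fun i => q i = 0) +
      3 * midB1_cnt (fun i => q i = 1 ∧ c i = d i) +
      1 * midB1_cnt (fun i => q i = 2 ∧ c i = d i) := by
    apply midB1_bound
    intro i
    rcases hty i with ⟨h1, h2⟩ | ⟨h1, h2, h3⟩ | ⟨h1, h2, h3⟩ | ⟨h1, h2, h3⟩ | ⟨h1, h2, h3⟩ |
      ⟨h1, h2, h3⟩
    · simp [h1]
      omega
    · simp [h1, h2, h3]
    · simp [h1, h2, h3]
    · simp [h1, h2, h3]
    · simp [h1, h2, h3]
    · simp [h1, h2, h3]
  have hsf : ∑ i, (y i + 2 * min (y i) 2) ≤ (m + 2) * midB1_cnt (fun i => q i = 0) +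
      7 * midB1_cnt (fun i => q i = 1 ∧ c i = d i) +
      3 * midB1_cnt (fun i => q i = 2 ∧ c i = d i) := by
    apply midB1_bound
    intro i
    rcases hty i with ⟨h1, h2⟩ | ⟨h1, h2, h3⟩ | ⟨h1, h2, h3⟩ | ⟨h1, h2, h3⟩ | ⟨h1, h2, h3⟩ |
      ⟨h1, h2, h3⟩
    · simp [h1]
      omega
    · simp [h1, h2]
      omega
    · simp [h1, h2, h3]
    · simp [h1, h2]
      omega
    · simp [h1, h2, h3]
    · simp [h1, h2, h3]
  have hTc := midB1_T q
  -- N3
  have hN3' : ∀ T : Finset (Fin (m + 1)), (∀ i, q i ≤ 1 → i ∈ T) →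
      ∑ i ∈ Tᶜ, y i ≤ midB1_cnt (fun i => q i = 2 ∧ c i = d i) := by
    intro T hT
    rw [midB1_Tc]
    unfold midB1_cnt
    apply Finset.sum_le_sum
    intro i _
    by_cases hi : i ∈ T
    · simp [hi]
    · have hi' : ¬ q i ≤ 1 := fun h => hi (hT i h)
      rw [if_neg hi]
      rcases hty i with ⟨h1, h2⟩ | ⟨h1, h2, h3⟩ | ⟨h1, h2, h3⟩ | ⟨h1, h2, h3⟩ | ⟨h1, h2, h3⟩ |
        ⟨h1, h2, h3⟩
      · omega
      · omega
      · omega
      · simp [h1, h2, h3]
      · simp [h1, h2, h3]
      · simp [h1, h2, h3]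
  have hT1 : 1 ≤ midB1_cnt (fun i => q i = 0) + midB1_cnt (fun i => q i = 1) →
      W (!p) ω ≤ 2 ^ (midB1_cnt (fun i => q i = 0) + midB1_cnt (fun i => q i = 1)) +
        midB1_cnt (fun i => q i = 2 ∧ c i = d i) := by
    intro h
    have h5 := hN3 (Finset.univ.filter (fun i => q i ≤ 1)) (Finset.card_pos.mp (by omega))
    have h6 := hN3' (Finset.univ.filter (fun i => q i ≤ 1)) (fun i hi => by simp [hi])
    rw [hTc] at h5
    omega
  have hT0 : midB1_cnt (fun i => q i = 0) + midB1_cnt (fun i => q i = 1) = 0 → False := by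
    intro h
    have h5 := hN3 {0} (Finset.singleton_nonempty 0)
    have h6 : ∑ i ∈ ({0} : Finset (Fin (m + 1)))ᶜ, y i ≤ m := by
      have h7 : ∀ i ∈ ({0} : Finset (Fin (m + 1)))ᶜ, y i ≤ 1 := by
        intro i _
        have a0 := midB1_cnt_zero (fun i => q i = 0) (by omega) i
        have a1 := midB1_cnt_zero (fun i => q i = 1) (by omega) i
        have := hty i
        omega
      have h8 := Finset.sum_le_card_nsmul _ _ _ h7
      rw [Finset.card_compl, Fintype.card_fin, Finset.card_singleton] at h8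
      simpa using h8
    rw [Finset.card_singleton] at h5
    omega
  have ht1 : 1 ≤ midB1_cnt (fun i => q i = 0) + midB1_cnt (fun i => q i = 1) := by
    by_contra hcon
    exact hT0 (by omega)
  have hT1' := hT1 ht1
  -- `par c = p` is impossible
  have hpc : par c = !p := by
    by_contra hpc
    have hpc' : par c = p := by
      revert hpc
      cases par c <;> cases p <;> simp
    have h7 := hNn hpc'
    have h8 : midB1_cnt (fun i => q i = 0) + midB1_cnt (fun i => q i = 1) = 1 := by omega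
    rw [h8] at hT1'
    omega
  refine ⟨hpc, ?_⟩
  have h9 := hNp hpc
  have h10 := hpar2 hpc
  have hw : ((par d = !p) ∧ 4 * m ≤ ∑ i, y i + 10) ∨
      (¬ (par d = !p) ∧ 6 * m ≤ ∑ i, (y i + 2 * min (y i) 2) + 9 ∧
        1 ≤ midB1_cnt (fun i => q i = 0 ∧ ¬ c i = d i) +
          midB1_cnt (fun i => q i = 1 ∧ ¬ c i = d i) +
          midB1_cnt (fun i => q i = 2 ∧ ¬ c i = d i)) := by
    by_cases hpd : par d = !p
    · left
      refine ⟨hpd, ?_⟩
      have := hWn hpd
      omega
    · right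
      have hpd' : par d = p := by
        revert hpd
        cases par d <;> cases p <;> simp
      refine ⟨hpd, ?_, ?_⟩
      · have := hWp hpd'
        omega
      · have hne : c ≠ d := by
          intro h
          rw [← h, hpc] at hpd'
          revert hpd'
          cases p <;> simp
        obtain ⟨j, hj⟩ := Function.ne_iff.mp hne
        rcases hty j with ⟨h1, h2⟩ | ⟨h1, h2, h3⟩ | ⟨h1, h2, h3⟩ | ⟨h1, h2, h3⟩ |
          ⟨h1, h2, h3⟩ | ⟨h1, h2, h3⟩
        · have := midB1_cnt_pos (fun i => q i = 0 ∧ ¬ c i = d i) ⟨j, h1, hj⟩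
          omega
        · exact absurd h2 hj
        · have := midB1_cnt_pos (fun i => q i = 1 ∧ ¬ c i = d i) ⟨j, h1, hj⟩
          omega
        · exact absurd h2 hj
        · have := midB1_cnt_pos (fun i => q i = 2 ∧ ¬ c i = d i) ⟨j, h1, hj⟩
          omega
        · exact absurd h2 hj
  have key := midB1_num (m := m) (P := par d = !p) hm hm' htot hs1 hs2
    (K0 := midB1_cnt (fun i => q i = 0 ∧ ¬ c i = d i)) (by omega) (by omega) (by omega) ht1
    (by omega) hw hsy hsf
  have hpd : ¬ par d = !p → par d = p := by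
    cases par d <;> cases p <;> simp
  rcases key with key | ⟨hP, key⟩ | ⟨hP, key⟩
  · exact Or.inl key
  · exact Or.inr (Or.inl ⟨hpd hP, key⟩)
  · exact Or.inr (Or.inr ⟨hpd hP, key⟩)

/-- the types with the numbers `s` -/
private lemma midB1_s {p : Bool} {ω : V (m + 1) → ℕ} {c d : V (m + 1)} {i : Fin (m + 1)}
    (h : c i = d i) : S (!p) ω i (!c i) = S (!p) ω i (!d i) := by rw [h]

private lemma midB1_A {p : Bool} {ω : V 7 → ℕ} (hSF : SF 7)
    (hω : ∀ x, ω x ≤ 2) (he : W p ω = 11) (ho : W (!p) ω = 9) (c d : V 7)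
    (hty : ∀ i, (S p ω i (!c i) = 0 ∧ 2 * S (!p) ω i (!d i) + 3 ≤ 2 * 6) ∨
      (S p ω i (!c i) = 1 ∧ c i = d i ∧ S (!p) ω i (!d i) ≤ 3) ∨
      (S p ω i (!c i) = 1 ∧ ¬ c i = d i ∧ S (!p) ω i (!d i) = 0) ∨
      (S p ω i (!c i) = 2 ∧ c i = d i ∧ S (!p) ω i (!d i) ≤ 1) ∨
      (S p ω i (!c i) = 2 ∧ ¬ c i = d i ∧ S (!p) ω i (!d i) = 0) ∨
      (S p ω i (!c i) = 3 ∧ c i = d i ∧ S (!p) ω i (!d i) = 0))
    (hpc : par c = !p)
    (h0 : midB1_cnt (fun i => S p ω i (!c i) = 0) = 1)
    (h1 : midB1_cnt (fun i => S p ω i (!c i) = 1) = 1)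
    (h2 : midB1_cnt (fun i => S p ω i (!c i) = 2) = 5)
    (h3 : midB1_cnt (fun i => S p ω i (!c i) = 3) = 0)
    (hu : midB1_cnt (fun i => S p ω i (!c i) = 2 ∧ c i = d i) = 5) : Comp p ω := by
  have hq3 : ∀ i, S p ω i (!c i) ≤ 3 := by
    intro i
    have := hty i
    omega
  have hid := midB1_sum_id (fun i => S p ω i (!c i)) hq3
  have hs2 := midB1_split (fun i => S p ω i (!c i) = 2) (fun i => c i = d i)
  have hstar : Star p c ω := by
    apply N1_star' hpc ω
    omega
  have hTc := midB1_T (fun i => S p ω i (!c i))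
  have hne : (Finset.univ.filter (fun i => S p ω i (!c i) ≤ 1)).Nonempty :=
    Finset.card_pos.mp (by omega)
  have hN := N3_centre (p := !p) hpc ω hω _ hne
  have hsum : ∑ i ∈ (Finset.univ.filter (fun i => S p ω i (!c i) ≤ 1))ᶜ, S (!p) ω i (!c i) ≤ 5 := by
    have h7 : ∀ i ∈ (Finset.univ.filter (fun i => S p ω i (!c i) ≤ 1))ᶜ,
        S (!p) ω i (!c i) ≤ 1 := by
      intro i hi
      rw [Finset.mem_compl, Finset.mem_filter] at hi
      have h9 : ¬ S p ω i (!c i) ≤ 1 := fun h => hi ⟨Finset.mem_univ i, h⟩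
      have a1 := midB1_cnt_zero (fun i => S p ω i (!c i) = 2 ∧ ¬ c i = d i) (by omega) i
      have a2 := midB1_cnt_zero (fun i => S p ω i (!c i) = 3) (by omega) i
      have a3 := hty i
      by_cases hcd : c i = d i
      · rw [midB1_s hcd]
        omega
      · exfalso
        simp only [hcd, not_false_eq_true, and_true] at a1
        omega
    have h8 := Finset.sum_le_card_nsmul _ _ _ h7
    rw [Finset.card_compl, Fintype.card_fin] at h8
    simp only [smul_eq_mul, mul_one] at h8
    omega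
  have hcard : (Finset.univ.filter (fun i => S p ω i (!c i) ≤ 1)).card = 2 := by omega
  rw [hcard] at hN
  have hc2 := hω c
  have hcω : ω c = 2 := by omega
  exact hSF p c ω hω hstar hcω (by omega) (by omega)

/-- exactly one flipped direction -/
private lemma midB1_unique {n : ℕ} {c d : V n} {q : Fin n → ℕ}
    (hq : ∀ i, q i ≤ 2) (h0 : midB1_cnt (fun i => q i = 0) = 0)
    (h1 : midB1_cnt (fun i => q i = 1 ∧ ¬ c i = d i) = 0)
    (h2 : midB1_cnt (fun i => q i = 2 ∧ ¬ c i = d i) = 1) :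
    ∃ f, q f = 2 ∧ d = flip c f ∧ ∀ i, i ≠ f → c i = d i := by
  rw [midB1_cnt_eq] at h2
  obtain ⟨f, hf⟩ := Finset.card_eq_one.mp h2
  have hff : q f = 2 ∧ ¬ c f = d f := by
    have : f ∈ Finset.univ.filter (fun i => q i = 2 ∧ ¬ c i = d i) := by
      rw [hf]
      exact Finset.mem_singleton_self f
    rw [Finset.mem_filter] at this
    exact this.2
  have hother : ∀ i, i ≠ f → c i = d i := by
    intro i hi
    by_contra hcd
    have a0 := midB1_cnt_zero _ h0 i
    have a1 := midB1_cnt_zero _ h1 i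
    have hqi := hq i
    have hq2 : q i = 2 := by
      simp only [hcd, not_false_eq_true, and_true] at a1
      omega
    have : i ∈ Finset.univ.filter (fun i => q i = 2 ∧ ¬ c i = d i) := by
      rw [Finset.mem_filter]
      exact ⟨Finset.mem_univ i, hq2, hcd⟩
    rw [hf, Finset.mem_singleton] at this
    exact hi this
  refine ⟨f, hff.1, ?_, hother⟩
  funext j
  by_cases hj : j = f
  · subst hj
    rw [cube_flip_self]
    have := hff.2
    revert this
    cases c j <;> cases d j <;> simp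
  · rw [cube_flip_of_ne _ hj]
    exact (hother j hj).symm

private lemma midB1_C {p : Bool} {ω : V 7 → ℕ} (hE : EL 6) (hS6 : ST2 6 6) (hD7' : DSC 7 3 2 0)
    (hω : ∀ x, ω x ≤ 2) (he : W p ω = 11) (ho : W (!p) ω = 9) (c d : V 7)
    (hty : ∀ i, (S p ω i (!c i) = 0 ∧ 2 * S (!p) ω i (!d i) + 3 ≤ 2 * 6) ∨
      (S p ω i (!c i) = 1 ∧ c i = d i ∧ S (!p) ω i (!d i) ≤ 3) ∨
      (S p ω i (!c i) = 1 ∧ ¬ c i = d i ∧ S (!p) ω i (!d i) = 0) ∨
      (S p ω i (!c i) = 2 ∧ c i = d i ∧ S (!p) ω i (!d i) ≤ 1) ∨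
      (S p ω i (!c i) = 2 ∧ ¬ c i = d i ∧ S (!p) ω i (!d i) = 0) ∨
      (S p ω i (!c i) = 3 ∧ c i = d i ∧ S (!p) ω i (!d i) = 0))
    (hpc : par c = !p) (hpd : par d = p)
    (h0 : midB1_cnt (fun i => S p ω i (!c i) = 0) = 0)
    (h1 : midB1_cnt (fun i => S p ω i (!c i) = 1) = 3)
    (h2 : midB1_cnt (fun i => S p ω i (!c i) = 2) = 4)
    (h3 : midB1_cnt (fun i => S p ω i (!c i) = 3) = 0)
    (hk1 : midB1_cnt (fun i => S p ω i (!c i) = 1 ∧ ¬ c i = d i) = 0)
    (hk2 : 1 ≤ midB1_cnt (fun i => S p ω i (!c i) = 2 ∧ ¬ c i = d i))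
    (hsf : 27 ≤ ∑ i, (S (!p) ω i (!d i) + 2 * min (S (!p) ω i (!d i)) 2)) : Comp p ω := by
  have hq3 : ∀ i, S p ω i (!c i) ≤ 3 := by
    intro i
    have := hty i
    omega
  have hq2 : ∀ i, S p ω i (!c i) ≤ 2 := by
    intro i
    have a2 := midB1_cnt_zero (fun i => S p ω i (!c i) = 3) (by omega) i
    have := hty i
    omega
  have hid := midB1_sum_id (fun i => S p ω i (!c i)) hq3
  have hs1 := midB1_split (fun i => S p ω i (!c i) = 1) (fun i => c i = d i)
  have hs2 := midB1_split (fun i => S p ω i (!c i) = 2) (fun i => c i = d i)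
  have hstar : Star p c ω := by
    apply N1_star' hpc ω
    omega
  by_cases hex : ∃ i, S p ω i (!c i) = 1 ∧ 3 ≤ S (!p) ω i (!d i)
  · obtain ⟨i, hi1, hi3⟩ := hex
    have hcd : c i = d i := by
      have := hty i
      by_contra hne
      simp only [hne, false_and, and_false, not_false_eq_true, true_and, false_or,
        or_false] at this
      omega
    have hs3 : S (!p) ω i (!c i) = 3 := by
      rw [midB1_s hcd]
      have := hty i
      omega
    have ha1 := S_add p (c i) ω i
    have ha2 := S_add (!p) (c i) ω i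
    have hC : Comp (xor (c i) p) (half i (c i) ω) := by
      apply hS6 (xor (c i) p) _ _ (half_le hω i (c i)) (star_half hstar i)
      · rw [W_half_heavy]
        omega
      · rw [W_half_light]
        omega
    exact comp_R1 hω i (c i) hE hC (by omega) (by omega) (by omega) (Or.inl (by omega))
  · push Not at hex
    have hbd : ∀ i, S (!p) ω i (!d i) + 2 * min (S (!p) ω i (!d i)) 2 ≤
        0 * (if S p ω i (!c i) = 0 then 1 else 0) +
        6 * (if S p ω i (!c i) = 1 ∧ c i = d i then 1 else 0) +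
        3 * (if S p ω i (!c i) = 2 ∧ c i = d i then 1 else 0) := by
      intro i
      have a0 := midB1_cnt_zero _ h0 i
      have a1 := hex i
      rcases hty i with ⟨b1, b2⟩ | ⟨b1, b2, b3⟩ | ⟨b1, b2, b3⟩ | ⟨b1, b2, b3⟩ | ⟨b1, b2, b3⟩ |
        ⟨b1, b2, b3⟩
      · exact absurd b1 a0
      · have := a1 b1
        rw [b1]
        simp only [b2, and_true, OfNat.one_ne_ofNat, if_true, if_false, one_ne_zero]
        omega
      · simp [b3]
      · rw [b1]
        simp only [b2, and_true, if_true]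
        omega
      · simp [b3]
      · simp [b3]
    have hB : ∑ i, (S (!p) ω i (!d i) + 2 * min (S (!p) ω i (!d i)) 2) ≤
        0 * midB1_cnt (fun i => S p ω i (!c i) = 0) +
        6 * midB1_cnt (fun i => S p ω i (!c i) = 1 ∧ c i = d i) +
        3 * midB1_cnt (fun i => S p ω i (!c i) = 2 ∧ c i = d i) :=
      midB1_bound _ _ _ _ _ _ _ hbd
    have hK2 : midB1_cnt (fun i => S p ω i (!c i) = 2 ∧ ¬ c i = d i) = 1 := by omega
    have hB' : 0 * midB1_cnt (fun i => S p ω i (!c i) = 0) +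
        6 * midB1_cnt (fun i => S p ω i (!c i) = 1 ∧ c i = d i) +
        3 * midB1_cnt (fun i => S p ω i (!c i) = 2 ∧ c i = d i) ≤
        ∑ i, (S (!p) ω i (!d i) + 2 * min (S (!p) ω i (!d i)) 2) := by omega
    have hEq := midB1_bound_eq _ _ _ _ _ _ _ hbd hB'
    obtain ⟨f, hqf, hdf, hoth⟩ := midB1_unique (c := c) (d := d)
      (q := fun i => S p ω i (!c i)) hq2 h0 hk1 hK2
    have hf : ¬ c f = d f := by
      rw [hdf, cube_flip_self]
      cases c f <;> simp
    have hyf : S (!p) ω f (!d f) = 0 := by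
      have := hEq f
      simp only [hf, and_false, if_false] at this
      rw [hqf] at this
      simp only [OfNat.ofNat_ne_zero, if_false] at this
      omega
    have hy1 : ∀ i, S p ω i (!c i) = 1 → S (!p) ω i (!d i) = 2 := by
      intro i hi
      have hne : i ≠ f := by
        rintro rfl
        omega
      have := hEq i
      rw [hi] at this
      simp only [hoth i hne, and_true, OfNat.one_ne_ofNat, if_true, if_false, one_ne_zero]
        at this
      omega
    have hy2 : ∀ i, i ≠ f → S p ω i (!c i) = 2 → S (!p) ω i (!d i) = 1 := by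
      intro i hne hi
      have := hEq i
      rw [hi] at this
      simp only [hoth i hne, and_true, OfNat.ofNat_ne_one, if_true, if_false,
        OfNat.ofNat_ne_zero] at this
      omega
    -- the sum of the `y`
    have hsy : ∑ i, S (!p) ω i (!d i) ≤ 0 * midB1_cnt (fun i => S p ω i (!c i) = 0) +
        2 * midB1_cnt (fun i => S p ω i (!c i) = 1 ∧ c i = d i) +
        1 * midB1_cnt (fun i => S p ω i (!c i) = 2 ∧ c i = d i) := by
      apply midB1_bound
      intro i
      by_cases hne : i = f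
      · subst hne
        rw [hyf]
        exact Nat.zero_le _
      · have a0 := midB1_cnt_zero _ h0 i
        have a1 := hy1 i
        have a2 := hy2 i hne
        have a3 := hoth i hne
        have a4 := hq2 i
        have a5 : S p ω i (!c i) = 1 ∨ S p ω i (!c i) = 2 := by
          omega
        rcases a5 with a5 | a5
        · rw [a1 a5, a5]
          simp only [a3, and_true, if_true]
          omega
        · rw [a2 a5, a5]
          simp only [a3, and_true, if_true]
          omega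
    have hstard : Star (!p) d ω := by
      apply N1_star' (p := !p) (c := d) (by rw [hpd, Bool.not_not]) ω
      omega
    have hSc := fun i => star_S hstar i
    have hSd := fun i => star_S hstard i
    have hds := eq_ds hstar (f := f) (by rw [← hdf]; exact hstard)
    have hfin := hD7' c f (fun i => ω (flip c i)) (fun i => ω (flip (flip c f) i)) ?_ ?_ ?_ ?_
    · rw [hpc, Bool.not_not] at hfin
      rw [hds]
      exact hfin
    · rw [← hSc f]
      exact hqf
    · rw [← hdf, ← hSd f]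
      exact hyf
    · intro i hi
      rw [← hdf, ← hSd i, ← hSc i]
      have a0 := midB1_cnt_zero _ h0 i
      have a1 := hy1 i
      have a2 := hy2 i hi
      have a4 := hq2 i
      omega
    · rw [← h1, midB1_cnt_eq]
      congr 1
      ext i
      simp only [Finset.mem_filter, Finset.mem_univ, true_and]
      rw [← hSc i]
      constructor
      · rintro ⟨_, h⟩
        exact h
      · intro h
        refine ⟨?_, h⟩
        rintro rfl
        omega

private lemma midB1_B {p : Bool} {ω : V 8 → ℕ} (hE : EL 7) (hD7 : DSC 7 2 2 0)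
    (hω : ∀ x, ω x ≤ 2) (he : W p ω = 13) (ho : W (!p) ω = 11) (c d : V 8)
    (hty : ∀ i, (S p ω i (!c i) = 0 ∧ 2 * S (!p) ω i (!d i) + 3 ≤ 2 * 7) ∨
      (S p ω i (!c i) = 1 ∧ c i = d i ∧ S (!p) ω i (!d i) ≤ 3) ∨
      (S p ω i (!c i) = 1 ∧ ¬ c i = d i ∧ S (!p) ω i (!d i) = 0) ∨
      (S p ω i (!c i) = 2 ∧ c i = d i ∧ S (!p) ω i (!d i) ≤ 1) ∨
      (S p ω i (!c i) = 2 ∧ ¬ c i = d i ∧ S (!p) ω i (!d i) = 0) ∨
      (S p ω i (!c i) = 3 ∧ c i = d i ∧ S (!p) ω i (!d i) = 0))
    (hpc : par c = !p) (hpd : par d = p)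
    (h0 : midB1_cnt (fun i => S p ω i (!c i) = 0) = 0)
    (h1 : midB1_cnt (fun i => S p ω i (!c i) = 1) = 3)
    (h2 : midB1_cnt (fun i => S p ω i (!c i) = 2) = 5)
    (h3 : midB1_cnt (fun i => S p ω i (!c i) = 3) = 0)
    (hk1 : midB1_cnt (fun i => S p ω i (!c i) = 1 ∧ ¬ c i = d i) = 0)
    (hk2 : midB1_cnt (fun i => S p ω i (!c i) = 2 ∧ ¬ c i = d i) = 1)
    (hsf : 33 ≤ ∑ i, (S (!p) ω i (!d i) + 2 * min (S (!p) ω i (!d i)) 2)) : Comp p ω := by
  have hq3 : ∀ i, S p ω i (!c i) ≤ 3 := by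
    intro i
    have := hty i
    omega
  have hq2 : ∀ i, S p ω i (!c i) ≤ 2 := by
    intro i
    have a2 := midB1_cnt_zero (fun i => S p ω i (!c i) = 3) (by omega) i
    have := hty i
    omega
  have hid := midB1_sum_id (fun i => S p ω i (!c i)) hq3
  have hs1 := midB1_split (fun i => S p ω i (!c i) = 1) (fun i => c i = d i)
  have hs2 := midB1_split (fun i => S p ω i (!c i) = 2) (fun i => c i = d i)
  have hstar : Star p c ω := by
    apply N1_star' hpc ω
    omega
  obtain ⟨f, hqf, hdf, hoth⟩ := midB1_unique (c := c) (d := d)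
    (q := fun i => S p ω i (!c i)) hq2 h0 hk1 hk2
  have hf : ¬ c f = d f := by
    rw [hdf, cube_flip_self]
    cases c f <;> simp
  -- equality in the bound of the `φ(y)`
  have hbd : ∀ i, S (!p) ω i (!d i) + 2 * min (S (!p) ω i (!d i)) 2 ≤
      0 * (if S p ω i (!c i) = 0 then 1 else 0) +
      7 * (if S p ω i (!c i) = 1 ∧ c i = d i then 1 else 0) +
      3 * (if S p ω i (!c i) = 2 ∧ c i = d i then 1 else 0) := by
    intro i
    have a0 := midB1_cnt_zero _ h0 i
    rcases hty i with ⟨b1, b2⟩ | ⟨b1, b2, b3⟩ | ⟨b1, b2, b3⟩ | ⟨b1, b2, b3⟩ | ⟨b1, b2, b3⟩ |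
      ⟨b1, b2, b3⟩
    · exact absurd b1 a0
    · rw [b1]
      simp only [b2, and_true, OfNat.one_ne_ofNat, if_true, if_false, one_ne_zero]
      omega
    · simp [b3]
    · rw [b1]
      simp only [b2, and_true, if_true]
      omega
    · simp [b3]
    · simp [b3]
  have hB' : 0 * midB1_cnt (fun i => S p ω i (!c i) = 0) +
      7 * midB1_cnt (fun i => S p ω i (!c i) = 1 ∧ c i = d i) +
      3 * midB1_cnt (fun i => S p ω i (!c i) = 2 ∧ c i = d i) ≤
      ∑ i, (S (!p) ω i (!d i) + 2 * min (S (!p) ω i (!d i)) 2) := by omega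
  have hEq := midB1_bound_eq _ _ _ _ _ _ _ hbd hB'
  have hyf : S (!p) ω f (!d f) = 0 := by
    have := hEq f
    simp only [hf, and_false, if_false] at this
    rw [hqf] at this
    simp only [OfNat.ofNat_ne_zero, if_false] at this
    omega
  have hy1 : ∀ i, S p ω i (!c i) = 1 → S (!p) ω i (!d i) = 3 := by
    intro i hi
    have hne : i ≠ f := by
      rintro rfl
      omega
    have := hEq i
    rw [hi] at this
    simp only [hoth i hne, and_true, OfNat.one_ne_ofNat, if_true, if_false, one_ne_zero]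
      at this
    omega
  have hy2 : ∀ i, i ≠ f → S p ω i (!c i) = 2 → S (!p) ω i (!d i) = 1 := by
    intro i hne hi
    have := hEq i
    rw [hi] at this
    simp only [hoth i hne, and_true, OfNat.ofNat_ne_one, if_true, if_false,
      OfNat.ofNat_ne_zero] at this
    omega
  -- the values `ω (flip d i)`
  have hsy : ∑ i, S (!p) ω i (!d i) ≤ 0 * midB1_cnt (fun i => S p ω i (!c i) = 0) +
      3 * midB1_cnt (fun i => S p ω i (!c i) = 1 ∧ c i = d i) +
      1 * midB1_cnt (fun i => S p ω i (!c i) = 2 ∧ c i = d i) := by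
    apply midB1_bound
    intro i
    by_cases hne : i = f
    · subst hne
      rw [hyf]
      exact Nat.zero_le _
    · have a0 := midB1_cnt_zero _ h0 i
      have a1 := hy1 i
      have a2 := hy2 i hne
      have a3 := hoth i hne
      have a4 := hq2 i
      have a5 : S p ω i (!c i) = 1 ∨ S p ω i (!c i) = 2 := by
        omega
      rcases a5 with a5 | a5
      · rw [a1 a5, a5]
        simp only [a3, and_true, if_true]
        omega
      · rw [a2 a5, a5]
        simp only [a3, and_true, if_true]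
        omega
  have hpd' : par d = !(!p) := by rw [hpd, Bool.not_not]
  have hN1 := N1 hpd' ω
  have hzd : ∀ i, ω (flip d i) ≤ 0 * (if S p ω i (!c i) = 0 then 1 else 0) +
      2 * (if S p ω i (!c i) = 1 ∧ c i = d i then 1 else 0) +
      1 * (if S p ω i (!c i) = 2 ∧ c i = d i then 1 else 0) := by
    intro i
    have b1 := flip_le_S hpd' ω i
    have b2 := hω (flip d i)
    by_cases hne : i = f
    · subst hne
      rw [hyf] at b1
      omega
    · have a0 := midB1_cnt_zero _ h0 i
      have a1 := hy1 i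
      have a2 := hy2 i hne
      have a3 := hoth i hne
      have a4 := hq2 i
      have a5 : S p ω i (!c i) = 1 ∨ S p ω i (!c i) = 2 := by
        omega
      rcases a5 with a5 | a5
      · rw [a5]
        simp only [a3, and_true, if_true]
        omega
      · rw [a2 a5] at b1
        rw [a5]
        simp only [a3, and_true, if_true]
        omega
  have hzs : ∑ i, ω (flip d i) ≤ 0 * midB1_cnt (fun i => S p ω i (!c i) = 0) +
      2 * midB1_cnt (fun i => S p ω i (!c i) = 1 ∧ c i = d i) +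
      1 * midB1_cnt (fun i => S p ω i (!c i) = 2 ∧ c i = d i) :=
    midB1_bound _ _ _ _ _ _ _ hzd
  have hzs' : 0 * midB1_cnt (fun i => S p ω i (!c i) = 0) +
      2 * midB1_cnt (fun i => S p ω i (!c i) = 1 ∧ c i = d i) +
      1 * midB1_cnt (fun i => S p ω i (!c i) = 2 ∧ c i = d i) ≤ ∑ i, ω (flip d i) := by
    omega
  have hzE := midB1_bound_eq _ _ _ _ _ _ _ hzd hzs'
  have hzf : ω (flip d f) = 0 := by
    have := hzE f
    simp only [hf, and_false, if_false] at this
    rw [hqf] at this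
    simp only [OfNat.ofNat_ne_zero, if_false] at this
    omega
  have hz1 : ∀ i, S p ω i (!c i) = 1 → ω (flip d i) = 2 := by
    intro i hi
    have hne : i ≠ f := by
      rintro rfl
      omega
    have := hzE i
    rw [hi] at this
    simp only [hoth i hne, and_true, OfNat.one_ne_ofNat, if_true, if_false, one_ne_zero]
      at this
    omega
  have hz2 : ∀ i, i ≠ f → S p ω i (!c i) = 2 → ω (flip d i) = 1 := by
    intro i hne hi
    have := hzE i
    rw [hi] at this
    simp only [hoth i hne, and_true, OfNat.ofNat_ne_one, if_true, if_false,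
      OfNat.ofNat_ne_zero] at this
    omega
  have hzsum : ∑ i, ω (flip d i) = 10 := by omega
  -- a direction of type (1, 3)
  obtain ⟨i, hi1⟩ : ∃ i, S p ω i (!c i) = 1 := by
    have : (Finset.univ.filter (fun i => S p ω i (!c i) = 1)).Nonempty := by
      apply Finset.card_pos.mp
      rw [← midB1_cnt_eq]
      omega
    obtain ⟨i, hi⟩ := this
    rw [Finset.mem_filter] at hi
    exact ⟨i, hi.2⟩
  have hif : i ≠ f := by
    rintro rfl
    omega
  have hcd : c i = d i := hoth i hif
  have hs3 : S (!p) ω i (!c i) = 3 := by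
    rw [midB1_s hcd]
    exact hy1 i hi1
  have ha1 := S_add p (c i) ω i
  have ha2 := S_add (!p) (c i) ω i
  obtain ⟨f', hf'⟩ := Fin.exists_succAbove_eq (Ne.symm hif)
  have hSt := star_half hstar i
  have hdd : flip (fun j => c (i.succAbove j)) f' = fun j => d (i.succAbove j) := by
    funext j
    by_cases hj : j = f'
    · subst hj
      rw [cube_flip_self]
      rw [hf', hdf, cube_flip_self]
    · rw [cube_flip_of_ne _ hj]
      apply hoth
      intro h
      apply hj
      rw [← hf'] at h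
      exact Fin.succAbove_right_injective h
  have hHd : ∀ j, half i (c i) ω (flip (fun j => d (i.succAbove j)) j) =
      ω (flip d (i.succAbove j)) := by
    intro j
    rw [hcd]
    exact half_flip_centre d ω i j
  have hHc : ∀ j, half i (c i) ω (flip (fun j => c (i.succAbove j)) j) =
      S p ω (i.succAbove j) (!c (i.succAbove j)) := by
    intro j
    rw [half_flip_centre c ω i j, star_S hstar]
  have hSt2 : Star (!(xor (c i) p)) (flip (fun j => c (i.succAbove j)) f')
      (half i (c i) ω) := by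
    apply N1_star
    · rw [par_flip, hSt.1]
    · rw [W_half_light, hdd]
      have e1 : ∑ k, ω (flip d k) = ω (flip d i) + ∑ j, ω (flip d (i.succAbove j)) :=
        Fin.sum_univ_succAbove (fun k => ω (flip d k)) i
      have e2 : ∑ j, half i (c i) ω (flip (fun j => d (i.succAbove j)) j) =
          ∑ j, ω (flip d (i.succAbove j)) := Finset.sum_congr rfl (fun j _ => hHd j)
      rw [e2]
      have e3 := hz1 i hi1
      omega
  have hC : Comp (xor (c i) p) (half i (c i) ω) := by
    have hfin := hD7 (fun j => c (i.succAbove j)) f'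
      (fun j => half i (c i) ω (flip (fun j => c (i.succAbove j)) j))
      (fun j => half i (c i) ω (flip (flip (fun j => c (i.succAbove j)) f') j)) ?_ ?_ ?_ ?_
    · rw [← eq_ds hSt hSt2, hSt.1, Bool.not_not] at hfin
      exact hfin
    · rw [hHc, hf']
      exact hqf
    · rw [hdd, hHd, hf']
      exact hzf
    · intro j hj
      rw [hHc, hdd, hHd]
      have hne : i.succAbove j ≠ f := by
        intro h
        apply hj
        rw [← hf'] at h
        exact Fin.succAbove_right_injective h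
      have a0 := midB1_cnt_zero _ h0 (i.succAbove j)
      have a1 := hz1 (i.succAbove j)
      have a2 := hz2 (i.succAbove j) hne
      have a4 := hq2 (i.succAbove j)
      omega
    · have e1 := Fin.sum_univ_succAbove (fun k => if S p ω k (!c k) = 1 then 1 else 0) i
      have e2 : midB1_cnt (fun k => S p ω k (!c k) = 1) =
        ∑ k, if S p ω k (!c k) = 1 then 1 else 0 := rfl
      rw [← e2, h1, if_pos hi1] at e1
      have e3 : (Finset.univ.filter (fun j => j ≠ f' ∧
          half i (c i) ω (flip (fun j => c (i.succAbove j)) j) = 1)).card =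
          ∑ j, if S p ω (i.succAbove j) (!c (i.succAbove j)) = 1 then 1 else 0 := by
        rw [Finset.card_filter]
        apply Finset.sum_congr rfl
        intro j _
        rw [hHc]
        by_cases hj : j = f'
        · subst hj
          rw [hf', hqf]
          simp
        · simp [hj]
      rw [e3]
      omega
  exact comp_R1 hω i (c i) hE hC (by omega) (by omega) (by omega) (Or.inl (by omega))

theorem B1_mid (hm : 6 ≤ m) (hm' : m ≤ 9) (hE : EL m) (h1 : B1 m 1) (h2 : B2 m 3)
    (hSF : SF (m + 1)) (hS6 : ST2 6 6) (hD7 : DSC 7 2 2 0) (hD7' : DSC 7 3 2 0) :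
    B1 (m + 1) 1 := by
  intro p ω hω hP he ho
  by_contra hbad
  obtain ⟨c, hc⟩ := exists_centre p ω
  obtain ⟨d, hd⟩ := exists_centre (!p) ω
  have hst := fun i => B1_step (m := m) (by omega) (by omega) hE h1 h2 hω hP (by omega)
    (by omega) hbad i (c i) (hc i)
  by_cases hsmall : W (!p) ω + 4 ≤ 2 * m
  · exact midB1_ab hm hω (by omega) hsmall c hst
  · have ho' : W (!p) ω + 3 = 2 * m := by omega
    have hty := fun i => midB1_ty hm ho' c d hd i (hst i)
    obtain ⟨hpc, hA | hB | hC⟩ := midB1_c hm hm' hω (by omega) ho' c d hty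
    · obtain ⟨rfl, a0, a1, a2, a3, a4⟩ := hA
      exact hbad (midB1_A hSF hω (by omega) (by omega) c d hty hpc a0 a1 a2 a3 a4)
    · obtain ⟨hpd, rfl, a0, a1, a2, a3, a4, a5, a6⟩ := hB
      exact hbad (midB1_B hE hD7 hω (by omega) (by omega) c d hty hpc hpd a0 a1 a2 a3 a4 a5 a6)
    · obtain ⟨hpd, rfl, a0, a1, a2, a3, a4, a5, a6⟩ := hC
      exact hbad (midB1_C hE hS6 hD7' hω (by omega) (by omega) c d hty hpc hpd a0 a1 a2 a3 a4
        a5 a6)

end Pool.Agent.Locke
end

section

end

section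

/-! # Locke's conjecture, part 2: the balanced statements in dimensions 8 and above -/

namespace Pool.Agent.Locke

variable {m : ℕ}

/-- `φ(q) = q + 2 min(q, 2)` -/
def midPhi (q : ℕ) : ℕ := q + 2 * min q 2

/-- what the failure of the step says about one direction, in terms of the two light sides -/
def MidPair (g1 g2 q y : ℕ) : Prop :=
  (q ≤ 1 ∨ y ≤ 1) ∧ (q = 0 → y ≤ g2 + 1) ∧ (q = 1 → y ≤ g1 + 1) ∧
    (y = 0 → q ≤ g2 + 1) ∧ (y = 1 → q ≤ g1 + 1)

lemma midE_pair {g1 g2 : ℕ} (hm : 4 ≤ m) (hg1 : g1 + 3 ≤ m) (hg2 : g2 + 3 ≤ m)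
    (hE : EL m) (h1 : B1 m g1) (h2 : B2 m g2)
    {ω : V (m + 1) → ℕ} (hω : ∀ x, ω x ≤ 2) (hb : W true ω = W false ω)
    (hw : W true ω + 2 = 2 * m) (hbad : ¬ Good ω) {c d : V (m + 1)}
    (hc : ∀ i, S true ω i (!c i) ≤ S true ω i (c i))
    (hd : ∀ i, S false ω i (!d i) ≤ S false ω i (d i)) (i : Fin (m + 1)) :
    (c i = d i → MidPair g1 g2 (S true ω i (!c i)) (S false ω i (!d i))) ∧
    (c i ≠ d i → S true ω i (!c i) ≤ 1 ∧ S false ω i (!d i) ≤ 1) := by
  obtain ⟨hA, hB, hC⟩ := E_step hm hE h1 h2 hω hb hw hbad i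
  have sT := S_add true (c i) ω i
  have sF := S_add false (d i) ω i
  have hci := hc i
  have hdi := hd i
  have key : S true ω i (!c i) ≤ 1 ∨ S false ω i (!d i) ≤ 1 := by
    obtain ⟨q, b, hqb⟩ := hA
    have e1 : ∀ a b' : Bool, b' = a ∨ b' = !a := by decide
    cases q
    · right
      rcases e1 (d i) b with h | h
      · rw [h] at hqb
        omega
      · rw [h] at hqb
        exact hqb
    · left
      rcases e1 (c i) b with h | h
      · rw [h] at hqb
        omega
      · rw [h] at hqb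
        exact hqb
  constructor
  · intro hcd
    have B1 := hB true (c i)
    have B2 := hB false (c i)
    have C1 := hC true (c i)
    have C2 := hC false (c i)
    simp only [Bool.not_true, Bool.not_false] at B1 B2 C1 C2
    rw [← hcd] at key sF hdi ⊢
    refine ⟨key, ?_, ?_, ?_, ?_⟩
    · intro h
      have := B1 h
      omega
    · intro h
      have := C1 h
      omega
    · intro h
      have := B2 h
      omega
    · intro h
      have := C2 h
      omega
  · intro hcd
    have hdc : d i = !c i := by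
      revert hcd
      cases c i <;> cases d i <;> simp
    have hcd' : (!d i) = c i := by rw [hdc]; simp
    have hcd'' : (!(c i)) = d i := hdc.symm
    -- light side of true: `!c i = d i`; light side of false: `!d i = c i`
    have B1 := hB true (c i)
    have C1 := hC true (c i)
    have B2 := hB false (d i)
    have C2 := hC false (d i)
    simp only [Bool.not_true, Bool.not_false] at B1 B2 C1 C2
    rw [hcd''] at B1 C1 sT hci key ⊢
    rw [hcd'] at B2 C2 sF hdi key ⊢
    have k1 : S true ω i (d i) ≤ 1 → S false ω i (c i) ≤ 1 := by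
      intro h
      rcases Nat.lt_or_ge (S true ω i (d i)) 1 with h0 | h0
      · have := B1 (by omega)
        omega
      · have := C1 (by omega)
        omega
    have k2 : S false ω i (c i) ≤ 1 → S true ω i (d i) ≤ 1 := by
      intro h
      rcases Nat.lt_or_ge (S false ω i (c i)) 1 with h0 | h0
      · have := B2 (by omega)
        omega
      · have := C2 (by omega)
        omega
    rcases key with h | h
    · exact ⟨h, k1 h⟩
    · exact ⟨k2 h, h⟩

/-- the four parity cases except the first one -/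
lemma midE_not_A {g1 g2 M' M'' : ℕ} (hm : 4 ≤ m) (hg1 : g1 + 3 ≤ m) (hg2 : g2 + 3 ≤ m)
    (hE : EL m) (h1 : B1 m g1) (h2 : B2 m g2)
    (hM' : M' * (m + 1) + 22 < 14 * m) (hM'' : M'' * (m + 1) + 16 < 8 * m)
    (hMp : ∀ q y, MidPair g1 g2 q y → midPhi q + 2 * y ≤ M' ∧ 2 * q + midPhi y ≤ M' ∧
      q + y ≤ M'') (h5 : 5 ≤ M') (h2'' : 2 ≤ M'')
    {ω : V (m + 1) → ℕ} (hω : ∀ x, ω x ≤ 2) (hb : W true ω = W false ω)
    (hw : W true ω + 2 = 2 * m) (hbad : ¬ Good ω) {c d : V (m + 1)}
    (hc : ∀ i, S true ω i (!c i) ≤ S true ω i (c i))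
    (hd : ∀ i, S false ω i (!d i) ≤ S false ω i (d i)) : par c = false ∧ par d = true := by
  have hp := midE_pair hm hg1 hg2 hE h1 h2 hω hb hw hbad hc hd
  have hall : ∀ i, midPhi (S true ω i (!c i)) + 2 * S false ω i (!d i) ≤ M' ∧
      2 * S true ω i (!c i) + midPhi (S false ω i (!d i)) ≤ M' ∧
      S true ω i (!c i) + S false ω i (!d i) ≤ M'' := by
    intro i
    by_cases h : c i = d i
    · exact hMp _ _ ((hp i).1 h)
    · obtain ⟨h3, h4⟩ := (hp i).2 h
      simp only [midPhi]
      omega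
  rcases hpc : par c with _ | _ <;> rcases hpd : par d with _ | _
  · -- B
    exfalso
    have e1 := N1' (p := true) (c := c) (by simp [hpc]) ω hω
    have e2 := N2 (p := false) (c := d) (by simp [hpd]) ω
    have e3 := hω d
    have e4 : ∑ i : Fin (m + 1), (midPhi (S true ω i (!c i)) + 2 * S false ω i (!d i)) ≤
        ∑ _i : Fin (m + 1), M' := Finset.sum_le_sum (fun i _ => (hall i).1)
    rw [Finset.sum_add_distrib, ← Finset.mul_sum, Finset.sum_const, Finset.card_univ,
      Fintype.card_fin, smul_eq_mul] at e4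
    simp only [midPhi] at e4
    have e5 : (m + 1) * M' = M' * (m + 1) := mul_comm _ _
    omega
  · exact ⟨rfl, rfl⟩
  · -- C
    exfalso
    have e1 := N2 (p := true) (c := c) (by simp [hpc]) ω
    have e2 := N2 (p := false) (c := d) (by simp [hpd]) ω
    have e3 := hω d
    have e3' := hω c
    have e4 : ∑ i : Fin (m + 1), (S true ω i (!c i) + S false ω i (!d i)) ≤
        ∑ _i : Fin (m + 1), M'' := Finset.sum_le_sum (fun i _ => (hall i).2.2)
    rw [Finset.sum_add_distrib, Finset.sum_const, Finset.card_univ,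
      Fintype.card_fin, smul_eq_mul] at e4
    have e5 : (m + 1) * M'' = M'' * (m + 1) := mul_comm _ _
    omega
  · -- B'
    exfalso
    have e1 := N1' (p := false) (c := d) (by simp [hpd]) ω hω
    have e2 := N2 (p := true) (c := c) (by simp [hpc]) ω
    have e3 := hω c
    have e4 : ∑ i : Fin (m + 1), (2 * S true ω i (!c i) + midPhi (S false ω i (!d i))) ≤
        ∑ _i : Fin (m + 1), M' := Finset.sum_le_sum (fun i _ => (hall i).2.1)
    rw [Finset.sum_add_distrib, ← Finset.mul_sum, Finset.sum_const, Finset.card_univ,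
      Fintype.card_fin, smul_eq_mul] at e4
    simp only [midPhi] at e4
    have e5 : (m + 1) * M' = M' * (m + 1) := mul_comm _ _
    omega

/-- the balanced step when the first parity case is impossible too -/
theorem midE_gen {g1 g2 M M' M'' : ℕ} (hm : 4 ≤ m) (hg1 : g1 + 3 ≤ m) (hg2 : g2 + 3 ≤ m)
    (hE : EL m) (h1 : B1 m g1) (h2 : B2 m g2)
    (hM : M * m + 18 < 12 * m)
    (hM' : M' * (m + 1) + 22 < 14 * m) (hM'' : M'' * (m + 1) + 16 < 8 * m)
    (hMp : ∀ q y, MidPair g1 g2 q y → midPhi q + midPhi y ≤ M ∧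
      midPhi q + 2 * y ≤ M' ∧ 2 * q + midPhi y ≤ M' ∧ q + y ≤ M'')
    (h6 : 6 ≤ M) (h5 : 5 ≤ M') (h2'' : 2 ≤ M'') : EL (m + 1) := by
  refine EL_of_top (by omega) ?_
  intro ω hω hb hw'
  by_contra hbad
  have hw : W true ω + 2 = 2 * m := by omega
  obtain ⟨c, hc⟩ := exists_centre true ω
  obtain ⟨d, hd⟩ := exists_centre false ω
  obtain ⟨hpc, hpd⟩ := midE_not_A hm hg1 hg2 hE h1 h2 hM' hM''
    (fun q y h => (hMp q y h).2) h5 h2'' hω hb hw hbad hc hd
  have hp := midE_pair hm hg1 hg2 hE h1 h2 hω hb hw hbad hc hd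
  have hcd : ∃ f, c f ≠ d f := by
    by_contra hcon
    push Not at hcon
    have : c = d := funext hcon
    rw [this, hpd] at hpc
    exact absurd hpc (by decide)
  obtain ⟨f, hf⟩ := hcd
  have hall : ∀ i, midPhi (S true ω i (!c i)) + midPhi (S false ω i (!d i)) ≤ M := by
    intro i
    by_cases h : c i = d i
    · exact (hMp _ _ ((hp i).1 h)).1
    · obtain ⟨h3, h4⟩ := (hp i).2 h
      simp only [midPhi]
      omega
  have hff : midPhi (S true ω f (!c f)) + midPhi (S false ω f (!d f)) ≤ 6 := by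
    obtain ⟨h3, h4⟩ := (hp f).2 hf
    simp only [midPhi]
    omega
  have e1 := N1' (p := true) (c := c) (by simp [hpc]) ω hω
  have e2 := N1' (p := false) (c := d) (by simp [hpd]) ω hω
  have e3 := Finset.add_sum_erase Finset.univ
    (fun i => midPhi (S true ω i (!c i)) + midPhi (S false ω i (!d i))) (Finset.mem_univ f)
  have e4 : ∑ i ∈ Finset.univ.erase f,
      (midPhi (S true ω i (!c i)) + midPhi (S false ω i (!d i))) ≤
        ∑ _i ∈ (Finset.univ : Finset (Fin (m + 1))).erase f, M :=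
    Finset.sum_le_sum (fun i _ => hall i)
  rw [Finset.sum_const, Finset.card_erase_of_mem (Finset.mem_univ f), Finset.card_univ,
      Fintype.card_fin, smul_eq_mul, Nat.add_sub_cancel] at e4
  have e6 : ∑ i : Fin (m + 1), (midPhi (S true ω i (!c i)) + midPhi (S false ω i (!d i))) =
      ∑ i, midPhi (S true ω i (!c i)) + ∑ i, midPhi (S false ω i (!d i)) :=
    Finset.sum_add_distrib
  have e5 : m * M = M * m := mul_comm _ _
  simp only [midPhi] at e3 e4 e6 hff
  omega

theorem EL_mid (hm : 7 ≤ m) (hE : EL m) (h1 : B1 m 1) (h2 : B2 m 3) : EL (m + 1) := by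
  refine midE_gen (M := 9) (M' := 8) (M'' := 4) (by omega) (by omega) (by omega) hE h1 h2
    (by omega) (by omega) (by omega) ?_ (by norm_num) (by norm_num) (by norm_num)
  intro q y h
  obtain ⟨a, b, c, d, e⟩ := h
  simp only [midPhi]
  have hq : q ≤ 4 := by
    by_contra hcon
    rcases a with a | a
    · omega
    · interval_cases y
      · have := d rfl; omega
      · have := e rfl; omega
  have hy : y ≤ 4 := by
    by_contra hcon
    rcases a with a | a
    · interval_cases q
      · have := b rfl; omega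
      · have := c rfl; omega
    · omega
  interval_cases q <;> interval_cases y <;> simp_all

theorem EL_large (hm : 10 ≤ m) (hE : EL m) (h1 : B1 m 2) (h2 : B2 m 4) : EL (m + 1) := by
  refine midE_gen (M := 10) (M' := 10) (M'' := 5) (by omega) (by omega) (by omega) hE h1 h2
    (by omega) (by omega) (by omega) ?_ (by norm_num) (by norm_num) (by norm_num)
  intro q y h
  obtain ⟨a, b, c, d, e⟩ := h
  simp only [midPhi]
  have hq : q ≤ 5 := by
    by_contra hcon
    rcases a with a | a
    · omega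
    · interval_cases y
      · have := d rfl; omega
      · have := e rfl; omega
  have hy : y ≤ 5 := by
    by_contra hcon
    rcases a with a | a
    · interval_cases q
      · have := b rfl; omega
      · have := c rfl; omega
    · omega
  interval_cases q <;> interval_cases y <;> simp_all

end Pool.Agent.Locke
end

section

/-! # Locke's conjecture, part 2: the balanced statement in dimension 7 -/

namespace Pool.Agent.Locke

lemma midE7_pair {q y : ℕ} (h : MidPair 1 3 q y) :
    q ≤ 4 ∧ y ≤ 4 := by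
  obtain ⟨a, b, c, d, e⟩ := h
  constructor
  · by_contra hcon
    rcases a with a | a
    · omega
    · interval_cases y
      · have := d rfl; omega
      · have := e rfl; omega
  · by_contra hcon
    rcases a with a | a
    · interval_cases q
      · have := b rfl; omega
      · have := c rfl; omega
    · omega

lemma midE7_vals {q y : ℕ} (h : MidPair 1 3 q y) :
    midPhi q + 2 * y ≤ 8 ∧ 2 * q + midPhi y ≤ 8 ∧ q + y ≤ 4 := by
  obtain ⟨hq, hy⟩ := midE7_pair h
  obtain ⟨a, b, c, d, e⟩ := h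
  simp only [midPhi]
  interval_cases q <;> interval_cases y <;> simp_all

lemma midE7_vals9 {q y : ℕ} (h : MidPair 1 3 q y) :
    midPhi q + midPhi y ≤ 9 ∧
      (9 ≤ midPhi q + midPhi y → (q = 1 ∧ y = 2) ∨ (q = 2 ∧ y = 1)) := by
  obtain ⟨hq, hy⟩ := midE7_pair h
  obtain ⟨a, b, c, d, e⟩ := h
  simp only [midPhi]
  interval_cases q <;> interval_cases y <;> simp_all

lemma midE7_flip {c d : V 7} {f : Fin 7} (hf : c f ≠ d f) (h : ∀ i, i ≠ f → c i = d i) :
    d = flip c f := by
  funext i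
  by_cases hi : i = f
  · subst hi
    rw [cube_flip_self]
    revert hf
    cases c i <;> cases d i <;> simp
  · rw [cube_flip_of_ne _ hi, h i hi]

lemma midE7_split (f : Fin 7) (q g : Fin 7 → ℕ) (x1 x2 : ℕ)
    (ht : ∀ i, i ≠ f → q i = 1 ∨ q i = 2)
    (hx1 : ∀ i, i ≠ f → q i = 1 → g i = x1) (hx2 : ∀ i, i ≠ f → q i = 2 → g i = x2) :
    ∑ i, g i = g f + (Finset.univ.filter (fun i => i ≠ f ∧ q i = 1)).card * x1 +
      (6 - (Finset.univ.filter (fun i => i ≠ f ∧ q i = 1)).card) * x2 := by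
  have k1 := Finset.add_sum_erase Finset.univ g (Finset.mem_univ f)
  have k2 := Finset.sum_filter_add_sum_filter_not (Finset.univ.erase f) (fun i => q i = 1) g
  have k3 : (Finset.univ.erase f).filter (fun i => q i = 1) =
      Finset.univ.filter (fun i => i ≠ f ∧ q i = 1) := by
    ext i
    simp
  have k4 : ∑ i ∈ (Finset.univ.erase f).filter (fun i => q i = 1), g i =
      (Finset.univ.filter (fun i => i ≠ f ∧ q i = 1)).card * x1 := by
    rw [k3]
    apply Finset.sum_const_nat
    intro i hi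
    rw [Finset.mem_filter] at hi
    exact hx1 i hi.2.1 hi.2.2
  have k6 := Finset.card_filter_add_card_filter_not (s := Finset.univ.erase f)
    (fun i => q i = 1)
  rw [k3, Finset.card_erase_of_mem (Finset.mem_univ f), Finset.card_univ,
    Fintype.card_fin] at k6
  have k5 : ∑ i ∈ (Finset.univ.erase f).filter (fun i => ¬ q i = 1), g i =
      ((Finset.univ.erase f).filter (fun i => ¬ q i = 1)).card * x2 := by
    apply Finset.sum_const_nat
    intro i hi
    rw [Finset.mem_filter, Finset.mem_erase] at hi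
    rcases ht i hi.1.1 with h | h
    · exact absurd h hi.2
    · exact hx2 i hi.1.1 h
  have k7 : ((Finset.univ.erase f).filter (fun i => ¬ q i = 1)).card =
      6 - (Finset.univ.filter (fun i => i ≠ f ∧ q i = 1)).card := by omega
  rw [k7] at k5
  omega

theorem EL7 (hE : EL 6) (h1 : B1 6 1) (h2 : B2 6 3) (hD : DSC 6 2 1 1) : EL 7 := by
  refine EL_of_top (by omega) ?_
  intro ω hω hb hw'
  by_contra hbad
  have hw : W true ω + 2 = 2 * 6 := by omega
  obtain ⟨c, hc⟩ := exists_centre true ω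
  obtain ⟨d, hd⟩ := exists_centre false ω
  obtain ⟨hpc, hpd⟩ := midE_not_A (m := 6) (M' := 8) (M'' := 4) (by omega) (by omega) (by omega)
    hE h1 h2 (by omega) (by omega)
    (fun q y h => midE7_vals h) (by norm_num) (by norm_num) hω hb hw hbad hc hd
  have hp := midE_pair (m := 6) (by omega) (by omega) (by omega) hE h1 h2 hω hb hw hbad hc hd
  have hcd : ∃ f, c f ≠ d f := by
    by_contra hcon
    push Not at hcon
    have : c = d := funext hcon
    rw [this, hpd] at hpc
    exact absurd hpc (by decide)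
  obtain ⟨f, hf⟩ := hcd
  set q : Fin 7 → ℕ := fun i => S true ω i (!c i) with hqdef
  set y : Fin 7 → ℕ := fun i => S false ω i (!d i) with hydef
  have hall : ∀ i, midPhi (q i) + midPhi (y i) ≤ 9 := by
    intro i
    by_cases h : c i = d i
    · exact (midE7_vals9 ((hp i).1 h)).1
    · obtain ⟨h3, h4⟩ := (hp i).2 h
      simp only [midPhi, hqdef, hydef]
      omega
  have hff : q f ≤ 1 ∧ y f ≤ 1 := (hp f).2 hf
  have hff' : midPhi (q f) + midPhi (y f) ≤ 6 := by
    obtain ⟨h3, h4⟩ := hff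
    simp only [midPhi]
    omega
  have e1 := N1' (p := true) (c := c) (by simp [hpc]) ω hω
  have e2 := N1' (p := false) (c := d) (by simp [hpd]) ω hω
  have e1' : 3 * W true ω ≤ ∑ i, midPhi (q i) := e1
  have e2' : 3 * W false ω ≤ ∑ i, midPhi (y i) := e2
  have e6 : ∑ i, (midPhi (q i) + midPhi (y i)) = ∑ i, midPhi (q i) + ∑ i, midPhi (y i) :=
    Finset.sum_add_distrib
  have e3 := Finset.add_sum_erase Finset.univ
    (fun i => midPhi (q i) + midPhi (y i)) (Finset.mem_univ f)
  have e4 : ∑ i ∈ Finset.univ.erase f, (midPhi (q i) + midPhi (y i)) ≤ 6 * 9 := by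
    refine (Finset.sum_le_sum (fun i _ => hall i)).trans ?_
    rw [Finset.sum_const, Finset.card_erase_of_mem (Finset.mem_univ f), Finset.card_univ,
      Fintype.card_fin, smul_eq_mul]
  -- every other direction
  have hoth : ∀ i, i ≠ f → 9 ≤ midPhi (q i) + midPhi (y i) := by
    intro i hi
    have e5 := Finset.add_sum_erase (Finset.univ.erase f)
      (fun i => midPhi (q i) + midPhi (y i))
      (Finset.mem_erase.2 ⟨hi, Finset.mem_univ i⟩)
    have e7 : ∑ i ∈ (Finset.univ.erase f).erase i, (midPhi (q i) + midPhi (y i)) ≤ 5 * 9 := by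
      refine (Finset.sum_le_sum (fun i _ => hall i)).trans ?_
      rw [Finset.sum_const, Finset.card_erase_of_mem (Finset.mem_erase.2 ⟨hi, Finset.mem_univ i⟩),
        Finset.card_erase_of_mem (Finset.mem_univ f), Finset.card_univ,
        Fintype.card_fin, smul_eq_mul]
    omega
  have hcdi : ∀ i, i ≠ f → c i = d i := by
    intro i hi
    by_contra hcon
    obtain ⟨h3, h4⟩ := (hp i).2 hcon
    have := hoth i hi
    simp only [midPhi, hqdef, hydef] at this
    omega
  have htype : ∀ i, i ≠ f → (q i = 1 ∧ y i = 2) ∨ (q i = 2 ∧ y i = 1) := fun i hi =>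
    (midE7_vals9 ((hp i).1 (hcdi i hi))).2 (hoth i hi)
  have hqf : q f = 1 ∧ y f = 1 := by
    obtain ⟨h3, h4⟩ := hff
    have : 6 ≤ midPhi (q f) + midPhi (y f) := by omega
    simp only [midPhi] at this
    omega
  -- the number of directions of type (1,2)
  set A := Finset.univ.filter (fun i => i ≠ f ∧ q i = 1) with hA
  have hsplit : ∀ g : Fin 7 → ℕ, ∀ x1 x2 : ℕ,
      (∀ i, i ≠ f → q i = 1 → g i = x1) → (∀ i, i ≠ f → q i = 2 → g i = x2) →
      ∑ i, g i = g f + A.card * x1 + (6 - A.card) * x2 := fun g x1 x2 hx1 hx2 =>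
    midE7_split f q g x1 x2 (fun i hi => (htype i hi).imp And.left And.left) hx1 hx2
  have hAc : A.card ≤ 6 := by
    have : A ⊆ Finset.univ.erase f := by
      intro i hi
      rw [hA, Finset.mem_filter] at hi
      exact Finset.mem_erase.2 ⟨hi.2.1, Finset.mem_univ i⟩
    have := Finset.card_le_card this
    rwa [Finset.card_erase_of_mem (Finset.mem_univ f), Finset.card_univ,
          Fintype.card_fin] at this
  have s1 := hsplit (fun i => midPhi (q i)) 3 6 (fun i _ h => by simp [h, midPhi])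
    (fun i _ h => by simp [h, midPhi])
  have hy2 : ∀ i, i ≠ f → q i = 1 → y i = 2 := by
    intro i hi h
    rcases htype i hi with h' | h' <;> omega
  have hy1 : ∀ i, i ≠ f → q i = 2 → y i = 1 := by
    intro i hi h
    rcases htype i hi with h' | h' <;> omega
  have s2 := hsplit (fun i => midPhi (y i)) 6 3 (fun i hi h => by simp [hy2 i hi h, midPhi])
    (fun i hi h => by simp [hy1 i hi h, midPhi])
  have s3 := hsplit q 1 2 (fun i _ h => h) (fun i _ h => h)
  have s4 := hsplit y 2 1 hy2 hy1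
  simp only [hqf.1, hqf.2, midPhi] at s1 s2 s3 s4
  have s1' : ∑ i, (q i + 2 * min (q i) 2) = ∑ i, midPhi (q i) := rfl
  have s2' : ∑ i, (y i + 2 * min (y i) 2) = ∑ i, midPhi (y i) := rfl
  have hA3 : A.card = 3 := by omega
  rw [hA3] at s3 s4
  have hst : Star true c ω := by
    refine N1_star' (by simp [hpc]) ω ?_
    change ∑ i, q i < _
    omega
  have hsf : Star (!true) d ω := by
    refine N1_star' (p := false) (by simp [hpd]) ω ?_
    change ∑ i, y i < _
    omega
  have hdf : d = flip c f := midE7_flip hf hcdi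
  have hqs : ∀ i, ω (flip c i) = q i := fun i => (star_S hst i).symm
  have hys : ∀ i, ω (flip (flip c f) i) = y i := by
    intro i
    have := star_S hsf i
    rw [← hdf]
    exact this.symm
  rw [hdf] at hsf
  have heq := eq_ds hst hsf
  apply hbad
  rw [heq]
  simp only [hqs, hys]
  exact DS7 hE hD c f q y hqf.1 hqf.2 htype hA3

end Pool.Agent.Locke
end

section

end
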