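import Mathlib

section

/-! # MP_8a5648_co (Locke's conjecture): shared definitions.  DO NOT CHANGE. -/

namespace Pool.Agent.Locke

/-- vertices of the `n`-cube -/
abbrev V (n : ℕ) := Fin n → Bool

/-- the hypercube, written exactly as in the frozen statement -/
def Q (n : ℕ) : SimpleGraph (V n) :=
  SimpleGraph.fromRel (fun x y : V n => hammingDist x y = 1)

/-- parity of a vertex: `true` iff it has an odd number of ones -/
def par {n : ℕ} (x : V n) : Bool :=
  decide (Odd (Finset.univ.filter (fun i => x i = true)).card)

/-- total weight of the parity class `p` -/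
def W {n : ℕ} (p : Bool) (ω : V n → ℕ) : ℕ :=
  ∑ x ∈ Finset.univ.filter (fun x : V n => par x = p), ω x

/-- insert the bit `b` at coordinate `i` -/
def ins {n : ℕ} (i : Fin (n + 1)) (b : Bool) (x : V n) : V (n + 1) :=
  Fin.insertNth (α := fun _ => Bool) i b x

/-- restriction of a weight to the half `x i = b` -/
def half {n : ℕ} (i : Fin (n + 1)) (b : Bool) (ω : V (n + 1) → ℕ) : V n → ℕ :=
  fun x => ω (ins i b x)

/-- indicator of a finite set, as a weight -/
def ind {n : ℕ} (C : Finset (V n)) : V n → ℕ := fun x => if x ∈ C then 1 else 0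

/-- `σ` pairs up exactly the vertices of weight `1` (the terminals) -/
structure IsPairing {n : ℕ} (ω : V n → ℕ) (σ : V n → V n) : Prop where
  inv : ∀ x, σ (σ x) = x
  ne_iff : ∀ x, σ x ≠ x ↔ ω x = 1

/-- the graph of the pairs -/
def pairG {n : ℕ} (σ : V n → V n) : SimpleGraph (V n) :=
  SimpleGraph.fromRel (fun x y => σ x = y)

/-- `M` solves `(ω, σ)`: weight-2 vertices are unused, terminals have one `M`-edge, all others two,
and `M` together with the pairs is connected on the vertices of weight at most 1
(so it is a single cycle). -/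
structure SolvedBy {n : ℕ} (M : SimpleGraph (V n)) (ω : V n → ℕ) (σ : V n → V n) : Prop where
  le : M ≤ Q n
  deg : ∀ x, (M.neighborSet x).ncard + ω x = 2
  conn : ∀ x y, ω x ≤ 1 → ω y ≤ 1 → (M ⊔ pairG σ).Reachable x y

def Good {n : ℕ} (ω : V n → ℕ) : Prop :=
  ∀ σ, IsPairing ω σ → ∃ M, SolvedBy M ω σ

/-- `E n`: every balanced weight with `w ≤ 2n - 4` is good -/
def EL (n : ℕ) : Prop :=
  ∀ ω : V n → ℕ, (∀ x, ω x ≤ 2) → W true ω = W false ω → W true ω + 4 ≤ 2 * n → Good ω

end Pool.Agent.Locke
end

section

/-! Basic facts on the cube: `ins`, `par`, `Q`, `W`. -/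

namespace Pool.Agent.Locke

variable {n : ℕ}

/-- flip coordinate `i` -/
def flip (x : V n) (i : Fin n) : V n := Function.update x i (!x i)

lemma cube_flip_self (x : V n) (i : Fin n) : flip x i i = !x i := by
  unfold flip
  exact Function.update_self i (!x i) x

lemma cube_flip_of_ne (x : V n) {i j : Fin n} (h : j ≠ i) : flip x i j = x j := by
  unfold flip
  exact Function.update_of_ne h (!x i) x

lemma cube_adj_ham {x y : V n} : (Q n).Adj x y ↔ hammingDist x y = 1 := by
  unfold Q
  rw [SimpleGraph.fromRel_adj]
  constructor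
  · rintro ⟨_, h | h⟩
    · exact h
    · rwa [hammingDist_comm]
  · intro h
    refine ⟨?_, Or.inl h⟩
    rintro rfl
    rw [hammingDist_self] at h
    omega

lemma adj_iff {x y : V n} : (Q n).Adj x y ↔ ∃ i, y = flip x i := by
  rw [cube_adj_ham]
  unfold hammingDist
  rw [Finset.card_eq_one]
  constructor
  · rintro ⟨i, hi⟩
    refine ⟨i, ?_⟩
    funext j
    by_cases h : j = i
    · subst h
      rw [cube_flip_self]
      have h1 : j ∈ Finset.univ.filter (fun k => x k ≠ y k) := by
        rw [hi]
        exact Finset.mem_singleton_self j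
      rw [Finset.mem_filter] at h1
      have h2 := h1.2
      revert h2
      cases x j <;> cases y j <;> simp
    · rw [cube_flip_of_ne x h]
      by_contra hne
      have h1 : j ∈ Finset.univ.filter (fun k => x k ≠ y k) := by
        rw [Finset.mem_filter]
        exact ⟨Finset.mem_univ _, fun h' => hne h'.symm⟩
      rw [hi, Finset.mem_singleton] at h1
      exact h h1
  · rintro ⟨i, rfl⟩
    refine ⟨i, ?_⟩
    ext j
    rw [Finset.mem_filter, Finset.mem_singleton]
    constructor
    · rintro ⟨_, hj⟩
      by_contra h
      rw [cube_flip_of_ne x h] at hj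
      exact hj rfl
    · rintro rfl
      refine ⟨Finset.mem_univ _, ?_⟩
      rw [cube_flip_self]
      cases x j <;> simp

lemma flip_flip (x : V n) (i : Fin n) : flip (flip x i) i = x := by
  funext j
  by_cases h : j = i
  · subst h
    rw [cube_flip_self, cube_flip_self, Bool.not_not]
  · rw [cube_flip_of_ne _ h, cube_flip_of_ne _ h]

lemma flip_ne (x : V n) (i : Fin n) : flip x i ≠ x := by
  intro h
  have h1 := congrFun h i
  rw [cube_flip_self] at h1
  revert h1
  cases x i <;> simp

lemma flip_inj (x : V n) {i j : Fin n} (h : flip x i = flip x j) : i = j := by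
  by_contra hne
  have h1 := congrFun h i
  rw [cube_flip_self, cube_flip_of_ne x hne] at h1
  revert h1
  cases x i <;> simp

lemma cube_par_eq (x : V n) :
    par x = decide (Odd (∑ i, if x i = true then 1 else 0)) := by
  unfold par
  rw [Finset.card_filter]

lemma cube_dec_even (s : ℕ) : decide (Even s) = !decide (Odd s) := by
  by_cases h : Even s
  · have h' : ¬ Odd s := Nat.not_odd_iff_even.mpr h
    simp [h]
  · have h' : Odd s := Nat.not_even_iff_odd.mp h
    simp [h']

lemma par_flip (x : V n) (i : Fin n) : par (flip x i) = !par x := by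
  rw [cube_par_eq, cube_par_eq]
  rw [← Finset.add_sum_erase Finset.univ (fun j => if flip x i j = true then 1 else 0)
    (Finset.mem_univ i),
    ← Finset.add_sum_erase Finset.univ (fun j => if x j = true then 1 else 0) (Finset.mem_univ i)]
  have h : ∑ j ∈ Finset.univ.erase i, (if flip x i j = true then 1 else 0)
      = ∑ j ∈ Finset.univ.erase i, (if x j = true then 1 else 0) := by
    refine Finset.sum_congr rfl ?_
    intro j hj
    rw [cube_flip_of_ne x (Finset.ne_of_mem_erase hj)]
  simp only [h, cube_flip_self]
  generalize ∑ j ∈ Finset.univ.erase i, (if x j = true then 1 else 0) = s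
  cases x i
  · simp [add_comm 1 s, Nat.odd_add_one, cube_dec_even]
  · simp [add_comm 1 s, Nat.odd_add_one, cube_dec_even]

lemma par_adj {x y : V n} (h : (Q n).Adj x y) : par y = !par x := by
  obtain ⟨i, rfl⟩ := adj_iff.mp h
  exact par_flip x i

/-- every vertex of the cube has exactly `n` neighbours -/
lemma ncard_neighbor (x : V n) : ((Q n).neighborSet x).ncard = n := by
  have h : (Q n).neighborSet x = (fun i => flip x i) '' Set.univ := by
    ext y
    rw [SimpleGraph.mem_neighborSet, adj_iff]
    constructor
    · rintro ⟨i, rfl⟩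
      exact ⟨i, Set.mem_univ _, rfl⟩
    · rintro ⟨i, _, rfl⟩
      exact ⟨i, rfl⟩
  rw [h, Set.ncard_image_of_injective _ (fun i j hij => flip_inj x hij), Set.ncard_univ,
    Nat.card_eq_fintype_card, Fintype.card_fin]

lemma ins_apply_self (i : Fin (n + 1)) (b : Bool) (x : V n) : ins i b x i = b := by
  unfold ins
  exact Fin.insertNth_apply_same (α := fun _ => Bool) i b x

lemma ins_succAbove (i : Fin (n + 1)) (j : Fin n) (b : Bool) (x : V n) :
    ins i b x (i.succAbove j) = x j := by
  unfold ins
  exact Fin.insertNth_apply_succAbove (α := fun _ => Bool) i b x j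

lemma ins_inj {i : Fin (n + 1)} {b b' : Bool} {x y : V n} :
    ins i b x = ins i b' y ↔ b = b' ∧ x = y := by
  constructor
  · intro h
    refine ⟨?_, ?_⟩
    · have h1 := congrFun h i
      rwa [ins_apply_self, ins_apply_self] at h1
    · funext j
      have h1 := congrFun h (i.succAbove j)
      rwa [ins_succAbove, ins_succAbove] at h1
  · rintro ⟨rfl, rfl⟩
    rfl

/-- every vertex of `V (n+1)` is `ins i (z i) x` -/
lemma exists_ins (i : Fin (n + 1)) (z : V (n + 1)) : ∃ x, z = ins i (z i) x := by
  refine ⟨fun j => z (i.succAbove j), ?_⟩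
  funext k
  rcases Fin.eq_self_or_eq_succAbove i k with rfl | ⟨j, rfl⟩
  · rw [ins_apply_self]
  · rw [ins_succAbove]

lemma par_ins (i : Fin (n + 1)) (b : Bool) (x : V n) : par (ins i b x) = xor b (par x) := by
  rw [cube_par_eq, cube_par_eq, Fin.sum_univ_succAbove _ i]
  simp only [ins_apply_self, ins_succAbove]
  generalize ∑ j, (if x j = true then 1 else 0) = s
  cases b
  · simp
  · simp [add_comm 1 s, Nat.odd_add_one, cube_dec_even]

lemma cube_ham_ins (i : Fin (n + 1)) (b b' : Bool) (x y : V n) :
    hammingDist (ins i b x) (ins i b' y) = (if b ≠ b' then 1 else 0) + hammingDist x y := by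
  unfold hammingDist
  rw [Finset.card_filter, Finset.card_filter, Fin.sum_univ_succAbove _ i]
  simp only [ins_apply_self, ins_succAbove]

lemma adj_ins_same {i : Fin (n + 1)} {b : Bool} {x y : V n} :
    (Q (n + 1)).Adj (ins i b x) (ins i b y) ↔ (Q n).Adj x y := by
  rw [cube_adj_ham, cube_adj_ham, cube_ham_ins]
  simp

lemma adj_ins_ne {i : Fin (n + 1)} {b b' : Bool} (hb : b ≠ b') {x y : V n} :
    (Q (n + 1)).Adj (ins i b x) (ins i b' y) ↔ x = y := by
  rw [cube_adj_ham, cube_ham_ins, if_pos hb]
  constructor
  · intro h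
    exact hammingDist_eq_zero.mp (by omega)
  · rintro rfl
    rw [hammingDist_self]

lemma flip_ins_self (i : Fin (n + 1)) (b : Bool) (x : V n) :
    flip (ins i b x) i = ins i (!b) x := by
  funext k
  rcases Fin.eq_self_or_eq_succAbove i k with rfl | ⟨j, rfl⟩
  · rw [cube_flip_self, ins_apply_self, ins_apply_self]
  · rw [cube_flip_of_ne _ (Fin.succAbove_ne i j), ins_succAbove, ins_succAbove]

lemma flip_ins_succAbove (i : Fin (n + 1)) (j : Fin n) (b : Bool) (x : V n) :
    flip (ins i b x) (i.succAbove j) = ins i b (flip x j) := by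
  funext k
  rcases Fin.eq_self_or_eq_succAbove i k with rfl | ⟨l, rfl⟩
  · rw [cube_flip_of_ne _ (Fin.succAbove_ne k j).symm, ins_apply_self, ins_apply_self]
  · rw [ins_succAbove]
    by_cases h : l = j
    · subst h
      rw [cube_flip_self, cube_flip_self, ins_succAbove]
    · rw [cube_flip_of_ne _ h, cube_flip_of_ne, ins_succAbove]
      intro h'
      exact h (Fin.succAbove_right_injective h')

/-- splitting a sum over the `(n+1)`-cube along direction `i` -/
lemma sum_ins (i : Fin (n + 1)) {β : Type*} [AddCommMonoid β] (f : V (n + 1) → β) :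
    ∑ z, f z = ∑ x, f (ins i false x) + ∑ x, f (ins i true x) := by
  have h : ∑ z, f z = ∑ p : Bool × V n, f (ins i p.1 p.2) := by
    refine (Fintype.sum_bijective (fun p : Bool × V n => ins i p.1 p.2) ?_ _ _ (fun _ => rfl)).symm
    constructor
    · rintro ⟨b, x⟩ ⟨b', x'⟩ h
      obtain ⟨h1, h2⟩ := ins_inj.mp h
      exact Prod.ext h1 h2
    · intro z
      obtain ⟨x, hx⟩ := exists_ins i z
      exact ⟨(z i, x), hx.symm⟩
  rw [h, Fintype.sum_prod_type, Fintype.sum_bool, add_comm]

lemma W_split (i : Fin (n + 1)) (p : Bool) (ω : V (n + 1) → ℕ) :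
    W p ω = W p (half i false ω) + W (!p) (half i true ω) := by
  unfold W half
  rw [Finset.sum_filter, Finset.sum_filter, Finset.sum_filter, sum_ins i]
  congr 1
  · refine Finset.sum_congr rfl ?_
    intro x _
    rw [par_ins, Bool.false_xor]
  · refine Finset.sum_congr rfl ?_
    intro x _
    rw [par_ins, Bool.true_xor]
    have h : ((!par x) = p) ↔ (par x = !p) := by
      cases par x <;> cases p <;> simp
    simp only [h]

lemma W_add (p : Bool) (ω ω' : V n → ℕ) : W p (fun x => ω x + ω' x) = W p ω + W p ω' := by
  unfold W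
  exact Finset.sum_add_distrib

lemma W_ind (p : Bool) (C : Finset (V n)) :
    W p (ind C) = (C.filter (fun x => par x = p)).card := by
  unfold W ind
  rw [Finset.card_filter, Finset.sum_filter]
  rw [← Finset.sum_filter_add_sum_filter_not Finset.univ (fun x => x ∈ C)]
  have h1 : Finset.univ.filter (fun x => x ∈ C) = C := by
    ext x
    simp
  have h2 : ∑ x ∈ Finset.univ.filter (fun x => ¬ x ∈ C),
      (if par x = p then (if x ∈ C then 1 else 0) else 0) = 0 := by
    refine Finset.sum_eq_zero ?_
    intro x hx
    rw [Finset.mem_filter] at hx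
    rw [if_neg hx.2]
    simp
  rw [h1, h2, add_zero]
  refine Finset.sum_congr rfl ?_
  intro x hx
  rw [if_pos hx]

lemma sum_eq_W (ω : V n → ℕ) : ∑ x, ω x = W true ω + W false ω := by
  unfold W
  rw [← Finset.sum_filter_add_sum_filter_not Finset.univ (fun x => par x = true)]
  congr 1
  refine Finset.sum_congr ?_ (fun _ _ => rfl)
  ext x
  simp

/-- each parity class has `2^n` vertices in the `(n+1)`-cube -/
lemma card_par (p : Bool) :
    (Finset.univ.filter (fun x : V (n + 1) => par x = p)).card = 2 ^ n := by
  have h1 : (Finset.univ.filter (fun x : V (n + 1) => par x = p)).card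
      = W p (fun _ : V (n + 1) => 1) := by
    unfold W
    rw [Finset.card_eq_sum_ones]
  rw [h1, W_split 0]
  have h2 : W p (half 0 false (fun _ : V (n + 1) => 1)) + W (!p) (half 0 true (fun _ : V (n + 1) => 1))
      = ∑ x : V n, 1 := by
    rw [sum_eq_W (n := n) (fun _ => 1)]
    cases p
    · exact add_comm _ _
    · rfl
  rw [h2]
  simp

/-- the number of positive vertices of a class is at most its weight -/
lemma card_pos_le_W (p : Bool) (ω : V n → ℕ) :
    (Finset.univ.filter (fun x : V n => par x = p ∧ 0 < ω x)).card ≤ W p ω := by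
  unfold W
  rw [Finset.card_eq_sum_ones]
  calc ∑ x ∈ Finset.univ.filter (fun x : V n => par x = p ∧ 0 < ω x), 1
      ≤ ∑ x ∈ Finset.univ.filter (fun x : V n => par x = p ∧ 0 < ω x), ω x := by
        refine Finset.sum_le_sum ?_
        intro x hx
        rw [Finset.mem_filter] at hx
        exact hx.2.2
    _ ≤ ∑ x ∈ Finset.univ.filter (fun x : V n => par x = p), ω x := by
        refine Finset.sum_le_sum_of_subset ?_
        intro x hx
        rw [Finset.mem_filter] at hx ⊢
        exact ⟨hx.1, hx.2.1⟩

end Pool.Agent.Locke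
end

section

/-! From `EL n` for all `n ≥ 3` to the frozen statement. -/

namespace Pool.Agent.Locke

variable {n : ℕ}

lemma Final_notMem {F : Finset (V n)} {M : SimpleGraph (V n)}
    (h0 : ∀ x ∈ F, (M.neighborSet x).ncard = 0) {x y : V n} (h : M.Adj x y) : y ∉ F := by
  intro hy
  have h1 := h0 y hy
  rw [Set.ncard_eq_zero (Set.toFinite _)] at h1
  have h2 : x ∈ M.neighborSet y := h.symm
  rw [h1] at h2
  exact h2

lemma Final_reach {F : Finset (V n)} {M : SimpleGraph (V n)}
    (h0 : ∀ x ∈ F, (M.neighborSet x).ncard = 0) {x y : V n} (p : M.Walk x y) :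
    ∀ (hx : x ∉ F) (hy : y ∉ F),
      (M.induce {x | x ∉ F}).Reachable ⟨x, hx⟩ ⟨y, hy⟩ := by
  induction p with
  | nil => intro hx hy; exact SimpleGraph.Reachable.refl _
  | cons h p ih =>
    intro hx hy
    have hz := Final_notMem h0 h
    refine SimpleGraph.Reachable.trans (SimpleGraph.Adj.reachable ?_) (ih hz hy)
    exact h

lemma Final_count {α : Type*} [DecidableEq α] (l : List α) (a : α) (h1 : l.Nodup) (h2 : a ∈ l) :
    l.count a = 1 :=
  List.count_eq_one_of_mem h1 h2

lemma Final_core (F : Finset (V n)) (M : SimpleGraph (V n)) (hM : M ≤ Q n)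
    (h2 : ∀ x, x ∉ F → (M.neighborSet x).ncard = 2)
    (h0 : ∀ x ∈ F, (M.neighborSet x).ncard = 0)
    (hc : ∀ x y, x ∉ F → y ∉ F → M.Reachable x y) (hv : ∃ v, v ∉ F) :
    ((Q n).induce {x | x ∉ F}).IsHamiltonian := by
  have hle : M.induce {x | x ∉ F} ≤ (Q n).induce {x | x ∉ F} := by
    intro a b hab
    exact hM hab
  refine SimpleGraph.IsHamiltonian.mono hle ?_
  intro _
  obtain ⟨v, hv⟩ := hv
  set v' : {x | x ∉ F} := ⟨v, hv⟩ with hv'
  have hcard : ∀ x : {x | x ∉ F}, ((M.induce {x | x ∉ F}).neighborSet x).ncard = 2 := by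
    intro x
    rw [← h2 x.1 x.2, ← Set.ncard_image_of_injective _ Subtype.val_injective]
    congr 1
    ext y
    constructor
    · rintro ⟨z, hz, rfl⟩
      exact hz
    · intro hy
      exact ⟨⟨y, Final_notMem h0 hy⟩, hy, rfl⟩
  have hcyc : (M.induce {x | x ∉ F}).IsCycles := fun x _ => hcard x
  have hne : ((M.induce {x | x ∉ F}).neighborSet v').Nonempty := by
    refine Set.nonempty_of_ncard_ne_zero ?_
    rw [hcard]
    norm_num
  obtain ⟨p, hp, hpv⟩ := hcyc.exists_cycle_toSubgraph_verts_eq_connectedComponentSupp
    (c := (M.induce {x | x ∉ F}).connectedComponentMk v') rfl hne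
  refine ⟨v', p, ?_⟩
  rw [SimpleGraph.Walk.isHamiltonianCycle_iff_isCycle_and_support_count_tail_eq_one]
  refine ⟨hp, fun a => ?_⟩
  refine @Final_count _ _ _ a hp.support_nodup ?_
  have ha : a ∈ p.support := by
    rw [← SimpleGraph.Walk.mem_verts_toSubgraph, hpv, SimpleGraph.ConnectedComponent.mem_supp_iff,
      SimpleGraph.ConnectedComponent.eq]
    obtain ⟨q⟩ := hc a.1 v a.2 hv
    exact Final_reach h0 q a.2 hv
  by_cases hav : a = v'
  · rw [hav]
    exact SimpleGraph.Walk.end_mem_tail_support hp.not_nil
  · rw [← SimpleGraph.Walk.cons_tail_support, List.mem_cons] at ha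
    exact ha.resolve_left hav

/-- the all-fault weight of `F` being good gives a Hamiltonian cycle of the cube minus `F` -/
theorem hamiltonian_of_good (F : Finset (V n)) (hn : 3 ≤ n)
    (hF : F.card + 4 ≤ 2 ^ n)
    (h : Good (fun x => if x ∈ F then 2 else 0)) :
    ((Q n).induce {x | x ∉ F}).IsHamiltonian := by
  have hid : IsPairing (fun x : V n => if x ∈ F then 2 else 0) id := by
    refine ⟨fun x => rfl, fun x => ?_⟩
    by_cases hx : x ∈ F <;> simp [hx]
  obtain ⟨M, hM⟩ := h id hid
  have hbot : pairG (id : V n → V n) = ⊥ := by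
    ext x y
    simp only [pairG, SimpleGraph.fromRel_adj, id, SimpleGraph.bot_adj, iff_false]
    rintro ⟨h1, h2 | h2⟩
    · exact h1 h2
    · exact h1 h2.symm
  refine Final_core F M hM.le ?_ ?_ ?_ ?_
  · intro x hx
    have := hM.deg x
    simpa [hx] using this
  · intro x hx
    have := hM.deg x
    simpa [hx] using this
  · intro x y hx hy
    have := hM.conn x y (by simp [hx]) (by simp [hy])
    rwa [hbot, sup_bot_eq] at this
  · by_contra hcon
    push Not at hcon
    have h1 : F = Finset.univ := Finset.eq_univ_iff_forall.mpr hcon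
    rw [h1, Finset.card_univ] at hF
    simp at hF

lemma Final_reachable_two (x y : V 2) : (Q 2).Reachable x y := by
  have step : ∀ (z : V 2) (i : Fin 2) (b : Bool),
      (Q 2).Reachable z (Function.update z i b) := by
    intro z i b
    by_cases hb : b = z i
    · rw [hb, Function.update_eq_self]
    · refine SimpleGraph.Adj.reachable (adj_iff.mpr ⟨i, ?_⟩)
      rw [flip]
      congr 1
      revert hb
      cases b <;> cases z i <;> simp
  have h1 := step x 0 (y 0)
  have h2 := step (Function.update x 0 (y 0)) 1 (y 1)
  have h3 : Function.update (Function.update x 0 (y 0)) 1 (y 1) = y := by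
    funext i
    fin_cases i
    · simp
    · simp
  rw [h3] at h2
  exact h1.trans h2

/-- the square: `k = 0`, `n = 2` -/
theorem hamiltonian_two (F : Finset (V 2)) (hF : F = ∅) :
    ((Q 2).induce {x | x ∉ F}).IsHamiltonian := by
  refine Final_core F (Q 2) le_rfl ?_ ?_ ?_ ?_
  · intro x _
    exact ncard_neighbor x
  · intro x hx
    rw [hF] at hx
    simp at hx
  · intro x y _ _
    exact Final_reachable_two x y
  · exact ⟨fun _ => false, by simp [hF]⟩

lemma Final_W (F : Finset (V n)) (p : Bool) :
    W p (fun x : V n => if x ∈ F then 2 else 0) = 2 * (F.filter (fun x => par x = p)).card := by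
  rw [W, ← Finset.sum_filter, Finset.filter_filter, Finset.sum_const, smul_eq_mul, mul_comm]
  congr 2
  ext x
  simp [and_comm]

lemma Final_two_mul_le (hn : 3 ≤ n) : 2 * n ≤ 2 ^ n := by
  induction n, hn using Nat.le_induction with
  | base => norm_num
  | succ m hm ih =>
    rw [pow_succ]
    omega

theorem final (hE : ∀ n, 3 ≤ n → EL n) :
    ∀ k n : ℕ, k + 2 ≤ n → ∀ F : Finset (Fin n → Bool),
      (F.filter (fun x => Even (Finset.univ.filter (fun i => x i = true)).card)).card = k →
      (F.filter (fun x => ¬ Even (Finset.univ.filter (fun i => x i = true)).card)).card = k →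
      ((SimpleGraph.fromRel (fun x y : Fin n → Bool => hammingDist x y = 1)).induce
          {x | x ∉ F}).IsHamiltonian := by
  intro k n hkn F h1 h2
  have hcard : F.card = k + k := by
    have := Finset.card_filter_add_card_filter_not (s := F)
      (fun x : Fin n → Bool => Even (Finset.univ.filter (fun i => x i = true)).card)
    rw [h1, h2] at this
    exact this.symm
  rcases Nat.lt_or_ge n 3 with hn | hn
  · have hn2 : n = 2 := by omega
    have hk : k = 0 := by omega
    subst hn2
    have hF : F = ∅ := by
      rw [← Finset.card_eq_zero]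
      omega
    exact hamiltonian_two F hF
  · have e1 : (F.filter (fun x => par x = true)).card = k := by
      rw [← h2]
      congr 1
      ext x
      simp [par]
    have e2 : (F.filter (fun x => par x = false)).card = k := by
      rw [← h1]
      congr 1
      ext x
      simp [par]
    have hgood := hE n hn (fun x : V n => if x ∈ F then 2 else 0)
      (fun x => by by_cases hx : x ∈ F <;> simp [hx])
      (by rw [Final_W, Final_W, e1, e2]) (by rw [Final_W, e1]; omega)
    refine hamiltonian_of_good F hn ?_ hgood
    have := Final_two_mul_le hn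
    omega

end Pool.Agent.Locke
end

section

/-! Absorbing one cube edge `uv` into the solution. -/

namespace Pool.Agent.Locke

variable {n : ℕ}

/-- the pairing after the edge `uv` has been absorbed: the partners of `u` and `v` get paired
(where the partner of a vertex fixed by `σ` is the vertex itself); `u` and `v` become dead when
they were terminals. -/
def splice (σ : V n → V n) (u v : V n) : V n → V n := fun x =>
  if x = σ u then σ v else if x = σ v then σ u else if x = u ∨ x = v then x else σ x

/-- the weight after absorbing -/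
def addEdge (ω : V n → ℕ) (u v : V n) : V n → ℕ := fun x =>
  ω x + (if x = u then 1 else 0) + (if x = v then 1 else 0)

namespace AbsorbAux

lemma splice_left (σ : V n → V n) (u v : V n) : splice σ u v (σ u) = σ v := by
  simp [splice]

lemma splice_right (σ : V n → V n) (u v : V n) : splice σ u v (σ v) = σ u := by
  by_cases h : σ v = σ u
  · simp [splice, h]
  · simp [splice, h]

lemma splice_mid (σ : V n → V n) (u v x : V n) (h1 : x ≠ σ u) (h2 : x ≠ σ v)
    (h3 : x = u ∨ x = v) : splice σ u v x = x := by
  simp only [splice, if_neg h1, if_neg h2, if_pos h3]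

lemma splice_other (σ : V n → V n) (u v x : V n) (h1 : x ≠ σ u) (h2 : x ≠ σ v)
    (h3 : x ≠ u) (h4 : x ≠ v) : splice σ u v x = σ x := by
  have h : ¬ (x = u ∨ x = v) := by
    rintro (h | h)
    · exact h3 h
    · exact h4 h
  simp only [splice, if_neg h1, if_neg h2, if_neg h]

lemma addEdge_left (ω : V n → ℕ) {u v : V n} (huv : u ≠ v) : addEdge ω u v u = ω u + 1 := by
  simp [addEdge, huv]

lemma addEdge_right (ω : V n → ℕ) {u v : V n} (huv : u ≠ v) : addEdge ω u v v = ω v + 1 := by
  simp [addEdge, huv.symm]

lemma addEdge_other (ω : V n → ℕ) {u v x : V n} (h1 : x ≠ u) (h2 : x ≠ v) :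
    addEdge ω u v x = ω x := by
  simp [addEdge, h1, h2]

/-- the partner of a terminal is a terminal -/
lemma partner {ω : V n → ℕ} {σ : V n → V n} (hσ : IsPairing ω σ) {u : V n} (hu : σ u ≠ u) :
    ω (σ u) = 1 := by
  rw [← hσ.ne_iff, hσ.inv]
  exact hu.symm

lemma inj {ω : V n → ℕ} {σ : V n → V n} (hσ : IsPairing ω σ) {u v : V n} (h : σ u = σ v) :
    u = v := by
  rw [← hσ.inv u, h, hσ.inv]

/-- the value of the new weight at the partner of `u` -/
lemma addEdge_partner_left {ω : V n → ℕ} {σ : V n → V n} (hσ : IsPairing ω σ) {u v : V n}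
    (huv : u ≠ v) (hu : ω u ≤ 1) (hne : σ u ≠ v) : addEdge ω u v (σ u) = 1 := by
  by_cases h : σ u = u
  · rw [h, addEdge_left ω huv]
    have : ω u ≠ 1 := fun h1 => ((hσ.ne_iff u).2 h1) h
    omega
  · rw [addEdge_other ω h hne]
    exact partner hσ h

lemma addEdge_comm (ω : V n → ℕ) (u v : V n) : addEdge ω u v = addEdge ω v u := by
  funext x
  simp only [addEdge]
  omega

lemma hne_symm {ω : V n → ℕ} {σ : V n → V n} (hσ : IsPairing ω σ) {u v : V n}
    (hne : σ u ≠ v) : σ v ≠ u := by
  intro h
  apply hne
  rw [← h, hσ.inv]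

lemma addEdge_partner_right {ω : V n → ℕ} {σ : V n → V n} (hσ : IsPairing ω σ) {u v : V n}
    (huv : u ≠ v) (hv : ω v ≤ 1) (hne : σ u ≠ v) : addEdge ω u v (σ v) = 1 := by
  rw [addEdge_comm]
  exact addEdge_partner_left hσ huv.symm hv (hne_symm hσ hne)

lemma closed_reach {G : SimpleGraph (V n)} {S : Set (V n)}
    (hS : ∀ x y, x ∈ S → G.Adj x y → y ∈ S) {x y : V n} (hx : x ∈ S) (h : G.Reachable x y) :
    y ∈ S := by
  obtain ⟨p⟩ := h
  induction p with
  | nil => exact hx
  | cons hadj _ ih => exact ih (hS _ _ hx hadj)

lemma reach_of_adj_reach {G H : SimpleGraph (V n)}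
    (h : ∀ x y, G.Adj x y → H.Reachable x y) {x y : V n} (hxy : G.Reachable x y) :
    H.Reachable x y := by
  obtain ⟨p⟩ := hxy
  induction p with
  | nil => exact SimpleGraph.Reachable.refl _
  | cons hadj _ ih => exact (h _ _ hadj).trans ih

lemma reach_partner (G : SimpleGraph (V n)) (σ : V n → V n) (x : V n) :
    (G ⊔ pairG σ).Reachable x (σ x) := by
  by_cases h : x = σ x
  · rw [← h]
  · apply SimpleGraph.Adj.reachable
    rw [SimpleGraph.sup_adj]
    right
    exact (SimpleGraph.fromRel_adj _ _ _).2 ⟨h, Or.inl rfl⟩

end AbsorbAux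

open AbsorbAux

lemma isPairing_splice {ω : V n → ℕ} {σ : V n → V n} (hσ : IsPairing ω σ) {u v : V n}
    (huv : u ≠ v) (hu : ω u ≤ 1) (hv : ω v ≤ 1) (hne : σ u ≠ v) :
    IsPairing (addEdge ω u v) (splice σ u v) := by
  have hab : σ u ≠ σ v := fun h => huv (inj hσ h)
  constructor
  · intro x
    by_cases h1 : x = σ u
    · rw [h1, splice_left, splice_right]
    by_cases h2 : x = σ v
    · rw [h2, splice_right, splice_left]
    by_cases h3 : x = u ∨ x = v
    · rw [splice_mid σ u v x h1 h2 h3, splice_mid σ u v x h1 h2 h3]
    have h4 : x ≠ u := fun h => h3 (Or.inl h)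
    have h5 : x ≠ v := fun h => h3 (Or.inr h)
    rw [splice_other σ u v x h1 h2 h4 h5, splice_other σ u v (σ x), hσ.inv]
    · exact fun h => h4 (inj hσ h)
    · exact fun h => h5 (inj hσ h)
    · intro h
      apply h1
      rw [← h, hσ.inv]
    · intro h
      apply h2
      rw [← h, hσ.inv]
  · intro x
    by_cases h1 : x = σ u
    · rw [h1, splice_left, addEdge_partner_left hσ huv hu hne]
      exact ⟨fun _ => rfl, fun _ => hab.symm⟩
    by_cases h2 : x = σ v
    · rw [h2, splice_right, addEdge_partner_right hσ huv hv hne]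
      exact ⟨fun _ => rfl, fun _ => hab⟩
    by_cases h3 : x = u ∨ x = v
    · rw [splice_mid σ u v x h1 h2 h3]
      have h4 : addEdge ω u v x = 2 := by
        rcases h3 with h3 | h3
        · rw [h3, addEdge_left ω huv]
          have : ω u = 1 := (hσ.ne_iff u).1 (fun h => h1 (by rw [h, h3]))
          omega
        · rw [h3, addEdge_right ω huv]
          have : ω v = 1 := (hσ.ne_iff v).1 (fun h => h2 (by rw [h, h3]))
          omega
      rw [h4]
      constructor
      · intro h; exact absurd rfl h
      · intro h; omega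
    have h4 : x ≠ u := fun h => h3 (Or.inl h)
    have h5 : x ≠ v := fun h => h3 (Or.inr h)
    rw [splice_other σ u v x h1 h2 h4 h5, addEdge_other ω h4 h5]
    exact hσ.ne_iff x

/-- the absorbing lemma -/
theorem absorb {ω : V n → ℕ} {σ : V n → V n} (hσ : IsPairing ω σ) {u v : V n}
    (huv : (Q n).Adj u v) (hu : ω u ≤ 1) (hv : ω v ≤ 1) (hne : σ u ≠ v)
    {M : SimpleGraph (V n)} (hM : SolvedBy M (addEdge ω u v) (splice σ u v))
    (hnadj : ¬ M.Adj u v) : SolvedBy (M ⊔ SimpleGraph.edge u v) ω σ := by
  have huv' : u ≠ v := huv.ne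
  have hadj : ∀ x y, (M ⊔ SimpleGraph.edge u v).Adj x y ↔
      M.Adj x y ∨ ((x = u ∧ y = v) ∨ (x = v ∧ y = u)) := by
    intro x y
    rw [SimpleGraph.sup_adj, SimpleGraph.edge_adj]
    constructor
    · rintro (h | h)
      · exact Or.inl h
      · rcases h.1 with h | h
        · exact Or.inr (Or.inl ⟨h.1.symm ▸ rfl, h.2.symm ▸ rfl⟩)
        · exact Or.inr (Or.inr ⟨h.1.symm ▸ rfl, h.2.symm ▸ rfl⟩)
    · rintro (h | h | h)
      · exact Or.inl h
      · exact Or.inr ⟨by simp [h.1, h.2], by rw [h.1, h.2]; exact huv'⟩
      · exact Or.inr ⟨by simp [h.1, h.2], by rw [h.1, h.2]; exact huv'.symm⟩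
  refine ⟨?_, ?_, ?_⟩
  · intro x y h
    rcases (hadj x y).1 h with h | ⟨rfl, rfl⟩ | ⟨rfl, rfl⟩
    · exact hM.le h
    · exact huv
    · exact huv.symm
  · intro x
    have hd := hM.deg x
    by_cases hx : x = u
    · have hs : (M ⊔ SimpleGraph.edge u v).neighborSet x = insert v (M.neighborSet x) := by
        ext y
        rw [SimpleGraph.mem_neighborSet, hadj, Set.mem_insert_iff, SimpleGraph.mem_neighborSet]
        constructor
        · rintro (h | h | h)
          · exact Or.inr h
          · exact Or.inl h.2
          · exact absurd (hx.symm.trans h.1) huv'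
        · rintro (h | h)
          · exact Or.inr (Or.inl ⟨hx, h⟩)
          · exact Or.inl h
      rw [hs, Set.ncard_insert_of_notMem (by rw [hx]; exact hnadj) (Set.toFinite _)]
      rw [hx, addEdge_left ω huv'] at hd
      rw [hx]
      omega
    by_cases hx' : x = v
    · have hs : (M ⊔ SimpleGraph.edge u v).neighborSet x = insert u (M.neighborSet x) := by
        ext y
        rw [SimpleGraph.mem_neighborSet, hadj, Set.mem_insert_iff, SimpleGraph.mem_neighborSet]
        constructor
        · rintro (h | h | h)
          · exact Or.inr h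
          · exact absurd (hx'.symm.trans h.1).symm huv'
          · exact Or.inl h.2
        · rintro (h | h)
          · exact Or.inr (Or.inr ⟨hx', h⟩)
          · exact Or.inl h
      rw [hs, Set.ncard_insert_of_notMem
        (by rw [hx']; exact fun h => hnadj (SimpleGraph.Adj.symm h)) (Set.toFinite _)]
      rw [hx', addEdge_right ω huv'] at hd
      rw [hx']
      omega
    · have hs : (M ⊔ SimpleGraph.edge u v).neighborSet x = M.neighborSet x := by
        ext y
        rw [SimpleGraph.mem_neighborSet, hadj, SimpleGraph.mem_neighborSet]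
        constructor
        · rintro (h | h | h)
          · exact h
          · exact absurd h.1 hx
          · exact absurd h.1 hx'
        · exact Or.inl
      rw [hs]
      rw [addEdge_other ω hx hx'] at hd
      exact hd
  · -- connectivity
    set G := (M ⊔ SimpleGraph.edge u v) ⊔ pairG σ with hG
    have hGuv : G.Adj u v := by
      rw [hG, SimpleGraph.sup_adj]
      exact Or.inl ((hadj u v).2 (Or.inr (Or.inl ⟨rfl, rfl⟩)))
    have hstep : ∀ x, G.Reachable x (splice σ u v x) := by
      have hab : G.Reachable (σ u) (σ v) :=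
        ((reach_partner _ σ u).symm.trans hGuv.reachable).trans (reach_partner _ σ v)
      intro x
      by_cases h1 : x = σ u
      · rw [h1, splice_left]
        exact hab
      by_cases h2 : x = σ v
      · rw [h2, splice_right]
        exact hab.symm
      by_cases h3 : x = u ∨ x = v
      · rw [splice_mid σ u v x h1 h2 h3]
      have h4 : x ≠ u := fun h => h3 (Or.inl h)
      have h5 : x ≠ v := fun h => h3 (Or.inr h)
      rw [splice_other σ u v x h1 h2 h4 h5]
      exact reach_partner _ σ x
    have hred : ∀ x y, (M ⊔ pairG (splice σ u v)).Adj x y → G.Reachable x y := by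
      intro x y h
      rw [SimpleGraph.sup_adj] at h
      rcases h with h | h
      · apply SimpleGraph.Adj.reachable
        rw [hG, SimpleGraph.sup_adj]
        exact Or.inl ((hadj x y).2 (Or.inl h))
      · rcases ((SimpleGraph.fromRel_adj _ _ _).1 h).2 with h | h
        · rw [← h]
          exact hstep x
        · rw [← h]
          exact (hstep y).symm
    have hback : ∀ x, ω x ≤ 1 → ∃ x', addEdge ω u v x' ≤ 1 ∧ G.Reachable x x' := by
      intro x hx
      by_cases hxu : x = u
      · exact ⟨σ u, (addEdge_partner_left hσ huv' hu hne).le, by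
          rw [hxu]; exact reach_partner _ σ u⟩
      by_cases hxv : x = v
      · exact ⟨σ v, (addEdge_partner_right hσ huv' hv hne).le, by
          rw [hxv]; exact reach_partner _ σ v⟩
      · exact ⟨x, by rw [addEdge_other ω hxu hxv]; exact hx, SimpleGraph.Reachable.refl _⟩
    intro x y hx hy
    obtain ⟨x', hx', hxx⟩ := hback x hx
    obtain ⟨y', hy', hyy⟩ := hback y hy
    exact (hxx.trans (reach_of_adj_reach hred (hM.conn x' y' hx' hy'))).trans hyy.symm

/-- in a solution of the absorbed problem, `uv` is not an edge if a third vertex is healthy -/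
theorem not_adj_of_third {ω : V n → ℕ} {σ : V n → V n} (hσ : IsPairing ω σ) {u v w : V n}
    (huv : u ≠ v) (hu : ω u ≤ 1) (hv : ω v ≤ 1) (hne : σ u ≠ v)
    {M : SimpleGraph (V n)} (hM : SolvedBy M (addEdge ω u v) (splice σ u v))
    (hwu : w ≠ u) (hwv : w ≠ v) (hw : ω w ≤ 1) : ¬ M.Adj u v := by
  intro hadj
  have hdu := hM.deg u
  have hdv := hM.deg v
  rw [addEdge_left ω huv] at hdu
  rw [addEdge_right ω huv] at hdv
  have hposu : 0 < (M.neighborSet u).ncard :=
    (Set.ncard_pos (Set.toFinite _)).2 ⟨v, hadj⟩
  have hposv : 0 < (M.neighborSet v).ncard :=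
    (Set.ncard_pos (Set.toFinite _)).2 ⟨u, hadj.symm⟩
  have hu0 : ω u = 0 := by omega
  have hv0 : ω v = 0 := by omega
  have hsu : σ u = u := by
    by_contra h
    have := (hσ.ne_iff u).1 h
    omega
  have hsv : σ v = v := by
    by_contra h
    have := (hσ.ne_iff v).1 h
    omega
  have hcu : (M.neighborSet u).ncard = 1 := by omega
  have hcv : (M.neighborSet v).ncard = 1 := by omega
  have hnu : ∀ y, M.Adj u y → y = v := by
    intro y hy
    exact (Set.ncard_le_one (Set.toFinite _)).1 hcu.le y hy v hadj
  have hnv : ∀ y, M.Adj v y → y = u := by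
    intro y hy
    exact (Set.ncard_le_one (Set.toFinite _)).1 hcv.le y hy u hadj.symm
  have hspu : splice σ u v u = v := by
    have := splice_left σ u v
    rwa [hsu, hsv] at this
  have hspv : splice σ u v v = u := by
    have := splice_right σ u v
    rwa [hsu, hsv] at this
  have hinv := (isPairing_splice hσ huv hu hv hne).inv
  have hclosed : ∀ x y, x ∈ ({u, v} : Set (V n)) → (M ⊔ pairG (splice σ u v)).Adj x y →
      y ∈ ({u, v} : Set (V n)) := by
    intro x y hx h
    rw [SimpleGraph.sup_adj] at h
    have hs : ∀ y, splice σ u v x = y → y ∈ ({u, v} : Set (V n)) := by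
      intro y hy
      rcases hx with hx | hx
      · rw [hx, hspu] at hy
        rw [← hy]
        exact Or.inr rfl
      · rw [hx, hspv] at hy
        rw [← hy]
        exact Or.inl rfl
    rcases h with h | h
    · rcases hx with hx | hx
      · rw [hx] at h
        exact Or.inr (hnu y h)
      · rw [hx] at h
        exact Or.inl (hnv y h)
    · rcases ((SimpleGraph.fromRel_adj _ _ _).1 h).2 with h | h
      · exact hs y h
      · apply hs
        rw [← h, hinv]
  have hreach := hM.conn u w (by rw [addEdge_left ω huv]; omega)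
    (by rw [addEdge_other ω hwu hwv]; exact hw)
  rcases closed_reach hclosed (Or.inl rfl) hreach with h | h
  · exact hwu h
  · exact hwv h

/-- raising: if both ends of a cube edge have weight 0 (or one of them weight 1) and the raised
weight is good, then so is the original one -/
theorem good_of_addEdge {ω : V n → ℕ} {u v w : V n} (huv : (Q n).Adj u v)
    (h : ω u + ω v ≤ 1) (hwu : w ≠ u) (hwv : w ≠ v) (hw : ω w ≤ 1)
    (hg : Good (addEdge ω u v)) : Good ω := by
  intro σ hσ
  have hu : ω u ≤ 1 := by omega
  have hv : ω v ≤ 1 := by omega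
  have hne : σ u ≠ v := by
    intro h1
    have h2 : σ u ≠ u := by rw [h1]; exact huv.ne.symm
    have h3 := (hσ.ne_iff u).1 h2
    have h4 := partner hσ h2
    rw [h1] at h4
    omega
  obtain ⟨M, hM⟩ := hg _ (isPairing_splice hσ huv.ne hu hv hne)
  exact ⟨_, absorb hσ huv hu hv hne hM (not_adj_of_third hσ huv.ne hu hv hne hM hwu hwv hw)⟩

/-- if a terminal `u` has two neighbours `v₁ ≠ v₂` of weight at most 1 and both raised weights are
good, then so is the original one -/
theorem good_of_two {ω : V n → ℕ} {u v₁ v₂ : V n}
    (h₁ : (Q n).Adj u v₁) (h₂ : (Q n).Adj u v₂) (h12 : v₁ ≠ v₂)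
    (hu : ω u = 1) (hv₁ : ω v₁ ≤ 1) (hv₂ : ω v₂ ≤ 1)
    (hg₁ : Good (addEdge ω u v₁)) (hg₂ : Good (addEdge ω u v₂)) : Good ω := by
  intro σ hσ
  have key : ∀ v, (Q n).Adj u v → ω v ≤ 1 → Good (addEdge ω u v) → σ u ≠ v →
      ∃ M, SolvedBy M ω σ := by
    intro v huv hv hg hne
    obtain ⟨M, hM⟩ := hg _ (isPairing_splice hσ huv.ne hu.le hv hne)
    refine ⟨_, absorb hσ huv hu.le hv hne hM ?_⟩
    intro hadj
    have hd := hM.deg u
    rw [addEdge_left ω huv.ne] at hd
    have hpos : 0 < (M.neighborSet u).ncard :=
      (Set.ncard_pos (Set.toFinite _)).2 ⟨v, hadj⟩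
    omega
  by_cases h : σ u = v₁
  · exact key v₂ h₂ hv₂ hg₂ (by rw [h]; exact h12)
  · exact key v₁ h₁ hv₁ hg₁ h

end Pool.Agent.Locke
end

section

/-! Two combinatorial facts used in the gluing: pairing up a finite set inside the classes of an
equivalence relation, and the parity of the number of weight-1 vertices in a component. -/

namespace Pool.Agent.Locke

/-- an involution without fixed points on a finite set forces even size -/
theorem even_card_of_involution {α : Type*} [DecidableEq α] (P : Finset α) (σ : α → α)
    (h : ∀ x ∈ P, σ x ∈ P ∧ σ x ≠ x ∧ σ (σ x) = x) : Even P.card := by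
  have h1 : ∑ x ∈ P, (1 : ZMod 2) = 0 := by
    refine Finset.sum_involution (fun a _ => σ a) ?_ ?_ ?_ ?_
    · intro a ha
      decide
    · intro a ha _
      exact (h a ha).2.1
    · intro a ha
      exact (h a ha).1
    · intro a ha
      exact (h a ha).2.2
  rw [Finset.sum_const, nsmul_eq_mul, mul_one] at h1
  exact (ZMod.natCast_eq_zero_iff_even).1 h1

/-- If every class of the equivalence relation `r` meets `P` in an even number of points, then `P`
can be paired up inside the classes. -/
theorem exists_pairing_in_classes {α : Type*} [DecidableEq α] (r : α → α → Prop)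
    (hr : Equivalence r) [DecidableRel r] (P : Finset α)
    (hev : ∀ x ∈ P, Even (P.filter (fun y => r x y)).card) :
    ∃ π : α → α, (∀ x ∈ P, π x ∈ P ∧ π x ≠ x ∧ π (π x) = x ∧ r x (π x)) ∧
      (∀ x, x ∉ P → π x = x) := by
  induction hn : P.card using Nat.strong_induction_on generalizing P with
  | _ n ih =>
    rcases P.eq_empty_or_nonempty with hP | ⟨x, hx⟩
    · subst hP
      exact ⟨id, by simp, by simp⟩
    · -- find a partner
      have hxx : x ∈ P.filter (fun y => r x y) := Finset.mem_filter.2 ⟨hx, hr.refl x⟩
      have h2 : 1 < (P.filter (fun y => r x y)).card := by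
        have h0 : 0 < (P.filter (fun y => r x y)).card := Finset.card_pos.2 ⟨x, hxx⟩
        have he := hev x hx
        rcases he with ⟨k, hk⟩
        omega
      obtain ⟨y, hy, hyx⟩ := Finset.exists_mem_ne h2 x
      rw [Finset.mem_filter] at hy
      obtain ⟨hyP, hxy⟩ := hy
      set P' := (P.erase x).erase y with hP'
      have hyP' : y ∈ P.erase x := Finset.mem_erase.2 ⟨hyx, hyP⟩
      have hcard : P'.card + 2 = P.card := by
        rw [hP', Finset.card_erase_of_mem hyP', Finset.card_erase_of_mem hx]
        have : 0 < (P.erase x).card := Finset.card_pos.2 ⟨y, hyP'⟩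
        rw [Finset.card_erase_of_mem hx] at this
        omega
      have hmem : ∀ z, z ∈ P' ↔ z ≠ y ∧ z ≠ x ∧ z ∈ P := by
        intro z
        rw [hP', Finset.mem_erase, Finset.mem_erase]
      have hev' : ∀ z ∈ P', Even (P'.filter (fun w => r z w)).card := by
        intro z hz
        have hzP := ((hmem z).1 hz).2.2
        by_cases hzx : r z x
        · have hzy : r z y := hr.trans hzx hxy
          have e1 : (P'.filter (fun w => r z w)) =
              ((P.filter (fun w => r z w)).erase x).erase y := by
            ext w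
            simp only [Finset.mem_filter, Finset.mem_erase, hmem]
            tauto
          have hxm : x ∈ P.filter (fun w => r z w) := Finset.mem_filter.2 ⟨hx, hzx⟩
          have hym : y ∈ (P.filter (fun w => r z w)).erase x :=
            Finset.mem_erase.2 ⟨hyx, Finset.mem_filter.2 ⟨hyP, hzy⟩⟩
          have h3 : ((P.filter (fun w => r z w)).erase x).card =
            (P.filter (fun w => r z w)).card - 1 := Finset.card_erase_of_mem hxm
          have h4 : (((P.filter (fun w => r z w)).erase x).erase y).card =
            ((P.filter (fun w => r z w)).erase x).card - 1 := Finset.card_erase_of_mem hym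
          have h5 : 0 < ((P.filter (fun w => r z w)).erase x).card := Finset.card_pos.2 ⟨y, hym⟩
          rw [e1]
          rcases hev z hzP with ⟨k, hk⟩
          refine ⟨k - 1, ?_⟩
          omega
        · have hzy : ¬ r z y := fun h => hzx (hr.trans h (hr.symm hxy))
          have e1 : (P'.filter (fun w => r z w)) = P.filter (fun w => r z w) := by
            ext w
            simp only [Finset.mem_filter, hmem]
            constructor
            · rintro ⟨⟨_, _, h⟩, h'⟩
              exact ⟨h, h'⟩
            · rintro ⟨h, h'⟩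
              refine ⟨⟨?_, ?_, h⟩, h'⟩
              · rintro rfl
                exact hzy h'
              · rintro rfl
                exact hzx h'
          rw [e1]
          exact hev z hzP
      obtain ⟨π, hπ1, hπ2⟩ := ih P'.card (by omega) P' hev' rfl
      refine ⟨fun z => if z = x then y else if z = y then x else π z, ?_, ?_⟩
      · intro z hz
        by_cases h1 : z = x
        · subst h1
          simp only [if_true, hyx, if_false]
          exact ⟨hyP, fun h => hyx h, trivial, hxy⟩
        · by_cases h2 : z = y
          · subst h2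
            simp only [if_true, hyx, if_false]
            exact ⟨hx, fun h => hyx h.symm, trivial, hr.symm hxy⟩
          · have hz' : z ∈ P' := (hmem z).2 ⟨h2, h1, hz⟩
            obtain ⟨a1, a2, a3, a4⟩ := hπ1 z hz'
            obtain ⟨b1, b2, b3⟩ := (hmem _).1 a1
            simp only [h1, h2, if_false, b1, b2]
            exact ⟨b3, a2, a3, a4⟩
      · intro z hz
        have h1 : z ≠ x := by rintro rfl; exact hz hx
        have h2 : z ≠ y := by rintro rfl; exact hz hyP
        simp only [h1, h2, if_false]
        exact hπ2 z (fun h => hz ((hmem z).1 h).2.2)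

/-- a finite set of even size can be paired up -/
theorem exists_pairing {α : Type*} [DecidableEq α] (P : Finset α) (hev : Even P.card) :
    ∃ π : α → α, (∀ x ∈ P, π x ∈ P ∧ π x ≠ x ∧ π (π x) = x) ∧
      (∀ x, x ∉ P → π x = x) := by
  obtain ⟨π, h1, h2⟩ := exists_pairing_in_classes (fun _ _ : α => True)
    ⟨fun _ => trivial, fun _ => trivial, fun _ _ => trivial⟩ P (by
      intro x _
      simpa using hev)
  exact ⟨π, fun x hx => ⟨(h1 x hx).1, (h1 x hx).2.1, (h1 x hx).2.2.1⟩, h2⟩

/-- Parity: let `M` be a graph on a finite type with `deg x + ω x = 2` for all `x` except that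
`d x` is the defect: `deg x + ω x + d x = 2`.  If `K` is a set closed under `M`-adjacency then
`∑_{x ∈ K} (ω x + d x)` is even. -/
theorem even_sum_closed {α : Type*} [Fintype α] [DecidableEq α] (M : SimpleGraph α)
    (f : α → ℕ) (hdeg : ∀ x, (M.neighborSet x).ncard + f x = 2)
    (K : Finset α) (hK : ∀ x ∈ K, ∀ y, M.Adj x y → y ∈ K) :
    Even (∑ x ∈ K, f x) := by
  classical
  have h1 : Even ((K ×ˢ K).filter (fun p : α × α => M.Adj p.1 p.2)).card := by
    refine even_card_of_involution _ Prod.swap ?_
    rintro ⟨a, b⟩ hab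
    rw [Finset.mem_filter, Finset.mem_product] at hab
    obtain ⟨⟨ha, hb⟩, hadj⟩ := hab
    refine ⟨Finset.mem_filter.2 ⟨Finset.mem_product.2 ⟨hb, ha⟩, hadj.symm⟩, ?_, rfl⟩
    intro h
    have : b = a := congrArg Prod.fst h
    exact hadj.ne this.symm
  have h2 : ((K ×ˢ K).filter (fun p : α × α => M.Adj p.1 p.2)).card =
      ∑ x ∈ K, (M.neighborSet x).ncard := by
    rw [Finset.card_filter, Finset.sum_product]
    refine Finset.sum_congr rfl ?_
    intro x hx
    rw [← Finset.card_filter]
    rw [← Set.ncard_coe_finset]
    congr 1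
    ext y
    simp only [Finset.coe_filter, SimpleGraph.mem_neighborSet]
    constructor
    · rintro ⟨_, h⟩
      exact h
    · intro h
      exact ⟨hK x hx y h, h⟩
  have h3 : ∑ x ∈ K, (M.neighborSet x).ncard + ∑ x ∈ K, f x = 2 * K.card := by
    rw [← Finset.sum_add_distrib, Finset.sum_congr rfl (fun x _ => hdeg x)]
    simp [mul_comm]
  rw [h2] at h1
  rcases h1 with ⟨k, hk⟩
  refine ⟨K.card - k, ?_⟩
  omega

end Pool.Agent.Locke
end

section

/-! Automorphisms of the cube preserve `Good`. -/

namespace Pool.Agent.Locke

variable {n : ℕ}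

theorem good_comp_iso_aux (e : Q n ≃g Q n) (ω : V n → ℕ) (h : Good ω) :
    Good (fun x => ω (e x)) := by
  intro σ hσ
  have hp : IsPairing ω (fun y => e (σ (e.symm y))) := by
    constructor
    · intro y
      simp [hσ.inv]
    · intro y
      have h1 := hσ.ne_iff (e.symm y)
      simp only [RelIso.apply_symm_apply] at h1
      rw [← h1, not_iff_not]
      constructor
      · intro h2
        have h3 := congrArg e.symm h2
        simpa using h3
      · intro h2
        rw [h2]
        simp
  obtain ⟨M', hM'⟩ := h _ hp
  refine ⟨M'.comap e, ?_, ?_, ?_⟩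
  · intro x y hxy
    have h1 := hM'.le hxy
    exact (e.map_rel_iff).1 h1
  · intro x
    have h1 := hM'.deg (e x)
    have h2 : (M'.comap e).neighborSet x = e ⁻¹' (M'.neighborSet (e x)) := by
      ext y; simp
    rw [h2, Set.ncard_preimage_of_injective_subset_range e.injective]
    · exact h1
    · intro y _
      exact ⟨e.symm y, by simp⟩
  · intro x y hx hy
    have h1 := hM'.conn (e x) (e y) hx hy
    let e' : (M'.comap e ⊔ pairG σ) ≃g (M' ⊔ pairG (fun y => e (σ (e.symm y)))) :=
      { toEquiv := e.toEquiv
        map_rel_iff' := by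
          intro a b
          simp [pairG, SimpleGraph.fromRel_adj] }
    have h2 := (SimpleGraph.Iso.reachable_iff (φ := e') (u := x) (v := y)).1 h1
    exact h2

/-- `Good` is invariant under automorphisms of the cube -/
theorem good_comp_iso (e : Q n ≃g Q n) (ω : V n → ℕ) :
    Good (fun x => ω (e x)) ↔ Good ω := by
  constructor
  · intro h
    have h1 := good_comp_iso_aux e.symm _ h
    simpa using h1
  · exact good_comp_iso_aux e ω

/-- translation by `t` -/
def transIso (t : V n) : Q n ≃g Q n where
  toFun := fun x i => xor (x i) (t i)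
  invFun := fun x i => xor (x i) (t i)
  left_inv := by intro x; funext i; simp
  right_inv := by intro x; funext i; simp
  map_rel_iff' := by
    intro x y
    have h1 : ∀ a b c : Bool, (xor a c ≠ xor b c) ↔ a ≠ b := by decide
    have h2 : ∀ x y : V n, hammingDist (fun i => xor (x i) (t i)) (fun i => xor (y i) (t i))
        = hammingDist x y := by
      intro x y
      unfold hammingDist
      congr 1
      ext i
      simp [h1]
    have h3 : ((fun i => xor (x i) (t i)) = (fun i => xor (y i) (t i))) ↔ x = y := by
      constructor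
      · intro h
        rw [← hammingDist_eq_zero, ← h2 x y, h, hammingDist_self]
      · rintro rfl; rfl
    simp only [Q, SimpleGraph.fromRel_adj, Equiv.coe_fn_mk, h2, ne_eq, h3]

/-- permutation of the coordinates -/
def permIso (τ : Equiv.Perm (Fin n)) : Q n ≃g Q n where
  toFun := fun x i => x (τ i)
  invFun := fun x i => x (τ.symm i)
  left_inv := by intro x; funext i; simp
  right_inv := by intro x; funext i; simp
  map_rel_iff' := by
    intro x y
    have h2 : ∀ x y : V n, hammingDist (fun i => x (τ i)) (fun i => y (τ i))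
        = hammingDist x y := by
      intro x y
      unfold hammingDist
      refine Finset.card_bij (fun i _ => τ i) ?_ ?_ ?_
      · intro i hi
        simpa using hi
      · intro i _ j _ h
        exact τ.injective h
      · intro j hj
        refine ⟨τ.symm j, ?_, ?_⟩
        · simpa using hj
        · simp
    have h3 : ((fun i => x (τ i)) = (fun i => y (τ i))) ↔ x = y := by
      constructor
      · intro h
        rw [← hammingDist_eq_zero, ← h2 x y, h, hammingDist_self]
      · rintro rfl; rfl
    simp only [Q, SimpleGraph.fromRel_adj, Equiv.coe_fn_mk, h2, ne_eq, h3]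

lemma par_trans (t x : V n) : par (transIso t x) = xor (par x) (par t) := by
  have key : ∀ s : Finset (Fin n),
      (decide (Odd (s.filter (fun i => (xor (x i) (t i)) = true)).card)) =
      xor (decide (Odd (s.filter (fun i => x i = true)).card))
        (decide (Odd (s.filter (fun i => t i = true)).card)) := by
    intro s
    induction s using Finset.induction_on with
    | empty => simp
    | insert a s ha ih =>
      rw [Finset.filter_insert, Finset.filter_insert, Finset.filter_insert]
      have hn : ∀ p : Fin n → Prop, ∀ [DecidablePred p], a ∉ s.filter p := by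
        intro p _ h
        exact ha (Finset.mem_filter.1 h).1
      have hodd : ∀ m : ℕ, decide (Odd (m + 1)) = !decide (Odd m) := by
        intro m
        by_cases hm : Odd m
        · have : ¬ Odd (m + 1) := by
            rw [Nat.odd_add_one]; simpa using hm
          simp [hm, this]
        · have : Odd (m + 1) := by
            rw [Nat.odd_add_one]; exact hm
          simp [hm, this]
      cases hx : x a <;> cases ht : t a <;>
        simp only [Bool.xor_false, Bool.xor_true, Bool.not_false, Bool.not_true, if_true,
          Bool.false_eq_true, if_false, Finset.card_insert_of_notMem (hn _), hodd, ih] <;>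
        simp
  exact key Finset.univ

lemma par_perm (τ : Equiv.Perm (Fin n)) (x : V n) : par (permIso τ x) = par x := by
  unfold par
  have h : (Finset.univ.filter (fun i => (permIso τ x) i = true)).card =
      (Finset.univ.filter (fun i => x i = true)).card := by
    refine Finset.card_bij (fun i _ => τ i) ?_ ?_ ?_
    · intro i hi
      have hi' : x (τ i) = true := (Finset.mem_filter.1 hi).2
      exact Finset.mem_filter.2 ⟨Finset.mem_univ _, hi'⟩
    · intro i _ j _ h
      exact τ.injective h
    · intro j hj
      have hj' : x j = true := (Finset.mem_filter.1 hj).2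
      refine ⟨τ.symm j, Finset.mem_filter.2 ⟨Finset.mem_univ _, ?_⟩, by simp⟩
      show x (τ (τ.symm j)) = true
      rw [Equiv.apply_symm_apply]
      exact hj'
  rw [h]

lemma W_comp_trans (t : V n) (p : Bool) (ω : V n → ℕ) :
    W p (fun x => ω (transIso t x)) = W (xor p (par t)) ω := by
  unfold W
  refine Finset.sum_bij (fun x _ => transIso t x) ?_ ?_ ?_ ?_
  · intro x hx
    have hx' : par x = p := (Finset.mem_filter.1 hx).2
    exact Finset.mem_filter.2 ⟨Finset.mem_univ _, by rw [par_trans, hx']⟩
  · intro x _ y _ h
    exact (transIso t).injective h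
  · intro y hy
    have hy' : par y = xor p (par t) := (Finset.mem_filter.1 hy).2
    refine ⟨(transIso t).symm y, ?_, by simp⟩
    refine Finset.mem_filter.2 ⟨Finset.mem_univ _, ?_⟩
    have h1 := par_trans t ((transIso t).symm y)
    rw [RelIso.apply_symm_apply, hy'] at h1
    revert h1
    cases p <;> cases par t <;> cases par ((transIso t).symm y) <;> simp
  · intro x _
    rfl

lemma W_comp_perm (τ : Equiv.Perm (Fin n)) (p : Bool) (ω : V n → ℕ) :
    W p (fun x => ω (permIso τ x)) = W p ω := by
  unfold W
  refine Finset.sum_bij (fun x _ => permIso τ x) ?_ ?_ ?_ ?_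
  · intro x hx
    have hx' : par x = p := (Finset.mem_filter.1 hx).2
    exact Finset.mem_filter.2 ⟨Finset.mem_univ _, by rw [par_perm, hx']⟩
  · intro x _ y _ h
    exact (permIso τ).injective h
  · intro y hy
    have hy' : par y = p := (Finset.mem_filter.1 hy).2
    refine ⟨(permIso τ).symm y, ?_, by simp⟩
    refine Finset.mem_filter.2 ⟨Finset.mem_univ _, ?_⟩
    have h1 := par_perm τ ((permIso τ).symm y)
    rw [RelIso.apply_symm_apply, hy'] at h1
    exact h1.symm
  · intro x _
    rfl

end Pool.Agent.Locke
end
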