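import Pool.Agent.Lib.MP_8a5648_co.Mg.G004

section

/-! # Locke's conjecture, base facts: all good weights of the 3-cube with the solutions of all
their pairings -/

namespace Pool.Agent.Locke

def tbl3_0 : List (ℕ × List ℕ) := [
  (0, [26731720]),
  (4, [26731720]),
  (8, [478170]),
  (10, [26989264]),
  (14, [3567313]),
  (20, [445913]),
  (30, [29311129]),
  (34, [3341464]),
  (36, [31375450]),
  (40, [26731720, 26989264, 26989208]),
  (44, [478170]),
  (46, [3373656]),
  (50, [445913]),
  (60, [417680]),
  (66, [3663889]),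
  (70, [417680]),
  (72, [421704]),
  (76, [421704]),
  (80, [7660]),
  (82, [19754848]),
  (86, [2977633]),
  (92, [3912546]),
  (108, [18968419]),
  (112, [22796488, 20118680, 19754848]),
  (116, [356195]),
  (118, [20441296, 20441240, 19754848]),
  (122, [3664081, 3664025, 2977633]),
  (128, [319395]),
  (138, [2191201]),
  (142, [356192]),
  (144, [2154402]),
  (148, [2781000, 2514832, 2453344]),
  (152, [61282]),
  (154, [319392]),
  (158, [57249]),
  (164, [457881]),
  (190, [2555032]),
  (194, [457881]),
  (200, [490074]),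
  (216, [356168]),
  (220, [356168]),
  (226, [319376]),
  (230, [57233]),
  (246, [17431849]),
  (250, [2751784]),
  (252, [17169706]),
  (256, [26989768, 26989264, 19529000]),
  (260, [392490]),
  (262, [2489640]),
  (266, [392489]),
  (276, [4137259]),
  (282, [18053841, 18053785, 17431849]),
  (286, [3373776, 3373720, 2751784]),
  (288, [2379243]),
  (292, [3373768, 3373656, 2489640]),
  (296, [64811]),
  (312, [282090]),
  (318, [282089]),
  (322, [52712]),
  (324, [17149420])]

def tbl3_1 : List (ℕ × List ℕ) := [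
  (328, [26731720, 22786912, 22786856]),
  (332, [468972]),
  (334, [20344528, 19916128, 19916072]),
  (338, [3567313, 3138913, 3138857]),
  (344, [489068]),
  (354, [18021529, 17528673, 17528617]),
  (358, [3341464, 2848608, 2848552]),
  (360, [31375450, 17162146, 17157610]),
  (364, [26731720, 22248136, 22538440, 26525584, 20150992, 20441296, 26731608, 20150936, 20441240, 19625824, 19916128, 21815200, 19625768, 19916072, 21810664]),
  (368, [478170, 489314, 489258]),
  (370, [2543064, 2482080, 2477544]),
  (374, [445913, 384929, 380393]),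
  (384, [273900]),
  (390, [2252689, 2187169, 2182633]),
  (394, [417680, 352160, 347624]),
  (404, [7660]),
  (406, [2469352]),
  (410, [372201]),
  (416, [489066]),
  (432, [2371051]),
  (436, [2849480, 2555032, 2469352]),
  (440, [44523]),
  (442, [2482064, 2534872, 2469352]),
  (446, [384913, 437721, 372201]),
  (462, [273897]),
  (466, [44520]),
  (476, [7658]),
  (492, [421584]),
  (498, [2256593]),
  (502, [421584]),
  (504, [421576]),
  (508, [421576]),
  (528, [282074]),
  (534, [282073]),
  (538, [52696]),
  (570, [2178977]),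
  (574, [343968]),
  (576, [2146210]),
  (580, [2780872, 2518736, 2441120]),
  (584, [49058]),
  (586, [311200]),
  (590, [49057]),
  (600, [517155]),
  (606, [2244497, 2182617, 2178977]),
  (610, [409488, 347608, 343968]),
  (620, [8099]),
  (648, [356040]),
  (652, [356040]),
  (656, [7642]),
  (658, [311184]),
  (662, [49041]),
  (678, [273881]),
  (682, [44504]),
  (692, [7642]),
  (732, [23612401]),
  (736, [2751280]),
  (738, [23350258]),
  (742, [26731720, 26731216, 26519536]),
  (746, [391986]),
  (748, [3315696])]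

def tbl3_2 : List (ℕ × List ℕ) := [
  (752, [391985]),
  (762, [2640883]),
  (768, [18021585, 18021529, 23612401]),
  (772, [3341520, 3341464, 2751280]),
  (774, [2378739]),
  (778, [3341512, 3341400, 3315696]),
  (782, [64307]),
  (798, [281586]),
  (804, [281585]),
  (808, [52208]),
  (810, [17406964]),
  (814, [22699720, 21819232, 21810160]),
  (818, [456372]),
  (820, [26989264, 19754848, 19745776]),
  (824, [3567313, 2977633, 2968561]),
  (830, [432116]),
  (840, [29311129, 17428321, 17419249]),
  (844, [2837464, 2748256, 2739184]),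
  (846, [18053722, 17166178, 17157106]),
  (850, [22014280, 22215880, 22796488, 26989264, 20118736, 20699344, 26989208, 20118680, 20699288, 19525472, 19754848, 21819232, 19516400, 19745776, 21810160]),
  (854, [478170, 388962, 379890]),
  (856, [3373656, 2486112, 2477040]),
  (860, [445913, 388961, 379889]),
  (876, [3663889, 2191201, 2182129]),
  (882, [269300]),
  (886, [421704, 323424, 314352]),
  (890, [7156]),
  (892, [2726896]),
  (896, [456369]),
  (902, [367602]),
  (918, [2628595]),
  (922, [2748232, 2825176, 2726896]),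
  (928, [2555088, 2555032, 2726896]),
  (932, [457937, 457881, 456369]),
  (938, [39923]),
  (954, [269298]),
  (964, [39920]),
  (968, [7153]),
  (978, [3155957]),
  (984, [18018001, 25108777, 17999857]),
  (988, [3337936, 3352552, 3319792]),
  (990, [3151861]),
  (994, [3337928, 3348456, 3315696]),
  (1014, [2252250, 2254826, 2250738]),
  (1020, [2252249, 2254825, 2250737]),
  (1024, [417240, 419816, 415728]),
  (1056, [17431905, 17431849, 23612401]),
  (1060, [2751840, 2751784, 2751280]),
  (1062, [17169762, 17169706, 23350258]),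
  (1066, [22212296, 26989768, 26731720, 20115152, 26989264, 26731216, 19529056, 22786912, 20690272, 19529000, 22786856, 20690216, 26519536, 25537520, 25795568]),
  (1070, [392546, 392490, 391986]),
  (1072, [2489696, 2489640, 3315696]),
  (1076, [392545, 392489, 391985]),
  (1086, [4121635, 2641387, 2640883]),
  (1092, [29079569, 18053841, 18021585, 17456601, 18053785, 18021529, 17431905, 17495969, 17528673, 17431849, 17907177, 17528617, 23612401, 17906673, 17935345]),
  (1096, [3275664, 3373776, 3341520, 2776536, 3373720, 3341464, 2751840, 2815904, 2848608, 2751784, 3227112, 2848552, 2751280, 3226608, 3255280]),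
  (1098, [4149795, 2379243, 2378739]),
  (1102, [3276104, 3373768, 3341512, 2514392, 3373656, 3341400, 2489696, 2553760, 2586464, 2489640, 3194344, 2586408, 3315696, 3193840, 3251184]),
  (1106, [64867, 64811, 64307]),
  (1134, [2369525])]

def tbl3_3 : List (ℕ × List ℕ) := [
  (1138, [2842312, 2727400, 2726896]),
  (1142, [63157]),
  (1144, [2551504, 2469352, 2468848]),
  (1148, [454353, 372201, 371697]),
  (1154, [38901]),
  (1164, [2190297, 2178537, 2178033]),
  (1168, [355288, 343528, 343024]),
  (1170, [2153946, 2145770, 2145266]),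
  (1174, [2751816, 2817224, 2849480, 2489232, 2555088, 2587344, 2678232, 2555032, 2587288, 2440680, 2469352, 2727400, 2440176, 2468848, 2726896]),
  (1178, [60378, 48618, 48114]),
  (1180, [318936, 310760, 310256]),
  (1184, [56793, 48617, 48113]),
  (1214, [1013]),
  (1302, [272372]),
  (1308, [2256593, 3138593, 2238449]),
  (1314, [268276]),
  (1380, [272369]),
  (1384, [42992]),
  (1386, [268274]),
  (1390, [356040, 323280, 305136]),
  (1394, [6130]),
  (1396, [38896]),
  (1400, [6129]),
  (1430, [1011]),
  (1464, [417488]),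
  (1470, [2252497]),
  (1474, [417488]),
  (1476, [417480]),
  (1480, [417480]),
  (1500, [281562]),
  (1506, [281561]),
  (1510, [52184]),
  (1542, [2178913]),
  (1546, [343904]),
  (1548, [2146146]),
  (1552, [2776776, 2514640, 2441056]),
  (1556, [48994]),
  (1558, [311136]),
  (1562, [48993]),
  (1578, [3651601, 2182105, 2178913]),
  (1584, [512547]),
  (1588, [409416, 314328, 311136]),
  (1592, [8035]),
  (1620, [343880]),
  (1624, [343880]),
  (1630, [319184]),
  (1634, [57041]),
  (1640, [7129]),
  (1656, [269274]),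
  (1666, [39896]),
  (1670, [7129]),
  (1788, [272364]),
  (1794, [2252497, 3134497, 2238441]),
  (1800, [268268]),
  (1866, [272361]),
  (1870, [42984]),
  (1872, [268266]),
  (1876, [351944, 319184, 305128]),
  (1880, [6122]),
  (1882, [38888])]

def tbl3_4 : List (ℕ × List ℕ) := [
  (1886, [6121]),
  (1916, [1003]),
  (2188, [21813688]),
  (2192, [2976121]),
  (2198, [2939322]),
  (2214, [21027259]),
  (2218, [22699720, 26541208, 21813688]),
  (2222, [354683]),
  (2224, [20344528, 20344472, 21813688]),
  (2228, [3567313, 3567257, 2976121]),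
  (2234, [317883]),
  (2244, [3540409]),
  (2248, [354680]),
  (2250, [2152890]),
  (2254, [2877768, 3317648, 2677176]),
  (2258, [59770]),
  (2260, [317880]),
  (2264, [55737]),
  (2270, [3454396]),
  (2296, [20348056, 22786912, 20329912]),
  (2300, [3570841, 3650977, 3552697]),
  (2306, [3918426, 3912546, 3814266]),
  (2322, [3442108]),
  (2326, [2849096, 2847584, 2835320]),
  (2332, [2543504, 2553248, 2540984]),
  (2336, [446353, 456097, 443833]),
  (2430, [19728829]),
  (2434, [26731720, 21822760, 21813688]),
  (2438, [419069]),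
  (2440, [26989264, 19758376, 19749304]),
  (2444, [3135889, 2981161, 2972089]),
  (2460, [29311129, 17431849, 17422777]),
  (2464, [3341464, 2751784, 2742712]),
  (2466, [31375450, 17169706, 17160634]),
  (2470, [26731720, 22441672, 23022280, 26989264, 20344528, 20925136, 26989208, 20344472, 20925080, 19529000, 19758376, 21822760, 19519928, 19749304, 21813688]),
  (2474, [478170, 392490, 383418]),
  (2476, [3373656, 2489640, 2480568]),
  (2490, [394685]),
  (2496, [3663889, 2194729, 2185657]),
  (2500, [417680, 359720, 350648]),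
  (2502, [297405]),
  (2506, [421704, 326952, 317880]),
  (2510, [6589]),
  (2512, [19754848, 19754792, 21813688]),
  (2516, [2977633, 2977577, 2976121]),
  (2522, [2940834, 3831402, 2939322]),
  (2538, [18968419, 18968363, 21027259]),
  (2542, [22796488, 22792904, 22699720, 20118680, 20348056, 26541208, 19754848, 22786912, 20916064, 19754792, 22786856, 20916008, 21813688, 21928376, 20329912]),
  (2546, [356195, 356139, 354683]),
  (2548, [20441296, 19845008, 20344528, 20441240, 27208280, 20344472, 19754848, 19916128, 20295584, 19754792, 19916072, 19817960, 21813688, 20294072, 20265400]),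
  (2552, [3664081, 3067793, 3567313, 3664025, 3500505, 3567257, 2977633, 3138913, 3518369, 2977577, 3138857, 3040745, 2976121, 3516857, 3488185]),
  (2568, [2191201, 2191145, 3540409]),
  (2572, [356192, 356136, 354680]),
  (2574, [2154402, 3915882, 2152890]),
  (2578, [2781000, 3401032, 2877768, 2514832, 2543504, 3317648, 2453344, 2553248, 2614624, 2453288, 2516456, 2614568, 2677176, 2791864, 2540984]),
  (2582, [61282, 61226, 59770]),
  (2594, [308669]),
  (2620, [2555032, 2848360, 2536888]),
  (2646, [296381]),
  (2676, [2951609])]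

def tbl3_5 : List (ℕ × List ℕ) := [
  (2680, [419064]),
  (2682, [2918842]),
  (2686, [3372232, 3371728, 3351288]),
  (2706, [330171]),
  (2712, [2256593, 2256537, 2951609]),
  (2716, [421584, 421528, 419064]),
  (2718, [297403]),
  (2742, [35258]),
  (2748, [35257]),
  (2752, [6584]),
  (2754, [2143676]),
  (2758, [3400904, 2727840, 2726328]),
  (2762, [58620]),
  (2764, [2488720, 2469792, 2468280]),
  (2768, [391569, 372641, 371129]),
  (2784, [2260121, 2178977, 2177465]),
  (2788, [425112, 343968, 342456]),
  (2790, [3915866, 2146210, 2144698]),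
  (2794, [3400904, 2780872, 2877640, 2488720, 2518736, 2615504, 3400792, 2518680, 2615448, 2441120, 2469792, 2727840, 2439608, 2468280, 2726328]),
  (2798, [59866, 49058, 47546]),
  (2814, [34236]),
  (2820, [282513, 274337, 272825]),
  (2824, [53136, 44960, 43448]),
  (2834, [956]),
  (2836, [308664]),
  (2840, [46521]),
  (2862, [296379]),
  (2866, [356040, 326808, 308664]),
  (2870, [5563]),
  (2892, [34233]),
  (2896, [5560]),
  (2906, [954]),
  (2916, [21793150]),
  (2920, [26731720, 21822256, 21817720]),
  (2926, [26989264, 26523120, 26523064]),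
  (2930, [3567313, 2980657, 2976121]),
  (2936, [414462]),
  (2946, [29311129, 28321777, 28321721]),
  (2950, [3341464, 2751280, 2746744]),
  (2952, [31375450, 17995762, 17995706]),
  (2956, [26731720, 22699720, 22990024, 26989264, 26537680, 26541264, 26989208, 26537624, 26541208, 26519536, 26523120, 21822256, 26519480, 26523064, 21817720]),
  (2962, [3373656, 3315696, 3315640]),
  (2966, [445913, 391985, 387449]),
  (2976, [330110]),
  (2982, [3663889, 3540465, 3540409]),
  (2986, [417680, 359216, 354680]),
  (2988, [394110]),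
  (2992, [421704, 414704, 414648]),
  (2996, [6526]),
  (2998, [19754848, 21813744, 21813688]),
  (3002, [2977633, 3569329, 2976121]),
  (3008, [3912546, 2939378, 2939322]),
  (3024, [18968419, 21027315, 21027259]),
  (3028, [22796488, 21985608, 22699720, 20118680, 27171992, 20892824, 19754848, 20528992, 22650720, 21813744, 22008624, 21910512, 21813688, 22649208, 21910456]),
  (3034, [20441296, 20348112, 20344528, 20441240, 20348056, 20344472, 19754848, 22786912, 19869536, 21813744, 20326384, 20329968, 21813688, 20326328, 20329912]),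
  (3038, [3664081, 3570897, 3567313, 3664025, 3570841, 3567257, 2977633, 3650977, 3092321, 3569329, 3549169, 3552753, 2976121, 3549113, 3552697]),
  (3044, [319395, 317939, 317883]),
  (3054, [2191201, 3653809, 2189689]),
  (3060, [2154402, 2152946, 2152890]),
  (3064, [2781000, 2849096, 2877768, 2514832, 3396496, 2611600, 2453344, 2568032, 2847584, 2677232, 2872112, 2774000, 2677176, 2835320, 2773944])]

def tbl3_6 : List (ℕ × List ℕ) := [
  (3070, [319392, 317936, 317880]),
  (3074, [57249, 55793, 55737]),
  (3080, [340862]),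
  (3106, [2555032, 2553520, 2831224]),
  (3132, [328574]),
  (3162, [17431849, 23612401, 23612345]),
  (3166, [2751784, 2751280, 3335416]),
  (3168, [17169706, 23350258, 23350202]),
  (3172, [26989768, 26731720, 26703048, 26989264, 26731216, 26702544, 19529000, 22912296, 20819240, 19528496, 26523120, 26555376, 26907896, 26523064, 26555320]),
  (3178, [2489640, 2489136, 3363576]),
  (3192, [4137259, 2640883, 2640827]),
  (3198, [18053841, 18021585, 18018001, 18053785, 18021529, 18017945, 17431849, 25108777, 17546537, 23612401, 17999857, 18003441, 23612345, 17999801, 18003385]),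
  (3202, [3373776, 3341520, 3337936, 3373720, 3341464, 3337880, 2751784, 3352552, 2866472, 2751280, 3319792, 3323376, 3335416, 3319736, 3323320]),
  (3204, [2379243, 2378739, 2378683]),
  (3208, [3373768, 3341512, 3337928, 3373656, 3341400, 3337816, 2489640, 3348456, 2604328, 2489136, 3315696, 3322864, 3363576, 3315640, 3322808]),
  (3228, [282090, 281586, 281530]),
  (3234, [282089, 281585, 281529]),
  (3238, [52712, 52208, 52152]),
  (3240, [17149420, 17406964, 17406908]),
  (3244, [26731720, 22699720, 27190472, 22786912, 21819232, 21822816, 22786856, 21819176, 21822760, 21810160, 21813744, 21822256, 21810104, 21813688, 21817720]),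
  (3250, [20344528, 26989264, 27218640, 19916128, 19754848, 19758432, 19916072, 19754792, 19758376, 19745776, 19749360, 26523120, 19745720, 19749304, 26523064]),
  (3254, [3567313, 3135889, 3624657, 3138913, 2977633, 2981217, 3138857, 2977577, 2981161, 2968561, 2972145, 2980657, 2968505, 2972089, 2976121]),
  (3270, [18021529, 29311129, 29081753, 17528673, 17428321, 17431905, 17528617, 17428265, 17431849, 17419249, 17422833, 28321777, 17419193, 17422777, 28321721]),
  (3274, [3341464, 2837464, 3398808, 2848608, 2748256, 2751840, 2848552, 2748200, 2751784, 2739184, 2742768, 2751280, 2739128, 2742712, 2746744]),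
  (3276, [31375450, 18053722, 30916698, 17162146, 17166178, 17169762, 17157610, 17166122, 17169706, 17157106, 17160690, 17995762, 17157050, 17160634, 17995706]),
  (3280, [26731720, 26820424, 27190472, 22248136, 22215880, 22212296, 22538440, 22445256, 22441672, 22796488, 22792904, 22699720, 23025864, 23022280, 22990024, 26525584, 26989264, 27218640, 20150992, 20118736, 20115152, 20441296, 20348112, 20344528, 20699344, 20695760, 26537680, 20928720, 20925136, 26541264, 26731608, 26989208, 27218584, 20150936, 20118680, 20115096, 20441240, 20348056, 20344472, 20699288, 20695704, 26537624, 20928664, 20925080, 26541208, 19625824, 19525472, 19529056, 19916128, 19754848, 19758432, 21815200, 22786912, 23016288, 21819232, 20690272, 20686688, 21822816, 20919648, 20916064, 19625768, 19525416, 19529000, 19916072, 19754792, 19758376, 21810664, 22786856, 23016232, 21819176, 20690216, 20686632, 21822760, 20919592, 20916008, 19516400, 19519984, 26519536, 19745776, 19749360, 26523120, 21810160, 20097008, 20100592, 21813744, 20326384, 20329968, 21822256,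 22197232, 22426608, 19516344, 19519928, 26519480, 19745720, 19749304, 26523064, 21810104, 20096952, 20100536, 21813688, 20326328, 20329912, 21817720, 22197176, 22426552]),
  (3286, [2543064, 3373656, 3402328, 2482080, 2486112, 2489696, 2477544, 2486056, 2489640, 2477040, 2480624, 3315696, 2476984, 2480568, 3315640]),
  (3306, [2252689, 3663889, 3635217, 2187169, 2191201, 2194785, 2182633, 2191145, 2194729, 2182129, 2185713, 3540465, 2182073, 2185657, 3540409]),
  (3320, [7660, 7156, 7100]),
  (3322, [2469352, 2726896, 2726840]),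
  (3326, [372201, 456369, 372089]),
  (3332, [489066, 367602, 367546]),
  (3348, [2371051, 2628595, 2628539]),
  (3352, [2849480, 2748232, 2842312, 2555032, 2825176, 2612376, 2469352, 2566120, 2831336, 2726896, 2553520, 2741232, 2726840, 2831224, 2741176]),
  (3358, [2482064, 2555088, 2551504, 2534872, 2555032, 2551448, 2469352, 2848360, 2483688, 2726896, 2533360, 2536944, 2726840, 2533304, 2536888]),
  (3408, [394494]),
  (3414, [2256593, 3121457, 2254073]),
  (3420, [393982]),
  (3486, [2178977, 2951665, 2951609]),
  (3490, [343968, 343856, 419064]),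
  (3492, [2146210, 2918898, 2918842]),
  (3496, [2780872, 3400904, 3372232, 2518736, 3400400, 3371728, 2441120, 2864032, 2602400, 2441008, 3192304, 3224560, 3351288, 3192248, 3224504]),
  (3516, [517155, 330227, 330171]),
  (3522, [2244497, 2260177, 2256593, 2182617, 2260121, 2256537, 2178977, 3138593, 2193313, 2951665, 2238449, 2242033, 2951609, 2238393, 2241977]),
  (3564, [328446]),
  (3568, [356040, 340976, 340920]),
  (3572, [5374]),
  (3574, [311184, 308720, 308664]),
  (3578, [49041, 46577, 46521]),
  (3594, [273881, 272369, 272313]),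
  (3598, [44504, 42992, 42936]),
  (3608, [7642, 6130, 6074]),
  (3648, [2951545]),
  (3654, [2918778]),
  (3658, [3339464, 3338960, 3314936]),
  (3664, [414456]),
  (3678, [330107]),
  (3684, [2252497, 2252441, 2951545]),
  (3690, [297339]),
  (3694, [417480, 417368, 414456])]

def tbl3_7 : List (ℕ × List ℕ) := [
  (3714, [35194]),
  (3720, [35193]),
  (3724, [6520]),
  (3726, [2175868]),
  (3730, [2750792, 2727776, 2726264]),
  (3736, [3396304, 2469728, 2468216]),
  (3740, [446161, 372577, 371065]),
  (3746, [54012]),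
  (3756, [3653785, 2178913, 2177401]),
  (3762, [2259546, 2146146, 2144634]),
  (3766, [2750792, 2776776, 2873544, 3396304, 2514640, 2611408, 3396248, 2514584, 2611352, 2441056, 2469728, 2727776, 2439544, 2468216, 2726264]),
  (3772, [424536, 311136, 309624]),
  (3776, [55769, 48993, 47481]),
  (3792, [456721, 274273, 272761]),
  (3798, [33660]),
  (3802, [53064, 40800, 39288]),
  (3806, [892]),
  (3808, [340856]),
  (3818, [45946]),
  (3834, [328571]),
  (3844, [319184, 319128, 340856]),
  (3854, [4987]),
  (3870, [33658]),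
  (3880, [4984]),
  (3884, [889]),
  (3894, [394493]),
  (3900, [2252497, 3121449, 2249977]),
  (3906, [393981]),
  (3972, [2178913, 2178857, 2951545]),
  (3978, [2146146, 2146090, 2918778]),
  (3982, [2776776, 3396808, 3339464, 2514640, 3396304, 3338960, 2441056, 2863968, 2602336, 2441000, 2863912, 2602280, 3314936, 3192184, 3224440]),
  (3988, [311136, 311080, 414456]),
  (4008, [3651601, 2259665, 2252497, 2182105, 2259609, 2252441, 2178913, 3134497, 2193249, 2178857, 2238441, 2193193, 2951545, 2238329, 2241913]),
  (4014, [512547, 297451, 297339]),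
  (4050, [296189]),
  (4054, [343880, 340968, 340856]),
  (4060, [319184, 308712, 308600]),
  (4064, [57041, 46569, 46457]),
  (4070, [4861]),
  (4086, [269274, 268266, 268154]),
  (4096, [39896, 38888, 38776]),
  (4100, [7129, 6121, 6009]),
  (4218, [34044]),
  (4224, [282321, 390177, 279801]),
  (4230, [33532]),
  (4296, [34041]),
  (4300, [5368]),
  (4302, [33530]),
  (4306, [44744, 40656, 38136]),
  (4310, [762]),
  (4312, [4856]),
  (4316, [761]),
  (4376, [445593]),
  (4402, [2542744]),
  (4406, [445593]),
  (4412, [477786]),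
  (4428, [354632]),
  (4432, [354632]),
  (4438, [317840]),
  (4442, [55697])]

def tbl3_8 : List (ℕ × List ℕ) := [
  (4618, [2469160]),
  (4622, [372009]),
  (4644, [2370859]),
  (4648, [2837192, 2542744, 2469160]),
  (4652, [44331]),
  (4654, [2480528, 3353176, 2469160]),
  (4674, [273705]),
  (4678, [44328]),
  (4680, [475242]),
  (4684, [419144, 317840, 306472]),
  (4688, [7466]),
  (4700, [468588]),
  (4726, [2542744, 2536864, 2836072]),
  (4752, [467052]),
  (4860, [419016]),
  (4864, [419016]),
  (4890, [281753]),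
  (4894, [52376]),
  (4896, [475226]),
  (4920, [6544]),
  (4926, [35217]),
  (4930, [6544]),
  (4942, [308640]),
  (4946, [46497]),
  (4968, [296355]),
  (4972, [354504, 314520, 308640]),
  (4976, [5539]),
  (4998, [34209]),
  (5002, [5536]),
  (5012, [930]),
  (5104, [2726704]),
  (5114, [367410]),
  (5130, [2628403]),
  (5134, [2746696, 3316888, 2726704]),
  (5140, [2542800, 2542744, 2726704]),
  (5150, [39731]),
  (5160, [442545]),
  (5166, [269106]),
  (5170, [354632, 414608, 334640]),
  (5176, [39728]),
  (5180, [6961]),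
  (5186, [431796]),
  (5212, [2542744, 2831200, 2541232]),
  (5238, [430260]),
  (5346, [2466101]),
  (5350, [3335368, 2727208, 2726704]),
  (5356, [3363536, 2469160, 2468656]),
  (5376, [3621017, 2178345, 2177841]),
  (5380, [416920, 343336, 342832]),
  (5382, [3850330, 2145578, 2145074]),
  (5386, [3335368, 2804936, 2837192, 3363536, 2542800, 2575056, 3363480, 2542744, 2575000, 2440488, 2469160, 2727208, 2439984, 2468656, 2726704]),
  (5392, [420440, 310568, 310064]),
  (5406, [49333]),
  (5412, [452625, 273705, 273201]),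
  (5416, [52112, 44328, 43824]),
  (5418, [37173]),
  (5422, [52552, 40232, 39728]),
  (5426, [821]),
  (5428, [2469216, 2469160, 2726704]),
  (5454, [2370915, 2370859, 2628403])]

def tbl3_9 : List (ℕ × List ℕ) := [
  (5458, [2840776, 2837192, 2746696, 2514072, 2542744, 3316888, 2469216, 2831200, 2565984, 2469160, 2831144, 2565928, 2726704, 2741040, 2541232]),
  (5464, [2549968, 2480528, 2542800, 2549912, 3353176, 2542744, 2469216, 2483552, 2536864, 2469160, 2483496, 2836072, 2726704, 2536752, 2533168]),
  (5484, [273761, 273705, 442545]),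
  (5490, [269218, 475242, 269106]),
  (5510, [38581]),
  (5536, [318616, 353896, 317104]),
  (5562, [37045]),
  (5592, [368945]),
  (5598, [364850]),
  (5622, [41267]),
  (5628, [281809, 281753, 368945]),
  (5634, [37171]),
  (5658, [4402]),
  (5664, [4401]),
  (5668, [816]),
  (5670, [267956]),
  (5674, [419016, 340896, 340784]),
  (5700, [281753, 272289, 272177]),
  (5704, [52376, 42912, 42800]),
  (5706, [475226, 268194, 268082]),
  (5730, [4276]),
  (5736, [35217, 34209, 34097]),
  (5740, [6544, 5536, 5424]),
  (5752, [38576]),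
  (5756, [5809]),
  (5778, [37043]),
  (5782, [44232, 40088, 38576]),
  (5786, [691]),
  (5808, [4273]),
  (5812, [688]),
  (5832, [414416]),
  (5842, [414416]),
  (5862, [442521]),
  (5868, [281178]),
  (5878, [51800]),
  (5898, [55313]),
  (5904, [6472]),
  (5908, [6472]),
  (5914, [340832]),
  (5924, [45922]),
  (5940, [328547]),
  (5950, [317648, 317592, 340832]),
  (5960, [4963]),
  (5976, [33634]),
  (5986, [4960]),
  (5990, [865]),
  (6078, [368937]),
  (6084, [364842]),
  (6108, [41259]),
  (6114, [281297, 281241, 368937]),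
  (6120, [37163]),
  (6144, [4394]),
  (6150, [4393]),
  (6154, [808]),
  (6156, [271980]),
  (6166, [414416, 308576, 308520]),
  (6186, [442521, 272225, 272169]),
  (6192, [281178, 268130, 268074]),
  (6202, [51800, 38752, 38696]),
  (6222, [55313, 34145, 34089])]

def tbl3_10 : List (ℕ × List ℕ) := [
  (6228, [4204]),
  (6232, [6472, 4960, 4904]),
  (6238, [42600]),
  (6248, [5738]),
  (6264, [41067]),
  (6274, [39632, 39576, 42600]),
  (6284, [619]),
  (6300, [4202]),
  (6310, [616]),
  (6402, [46113]),
  (6408, [45602]),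
  (6432, [5155]),
  (6438, [35025, 34969, 46113]),
  (6444, [4643]),
  (6468, [546]),
  (6474, [545]),
  (6480, [5320]),
  (6484, [5320]),
  (6490, [4816]),
  (6494, [721]),
  (6510, [4249]),
  (6514, [664]),
  (6516, [4186]),
  (6520, [5320, 4816, 4760]),
  (6526, [600]),
  (6546, [529]),
  (6560, [1])]

def tbl3 : List (ℕ × List ℕ) := tbl3_0 ++ tbl3_1 ++ tbl3_2 ++ tbl3_3 ++ tbl3_4 ++ tbl3_5 ++ tbl3_6 ++ tbl3_7 ++ tbl3_8 ++ tbl3_9 ++ tbl3_10

/-- bit `c` is set iff the code `c` is in the table -/
def bm3 : ℕ := 0x1000400004114400044110410000010410000010400000000000000000000004010001004010001004110400004010400004014410000010410000010400000000000000000000044010001004010001004110400004010400004010000110000044400001100110400000510000004510400000410400000410000000400000100000040000410000104400000144510400104510000104400000000000000000000000000400000100000041104410040104400040100000000000000000000001004400001110000044004410000014400000110000000000000000000000000010000004000001001114400005110000044000000000000000000000000000000000000000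00004411000104400000100000000000000114451000000000000000041040000000000000000000000000000110040004110440000000041000010441000000000000000041040110040004010040004014441000110441004110451040000441040010441000000000100440004511000000000041000011440000000000000001041000000000000411000104500040000411440004411441000011441000411440000001000000400000104411040104411000104511441004411440104411004011000004440000114011040004451000114451040000051040000451000000040000010000004004451000114440004114451040014451000114440000000000000000000000110440004110000004114451004114440004110000000000000000000000000000000000000000000000000000000000000000000100000004511440000000000000001041000000000000000000000000000004401000104411000000111040004511440000000441000011441000000004000000114451000000000000000041040000000000000000000004000000114451004114440000004451040114451000000011040000451040110040004110440004114441000114451004114451040004451040114451000000000100440004511000000100441004511440000000441000011441000100440004511000104500441004511440104511441000111441004511440004411000104400000104511440104511000104511441004511440104511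

def sum8 (c : ℕ) : ℕ := dg c 0 + dg c 1 + dg c 2 + dg c 3 + dg c 4 + dg c 5 + dg c 6 + dg c 7

def chkE (e : ℕ × List ℕ) : Bool := Nat.blt e.1 6561 && sum8 e.1 % 2 == 0 && chkD 3 e.1 (e.2.map (decL 9 8))

theorem tbl3_0_ok : tbl3_0.all chkE = true := by decide +kernel
theorem tbl3_1_ok : tbl3_1.all chkE = true := by decide +kernel
theorem tbl3_2_ok : tbl3_2.all chkE = true := by decide +kernel
theorem tbl3_3_ok : tbl3_3.all chkE = true := by decide +kernel
theorem tbl3_4_ok : tbl3_4.all chkE = true := by decide +kernel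
theorem tbl3_5_ok : tbl3_5.all chkE = true := by decide +kernel
theorem tbl3_6_ok : tbl3_6.all chkE = true := by decide +kernel
theorem tbl3_7_ok : tbl3_7.all chkE = true := by decide +kernel
theorem tbl3_8_ok : tbl3_8.all chkE = true := by decide +kernel
theorem tbl3_9_ok : tbl3_9.all chkE = true := by decide +kernel
theorem tbl3_10_ok : tbl3_10.all chkE = true := by decide +kernel

theorem bm3_ok : tbl3.foldl (fun a e => a ||| 2 ^ e.1) 0 = bm3 := by decide +kernel

end Pool.Agent.Locke
end

section

/-! # Locke's conjecture, base facts: certificates in dimension 4 -/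

namespace Pool.Agent.Locke

/-- index of `ins i b x` when `x` has index `k` -/
def insK (i b k : ℕ) : ℕ := k % 2 ^ i + b * 2 ^ i + k / 2 ^ i * 2 ^ (i + 1)

/-- the code of a half plus the 0/1 code `s`; `L` lists the powers of 3 of the positions -/
def hc : List ℕ → ℕ → ℕ → ℕ
  | [], _, _ => 0
  | P :: L, c, s => (c / P % 3 + s % 3) + 3 * hc L c (s / 3)

/-- `s` is a 0/1 code supported where the half vanishes -/
def okc : List ℕ → ℕ → ℕ → Bool
  | [], _, s => s == 0
  | P :: L, c, s => (s % 3 == 0 || (s % 3 == 1 && c / P % 3 == 0)) && okc L c (s / 3)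

def tab3 (c : ℕ) : Bool := Nat.testBit bm3 c

/-- certificates for goodness in dimension 4 -/
inductive Cert : Type
  | sp (i s : ℕ) : Cert
  | ed (u v w : ℕ) (r : Cert) : Cert
  | tw (u v v' : ℕ) (r r' : Cert) : Cert

/-- powers of 3 of the positions of the half `x i = b` of the 4-cube -/
def pl4 : ℕ → Bool → List ℕ
  | 0, false => [1, 9, 81, 729, 6561, 59049, 531441, 4782969]
  | 0, true => [3, 27, 243, 2187, 19683, 177147, 1594323, 14348907]
  | 1, false => [1, 3, 81, 243, 6561, 19683, 531441, 1594323]
  | 1, true => [9, 27, 729, 2187, 59049, 177147, 4782969, 14348907]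
  | 2, false => [1, 3, 9, 27, 6561, 19683, 59049, 177147]
  | 2, true => [81, 243, 729, 2187, 531441, 1594323, 4782969, 14348907]
  | 3, false => [1, 3, 9, 27, 81, 243, 729, 2187]
  | 3, true => [6561, 19683, 59049, 177147, 531441, 1594323, 4782969, 14348907]
  | _, _ => []

/-- powers of 3 of the positions of the half `x i = b` of the 5-cube -/
def pl5 : ℕ → Bool → List ℕ
  | 0, false => [1, 9, 81, 729, 6561, 59049, 531441, 4782969, 43046721, 387420489, 3486784401, 31381059609, 282429536481, 2541865828329, 22876792454961, 205891132094649]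
  | 0, true => [3, 27, 243, 2187, 19683, 177147, 1594323, 14348907, 129140163, 1162261467, 10460353203, 94143178827, 847288609443, 7625597484987, 68630377364883, 617673396283947]
  | 1, false => [1, 3, 81, 243, 6561, 19683, 531441, 1594323, 43046721, 129140163, 3486784401, 10460353203, 282429536481, 847288609443, 22876792454961, 68630377364883]
  | 1, true => [9, 27, 729, 2187, 59049, 177147, 4782969, 14348907, 387420489, 1162261467, 31381059609, 94143178827, 2541865828329, 7625597484987, 205891132094649, 617673396283947]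
  | 2, false => [1, 3, 9, 27, 6561, 19683, 59049, 177147, 43046721, 129140163, 387420489, 1162261467, 282429536481, 847288609443, 2541865828329, 7625597484987]
  | 2, true => [81, 243, 729, 2187, 531441, 1594323, 4782969, 14348907, 3486784401, 10460353203, 31381059609, 94143178827, 22876792454961, 68630377364883, 205891132094649, 617673396283947]
  | 3, false => [1, 3, 9, 27, 81, 243, 729, 2187, 43046721, 129140163, 387420489, 1162261467, 3486784401, 10460353203, 31381059609, 94143178827]
  | 3, true => [6561, 19683, 59049, 177147, 531441, 1594323, 4782969, 14348907, 282429536481, 847288609443, 2541865828329, 7625597484987, 22876792454961, 68630377364883, 205891132094649, 617673396283947]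
  | 4, false => [1, 3, 9, 27, 81, 243, 729, 2187, 6561, 19683, 59049, 177147, 531441, 1594323, 4782969, 14348907]
  | 4, true => [43046721, 129140163, 387420489, 1162261467, 3486784401, 10460353203, 31381059609, 94143178827, 282429536481, 847288609443, 2541865828329, 7625597484987, 22876792454961, 68630377364883, 205891132094649, 617673396283947]
  | _, _ => []

def chkS (i s c : ℕ) : Bool :=
  Nat.blt i 4 && !(Nat.beq s 0) && okc (pl4 i false) c s && okc (pl4 i true) c s &&
    tab3 (hc (pl4 i false) c s) && tab3 (hc (pl4 i true) c s)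

def chk4 : Cert → ℕ → Bool
  | .sp i s, c => chkS i s c
  | .ed u v w r, c => Nat.blt u 16 && Nat.blt v 16 && Nat.blt w 16 && isAdj 4 u v &&
      Nat.ble (dg c u + dg c v) 1 && !(Nat.beq w u) && !(Nat.beq w v) && Nat.ble (dg c w) 1 &&
      chk4 r (c + 3 ^ u + 3 ^ v)
  | .tw u v v' r r', c => Nat.blt u 16 && Nat.blt v 16 && Nat.blt v' 16 && isAdj 4 u v &&
      isAdj 4 u v' && !(Nat.beq v v') && Nat.beq (dg c u) 1 && Nat.ble (dg c v) 1 &&
      Nat.ble (dg c v') 1 && chk4 r (c + 3 ^ u + 3 ^ v) && chk4 r' (c + 3 ^ u + 3 ^ v')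

/-- all codes with digits at most 2 on the positions `ks`, of total weight `w` -/
def allCodes : List ℕ → ℕ → List ℕ
  | [], w => if w = 0 then [0] else []
  | k :: ks, w => allCodes ks w ++ (if 1 ≤ w then (allCodes ks (w - 1)).map (· + 3 ^ k) else []) ++
      (if 2 ≤ w then (allCodes ks (w - 2)).map (· + 2 * 3 ^ k) else [])

/-- the even (class `false`) and odd (class `true`) indices of the 4-cube -/
def ev4 : List ℕ := [0, 3, 5, 6, 9, 10, 12, 15]
def od4 : List ℕ := [1, 2, 4, 7, 8, 11, 13, 14]

/-- exchange the bits `i` and `j` -/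
def swapK (i j k : ℕ) : ℕ :=
  if k.testBit i == k.testBit j then k else k ^^^ 2 ^ i ^^^ 2 ^ j

/-- the automorphism with code `h = t + 16 * (a + 4 * (b + 4 * c))` -/
def gK (h k : ℕ) : ℕ :=
  (swapK 2 (h / 256 % 4) (swapK 1 (h / 64 % 4) (swapK 0 (h / 16 % 4) k))) ^^^ (h % 16)

/-- `b` is carried to `r` on the odd positions by `gK h`, and `h` preserves the classes -/
def chkG (r b h : ℕ) : Bool :=
  ev4.contains (h % 16) && od4.all fun k => dg r k == dg b (gK h k)

/-- the lowest `F` hexadecimal digits -/
def digs : ℕ → ℕ → List ℕ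
  | 0, _ => []
  | F + 1, N => (N % 16) :: digs F (N / 16)

/-- raising the even vertices `us` of the weight with odd part `r` and even part `w` gives a weight
certified by `ct` -/
def leafU (F : ℕ) (us : List ℕ) (r w : ℕ) (ct : Cert) : Bool :=
  Nat.beq us.length F && decide us.Nodup &&
    us.all (fun k => ev4.contains k && Nat.beq (dg w k) 0) &&
    chk4 ct (us.foldl (fun a k => a + 3 ^ k) (r + w))

def leafOK (F r : ℕ) (sp : List (ℕ × List ℕ × Cert)) (w N : ℕ) : Bool :=
  if N = 0 then sp.any fun q => Nat.beq q.1 w && leafU F q.2.1 r w q.2.2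
  else leafU F (digs F N) r w (.sp (N / 16 ^ F % 4) (N / 16 ^ F / 4))

/-- decode `f` digits in base `2^24` -/
def decB : ℕ → ℕ → List ℕ
  | 0, _ => []
  | f + 1, N => (N % 16777216) :: decB f (N / 16777216)

/-- every even part `w` of weight 4 can be completed by `F` even vertices when the odd part is `r` -/
def repOK (F r : ℕ) (sp : List (ℕ × List ℕ × Cert)) (N : ℕ) : Bool :=
  ((allCodes ev4 4).zip (decB 266 N)).all fun q => leafOK F r sp q.1 q.2

/-- hints: `h * 16 + j`, `j` the index of the representative -/
def hintOK (reps : List ℕ) (F : ℕ) (hints : List ℕ) : Bool :=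
  (reps.all fun r => Nat.beq r (od4.map fun k => dg r k * 3 ^ k).sum) && Nat.beq hints.length (allCodes od4 (4 + F)).length &&
    ((allCodes od4 (4 + F)).zip hints).all fun q =>
      Nat.blt (q.2 % 16) reps.length && chkG (reps.getD (q.2 % 16) 0) q.1 (q.2 / 16)

end Pool.Agent.Locke
end

section

/-! # Locke's conjecture, base facts: soundness of the table of dimension 3, and `EL 3` -/

namespace Pool.Agent.Locke

lemma tab3_foldl (l : List (ℕ × List ℕ)) (a c : ℕ)
    (h : Nat.testBit (l.foldl (fun a e => a ||| 2 ^ e.1) a) c = true) :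
    Nat.testBit a c = true ∨ ∃ e ∈ l, e.1 = c := by
  induction l generalizing a with
  | nil => left; simpa using h
  | cons e l ih =>
    rw [List.foldl_cons] at h
    rcases ih _ h with h1 | ⟨e', he', h2⟩
    · rw [Nat.testBit_or, Bool.or_eq_true] at h1
      rcases h1 with h1 | h1
      · exact Or.inl h1
      · right
        rw [Nat.testBit_two_pow] at h1
        refine ⟨e, List.mem_cons_self, ?_⟩
        simpa using h1
    · exact Or.inr ⟨e', List.mem_cons_of_mem _ he', h2⟩

lemma tab3_entry {e : ℕ × List ℕ} (he : e ∈ tbl3) : chkE e = true := by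
  unfold tbl3 at he
  simp only [List.mem_append] at he
  rcases he with (((((((((he | he) | he) | he) | he) | he) | he) | he) | he) | he) | he
  · exact List.all_eq_true.1 tbl3_0_ok e he
  · exact List.all_eq_true.1 tbl3_1_ok e he
  · exact List.all_eq_true.1 tbl3_2_ok e he
  · exact List.all_eq_true.1 tbl3_3_ok e he
  · exact List.all_eq_true.1 tbl3_4_ok e he
  · exact List.all_eq_true.1 tbl3_5_ok e he
  · exact List.all_eq_true.1 tbl3_6_ok e he
  · exact List.all_eq_true.1 tbl3_7_ok e he
  · exact List.all_eq_true.1 tbl3_8_ok e he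
  · exact List.all_eq_true.1 tbl3_9_ok e he
  · exact List.all_eq_true.1 tbl3_10_ok e he

lemma tab3_sum8 (c : ℕ) : ∑ x, wt 3 c x = sum8 c := by
  rw [sum_vtx]
  have h : ∀ k ∈ Finset.range (2 ^ 3), wt 3 c (vtx 3 k) = dg c k := by
    intro k hk
    exact wt_vtx c (Finset.mem_range.1 hk)
  rw [Finset.sum_congr rfl h]
  have h8 : (2 : ℕ) ^ 3 = 8 := by norm_num
  rw [h8]
  unfold sum8
  simp only [Finset.sum_range_succ, Finset.sum_range_zero, zero_add]

theorem tab3_sound {c : ℕ} (h : tab3 c = true) :
    Good (wt 3 c) ∧ Even (∑ x, wt 3 c x) := by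
  unfold tab3 at h
  rw [← bm3_ok] at h
  rcases tab3_foldl _ _ _ h with h1 | ⟨e, he, hc⟩
  · simp at h1
  · have h2 := tab3_entry he
    unfold chkE at h2
    rw [hc] at h2
    simp only [Bool.and_eq_true, beq_iff_eq] at h2
    obtain ⟨⟨h3, h4⟩, h5⟩ := h2
    refine ⟨chkD_sound h5, ?_⟩
    rw [tab3_sum8]
    exact Nat.even_iff.2 h4

def tab3el (c : ℕ) : Bool :=
  !(Nat.beq (dg c 1 + dg c 2 + dg c 4 + dg c 7) (dg c 0 + dg c 3 + dg c 5 + dg c 6)) ||
  !(Nat.ble (dg c 1 + dg c 2 + dg c 4 + dg c 7) 2) || tab3 c

lemma tab3el_ok : (List.range 6561).all tab3el = true := by decide +kernel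

lemma tab3_filter_true : (Finset.range (2 ^ 3)).filter (fun k => par (vtx 3 k) = true) =
    {1, 2, 4, 7} := by decide +kernel

lemma tab3_filter_false : (Finset.range (2 ^ 3)).filter (fun k => par (vtx 3 k) = false) =
    {0, 3, 5, 6} := by decide +kernel

theorem el3 : EL 3 := by
  intro ω hω hb hW
  obtain ⟨c, hc, rfl⟩ := exists_code ω hω
  have hT : W true (wt 3 c) = dg c 1 + dg c 2 + dg c 4 + dg c 7 := by
    rw [W_vtx, tab3_filter_true]
    rw [Finset.sum_insert (by decide), Finset.sum_insert (by decide),
      Finset.sum_insert (by decide), Finset.sum_singleton]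
    rw [wt_vtx c (by norm_num), wt_vtx c (by norm_num), wt_vtx c (by norm_num),
      wt_vtx c (by norm_num)]
    ring
  have hF : W false (wt 3 c) = dg c 0 + dg c 3 + dg c 5 + dg c 6 := by
    rw [W_vtx, tab3_filter_false]
    rw [Finset.sum_insert (by decide), Finset.sum_insert (by decide),
      Finset.sum_insert (by decide), Finset.sum_singleton]
    rw [wt_vtx c (by norm_num), wt_vtx c (by norm_num), wt_vtx c (by norm_num),
      wt_vtx c (by norm_num)]
    ring
  have hc' : c ∈ List.range 6561 := by
    rw [List.mem_range]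
    have : (3 : ℕ) ^ 2 ^ 3 = 6561 := by norm_num
    omega
  have h := List.all_eq_true.1 tab3el_ok c hc'
  unfold tab3el at h
  rw [hT, hF] at hb
  rw [hT] at hW
  have h1 : Nat.beq (dg c 1 + dg c 2 + dg c 4 + dg c 7) (dg c 0 + dg c 3 + dg c 5 + dg c 6)
      = true := by
    rw [hb]; exact Nat.beq_refl _
  have h2 : Nat.ble (dg c 1 + dg c 2 + dg c 4 + dg c 7) 2 = true := by
    rw [Nat.ble_eq]; omega
  rw [h1, h2] at h
  simp only [Bool.not_true, Bool.false_or] at h
  exact (tab3_sound h).1

end Pool.Agent.Locke
end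

section

/-! # Locke's conjecture, base facts: soundness of the certificates of dimension 4 -/

namespace Pool.Agent.Locke

lemma chk4S_dg_zero (c : ℕ) : dg c 0 = c % 3 := by
  simp [dg]

lemma chk4S_dg_succ (c k : ℕ) : dg c (k + 1) = dg (c / 3) k := by
  unfold dg
  rw [pow_succ', Nat.div_div_eq_div_mul]

lemma chk4S_okc_sound (c : ℕ) : ∀ (L : List ℕ) (s : ℕ), okc L c s = true → ∀ k < L.length,
    (dg s k = 0 ∨ (dg s k = 1 ∧ c / L.getD k 0 % 3 = 0)) ∧
      dg (hc L c s) k = c / L.getD k 0 % 3 + dg s k := by
  intro L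
  induction L with
  | nil =>
    intro s _ k hk
    exact absurd hk (Nat.not_lt_zero k)
  | cons P L ih =>
    intro s hs k hk
    rw [okc, Bool.and_eq_true, Bool.or_eq_true, Bool.and_eq_true, beq_iff_eq, beq_iff_eq,
      beq_iff_eq] at hs
    obtain ⟨h1, h2⟩ := hs
    have h3 : c / P % 3 < 3 := Nat.mod_lt _ (by norm_num)
    cases k with
    | zero =>
      rw [chk4S_dg_zero, chk4S_dg_zero, hc, List.getD_cons_zero]
      refine ⟨h1, ?_⟩
      omega
    | succ k =>
      rw [chk4S_dg_succ, chk4S_dg_succ, List.getD_cons_succ]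
      have h4 := ih (s / 3) h2 k (by simpa using hk)
      refine ⟨h4.1, ?_⟩
      have h5 : hc (P :: L) c s / 3 = hc L c (s / 3) := by
        rw [hc]
        omega
      rw [h5]
      exact h4.2

lemma chk4S_okc_zero (c : ℕ) : ∀ (L : List ℕ) (s : ℕ), okc L c s = true →
    (∀ k < L.length, dg s k = 0) → s = 0 := by
  intro L
  induction L with
  | nil =>
    intro s hs _
    rw [okc, beq_iff_eq] at hs
    exact hs
  | cons P L ih =>
    intro s hs h0
    rw [okc, Bool.and_eq_true] at hs
    have h1 := ih (s / 3) hs.2 (by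
      intro k hk
      rw [← chk4S_dg_succ]
      exact h0 (k + 1) (by simpa using hk))
    have h2 := h0 0 (by simp)
    rw [chk4S_dg_zero] at h2
    omega

lemma chk4S_beq {a b : ℕ} (h : Nat.beq a b = false) : a ≠ b := by
  rintro rfl
  rw [Nat.beq_refl] at h
  exact absurd h (by decide)

lemma chk4S_pl4 : ∀ (i : Fin 4) (b : Bool) (k : Fin 8),
    (pl4 i b).length = 8 ∧ (pl4 i b).getD k 0 = 3 ^ idx (ins i b (vtx 3 k)) := by
  decide +kernel

lemma chk4S_pl5 : ∀ (i : Fin 5) (b : Bool) (k : Fin 16),
    (pl5 i b).length = 16 ∧ (pl5 i b).getD k 0 = 3 ^ idx (ins i b (vtx 4 k)) := by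
  decide +kernel

/-- the halves of a 4-dimensional weight, with a set `C` (code `s`) added -/
theorem hc4_sound {c s : ℕ} (i : Fin 4) (b : Bool) (h : okc (pl4 i b) c s = true) :
    (∀ x : V 3, dg s (idx x) = 0 ∨ (dg s (idx x) = 1 ∧ half i b (wt 4 c) x = 0)) ∧
      plus (half i b (wt 4 c)) (Finset.univ.filter fun x : V 3 => dg s (idx x) = 1) =
        wt 3 (hc (pl4 i b) c s) := by
  have key : ∀ x : V 3, (dg s (idx x) = 0 ∨ (dg s (idx x) = 1 ∧ half i b (wt 4 c) x = 0)) ∧
      wt 3 (hc (pl4 i b) c s) x = half i b (wt 4 c) x + dg s (idx x) := by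
    intro x
    obtain ⟨h1, h2⟩ := chk4S_pl4 i b ⟨idx x, idx_lt x⟩
    have h3 := chk4S_okc_sound c (pl4 i b) s h (idx x) (by rw [h1]; exact idx_lt x)
    change (pl4 i b).getD (idx x) 0 = 3 ^ idx (ins i b (vtx 3 (idx x))) at h2
    rw [vtx_idx] at h2
    rw [h2] at h3
    exact h3
  refine ⟨fun x => (key x).1, ?_⟩
  funext x
  rw [(key x).2]
  unfold plus ind
  rcases (key x).1 with h1 | ⟨h1, _⟩
  · rw [h1, if_neg]
    simp [h1]
  · rw [h1, if_pos]
    simp [h1]

theorem hc5_sound {c s : ℕ} (i : Fin 5) (b : Bool) (h : okc (pl5 i b) c s = true) :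
    (∀ x : V 4, dg s (idx x) = 0 ∨ (dg s (idx x) = 1 ∧ half i b (wt 5 c) x = 0)) ∧
      plus (half i b (wt 5 c)) (Finset.univ.filter fun x : V 4 => dg s (idx x) = 1) =
        wt 4 (hc (pl5 i b) c s) := by
  have key : ∀ x : V 4, (dg s (idx x) = 0 ∨ (dg s (idx x) = 1 ∧ half i b (wt 5 c) x = 0)) ∧
      wt 4 (hc (pl5 i b) c s) x = half i b (wt 5 c) x + dg s (idx x) := by
    intro x
    obtain ⟨h1, h2⟩ := chk4S_pl5 i b ⟨idx x, idx_lt x⟩
    have h3 := chk4S_okc_sound c (pl5 i b) s h (idx x) (by rw [h1]; exact idx_lt x)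
    change (pl5 i b).getD (idx x) 0 = 3 ^ idx (ins i b (vtx 4 (idx x))) at h2
    rw [vtx_idx] at h2
    rw [h2] at h3
    exact h3
  refine ⟨fun x => (key x).1, ?_⟩
  funext x
  rw [(key x).2]
  unfold plus ind
  rcases (key x).1 with h1 | ⟨h1, _⟩
  · rw [h1, if_neg]
    simp [h1]
  · rw [h1, if_pos]
    simp [h1]

theorem chkS_sound {i s c : ℕ} (h : chkS i s c = true) : Good (wt 4 c) := by
  unfold chkS at h
  simp only [Bool.and_eq_true, Nat.blt_eq, Bool.not_eq_true'] at h
  obtain ⟨⟨⟨⟨⟨hi, hs⟩, h0⟩, h1⟩, t0⟩, t1⟩ := h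
  have a0 := hc4_sound (c := c) (s := s) ⟨i, hi⟩ false h0
  have a1 := hc4_sound (c := c) (s := s) ⟨i, hi⟩ true h1
  refine good_of_split (⟨i, hi⟩ : Fin 4) (wt 4 c) (wt_le c)
    (Finset.univ.filter fun x : V 3 => dg s (idx x) = 1) ?_ ?_ ?_ ?_ ?_
  · by_contra hne
    rw [Finset.not_nonempty_iff_eq_empty, Finset.filter_eq_empty_iff] at hne
    apply chk4S_beq hs
    apply chk4S_okc_zero c (pl4 i false) s h0
    intro k hk
    have hlen := (chk4S_pl4 ⟨i, hi⟩ false 0).1
    rw [hlen] at hk
    have h2 := hne (Finset.mem_univ (vtx 3 k))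
    rw [idx_vtx (n := 3) hk] at h2
    have h3 := a0.1 (vtx 3 k)
    rw [idx_vtx (n := 3) hk] at h3
    rcases h3 with h3 | ⟨h3, _⟩
    · exact h3
    · exact absurd h3 h2
  · intro x hx b
    rw [Finset.mem_filter] at hx
    cases b
    · rcases a0.1 x with h3 | ⟨_, h3⟩
      · rw [h3] at hx
        exact absurd hx.2 (by norm_num)
      · exact h3
    · rcases a1.1 x with h3 | ⟨_, h3⟩
      · rw [h3] at hx
        exact absurd hx.2 (by norm_num)
      · exact h3
  · rw [a0.2]
    exact (tab3_sound t0).1
  · rw [a1.2]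
    exact (tab3_sound t1).1
  · rw [a0.2]
    exact (tab3_sound t0).2

lemma chk4S_addEdge {c u v : ℕ} (hu : u < 16) (hv : v < 16) (huv : u ≠ v) (h1 : dg c u ≤ 1)
    (h2 : dg c v ≤ 1) :
    addEdge (wt 4 c) (vtx 4 u) (vtx 4 v) = wt 4 (c + 3 ^ u + 3 ^ v) := by
  funext x
  have e1 : ∀ w, w < 16 → (x = vtx 4 w ↔ idx x = w) := by
    intro w hw
    constructor
    · rintro rfl
      exact idx_vtx (n := 4) hw
    · rintro rfl
      exact (vtx_idx x).symm
  have e2 : dg (c + 3 ^ u) v ≤ 1 := by
    rw [dg_add_pow c u v h1, if_neg huv.symm]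
    exact h2
  unfold addEdge wt
  rw [dg_add_pow (c + 3 ^ u) v (idx x) e2, dg_add_pow c u (idx x) h1]
  simp only [e1 u hu, e1 v hv]

lemma chk4S_ne {u v : ℕ} (hu : u < 16) (hv : v < 16) (h : (Q 4).Adj (vtx 4 u) (vtx 4 v)) :
    u ≠ v := by
  rintro rfl
  exact (Q 4).loopless.irrefl _ h

theorem chk4_sound (ct : Cert) (c : ℕ) (h : chk4 ct c = true) : Good (wt 4 c) := by
  induction ct generalizing c with
  | sp i s => exact chkS_sound h
  | ed u v w r ih =>
    unfold chk4 at h
    simp only [Bool.and_eq_true, Nat.blt_eq, Bool.not_eq_true',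
      Nat.ble_eq] at h
    obtain ⟨⟨⟨⟨⟨⟨⟨⟨hu, hv⟩, hw⟩, hadj⟩, hd⟩, hwu⟩, hwv⟩, hdw⟩, hr⟩ := h
    rw [isAdj_iff (n := 4) hu hv] at hadj
    have huv := chk4S_ne hu hv hadj
    refine good_of_addEdge (w := vtx 4 w) hadj ?_ ?_ ?_ ?_ ?_
    · rw [wt_vtx (n := 4) c hu, wt_vtx (n := 4) c hv]
      exact hd
    · intro h1
      apply chk4S_beq hwu
      rw [← idx_vtx (n := 4) hw, h1, idx_vtx (n := 4) hu]
    · intro h1
      apply chk4S_beq hwv
      rw [← idx_vtx (n := 4) hw, h1, idx_vtx (n := 4) hv]
    · rw [wt_vtx (n := 4) c hw]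
      exact hdw
    · rw [chk4S_addEdge hu hv huv (by omega) (by omega)]
      exact ih _ hr
  | tw u v v' r r' ih ih' =>
    unfold chk4 at h
    simp only [Bool.and_eq_true, Nat.blt_eq, Bool.not_eq_true',
      Nat.ble_eq, Nat.beq_eq] at h
    obtain ⟨⟨⟨⟨⟨⟨⟨⟨⟨⟨hu, hv⟩, hv'⟩, hadj⟩, hadj'⟩, hvv⟩, hdu⟩, hdv⟩, hdv'⟩, hr⟩, hr'⟩ := h
    rw [isAdj_iff (n := 4) hu hv] at hadj
    rw [isAdj_iff (n := 4) hu hv'] at hadj'
    have huv := chk4S_ne hu hv hadj
    have huv' := chk4S_ne hu hv' hadj'
    refine good_of_two hadj hadj' ?_ ?_ ?_ ?_ ?_ ?_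
    · intro h1
      apply chk4S_beq hvv
      rw [← idx_vtx (n := 4) hv, h1, idx_vtx (n := 4) hv']
    · rw [wt_vtx (n := 4) c hu]
      exact hdu
    · rw [wt_vtx (n := 4) c hv]
      exact hdv
    · rw [wt_vtx (n := 4) c hv']
      exact hdv'
    · rw [chk4S_addEdge hu hv huv (by omega) hdv]
      exact ih _ hr
    · rw [chk4S_addEdge hu hv' huv' (by omega) hdv']
      exact ih' _ hr'

end Pool.Agent.Locke
end

section

/-! # Locke's conjecture, base facts: lists of codes and normalisation in dimension 4 -/

namespace Pool.Agent.Locke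

lemma mem_allCodes (ks : List ℕ) (f : ℕ → ℕ) (hf : ∀ k, f k ≤ 2) :
    (ks.map fun k => f k * 3 ^ k).sum ∈ allCodes ks (ks.map f).sum := by
  induction ks with
  | nil => simp [allCodes]
  | cons k ks ih =>
    rw [List.map_cons, List.sum_cons, List.map_cons, List.sum_cons, allCodes]
    have h2 := hf k
    generalize f k = a at h2
    generalize (ks.map fun k => f k * 3 ^ k).sum = s at ih
    generalize (ks.map f).sum = w at ih
    interval_cases a
    · simp [ih]
    · rw [List.mem_append, List.mem_append]
      left; right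
      rw [if_pos (by omega), List.mem_map]
      refine ⟨s, ?_, by ring⟩
      rwa [show 1 + w - 1 = w by omega]
    · rw [List.mem_append]
      right
      rw [if_pos (by omega), List.mem_map]
      refine ⟨s, ?_, by ring⟩
      rwa [show 2 + w - 2 = w by omega]

lemma norm4_filter_false :
    (Finset.range (2 ^ 4)).filter (fun k => par (vtx 4 k) = false)
      = {0, 3, 5, 6, 9, 10, 12, 15} := by
  decide +kernel

lemma norm4_filter_true :
    (Finset.range (2 ^ 4)).filter (fun k => par (vtx 4 k) = true)
      = {1, 2, 4, 7, 8, 11, 13, 14} := by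
  decide +kernel

lemma W_false_four (ω : V 4 → ℕ) : W false ω = (ev4.map fun k => ω (vtx 4 k)).sum := by
  rw [W_vtx, norm4_filter_false]
  simp [ev4]

lemma W_true_four (ω : V 4 → ℕ) : W true ω = (od4.map fun k => ω (vtx 4 k)).sum := by
  rw [W_vtx, norm4_filter_true]
  simp [od4]

/-- the code of the class `false` (even) part and of the class `true` (odd) part -/
def ecode (ω : V 4 → ℕ) : ℕ := (ev4.map fun k => ω (vtx 4 k) * 3 ^ k).sum
def ocode (ω : V 4 → ℕ) : ℕ := (od4.map fun k => ω (vtx 4 k) * 3 ^ k).sum

lemma norm4_mem (k : ℕ) (hk : k < 16) : k ∈ od4 ++ ev4 := by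
  interval_cases k <;> simp [od4, ev4]

lemma eq_wt_code (ω : V 4 → ℕ) (hω : ∀ x, ω x ≤ 2) : ω = wt 4 (ocode ω + ecode ω) := by
  funext x
  have h1 : ocode ω + ecode ω = ((od4 ++ ev4).map fun k => ω (vtx 4 k) * 3 ^ k).sum := by
    rw [List.map_append, List.sum_append]
    rfl
  have h2 := dg_sum (od4 ++ ev4) (by decide) (fun k => ω (vtx 4 k)) (fun k => hω _) (idx x)
  rw [if_pos (norm4_mem _ (idx_lt x)), vtx_idx] at h2
  unfold wt
  rw [h1, h2]

/-- the automorphism with code `h` -/
def autK (h : ℕ) : Q 4 ≃g Q 4 :=
  (permIso (Equiv.swap 0 (Fin.ofNat 4 (h / 16)))).trans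
    ((permIso (Equiv.swap 1 (Fin.ofNat 4 (h / 64)))).trans
      ((permIso (Equiv.swap 2 (Fin.ofNat 4 (h / 256)))).trans (transIso (vtx 4 (h % 16)))))

lemma norm4_swap {n : ℕ} (i j : Fin n) (k : ℕ) :
    permIso (Equiv.swap i j) (vtx n k) = vtx n (swapK i j k) := by
  funext l
  change k.testBit ((Equiv.swap i j) l : Fin n) = (swapK i j k).testBit l
  unfold swapK
  by_cases hb : k.testBit i = k.testBit j
  · rw [if_pos (by simp [hb])]
    by_cases h1 : l = i
    · subst h1; rw [Equiv.swap_apply_left, hb]
    · by_cases h2 : l = j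
      · subst h2; rw [Equiv.swap_apply_right, hb]
      · rw [Equiv.swap_apply_of_ne_of_ne h1 h2]
  · rw [if_neg (by simpa using hb), Nat.testBit_xor, Nat.testBit_xor, Nat.testBit_two_pow,
      Nat.testBit_two_pow]
    have hij : (i : ℕ) ≠ j := fun h => hb (by rw [h])
    by_cases h1 : l = i
    · subst h1
      rw [Equiv.swap_apply_left]
      simp only [decide_true, hij.symm, decide_false]
      revert hb
      cases k.testBit l <;> cases k.testBit j <;> simp
    · by_cases h2 : l = j
      · subst h2
        rw [Equiv.swap_apply_right]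
        simp only [decide_true, hij, decide_false]
        revert hb
        cases k.testBit l <;> cases k.testBit i <;> simp
      · rw [Equiv.swap_apply_of_ne_of_ne h1 h2]
        have h1' : ¬ ((i : ℕ) = l) := fun h => h1 (Fin.ext h.symm)
        have h2' : ¬ ((j : ℕ) = l) := fun h => h2 (Fin.ext h.symm)
        simp [h1', h2']

lemma norm4_trans {n : ℕ} (t k : ℕ) : transIso (vtx n t) (vtx n k) = vtx n (k ^^^ t) := by
  funext l
  change xor (k.testBit l) (t.testBit l) = (k ^^^ t).testBit l
  rw [Nat.testBit_xor]

lemma autK_vtx (h k : ℕ) : autK h (vtx 4 k) = vtx 4 (gK h k) := by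
  change transIso (vtx 4 (h % 16)) (permIso (Equiv.swap 2 (Fin.ofNat 4 (h / 256)))
    (permIso (Equiv.swap 1 (Fin.ofNat 4 (h / 64)))
      (permIso (Equiv.swap 0 (Fin.ofNat 4 (h / 16))) (vtx 4 k)))) = _
  rw [norm4_swap, norm4_swap, norm4_swap, norm4_trans]
  rfl

lemma norm4_par_ev {t : ℕ} (ht : ev4.contains t = true) : par (vtx 4 t) = false := by
  have h : t ∈ ev4 := by simpa using ht
  have h2 : ∀ t ∈ ev4, par (vtx 4 t) = false := by decide +kernel
  exact h2 t h

lemma par_autK {h : ℕ} (hh : ev4.contains (h % 16) = true) (x : V 4) :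
    par (autK h x) = par x := by
  change par (transIso (vtx 4 (h % 16)) (permIso (Equiv.swap 2 (Fin.ofNat 4 (h / 256)))
    (permIso (Equiv.swap 1 (Fin.ofNat 4 (h / 64)))
      (permIso (Equiv.swap 0 (Fin.ofNat 4 (h / 16))) x)))) = _
  rw [par_trans, par_perm, par_perm, par_perm, norm4_par_ev hh, Bool.xor_false]

lemma comp_autK {h : ℕ} (hh : ev4.contains (h % 16) = true) (p : Bool) (ω : V 4 → ℕ) :
    Comp p (fun x => ω (autK h x)) ↔ Comp p ω := by
  have h1 := comp_trans (vtx 4 (h % 16)) p ω
  rw [norm4_par_ev hh, Bool.false_xor] at h1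
  have h2 := comp_perm (Equiv.swap 2 (Fin.ofNat 4 (h / 256))) p
    (fun x => ω (transIso (vtx 4 (h % 16)) x))
  have h3 := comp_perm (Equiv.swap 1 (Fin.ofNat 4 (h / 64))) p
    (fun x => ω (transIso (vtx 4 (h % 16)) (permIso (Equiv.swap 2 (Fin.ofNat 4 (h / 256))) x)))
  have h4 := comp_perm (Equiv.swap 0 (Fin.ofNat 4 (h / 16))) p
    (fun x => ω (transIso (vtx 4 (h % 16)) (permIso (Equiv.swap 2 (Fin.ofNat 4 (h / 256)))
      (permIso (Equiv.swap 1 (Fin.ofNat 4 (h / 64))) x))))
  exact h4.trans (h3.trans (h2.trans h1))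

lemma norm4_xor_lt {a b : ℕ} (ha : a < 16) (hb : b < 16) : a ^^^ b < 16 :=
  Nat.xor_lt_two_pow (n := 4) ha hb

lemma norm4_swapK_lt {i j k : ℕ} (hi : i < 4) (hj : j < 4) (hk : k < 16) :
    swapK i j k < 16 := by
  unfold swapK
  split
  · exact hk
  · apply norm4_xor_lt
    · apply norm4_xor_lt hk
      exact Nat.pow_lt_pow_right (n := 4) (by norm_num) hi
    · exact Nat.pow_lt_pow_right (n := 4) (by norm_num) hj

lemma norm4_gK_lt {h k : ℕ} (hk : k < 16) : gK h k < 16 := by
  unfold gK
  apply norm4_xor_lt
  · apply norm4_swapK_lt (by norm_num) (Nat.mod_lt _ (by norm_num))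
    apply norm4_swapK_lt (by norm_num) (Nat.mod_lt _ (by norm_num))
    exact norm4_swapK_lt (by norm_num) (Nat.mod_lt _ (by norm_num)) hk
  · exact Nat.mod_lt _ (by norm_num)

lemma norm4_gK_mem {h k : ℕ} (hh : ev4.contains (h % 16) = true) (hk : k ∈ od4) :
    gK h k ∈ od4 := by
  have h1 : ∀ k ∈ od4, k < 16 ∧ par (vtx 4 k) = true := by decide +kernel
  have h2 : ∀ j < 16, par (vtx 4 j) = true → j ∈ od4 := by decide +kernel
  obtain ⟨h3, h4⟩ := h1 k hk
  apply h2 _ (norm4_gK_lt h3)
  rw [← autK_vtx, par_autK hh, h4]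

lemma norm4_zip {α β : Type*} (l : List α) (l' : List β) (h : l'.length = l.length) {a : α}
    (ha : a ∈ l) : ∃ b, (a, b) ∈ l.zip l' := by
  obtain ⟨i, hi, rfl⟩ := List.getElem_of_mem ha
  refine ⟨l'[i]'(by omega), ?_⟩
  rw [List.mem_iff_getElem]
  exact ⟨i, by rw [List.length_zip]; omega, by simp⟩

/-- normalisation of the odd part -/
theorem norm4 {F : ℕ} {reps hints : List ℕ} (h : hintOK reps F hints = true) (ω : V 4 → ℕ)
    (hω : ∀ x, ω x ≤ 2) (hW : W true ω = 4 + F) :
    ∃ h, ev4.contains (h % 16) = true ∧ ocode (fun x => ω (autK h x)) ∈ reps := by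
  unfold hintOK at h
  rw [Bool.and_eq_true, Bool.and_eq_true, List.all_eq_true, List.all_eq_true] at h
  obtain ⟨⟨h1, h2⟩, h3⟩ := h
  have hb : ocode ω ∈ allCodes od4 (4 + F) := by
    have h4 := mem_allCodes od4 (fun k => ω (vtx 4 k)) (fun k => hω _)
    rw [← W_true_four, hW] at h4
    exact h4
  obtain ⟨q, hq⟩ := norm4_zip _ hints (Nat.eq_of_beq_eq_true h2) hb
  have h5 := h3 _ hq
  rw [Bool.and_eq_true] at h5
  obtain ⟨h6, h7⟩ := h5
  have h6' : q % 16 < reps.length := by simpa using h6
  unfold chkG at h7
  rw [Bool.and_eq_true, List.all_eq_true] at h7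
  obtain ⟨h8, h9⟩ := h7
  refine ⟨q / 16, h8, ?_⟩
  have hr : reps.getD (q % 16) 0 ∈ reps := by
    rw [List.getD_eq_getElem _ _ h6']
    exact List.getElem_mem h6'
  have hr2 := Nat.eq_of_beq_eq_true (h1 _ hr)
  have hkey : ocode (fun x => ω (autK (q / 16) x)) = reps.getD (q % 16) 0 := by
    rw [hr2]
    unfold ocode
    congr 1
    apply List.map_congr_left
    intro k hk
    have h10 := h9 k hk
    have h11 : dg (reps.getD (q % 16) 0) k = dg (ocode ω) (gK (q / 16) k) := by simpa using h10
    change ω (autK (q / 16) (vtx 4 k)) * 3 ^ k = dg (reps.getD (q % 16) 0) k * 3 ^ k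
    rw [h11, autK_vtx]
    congr 1
    have h12 := dg_sum od4 (by decide) (fun k => ω (vtx 4 k)) (fun k => hω _) (gK (q / 16) k)
    rw [if_pos (norm4_gK_mem h8 hk)] at h12
    exact h12.symm
  rw [hkey]
  exact hr

end Pool.Agent.Locke
end
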